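import Pool.Agent.Lib.P8e.Chain

set_option autoImplicit false

/-!
# Basic facts on the curve

`h x - h y = σ (x - y) - ∑ τ_j ((x - t_j)_+ - (y - t_j)_+)` and `0 ≤ (x - t)_+ - (y - t)_+ ≤ x - y` for
`y ≤ x`; so slopes lie in `[σ - 1/20, σ] ⊆ [-1/10, 1/20]`. `slope_anti`: every `-(x - t_j)_+` is concave.
`pt` is `(1 + 1/100)`-Lipschitz (`√(1 + 1/100) ≤ 1.005`), so `H^1 (arc u v) ≤ (1 + 1/100) (v - u)`
(`LipschitzWith.hausdorffMeasure_image_le`, `hausdorffMeasure_real`).
`len_add`: `arc u w = arc u v ∪ arc v w` with intersection the point `pt v`, of measure zero.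
`len_le_chord`: on `[u, v]` all slopes of `h` lie in `[s - T, s + T]`, `s` the slope of the chord, `T = turn u v` (for
`x < y` in `[u, v]` the slope over `[x, y]` is `a - ∑ τ_j θ_j`, `a = σ - ∑_{t_j ≤ u} τ_j`, `0 ≤ θ_j ≤ 1`, sum over `t_j ∈ (u, v)`; the same
for the chord; the difference is at most `T`), hence `pt` is Lipschitz on `[u, v]` with constant `√(1 + (|s| + T)^2) ≤ √(1 + s^2) + T`
(`LipschitzOnWith.hausdorffMeasure_image_le`), and `dist (pt u) (pt v) = (v - u) √(1 + s^2)`.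
`near_chord`: same slope estimate, vertical distance.
`right_seg`, `left_seg`: no vertex in `(t_j, t_j + 8 ρ_j)` nor in `(t_j - 8 ρ_j, t_j)`, so `h` is affine there; likewise on `[1/8, 3/16]` and on
`[13/16, 7/8]`.
-/

open MeasureTheory Set Metric
open scoped ENNReal NNReal InnerProductSpace

namespace Pool.Agent.Lib.P8e

namespace ArcAux

/-- Difference quotient of `max (· - t) 0`. -/
noncomputable def th (t x y : ℝ) : ℝ := (max (y - t) 0 - max (x - t) 0) / (y - x)

lemma th_nonneg (t : ℝ) {x y : ℝ} (hxy : x < y) : 0 ≤ th t x y := by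
  unfold th
  apply div_nonneg _ (by linarith)
  have : max (x - t) 0 ≤ max (y - t) 0 := max_le_max (by linarith) le_rfl
  linarith

lemma th_le_one (t : ℝ) {x y : ℝ} (hxy : x < y) : th t x y ≤ 1 := by
  unfold th
  rw [div_le_one (by linarith)]
  rcases le_total (y - t) 0 with h | h
  · rw [max_eq_right h, max_eq_right (by linarith)]; linarith
  · rw [max_eq_left h]
    have := le_max_left (x - t) 0
    linarith

lemma th_mono (t : ℝ) {x y z : ℝ} (hxy : x < y) (hyz : y < z) : th t x y ≤ th t y z := by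
  rcases le_total y t with h | h
  · have : th t x y = 0 := by
      unfold th
      rw [max_eq_right (by linarith), max_eq_right (by linarith)]; simp
    rw [this]; exact th_nonneg t hyz
  · have : th t y z = 1 := by
      unfold th
      rw [max_eq_left (by linarith), max_eq_left (by linarith)]
      rw [div_eq_one_iff_eq (by linarith)]; ring
    rw [this]; exact th_le_one t hxy

lemma th_one {t x y : ℝ} (hxy : x < y) (h : t ≤ x) : th t x y = 1 := by
  unfold th
  rw [max_eq_left (by linarith), max_eq_left (by linarith)]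
  rw [div_eq_one_iff_eq (by linarith)]; ring

lemma th_zero {t x y : ℝ} (hxy : x < y) (h : y ≤ t) : th t x y = 0 := by
  unfold th
  rw [max_eq_right (by linarith), max_eq_right (by linarith)]; simp

lemma th_diff {t u v x y : ℝ} (huv : u < v) (hux : u ≤ x) (hxy : x < y) (hyv : y ≤ v) :
    |th t x y - th t u v| ≤ if u < t ∧ t < v then 1 else 0 := by
  split_ifs with h
  · have h1 := th_nonneg t hxy
    have h2 := th_le_one t hxy
    have h3 := th_nonneg t huv
    have h4 := th_le_one t huv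
    rw [abs_le]; constructor <;> linarith
  · rcases le_or_gt t u with h' | h'
    · rw [th_one hxy (by linarith), th_one huv h']; simp
    · have : v ≤ t := by
        by_contra hc
        exact h ⟨h', not_le.mp hc⟩
      rw [th_zero hxy (by linarith), th_zero huv this]; simp

lemma sqrt_one_add_sq_le {s T : ℝ} (hT : 0 ≤ T) : √(1 + (|s| + T) ^ 2) ≤ √(1 + s ^ 2) + T := by
  rw [Real.sqrt_le_iff]
  have h0 : 0 ≤ √(1 + s ^ 2) := Real.sqrt_nonneg _
  refine ⟨by linarith, ?_⟩
  have h1 : √(1 + s ^ 2) ^ 2 = 1 + s ^ 2 := Real.sq_sqrt (by positivity)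
  have h2 : |s| ≤ √(1 + s ^ 2) := by
    apply Real.le_sqrt_of_sq_le
    rw [sq_abs]; linarith
  have h3 : |s| ^ 2 = s ^ 2 := sq_abs s
  nlinarith [abs_nonneg s]

end ArcAux

open ArcAux

namespace Cv

variable (C : Cv)

lemma tau_le (j : ℕ) : C.τ j ≤ 1 / 20 :=
  (C.τ_sum.le_tsum j fun i _ => (C.τ_pos i).le).trans C.τ_tot

lemma summable_h (x : ℝ) : Summable fun j => C.τ j * max (x - C.t j) 0 := by
  refine Summable.of_nonneg_of_le (fun j => mul_nonneg (C.τ_pos j).le (le_max_right _ _)) ?_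
    (C.τ_sum.mul_right (|x|))
  intro j
  apply mul_le_mul_of_nonneg_left _ (C.τ_pos j).le
  apply max_le _ (abs_nonneg _)
  have := C.t_lo j
  have := le_abs_self x
  linarith

lemma summable_turn (u v : ℝ) :
    Summable fun j => if u < C.t j ∧ C.t j < v then C.τ j else 0 := by
  refine Summable.of_nonneg_of_le (fun j => ?_) (fun j => ?_) C.τ_sum
  · split_ifs
    · exact (C.τ_pos j).le
    · exact le_rfl
  · split_ifs
    · exact le_rfl
    · exact (C.τ_pos j).le

lemma turn_nonneg (u v : ℝ) : 0 ≤ C.turn u v := by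
  unfold turn
  apply tsum_nonneg
  intro j
  split_ifs
  · exact (C.τ_pos j).le
  · exact le_rfl

lemma turn_le (u v : ℝ) : C.turn u v ≤ 1 / 20 := by
  refine le_trans ?_ C.τ_tot
  unfold turn
  refine (C.summable_turn u v).tsum_le_tsum (fun j => ?_) C.τ_sum
  split_ifs
  · exact le_rfl
  · exact (C.τ_pos j).le

lemma arcA_summable_th {x y : ℝ} (hxy : x < y) : Summable fun j => C.τ j * th (C.t j) x y := by
  refine Summable.of_nonneg_of_le
    (fun j => mul_nonneg (C.τ_pos j).le (th_nonneg _ hxy)) (fun j => ?_) C.τ_sum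
  exact mul_le_of_le_one_right (C.τ_pos j).le (th_le_one _ hxy)

lemma arcA_slope_eq {x y : ℝ} (hxy : x < y) :
    (C.h y - C.h x) / (y - x) = C.σ - ∑' j, C.τ j * th (C.t j) x y := by
  have hne : y - x ≠ 0 := by linarith
  have h1 : ∑' j, C.τ j * max (y - C.t j) 0 - ∑' j, C.τ j * max (x - C.t j) 0 =
      (∑' j, C.τ j * th (C.t j) x y) * (y - x) := by
    rw [← (C.summable_h y).tsum_sub (C.summable_h x), ← tsum_mul_right]
    congr 1
    ext j
    unfold th
    field_simp
  have h2 : C.h y - C.h x = C.σ * (y - x) - (∑' j, C.τ j * th (C.t j) x y) * (y - x) := by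
    rw [← h1]; unfold h; ring
  rw [h2, ← sub_mul]
  field_simp

/-- Slopes decrease. -/
lemma slope_anti {x y z : ℝ} (hxy : x < y) (hyz : y < z) :
    (C.h z - C.h y) / (z - y) ≤ (C.h y - C.h x) / (y - x) := by
  rw [C.arcA_slope_eq hxy, C.arcA_slope_eq hyz]
  have : ∑' j, C.τ j * th (C.t j) x y ≤ ∑' j, C.τ j * th (C.t j) y z :=
    (C.arcA_summable_th hxy).tsum_le_tsum
      (fun j => mul_le_mul_of_nonneg_left (th_mono _ hxy hyz) (C.τ_pos j).le) (C.arcA_summable_th hyz)
  linarith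

lemma slope_bounds {x y : ℝ} (hxy : x < y) :
    -(1 / 10) ≤ (C.h y - C.h x) / (y - x) ∧ (C.h y - C.h x) / (y - x) ≤ 1 / 20 := by
  rw [C.arcA_slope_eq hxy]
  have h1 : 0 ≤ ∑' j, C.τ j * th (C.t j) x y :=
    tsum_nonneg fun j => mul_nonneg (C.τ_pos j).le (th_nonneg _ hxy)
  have h2 : ∑' j, C.τ j * th (C.t j) x y ≤ 1 / 20 := by
    refine le_trans ((C.arcA_summable_th hxy).tsum_le_tsum (fun j => ?_) C.τ_sum) C.τ_tot
    exact mul_le_of_le_one_right (C.τ_pos j).le (th_le_one _ hxy)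
  have h3 := abs_le.mp C.σ_le
  constructor <;> linarith

lemma h_lip (x y : ℝ) : |C.h x - C.h y| ≤ (1 / 10) * |x - y| := by
  have key : ∀ x y : ℝ, x < y → |C.h y - C.h x| ≤ (1 / 10) * |y - x| := by
    intro x y hxy
    have hpos : 0 < y - x := by linarith
    obtain ⟨h1, h2⟩ := C.slope_bounds hxy
    rw [le_div_iff₀ hpos] at h1
    rw [div_le_iff₀ hpos] at h2
    rw [abs_of_pos hpos, abs_le]
    constructor <;> linarith
  rcases lt_trichotomy x y with h | h | h
  · rw [abs_sub_comm, abs_sub_comm x y]; exact key x y h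
  · subst h; simp
  · exact key y x h

/-- The slope over `[x, y] ⊆ [u, v]` differs from the slope of the chord by at most `turn u v`. -/
lemma slope_near {u v x y : ℝ} (huv : u < v) (hux : u ≤ x) (hxy : x < y) (hyv : y ≤ v) :
    |(C.h y - C.h x) / (y - x) - (C.h v - C.h u) / (v - u)| ≤ C.turn u v := by
  rw [C.arcA_slope_eq hxy, C.arcA_slope_eq huv]
  have h1 : C.σ - ∑' j, C.τ j * th (C.t j) x y - (C.σ - ∑' j, C.τ j * th (C.t j) u v) =
      -(∑' j, C.τ j * (th (C.t j) x y - th (C.t j) u v)) := by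
    have : ∑' j, C.τ j * (th (C.t j) x y - th (C.t j) u v) =
        ∑' j, C.τ j * th (C.t j) x y - ∑' j, C.τ j * th (C.t j) u v := by
      rw [← (C.arcA_summable_th hxy).tsum_sub (C.arcA_summable_th huv)]
      congr 1
      ext j
      ring
    rw [this]; ring
  rw [h1, abs_neg]
  have hb : ∀ j, ‖C.τ j * (th (C.t j) x y - th (C.t j) u v)‖ ≤
      if u < C.t j ∧ C.t j < v then C.τ j else 0 := by
    intro j
    rw [Real.norm_eq_abs, abs_mul, abs_of_pos (C.τ_pos j)]
    have := th_diff (t := C.t j) huv hux hxy hyv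
    split_ifs at this ⊢ with h
    · exact mul_le_of_le_one_right (C.τ_pos j).le this
    · have h0 : |th (C.t j) x y - th (C.t j) u v| = 0 := le_antisymm this (abs_nonneg _)
      rw [h0]; simp
  have := tsum_of_norm_bounded (C.summable_turn u v).hasSum hb
  rw [Real.norm_eq_abs] at this
  exact this

@[simp] lemma pt_zero (x : ℝ) : C.pt x 0 = x := by
  simp [pt]

@[simp] lemma pt_one (x : ℝ) : C.pt x 1 = C.h x := by
  simp [pt]

lemma arcA_dist_pt_eq (x y : ℝ) :
    dist (C.pt x) (C.pt y) = √((x - y) ^ 2 + (C.h x - C.h y) ^ 2) := by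
  rw [EuclideanSpace.dist_eq]
  simp [Fin.sum_univ_two, Real.dist_eq, sq_abs]

lemma dist_pt_ge (x y : ℝ) : |x - y| ≤ dist (C.pt x) (C.pt y) := by
  rw [C.arcA_dist_pt_eq]
  apply Real.le_sqrt_of_sq_le
  rw [sq_abs]
  nlinarith [sq_nonneg (C.h x - C.h y)]

lemma dist_pt_le (x y : ℝ) : dist (C.pt x) (C.pt y) ≤ (1 + 1 / 100) * |x - y| := by
  rw [C.arcA_dist_pt_eq, Real.sqrt_le_iff]
  have h0 := abs_nonneg (x - y)
  refine ⟨by positivity, ?_⟩
  have h1 := C.h_lip x y
  have h2 : (C.h x - C.h y) ^ 2 ≤ ((1 / 10) * |x - y|) ^ 2 := by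
    rw [← sq_abs (C.h x - C.h y)]
    exact pow_le_pow_left₀ (abs_nonneg _) h1 2
  have h3 : |x - y| ^ 2 = (x - y) ^ 2 := sq_abs _
  nlinarith [sq_nonneg (x - y)]

/-- Points outside the graph: distance is at least the difference of abscissas. -/
lemma dist_ge_abs_zero (p q : E2) : |p 0 - q 0| ≤ dist p q := by
  rw [EuclideanSpace.dist_eq]
  apply Real.le_sqrt_of_sq_le
  simp only [Fin.sum_univ_two, Real.dist_eq, sq_abs]
  nlinarith [sq_nonneg (p 1 - q 1)]

lemma arcA_lipschitz_pt : LipschitzWith (1 + 1 / 100) C.pt := by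
  apply LipschitzWith.of_dist_le_mul
  intro x y
  have := C.dist_pt_le x y
  rw [Real.dist_eq]
  push_cast
  exact this

lemma continuous_pt : Continuous C.pt := C.arcA_lipschitz_pt.continuous

lemma measure_arc_le {u v : ℝ} (huv : u ≤ v) :
    μH[1] (C.arc u v) ≤ ENNReal.ofReal ((1 + 1 / 100) * (v - u)) := by
  unfold arc
  have h1 := C.arcA_lipschitz_pt.hausdorffMeasure_image_le (d := 1) zero_le_one (Icc u v)
  rw [hausdorffMeasure_real, Real.volume_Icc, ENNReal.rpow_one] at h1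
  refine h1.trans (le_of_eq ?_)
  rw [ENNReal.ofReal_mul (by norm_num)]
  congr 1
  rw [ENNReal.ofReal_eq_coe_nnreal (by norm_num)]
  rfl

lemma cpt_arc {u v : ℝ} (huv : u ≤ v) : Cpt (C.arc u v) := by
  refine ⟨isCompact_Icc.image C.continuous_pt,
    (isConnected_Icc huv).image _ C.continuous_pt.continuousOn, ?_⟩
  exact ((C.measure_arc_le huv).trans_lt ENNReal.ofReal_lt_top).ne

lemma arcA_pt_injective : Function.Injective C.pt := by
  intro x y hxy
  have := congrArg (fun p : E2 => p 0) hxy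
  simpa using this

lemma len_add {u v w : ℝ} (huv : u ≤ v) (hvw : v ≤ w) :
    C.len u w = C.len u v + C.len v w := by
  unfold len H1
  have : NullSingletonClass (μH[1] : Measure E2) :=
    Measure.nullSingletonClass_hausdorff E2 one_pos
  have h1 : C.arc u w = C.arc u v ∪ C.arc v w := by
    unfold arc
    rw [← image_union, Icc_union_Icc_eq_Icc huv hvw]
  have h2 : C.arc u v ∩ C.arc v w = {C.pt v} := by
    unfold arc
    rw [← image_inter C.arcA_pt_injective, Icc_inter_Icc_eq_singleton huv hvw, image_singleton]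
  have h3 : AEDisjoint (μH[1] : Measure E2) (C.arc u v) (C.arc v w) := by
    unfold AEDisjoint
    rw [h2]; exact measure_singleton _
  rw [h1, measure_union₀ (C.cpt_arc hvw).1.isClosed.measurableSet.nullMeasurableSet h3,
    ENNReal.toReal_add (C.cpt_arc huv).2.2 (C.cpt_arc hvw).2.2]

lemma len_nonneg (u v : ℝ) : 0 ≤ C.len u v := ENNReal.toReal_nonneg

lemma len_le {u v : ℝ} (huv : u ≤ v) : C.len u v ≤ (1 + 1 / 100) * (v - u) := by
  unfold len H1
  have h0 : 0 ≤ (1 + 1 / 100) * (v - u) := by nlinarith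
  calc (μH[1] (C.arc u v)).toReal ≤ (ENNReal.ofReal ((1 + 1 / 100) * (v - u))).toReal :=
        ENNReal.toReal_mono ENNReal.ofReal_ne_top (C.measure_arc_le huv)
    _ = _ := ENNReal.toReal_ofReal h0

/-- The vector `pt y - pt x` in terms of the slope. -/
lemma arcA_pt_sub {x y s : ℝ} (hs : C.h y - C.h x = s * (y - x)) (hxy : x ≤ y) :
    C.pt y - C.pt x = dist (C.pt y) (C.pt x) • dirv s := by
  have h1 : C.pt y - C.pt x = (!₂[y - x, C.h y - C.h x] : E2) := by
    ext i
    fin_cases i <;> simp [pt]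
  rw [dist_eq_norm, h1]
  exact eq_smul_dirv _ _ (by linarith) s hs

lemma dist_le_len {u v : ℝ} (huv : u ≤ v) : dist (C.pt u) (C.pt v) ≤ C.len u v := by
  rcases huv.eq_or_lt with h | h
  · subst h; rw [dist_self]; exact C.len_nonneg _ _
  · set s := (C.h v - C.h u) / (v - u) with hs
    have hb := C.slope_bounds h
    rw [← hs] at hb
    have hne : v - u ≠ 0 := by linarith
    have hsl : C.h v - C.h u = s * (v - u) := by rw [hs]; field_simp
    have hsub := C.arcA_pt_sub hsl huv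
    have := chain (C.cpt_arc huv) 1 (fun i => if i = 0 then C.pt u else C.pt v)
      (by
        intro i hi
        split_ifs
        · exact mem_image_of_mem _ (left_mem_Icc.mpr huv)
        · exact mem_image_of_mem _ (right_mem_Icc.mpr huv))
      (fun _ => s) (fun _ => by rw [abs_le]; constructor <;> linarith [hb.1, hb.2])
      (fun _ _ _ => le_rfl)
    simp only [Finset.range_one, Finset.sum_singleton, zero_add, one_ne_zero, if_false,
      if_true] at this
    rw [hsub, inner_smul_right, real_inner_self_eq_norm_sq, norm_dirv] at this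
    rw [dist_comm]
    unfold len
    linarith

lemma arcA_dist_pt_slope {x y s : ℝ} (hs : C.h y - C.h x = s * (y - x)) :
    dist (C.pt y) (C.pt x) = |y - x| * √(1 + s ^ 2) := by
  rw [C.arcA_dist_pt_eq, hs]
  rw [show (y - x) ^ 2 + (s * (y - x)) ^ 2 = (y - x) ^ 2 * (1 + s ^ 2) by ring,
    Real.sqrt_mul (sq_nonneg _), Real.sqrt_sq_eq_abs]

lemma len_le_chord {u v : ℝ} (huv : u ≤ v) :
    C.len u v ≤ dist (C.pt u) (C.pt v) + (v - u) * C.turn u v := by
  rcases huv.eq_or_lt with h | h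
  · subst h
    have h1 := C.len_le (le_refl u)
    simp only [sub_self, mul_zero] at h1
    simpa using h1
  · set s := (C.h v - C.h u) / (v - u) with hs
    set T := C.turn u v with hT
    have hT0 : 0 ≤ T := C.turn_nonneg u v
    have hne : v - u ≠ 0 := by linarith
    have hsl : C.h v - C.h u = s * (v - u) := by rw [hs]; field_simp
    have key : ∀ x ∈ Icc u v, ∀ y ∈ Icc u v, x < y →
        dist (C.pt y) (C.pt x) ≤ (√(1 + s ^ 2) + T) * (y - x) := by
      intro x hx y hy hxy
      have h1 := C.slope_near h hx.1 hxy hy.2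
      rw [← hs, ← hT] at h1
      set a := (C.h y - C.h x) / (y - x) with ha
      have hne' : y - x ≠ 0 := by linarith
      have hal : C.h y - C.h x = a * (y - x) := by rw [ha]; field_simp
      have h2 : |a| ≤ |s| + T := by
        have : a = s + (a - s) := by ring
        calc |a| = |s + (a - s)| := by rw [← this]
          _ ≤ |s| + |a - s| := abs_add_le _ _
          _ ≤ |s| + T := by linarith
      rw [C.arcA_dist_pt_slope hal, abs_of_pos (by linarith : 0 < y - x), mul_comm]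
      apply mul_le_mul_of_nonneg_right _ (by linarith)
      refine le_trans ?_ (sqrt_one_add_sq_le hT0)
      apply Real.sqrt_le_sqrt
      have : a ^ 2 ≤ (|s| + T) ^ 2 := by
        rw [← sq_abs a]
        exact pow_le_pow_left₀ (abs_nonneg _) h2 2
      linarith
    have hK0 : 0 ≤ √(1 + s ^ 2) + T := by positivity
    have hlip : LipschitzOnWith ⟨√(1 + s ^ 2) + T, hK0⟩ C.pt (Icc u v) := by
      apply LipschitzOnWith.of_dist_le_mul
      intro x hx y hy
      rw [Real.dist_eq]
      show dist (C.pt x) (C.pt y) ≤ (√(1 + s ^ 2) + T) * |x - y|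
      rcases lt_trichotomy x y with h' | h' | h'
      · rw [dist_comm, abs_sub_comm, abs_of_pos (by linarith : 0 < y - x)]
        exact key x hx y hy h'
      · subst h'; simp
      · rw [abs_of_pos (by linarith : 0 < x - y)]
        exact key y hy x hx h'
    have h1 := hlip.hausdorffMeasure_image_le (d := 1) zero_le_one
    rw [hausdorffMeasure_real, Real.volume_Icc, ENNReal.rpow_one] at h1
    have h2 : C.len u v ≤ (√(1 + s ^ 2) + T) * (v - u) := by
      unfold len H1 arc
      refine (ENNReal.toReal_mono ?_ h1).trans ?_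
      · exact ENNReal.mul_ne_top ENNReal.coe_ne_top ENNReal.ofReal_ne_top
      · rw [ENNReal.toReal_mul, ENNReal.toReal_ofReal (by linarith)]
        exact le_rfl
    have h3 := C.arcA_dist_pt_slope hsl
    rw [abs_of_pos (by linarith : 0 < v - u)] at h3
    rw [dist_comm, h3]
    nlinarith

/-- Points of the chord are close to the arc. -/
lemma near_chord {u v : ℝ} (huv : u ≤ v) (p : E2) (hp : p ∈ segment ℝ (C.pt u) (C.pt v)) :
    ∃ x ∈ Icc u v, dist p (C.pt x) ≤ (v - u) * C.turn u v := by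
  obtain ⟨a, b, ha, hb, hab, rfl⟩ := hp
  have hT0 := C.turn_nonneg u v
  rcases huv.eq_or_lt with h | h
  · subst h
    refine ⟨u, ⟨le_rfl, le_rfl⟩, ?_⟩
    rw [← add_smul, hab, one_smul, dist_self]
    simp
  · set x := a * u + b * v with hx
    have hxu : x - u = b * (v - u) := by
      have : a = 1 - b := by linarith
      rw [hx, this]; ring
    have hmem : x ∈ Icc u v := by
      constructor
      · have : 0 ≤ b * (v - u) := mul_nonneg hb (by linarith)
        linarith
      · have : b * (v - u) ≤ 1 * (v - u) := mul_le_mul_of_nonneg_right (by linarith) (by linarith)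
        linarith
    refine ⟨x, hmem, ?_⟩
    have hne : v - u ≠ 0 := by linarith
    set s := (C.h v - C.h u) / (v - u) with hs
    have hsl : C.h v - C.h u = s * (v - u) := by rw [hs]; field_simp
    have hd : dist (a • C.pt u + b • C.pt v) (C.pt x) = |a * C.h u + b * C.h v - C.h x| := by
      rw [EuclideanSpace.dist_eq]
      simp [Fin.sum_univ_two, Real.dist_eq, sq_abs, ← hx, Real.sqrt_sq_eq_abs]
    rw [hd]
    have h1 : a * C.h u + b * C.h v - C.h x = -(C.h x - C.h u - s * (x - u)) := by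
      have : a = 1 - b := by linarith
      rw [hxu, this]
      have : C.h v = C.h u + s * (v - u) := by linarith
      rw [this]; ring
    rw [h1, abs_neg]
    rcases hmem.1.eq_or_lt with h' | h'
    · rw [← h']; simp only [sub_self, mul_zero, abs_zero]
      exact mul_nonneg (by linarith) hT0
    · have h2 := C.slope_near h le_rfl h' hmem.2
      rw [← hs] at h2
      have hne' : x - u ≠ 0 := by linarith
      have h3 : C.h x - C.h u - s * (x - u) = ((C.h x - C.h u) / (x - u) - s) * (x - u) := by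
        field_simp
      rw [h3, abs_mul, abs_of_pos (by linarith : 0 < x - u), mul_comm]
      exact mul_le_mul (by linarith [hmem.2]) h2 (abs_nonneg _) (by linarith)

lemma arcA_turn_eq_zero {u v : ℝ} (hno : ∀ j, ¬ (u < C.t j ∧ C.t j < v)) : C.turn u v = 0 := by
  unfold turn
  rw [show (fun j => if u < C.t j ∧ C.t j < v then C.τ j else 0) = fun _ => (0 : ℝ) from
    funext fun j => if_neg (hno j)]
  exact tsum_zero

lemma arcA_dirv_zero (s : ℝ) : dirv s 0 = (√(1 + s ^ 2))⁻¹ := by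
  simp [dirv]

lemma arcA_dirv_one (s : ℝ) : dirv s 1 = (√(1 + s ^ 2))⁻¹ * s := by
  simp [dirv]

lemma arcA_dirv_zero_ge {s : ℝ} (hs : |s| ≤ 1 / 10) : 9 / 10 ≤ dirv s 0 := by
  rw [arcA_dirv_zero, le_inv_comm₀ (by norm_num) (by positivity), Real.sqrt_le_iff]
  refine ⟨by norm_num, ?_⟩
  have : s ^ 2 ≤ (1 / 10) ^ 2 := by
    rw [← sq_abs]; exact pow_le_pow_left₀ (abs_nonneg _) hs 2
  norm_num at this ⊢
  linarith

lemma arcA_dirv_zero_le (s : ℝ) : dirv s 0 ≤ 1 := by
  rw [arcA_dirv_zero]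
  apply inv_le_one_of_one_le₀
  apply Real.one_le_sqrt.mpr
  nlinarith [sq_nonneg s]

/-- No vertex in `(u, v)`: the function is affine on `[u, v]`. -/
lemma arcA_affine_of_no_vertex {u v : ℝ} (huv : u < v) (hno : ∀ j, ¬ (u < C.t j ∧ C.t j < v)) :
    ∃ s : ℝ, |s| ≤ 1 / 10 ∧ ∀ x ∈ Icc u v, ∀ y ∈ Icc u v, C.h y - C.h x = s * (y - x) := by
  refine ⟨(C.h v - C.h u) / (v - u), ?_, ?_⟩
  · have := C.slope_bounds huv
    rw [abs_le]; constructor <;> linarith [this.1, this.2]
  · have key : ∀ x ∈ Icc u v, ∀ y ∈ Icc u v, x < y →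
        C.h y - C.h x = (C.h v - C.h u) / (v - u) * (y - x) := by
      intro x hx y hy hxy
      have h1 := C.slope_near huv hx.1 hxy hy.2
      rw [C.arcA_turn_eq_zero hno] at h1
      have h2 : (C.h y - C.h x) / (y - x) - (C.h v - C.h u) / (v - u) = 0 :=
        abs_eq_zero.mp (le_antisymm h1 (abs_nonneg _))
      have hne : y - x ≠ 0 := by linarith
      have h3 : (C.h y - C.h x) / (y - x) = (C.h v - C.h u) / (v - u) := by linarith
      rw [← h3]; field_simp
    intro x hx y hy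
    rcases lt_trichotomy x y with h | h | h
    · exact key x hx y hy h
    · subst h; simp
    · have := key y hy x hx h
      linarith

lemma arcA_pt_add_dirv {u v s : ℝ} (hs : ∀ x ∈ Icc u v, ∀ y ∈ Icc u v, C.h y - C.h x = s * (y - x))
    {x : ℝ} (hx : x ∈ Icc u v) (r : ℝ) (hr : x + r * dirv s 0 ∈ Icc u v) :
    C.pt x + r • dirv s = C.pt (x + r * dirv s 0) := by
  have h1 := hs x hx _ hr
  ext i
  fin_cases i
  · simp
  · have h2 : dirv s 1 = s * dirv s 0 := by rw [arcA_dirv_one, arcA_dirv_zero]; ring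
    have : C.h x + r * dirv s 1 = C.h (x + r * dirv s 0) := by
      rw [h2]; linarith
    simpa using this

lemma arcA_right_seg_gen {u d : ℝ} (hd : 0 < d)
    (hno : ∀ j, ¬ (u < C.t j ∧ C.t j < u + 8 * d)) : ∃ ν : E2, ‖ν‖ = 1 ∧ 9 / 10 ≤ ν 0 ∧
    ∀ r ∈ Icc 0 (4 * d), ∃ x ∈ Icc u (u + 8 * d), C.pt u + r • ν = C.pt x := by
  obtain ⟨s, hs, haff⟩ := C.arcA_affine_of_no_vertex (by linarith : u < u + 8 * d) hno
  refine ⟨dirv s, norm_dirv s, arcA_dirv_zero_ge hs, ?_⟩
  intro r hr
  have h1 := arcA_dirv_zero_ge hs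
  have h2 := arcA_dirv_zero_le s
  have h3 : 0 ≤ r * dirv s 0 := mul_nonneg hr.1 (by linarith)
  have h4 : r * dirv s 0 ≤ r * 1 := mul_le_mul_of_nonneg_left h2 hr.1
  have hmem : u + r * dirv s 0 ∈ Icc u (u + 8 * d) := ⟨by linarith, by linarith [hr.2]⟩
  exact ⟨_, hmem, C.arcA_pt_add_dirv haff ⟨le_rfl, by linarith⟩ r hmem⟩

lemma arcA_left_seg_gen {u d : ℝ} (hd : 0 < d)
    (hno : ∀ j, ¬ (u - 8 * d < C.t j ∧ C.t j < u)) : ∃ ν : E2, ‖ν‖ = 1 ∧ ν 0 ≤ -(9 / 10) ∧
    ∀ r ∈ Icc 0 (4 * d), ∃ x ∈ Icc (u - 8 * d) u, C.pt u + r • ν = C.pt x := by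
  obtain ⟨s, hs, haff⟩ := C.arcA_affine_of_no_vertex (by linarith : u - 8 * d < u) hno
  refine ⟨-dirv s, by rw [norm_neg]; exact norm_dirv s, ?_, ?_⟩
  · have := arcA_dirv_zero_ge hs
    simp only [PiLp.neg_apply]
    linarith
  intro r hr
  have h1 := arcA_dirv_zero_ge hs
  have h2 := arcA_dirv_zero_le s
  have h3 : 0 ≤ r * dirv s 0 := mul_nonneg hr.1 (by linarith)
  have h4 : r * dirv s 0 ≤ r * 1 := mul_le_mul_of_nonneg_left h2 hr.1
  have hmem : u + (-r) * dirv s 0 ∈ Icc (u - 8 * d) u := ⟨by linarith [hr.2], by linarith⟩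
  refine ⟨_, hmem, ?_⟩
  rw [smul_neg, ← neg_smul]
  exact C.arcA_pt_add_dirv haff ⟨by linarith, le_rfl⟩ (-r) hmem

/-- The direction of the edge to the right of the `j`-th vertex. -/
lemma right_seg (j : ℕ) : ∃ ν : E2, ‖ν‖ = 1 ∧ 9 / 10 ≤ ν 0 ∧
    ∀ r ∈ Icc 0 (4 * C.ρ j), ∃ x ∈ Icc (C.t j) (C.t j + 8 * C.ρ j),
      C.pt (C.t j) + r • ν = C.pt x := by
  apply C.arcA_right_seg_gen (C.ρ_pos j)
  rintro i ⟨h1, h2⟩
  have hij : i ≠ j := by rintro rfl; exact lt_irrefl _ h1
  have := C.iso i j hij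
  rw [abs_of_pos (by linarith)] at this
  linarith

/-- The direction of the edge to the left of the `j`-th vertex. -/
lemma left_seg (j : ℕ) : ∃ ν : E2, ‖ν‖ = 1 ∧ ν 0 ≤ -(9 / 10) ∧
    ∀ r ∈ Icc 0 (4 * C.ρ j), ∃ x ∈ Icc (C.t j - 8 * C.ρ j) (C.t j),
      C.pt (C.t j) + r • ν = C.pt x := by
  apply C.arcA_left_seg_gen (C.ρ_pos j)
  rintro i ⟨h1, h2⟩
  have hij : i ≠ j := by rintro rfl; exact lt_irrefl _ h2
  have := C.iso i j hij
  rw [abs_of_neg (by linarith)] at this
  linarith

lemma left_end_seg : ∃ ν : E2, ‖ν‖ = 1 ∧ 9 / 10 ≤ ν 0 ∧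
    ∀ r ∈ Icc 0 (4 * C.ρe), ∃ x ∈ Icc (1 / 8) (1 / 8 + 8 * C.ρe),
      C.pt (1 / 8) + r • ν = C.pt x := by
  apply C.arcA_right_seg_gen C.ρe_pos
  rintro i ⟨h1, h2⟩
  have := C.t_lo i
  have := C.ρe_le
  linarith

lemma right_end_seg : ∃ ν : E2, ‖ν‖ = 1 ∧ ν 0 ≤ -(9 / 10) ∧
    ∀ r ∈ Icc 0 (4 * C.ρe), ∃ x ∈ Icc (7 / 8 - 8 * C.ρe) (7 / 8),
      C.pt (7 / 8) + r • ν = C.pt x := by
  apply C.arcA_left_seg_gen C.ρe_pos
  rintro i ⟨h1, h2⟩
  have := C.t_hi i
  have := C.ρe_le
  linarith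

/-- The distance function of the graph is Lipschitz in the abscissa. -/
lemma infDist_pt_le (x y : ℝ) (Y : Set E2) :
    infDist (C.pt x) Y ≤ infDist (C.pt y) Y + (1 + 1 / 100) * |x - y| := by
  have h1 : infDist (C.pt x) Y ≤ infDist (C.pt y) Y + dist (C.pt x) (C.pt y) :=
    infDist_le_infDist_add_dist
  linarith [C.dist_pt_le x y]

lemma summable_Dl (u v : ℝ) {Y : Set E2} (hY : IsCompact Y) (hne : Y.Nonempty) :
    Summable fun j => if u < C.t j ∧ C.t j < v then C.τ j * C.dj Y j else 0 := by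
  have hb : ∀ j, C.dj Y j ≤ infDist (C.pt 0) Y + (1 + 1 / 100) := by
    intro j
    have h1 := C.infDist_pt_le (C.t j) 0 Y
    have h2 := C.t_lo j
    have h3 := C.t_hi j
    rw [sub_zero, abs_of_pos (by linarith)] at h1
    unfold dj
    linarith
  refine Summable.of_nonneg_of_le (fun j => ?_) (fun j => ?_)
    (C.τ_sum.mul_right (infDist (C.pt 0) Y + (1 + 1 / 100)))
  · split_ifs
    · exact mul_nonneg (C.τ_pos j).le infDist_nonneg
    · exact le_rfl
  · have h0 : 0 ≤ infDist (C.pt 0) Y + (1 + 1 / 100) := by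
      have : 0 ≤ infDist (C.pt 0) Y := infDist_nonneg
      linarith
    split_ifs
    · exact mul_le_mul_of_nonneg_left (hb j) (C.τ_pos j).le
    · exact mul_nonneg (C.τ_pos j).le h0

lemma Dl_nonneg (u v : ℝ) (Y : Set E2) : 0 ≤ C.Dl u v Y := by
  unfold Dl
  have h1 : 0 ≤ infDist (C.pt u) Y := infDist_nonneg
  have h2 : 0 ≤ infDist (C.pt v) Y := infDist_nonneg
  have h3 : 0 ≤ ∑' j, if u < C.t j ∧ C.t j < v then C.τ j * C.dj Y j else 0 := by
    apply tsum_nonneg
    intro j
    split_ifs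
    · exact mul_nonneg (C.τ_pos j).le infDist_nonneg
    · exact le_rfl
  linarith

end Cv

end Pool.Agent.Lib.P8e
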