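import Pool.Agent.Lib.P8e.Cv

set_option autoImplicit false

/-!
# Topology: components of `Y` minus a ball
-/

open MeasureTheory Set Metric
open scoped ENNReal NNReal InnerProductSpace

namespace Pool.Agent.Lib.P8e

namespace TopoAux

/-- If a preconnected set is the union of two closed sets with one common point then both are
connected. -/
theorem conn_of_cut {Y F G : Set E2} {q : E2} (hc : IsPreconnected Y) (hF : IsClosed F)
    (hG : IsClosed G) (hFG : Y = F ∪ G) (hq : F ∩ G = {q}) : IsConnected F := by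
  have hqm : q ∈ F ∩ G := by rw [hq]; exact mem_singleton q
  have key : ∀ t t' : Set E2, IsClosed t → IsClosed t' → F ⊆ t ∪ t' → q ∈ t →
      (F ∩ t').Nonempty → (F ∩ (t ∩ t')).Nonempty := by
    intro t t' ht ht' hsub hqt hne
    by_contra hcon
    have h1 := (isPreconnected_closed_iff.1 hc) ((F ∩ t) ∪ G) (F ∩ t') ((hF.inter ht).union hG)
      (hF.inter ht') (by
        intro y hy
        rw [hFG] at hy
        rcases hy with hy | hy
        · rcases hsub hy with h | h
          · exact Or.inl (Or.inl ⟨hy, h⟩)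
          · exact Or.inr ⟨hy, h⟩
        · exact Or.inl (Or.inr hy)) (by
        refine ⟨q, ?_, Or.inr hqm.2⟩
        rw [hFG]; exact Or.inl hqm.1) (by
        obtain ⟨y, hy1, hy2⟩ := hne
        refine ⟨y, ?_, hy1, hy2⟩
        rw [hFG]; exact Or.inl hy1)
    obtain ⟨y, -, hy1 | hy1, hy2, hy3⟩ := h1
    · exact hcon ⟨y, hy1.1, hy1.2, hy3⟩
    · have : y ∈ F ∩ G := ⟨hy2, hy1⟩
      rw [hq] at this
      have hyq : y = q := this
      subst hyq
      exact hcon ⟨y, hy2, hqt, hy3⟩
  refine ⟨⟨q, hqm.1⟩, ?_⟩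
  rw [isPreconnected_closed_iff]
  intro t t' ht ht' hsub hne hne'
  rcases hsub hqm.1 with h | h
  · exact key t t' ht ht' hsub h hne'
  · have := key t' t ht' ht (by rw [union_comm]; exact hsub) h hne
    rwa [inter_comm t' t] at this

end TopoAux

theorem comp_touch {Y : Set E2} (hY : IsCompact Y) (hc : IsConnected Y) {c : E2} {r : ℝ}
    (hb : (Y ∩ ball c r).Nonempty) {x : E2} (hx : x ∈ Y \ ball c r) :
    IsCompact (connectedComponentIn (Y \ ball c r) x) ∧
      IsConnected (connectedComponentIn (Y \ ball c r) x) ∧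
      (connectedComponentIn (Y \ ball c r) x ∩ sphere c r).Nonempty := by
  have hF : IsCompact (Y \ ball c r) := hY.diff isOpen_ball
  have hFc : IsClosed (Y \ ball c r) := hF.isClosed
  have : CompactSpace (Y \ ball c r : Set E2) := isCompact_iff_compactSpace.1 hF
  have hemb : Topology.IsClosedEmbedding ((↑) : (Y \ ball c r : Set E2) → E2) :=
    hFc.isClosedEmbedding_subtypeVal
  have heq : connectedComponentIn (Y \ ball c r) x =
      (↑) '' connectedComponent (⟨x, hx⟩ : (Y \ ball c r : Set E2)) :=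
    connectedComponentIn_eq_image hx
  refine ⟨?_, isConnected_connectedComponentIn_iff.2 hx, ?_⟩
  · rw [heq]
    exact (isClosed_connectedComponent.isCompact).image continuous_subtype_val
  · by_contra hcon
    set x' : (Y \ ball c r : Set E2) := ⟨x, hx⟩ with hx'
    -- the sphere inside `F`
    set S : Set (Y \ ball c r : Set E2) := (↑) ⁻¹' (sphere c r) with hS
    have hSc : IsClosed S := isClosed_sphere.preimage continuous_subtype_val
    have hdis : ∀ y ∈ ⋂ s : { s : Set (Y \ ball c r : Set E2) // IsClopen s ∧ x' ∈ s }, s.1,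
        Sᶜ ∈ nhds y := by
      intro y hy
      rw [← connectedComponent_eq_iInter_isClopen] at hy
      refine hSc.isOpen_compl.mem_nhds ?_
      intro hyS
      refine hcon ⟨y, ?_, hyS⟩
      rw [heq]
      exact ⟨y, hy, rfl⟩
    have : Nonempty { s : Set (Y \ ball c r : Set E2) // IsClopen s ∧ x' ∈ s } :=
      ⟨⟨univ, isClopen_univ, mem_univ _⟩⟩
    obtain ⟨⟨Q, hQ, hxQ⟩, hQS⟩ := exists_subset_nhds_of_compactSpace
      (V := fun s : { s : Set (Y \ ball c r : Set E2) // IsClopen s ∧ x' ∈ s } => s.1)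
      (by
        intro a b
        refine ⟨⟨a.1 ∩ b.1, a.2.1.inter b.2.1, a.2.2, b.2.2⟩, ?_, ?_⟩
        · intro z hz; exact hz.1
        · intro z hz; exact hz.2)
      (fun s => s.2.1.isClosed) hdis
    have h1 : IsClosed ((↑) '' Q : Set E2) := hemb.isClosedMap _ hQ.isClosed
    have h2 : IsClosed ((↑) '' Qᶜ : Set E2) := hemb.isClosedMap _ hQ.compl.isClosed
    have h3 := (isPreconnected_closed_iff.1 hc.isPreconnected) ((↑) '' Q)
      (((↑) '' Qᶜ) ∪ (Y ∩ closedBall c r)) h1 (h2.union (hY.isClosed.inter isClosed_closedBall))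
      (by
        intro y hy
        by_cases hyb : y ∈ ball c r
        · exact Or.inr (Or.inr ⟨hy, ball_subset_closedBall hyb⟩)
        · by_cases hyQ : (⟨y, hy, hyb⟩ : (Y \ ball c r : Set E2)) ∈ Q
          · exact Or.inl ⟨_, hyQ, rfl⟩
          · exact Or.inr (Or.inl ⟨_, hyQ, rfl⟩))
      ⟨x, hx.1, x', hxQ, rfl⟩
      (by
        obtain ⟨y, hy1, hy2⟩ := hb
        exact ⟨y, hy1, Or.inr ⟨hy1, ball_subset_closedBall hy2⟩⟩)
    obtain ⟨y, -, ⟨z, hz, hzy⟩, hy2 | hy2⟩ := h3
    · obtain ⟨w, hw, hwy⟩ := hy2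
      have : w = z := Subtype.ext (hwy.trans hzy.symm)
      subst this
      exact hw hz
    · have hzS : z ∈ S := by
        have hb' : (z : E2) ∉ ball c r := z.2.2
        have hcl : (z : E2) ∈ closedBall c r := by rw [hzy]; exact hy2.2
        show (z : E2) ∈ sphere c r
        rw [mem_sphere]
        rw [mem_ball, not_lt] at hb'
        exact le_antisymm (mem_closedBall.1 hcl) hb'
      exact hQS hz hzS

theorem cut_conn {Y : Set E2} (hY : IsCompact Y) (hc : IsConnected Y) {c q : E2} {r : ℝ}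
    (hq : Y ∩ sphere c r = {q}) :
    IsConnected (Y \ ball c r) ∧ IsConnected (Y ∩ closedBall c r) := by
  have hF : IsClosed (Y \ ball c r) := (hY.diff isOpen_ball).isClosed
  have hG : IsClosed (Y ∩ closedBall c r) := hY.isClosed.inter isClosed_closedBall
  have hFG : Y = (Y \ ball c r) ∪ (Y ∩ closedBall c r) := by
    ext y
    constructor
    · intro hy
      by_cases hyb : y ∈ ball c r
      · exact Or.inr ⟨hy, ball_subset_closedBall hyb⟩
      · exact Or.inl ⟨hy, hyb⟩
    · rintro (hy | hy)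
      · exact hy.1
      · exact hy.1
  have hFGq : (Y \ ball c r) ∩ (Y ∩ closedBall c r) = {q} := by
    rw [← hq]
    ext y
    constructor
    · rintro ⟨⟨h1, h2⟩, -, h3⟩
      refine ⟨h1, ?_⟩
      rw [mem_ball, not_lt] at h2
      exact le_antisymm (mem_closedBall.1 h3) h2
    · rintro ⟨h1, h2⟩
      have h3 : dist y c = r := h2
      exact ⟨⟨h1, by rw [mem_ball, h3]; exact lt_irrefl _⟩, h1, mem_closedBall.2 h3.le⟩
  refine ⟨TopoAux.conn_of_cut hc.isPreconnected hF hG hFG hFGq, ?_⟩
  refine TopoAux.conn_of_cut (q := q) hc.isPreconnected hG hF ?_ ?_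
  · rw [union_comm]; exact hFG
  · rw [inter_comm]; exact hFGq

theorem two_comp {Y : Set E2} (hY : IsCompact Y) (hc : IsConnected Y) {c q q' : E2} {r : ℝ}
    (hb : (Y ∩ ball c r).Nonempty) (hq : Y ∩ sphere c r = {q, q'}) :
    Y \ ball c r = connectedComponentIn (Y \ ball c r) q ∪
      connectedComponentIn (Y \ ball c r) q' := by
  apply Subset.antisymm
  · intro x hx
    obtain ⟨-, -, y, hy1, hy2⟩ := comp_touch hY hc hb hx
    have hyY : y ∈ Y := (connectedComponentIn_subset _ _ hy1).1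
    have hyq : y ∈ ({q, q'} : Set E2) := by rw [← hq]; exact ⟨hyY, hy2⟩
    have heq := connectedComponentIn_eq hy1
    have hxx : x ∈ connectedComponentIn (Y \ ball c r) x := mem_connectedComponentIn hx
    rcases hyq with h | h
    · left; rw [← h, ← heq]; exact hxx
    · right; rw [← h, ← heq]; exact hxx
  · exact union_subset (connectedComponentIn_subset _ _) (connectedComponentIn_subset _ _)

theorem exists_sphere {Y : Set E2} (hc : IsConnected Y) {c a b : E2} {r : ℝ} (ha : a ∈ Y)
    (hb : b ∈ Y) (har : dist a c ≤ r) (hbr : r ≤ dist b c) : ∃ q ∈ Y, dist q c = r := by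
  have hcont : ContinuousOn (fun y : E2 => dist y c) Y :=
    (continuous_id.dist continuous_const).continuousOn
  obtain ⟨q, hq, hqr⟩ := hc.isPreconnected.intermediate_value ha hb hcont ⟨har, hbr⟩
  exact ⟨q, hq, hqr⟩

/-- A nearest point. -/
theorem exists_near {Y : Set E2} (hY : Cpt Y) (x : E2) : ∃ y ∈ Y, dist x y = infDist x Y := by
  obtain ⟨y, hy, h⟩ := hY.1.exists_infDist_eq_dist hY.2.1.nonempty x
  exact ⟨y, hy, h.symm⟩

/-- Union of two compact connected sets with a common point. -/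
theorem Cpt.union {Y Z : Set E2} (hY : Cpt Y) (hZ : Cpt Z) (h : (Y ∩ Z).Nonempty) :
    Cpt (Y ∪ Z) ∧ H1 (Y ∪ Z) ≤ H1 Y + H1 Z := by
  have hfin : μH[1] Y + μH[1] Z ≠ ∞ := ENNReal.add_ne_top.2 ⟨hY.2.2, hZ.2.2⟩
  have hle : μH[1] (Y ∪ Z) ≤ μH[1] Y + μH[1] Z := measure_union_le Y Z
  refine ⟨⟨hY.1.union hZ.1, IsConnected.union h hY.2.1 hZ.2.1, ne_top_of_le_ne_top hfin hle⟩, ?_⟩
  unfold H1
  rw [← ENNReal.toReal_add hY.2.2 hZ.2.2]
  exact ENNReal.toReal_mono hfin hle

/-- Adding a segment. -/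
theorem Cpt.union_segment {Y : Set E2} (hY : Cpt Y) {q : E2} (hq : q ∈ Y) (c : E2) :
    Cpt (Y ∪ segment ℝ q c) ∧ H1 (Y ∪ segment ℝ q c) ≤ H1 Y + dist q c := by
  have hm : μH[1] (segment ℝ q c) = edist q c := hausdorffMeasure_segment q c
  have hseg : Cpt (segment ℝ q c) := by
    refine ⟨?_, ?_, ?_⟩
    · rw [segment_eq_image_lineMap]
      exact isCompact_Icc.image AffineMap.lineMap_continuous
    · exact (convex_segment q c).isConnected ⟨q, left_mem_segment ℝ q c⟩
    · rw [hm]; exact edist_ne_top q c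
  have h := Cpt.union hY hseg ⟨q, hq, left_mem_segment ℝ q c⟩
  have h1 : H1 (segment ℝ q c) = dist q c := by
    unfold H1; rw [hm, dist_edist]
  rw [h1] at h
  exact h

/-- Additivity for disjoint compact pieces. -/
theorem H1_split {Y A B : Set E2} (hY : μH[1] Y ≠ ∞) (hA : MeasurableSet A) (hB : MeasurableSet B)
    (hAY : A ⊆ Y) (hBY : B ⊆ Y) (hd : Disjoint A B) : H1 A + H1 B ≤ H1 Y := by
  have hAf : μH[1] A ≠ ∞ := ne_top_of_le_ne_top hY (measure_mono hAY)
  have hBf : μH[1] B ≠ ∞ := ne_top_of_le_ne_top hY (measure_mono hBY)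
  unfold H1
  rw [← ENNReal.toReal_add hAf hBf, ← measure_union hd hB]
  exact ENNReal.toReal_mono hY (measure_mono (union_subset hAY hBY))

theorem H1_mono {A B : Set E2} (hB : μH[1] B ≠ ∞) (h : A ⊆ B) : H1 A ≤ H1 B :=
  ENNReal.toReal_mono hB (measure_mono h)

end Pool.Agent.Lib.P8e
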