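import Pool.Agent.Lib.P8e.TInf
import Pool.Agent.Lib.P8e.Topo

set_option autoImplicit false

/-!
# Upper bound of the length in balls centred on the curve

PROOF SKETCH (`ball_upper`). `c = pt (t_j)`, `U = ball c r`, `L = len u v`. If `Y ∩ U = ∅` the left side is `0` (`e ≥ 0` because `L ≤ H1 Y + Dl`,
`t_inf`). Let `y_u, y_v ∈ Y` be nearest points to `pt u, pt v` (`exists_near`); they are not in `U` by `hu', hv'` (`dist_pt_ge`).
`Y_0, Y_1` = components of `y_u, y_v` in `Y \ U` (`comp_touch`), with points `q_0, q_1` on the sphere. `Y' = Y_0 ∪ [q_0, c] ∪ [c, q_1] ∪ Y_1` is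
compact connected with `H1 Y' ≤ H1 (Y_0 ∪ Y_1) + 2 r`. Let `h_d = H1 ((Y \ U) \ (Y_0 ∪ Y_1))`, `d_i = dj Y i`. Then for `i ≠ j` with
`t_i ∈ (u, v)`: `infDist (pt t_i) Y' ≤ 2 d_i + 2 h_d`. Indeed let `y_i ∈ Y` be nearest to `x_i = pt (t_i)`, `4 r ≤ |x_i - c|`:
 (i) `y_i ∈ Y_0 ∪ Y_1`: `≤ d_i`; (ii) `y_i ∈ U`: `|x_i - c| ≤ d_i + r ≤ d_i + |x_i - c|/4`, so `infDist x_i Y' ≤ |x_i - c| ≤ 2 d_i` (`c ∈ Y'`);
 (iii) otherwise the component `W` of `y_i` in `Y \ U` touches the sphere at `w`, is disjoint from `Y_0 ∪ Y_1`, so `|y_i - w| ≤ H1 W ≤ h_d` and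
 `|x_i - c| ≤ d_i + h_d + r`, hence `≤ 2 d_i + 2 h_d`.
For `i = j` the distance is `0`, for the ends it is `≤` the distance to `Y`. So `Dl u v Y' ≤ 2 e + 2 h_d ∑ τ ≤ 2 e + h_d`, and `t_inf` gives
`L ≤ H1 (Y_0 ∪ Y_1) + 2 r + 2 e + h_d = H1 (Y \ U) + 2 r + 2 e` (`H1 (Y \ U) = H1 (Y_0 ∪ Y_1) + h_d`), so `H1 (Y ∩ U) = H1 Y - H1 (Y \ U) ≤ 2 r + 3 e`.
`ball_upper_left`: the same with `c = pt u`, only `Y_1` and one segment; `ball_upper_right`: symmetric.
-/

open MeasureTheory Set Metric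
open scoped ENNReal NNReal InnerProductSpace

namespace Pool.Agent.Lib.P8e

namespace BallAux

/-- Components partition: a point outside the component of `x` has a disjoint component. -/
lemma comp_disj {F : Set E2} {x y : E2} (hy : y ∈ F) (h : y ∉ connectedComponentIn F x) :
    Disjoint (connectedComponentIn F y) (connectedComponentIn F x) := by
  rw [Set.disjoint_left]
  intro z hz hz'
  have h1 := connectedComponentIn_eq hz
  have h2 := connectedComponentIn_eq hz'
  apply h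
  rw [h2, ← h1]
  exact mem_connectedComponentIn hy

lemma near_aux {Y : Set E2} (hY : Cpt Y) {c : E2} {r : ℝ}
    (hb : (Y ∩ ball c r).Nonempty) {x : E2} (hx : 4 * r ≤ dist x c) {Z R : Set E2}
    (hcZ : c ∈ Z) (hRZ : R ⊆ Z)
    (hR : ∀ y ∈ Y \ ball c r, y ∉ R →
      connectedComponentIn (Y \ ball c r) y ⊆ (Y \ ball c r) \ R) :
    infDist x Z ≤ 2 * infDist x Y + 2 * H1 ((Y \ ball c r) \ R) := by
  obtain ⟨y, hyY, hy⟩ := exists_near hY x
  have hd0 : 0 ≤ infDist x Y := infDist_nonneg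
  have hh0 : 0 ≤ H1 ((Y \ ball c r) \ R) := ENNReal.toReal_nonneg
  have hxc : infDist x Z ≤ dist x c := infDist_le_dist_of_mem hcZ
  by_cases hyb : y ∈ ball c r
  · have h1 : dist x c ≤ dist x y + dist y c := dist_triangle _ _ _
    have h2 : dist y c < r := hyb
    linarith
  · by_cases hyR : y ∈ R
    · have h1 : infDist x Z ≤ dist x y := infDist_le_dist_of_mem (hRZ hyR)
      linarith
    · have hyF : y ∈ Y \ ball c r := ⟨hyY, hyb⟩
      obtain ⟨hWc, hWconn, w, hwW, hws⟩ := comp_touch hY.1 hY.2.1 hb hyF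
      have hsub : connectedComponentIn (Y \ ball c r) y ⊆ (Y \ ball c r) \ R := hR y hyF hyR
      have hfin : μH[1] ((Y \ ball c r) \ R) ≠ ∞ :=
        ne_top_of_le_ne_top hY.2.2 (measure_mono (sdiff_subset.trans sdiff_subset))
      have hWfin : μH[1] (connectedComponentIn (Y \ ball c r) y) ≠ ∞ :=
        ne_top_of_le_ne_top hfin (measure_mono hsub)
      have h1 : dist y w ≤ H1 (connectedComponentIn (Y \ ball c r) y) :=
        Cpt.dist_le ⟨hWc, hWconn, hWfin⟩ (mem_connectedComponentIn hyF) hwW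
      have h2 : H1 (connectedComponentIn (Y \ ball c r) y) ≤ H1 ((Y \ ball c r) \ R) :=
        H1_mono hfin hsub
      have h3 : dist w c = r := hws
      have h4 : dist x c ≤ dist x y + dist y w + dist w c := by
        have := dist_triangle x y c
        have := dist_triangle y w c
        linarith
      linarith

lemma core (C : Cv) {u v : ℝ} (huv : u ≤ v) {Y : Set E2} (hY : Cpt Y) {c : E2} {r : ℝ}
    (hb : (Y ∩ ball c r).Nonempty) {Z R : Set E2} (hZ : Cpt Z) (hcZ : c ∈ Z) (hRZ : R ⊆ Z)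
    (hRm : MeasurableSet R) (hRF : R ⊆ Y \ ball c r)
    (hR : ∀ y ∈ Y \ ball c r, y ∉ R →
      connectedComponentIn (Y \ ball c r) y ⊆ (Y \ ball c r) \ R)
    (hu : infDist (C.pt u) Z ≤ infDist (C.pt u) Y)
    (hv : infDist (C.pt v) Z ≤ infDist (C.pt v) Y)
    (hiso : ∀ i, u < C.t i → C.t i < v → C.pt (C.t i) = c ∨ 4 * r ≤ dist (C.pt (C.t i)) c)
    {k e : ℝ} (hZH : H1 Z ≤ H1 R + k * r) (hH : H1 Y ≤ C.len u v + e)
    (hD : C.Dl u v Y ≤ e) :
    H1 (Y ∩ ball c r) ≤ k * r + 3 * e := by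
  set F : Set E2 := Y \ ball c r with hF
  set hh : ℝ := H1 (F \ R) with hhh
  have hh0 : 0 ≤ hh := ENNReal.toReal_nonneg
  have hYne : Y.Nonempty := hY.2.1.nonempty
  have hZne : Z.Nonempty := ⟨c, hcZ⟩
  -- the defect of Z
  have hterm : ∀ i, (if u < C.t i ∧ C.t i < v then C.τ i * C.dj Z i else 0) ≤
      2 * (if u < C.t i ∧ C.t i < v then C.τ i * C.dj Y i else 0) +
        2 * hh * (if u < C.t i ∧ C.t i < v then C.τ i else 0) := by
    intro i
    by_cases hi : u < C.t i ∧ C.t i < v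
    · rw [if_pos hi, if_pos hi, if_pos hi]
      have hτ := C.τ_pos i
      have hdY : 0 ≤ C.dj Y i := infDist_nonneg
      have h1 : C.dj Z i ≤ 2 * C.dj Y i + 2 * hh := by
        rcases hiso i hi.1 hi.2 with h | h
        · have : C.dj Z i = 0 := by
            unfold Cv.dj
            rw [h]
            exact infDist_zero_of_mem hcZ
          rw [this]
          positivity
        · exact near_aux hY hb h hcZ hRZ hR
      calc C.τ i * C.dj Z i ≤ C.τ i * (2 * C.dj Y i + 2 * hh) := by gcongr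
        _ = _ := by ring
    · rw [if_neg hi, if_neg hi, if_neg hi]
      simp
  have hs1 := C.summable_Dl u v hY.1 hYne
  have hs2 := C.summable_turn u v
  have hsZ := C.summable_Dl u v hZ.1 hZne
  have hsum : (∑' i, if u < C.t i ∧ C.t i < v then C.τ i * C.dj Z i else 0) ≤
      2 * (∑' i, if u < C.t i ∧ C.t i < v then C.τ i * C.dj Y i else 0) +
        2 * hh * C.turn u v := by
    unfold Cv.turn
    rw [← tsum_mul_left, ← tsum_mul_left, ← (hs1.mul_left 2).tsum_add (hs2.mul_left (2 * hh))]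
    exact hsZ.tsum_le_tsum hterm ((hs1.mul_left 2).add (hs2.mul_left (2 * hh)))
  have hturn := C.turn_le u v
  have hDZ : C.Dl u v Z ≤ 2 * e + hh := by
    unfold Cv.Dl at hD ⊢
    have h1 : 0 ≤ infDist (C.pt u) Y := infDist_nonneg
    have h2 : 0 ≤ infDist (C.pt v) Y := infDist_nonneg
    have h3 : 2 * hh * C.turn u v ≤ 2 * hh * (1 / 20) := by gcongr
    linarith
  have ht := C.t_inf huv hZ
  -- splitting
  have hballm : MeasurableSet (ball c r) := measurableSet_ball
  have hYm : MeasurableSet Y := hY.1.isClosed.measurableSet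
  have hFm : MeasurableSet F := hYm.diff hballm
  have hFfin : μH[1] F ≠ ∞ := ne_top_of_le_ne_top hY.2.2 (measure_mono sdiff_subset)
  have h1 : H1 F + H1 (Y ∩ ball c r) ≤ H1 Y := by
    apply H1_split hY.2.2 hFm (hYm.inter hballm) sdiff_subset inter_subset_left
    rw [Set.disjoint_left]
    rintro z ⟨_, hz⟩ ⟨_, hz'⟩
    exact hz hz'
  have h2 : H1 (F \ R) + H1 R ≤ H1 F :=
    H1_split hFfin (hFm.diff hRm) hRm sdiff_subset hRF disjoint_sdiff_left
  linarith

lemma infDist_le_of_near {x y : E2} {Y Z : Set E2} (h : dist x y = infDist x Y) (hy : y ∈ Z) :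
    infDist x Z ≤ infDist x Y := by
  rw [← h]
  exact infDist_le_dist_of_mem hy

/-- One root. -/
lemma one_root (C : Cv) {u v : ℝ} (huv : u ≤ v) {Y : Set E2} (hY : Cpt Y) {c : E2} {r : ℝ}
    (hr : 0 < r) {a : E2} (ha : a ∈ Y \ ball c r)
    (hu : infDist (C.pt u) Y = dist (C.pt u) a ∨ C.pt u = c)
    (hv : infDist (C.pt v) Y = dist (C.pt v) a ∨ C.pt v = c)
    (hiso : ∀ i, u < C.t i → C.t i < v → C.pt (C.t i) = c ∨ 4 * r ≤ dist (C.pt (C.t i)) c)
    {e : ℝ} (hH : H1 Y ≤ C.len u v + e) (hD : C.Dl u v Y ≤ e) :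
    H1 (Y ∩ ball c r) ≤ r + 3 * e := by
  have he : 0 ≤ e := (C.Dl_nonneg u v Y).trans hD
  by_cases hb : (Y ∩ ball c r).Nonempty
  swap
  · rw [Set.not_nonempty_iff_eq_empty] at hb
    rw [hb]
    unfold H1
    simp only [measure_empty, ENNReal.toReal_zero]
    positivity
  obtain ⟨hKc, hKconn, q, hqK, hqs⟩ := comp_touch hY.1 hY.2.1 hb ha
  set K := connectedComponentIn (Y \ ball c r) a with hK
  have hKF : K ⊆ Y \ ball c r := connectedComponentIn_subset _ _
  have hKfin : μH[1] K ≠ ∞ :=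
    ne_top_of_le_ne_top hY.2.2 (measure_mono (hKF.trans sdiff_subset))
  have hKCpt : Cpt K := ⟨hKc, hKconn, hKfin⟩
  obtain ⟨hZ, hZH⟩ := Cpt.union_segment hKCpt hqK c
  have hcZ : c ∈ K ∪ segment ℝ q c := Or.inr (right_mem_segment ℝ q c)
  have haK : a ∈ K := mem_connectedComponentIn ha
  have hq : dist q c = r := hqs
  have key := core C huv hY hb hZ hcZ (R := K) subset_union_left hKc.isClosed.measurableSet hKF
    (by
      intro y hy hyK z hz
      exact ⟨connectedComponentIn_subset _ _ hz,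
        fun hzK => (Set.disjoint_left.1 (comp_disj hy hyK)) hz hzK⟩)
    (by
      rcases hu with h | h
      · exact infDist_le_of_near h.symm (Or.inl haK)
      · rw [h, infDist_zero_of_mem hcZ]
        exact infDist_nonneg)
    (by
      rcases hv with h | h
      · exact infDist_le_of_near h.symm (Or.inl haK)
      · rw [h, infDist_zero_of_mem hcZ]
        exact infDist_nonneg)
    hiso (k := 1) (by rw [hq] at hZH; linarith) hH hD
  linarith

/-- Two roots. -/
lemma two_root (C : Cv) {u v : ℝ} (huv : u ≤ v) {Y : Set E2} (hY : Cpt Y) {c : E2} {r : ℝ}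
    (hr : 0 < r) {a b : E2} (ha : a ∈ Y \ ball c r) (hb' : b ∈ Y \ ball c r)
    (hu : infDist (C.pt u) Y = dist (C.pt u) a)
    (hv : infDist (C.pt v) Y = dist (C.pt v) b)
    (hiso : ∀ i, u < C.t i → C.t i < v → C.pt (C.t i) = c ∨ 4 * r ≤ dist (C.pt (C.t i)) c)
    {e : ℝ} (hH : H1 Y ≤ C.len u v + e) (hD : C.Dl u v Y ≤ e) :
    H1 (Y ∩ ball c r) ≤ 2 * r + 3 * e := by
  have he : 0 ≤ e := (C.Dl_nonneg u v Y).trans hD
  by_cases hb : (Y ∩ ball c r).Nonempty
  swap
  · rw [Set.not_nonempty_iff_eq_empty] at hb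
    rw [hb]
    unfold H1
    simp only [measure_empty, ENNReal.toReal_zero]
    positivity
  obtain ⟨hKc, hKconn, q, hqK, hqs⟩ := comp_touch hY.1 hY.2.1 hb ha
  obtain ⟨hLc, hLconn, p, hpL, hps⟩ := comp_touch hY.1 hY.2.1 hb hb'
  set K := connectedComponentIn (Y \ ball c r) a with hK
  set L := connectedComponentIn (Y \ ball c r) b with hL
  have hKF : K ⊆ Y \ ball c r := connectedComponentIn_subset _ _
  have hLF : L ⊆ Y \ ball c r := connectedComponentIn_subset _ _
  have haK : a ∈ K := mem_connectedComponentIn ha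
  have hbL : b ∈ L := mem_connectedComponentIn hb'
  have hq : dist q c = r := hqs
  have hp : dist p c = r := hps
  have hKfin : μH[1] K ≠ ∞ :=
    ne_top_of_le_ne_top hY.2.2 (measure_mono (hKF.trans sdiff_subset))
  have hLfin : μH[1] L ≠ ∞ :=
    ne_top_of_le_ne_top hY.2.2 (measure_mono (hLF.trans sdiff_subset))
  have hKCpt : Cpt K := ⟨hKc, hKconn, hKfin⟩
  have hLCpt : Cpt L := ⟨hLc, hLconn, hLfin⟩
  obtain ⟨hZ, hZH⟩ := Cpt.union_segment hKCpt hqK c
  obtain ⟨hZ', hZH'⟩ := Cpt.union_segment hLCpt hpL c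
  have hcZ : c ∈ K ∪ segment ℝ q c := Or.inr (right_mem_segment ℝ q c)
  have hcZ' : c ∈ L ∪ segment ℝ p c := Or.inr (right_mem_segment ℝ p c)
  by_cases hKL : b ∈ K
  · have key := core C huv hY hb hZ hcZ (R := K) subset_union_left hKc.isClosed.measurableSet hKF
      (by
        intro y hy hyK z hz
        exact ⟨connectedComponentIn_subset _ _ hz,
          fun hzK => (Set.disjoint_left.1 (comp_disj hy hyK)) hz hzK⟩)
      (infDist_le_of_near hu.symm (Or.inl haK))
      (infDist_le_of_near hv.symm (Or.inl hKL))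
      hiso (k := 2) (by rw [hq] at hZH; linarith) hH hD
    exact key
  · have hdisj : Disjoint L K := comp_disj hb' hKL
    have hmeet : ((K ∪ segment ℝ q c) ∩ (L ∪ segment ℝ p c)).Nonempty := ⟨c, hcZ, hcZ'⟩
    obtain ⟨hU, hUH⟩ := Cpt.union hZ hZ' hmeet
    have hKLfin : μH[1] (K ∪ L) ≠ ∞ :=
      ne_top_of_le_ne_top hY.2.2
        (measure_mono (union_subset (hKF.trans sdiff_subset) (hLF.trans sdiff_subset)))
    have hsplit : H1 K + H1 L ≤ H1 (K ∪ L) :=
      H1_split hKLfin hKc.isClosed.measurableSet hLc.isClosed.measurableSet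
        subset_union_left subset_union_right hdisj.symm
    have key := core C huv hY hb hU (Or.inl hcZ) (R := K ∪ L)
      (by
        apply union_subset
        · exact subset_union_left.trans subset_union_left
        · exact subset_union_left.trans subset_union_right)
      (hKc.isClosed.measurableSet.union hLc.isClosed.measurableSet)
      (union_subset hKF hLF)
      (by
        intro y hy hyKL z hz
        have hyK : y ∉ K := fun h => hyKL (Or.inl h)
        have hyL : y ∉ L := fun h => hyKL (Or.inr h)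
        refine ⟨connectedComponentIn_subset _ _ hz, ?_⟩
        rintro (hzK | hzL)
        · exact (Set.disjoint_left.1 (comp_disj hy hyK)) hz hzK
        · exact (Set.disjoint_left.1 (comp_disj hy hyL)) hz hzL)
      (infDist_le_of_near hu.symm (Or.inl (Or.inl haK)))
      (infDist_le_of_near hv.symm (Or.inr (Or.inl hbL)))
      hiso (k := 2) (by rw [hq] at hZH; rw [hp] at hZH'; linarith) hH hD
    exact key

/-- The nearest point to a far point is outside the ball. -/
lemma near_out {Y : Set E2} (hY : Cpt Y) {x c : E2} {r : ℝ} (h : infDist x Y + r ≤ dist x c) :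
    ∃ y ∈ Y \ ball c r, infDist x Y = dist x y := by
  obtain ⟨y, hyY, hy⟩ := exists_near hY x
  refine ⟨y, ⟨hyY, ?_⟩, hy.symm⟩
  intro hyb
  have h1 : dist y c < r := hyb
  have h2 := dist_triangle x y c
  linarith

end BallAux

theorem Cv.ball_upper (C : Cv) {u v : ℝ} (j : ℕ) {r : ℝ} (hr : 0 < r)
    (hu : 4 * r ≤ C.t j - u) (hv : 4 * r ≤ v - C.t j)
    (hiso : ∀ i, i ≠ j → 4 * r ≤ |C.t i - C.t j|) {Y : Set E2} (hY : Cpt Y)
    (hu' : infDist (C.pt u) Y + r ≤ C.t j - u) (hv' : infDist (C.pt v) Y + r ≤ v - C.t j)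
    {e : ℝ} (hH : H1 Y ≤ C.len u v + e) (hD : C.Dl u v Y ≤ e) :
    H1 (Y ∩ ball (C.pt (C.t j)) r) ≤ 2 * r + 3 * e := by
  obtain ⟨a, ha, ha'⟩ := BallAux.near_out hY (x := C.pt u) (c := C.pt (C.t j)) (r := r)
    (by
      have h1 := C.dist_pt_ge u (C.t j)
      have h2 : C.t j - u ≤ |u - C.t j| := by
        rw [abs_sub_comm]
        exact le_abs_self _
      linarith)
  obtain ⟨b, hb, hb'⟩ := BallAux.near_out hY (x := C.pt v) (c := C.pt (C.t j)) (r := r)
    (by
      have h1 := C.dist_pt_ge v (C.t j)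
      have h2 : v - C.t j ≤ |v - C.t j| := le_abs_self _
      linarith)
  refine BallAux.two_root C (by linarith) hY hr ha hb ha' hb' ?_ hH hD
  intro i _ _
  by_cases hij : i = j
  · left; rw [hij]
  · right
    exact (hiso i hij).trans (C.dist_pt_ge _ _)

theorem Cv.ball_upper_left (C : Cv) {u v : ℝ} {r : ℝ} (hr : 0 < r)
    (hiso : ∀ i, u < C.t i → 4 * r ≤ C.t i - u) {Y : Set E2} (hY : Cpt Y)
    (hv' : infDist (C.pt v) Y + r ≤ v - u)
    {e : ℝ} (hH : H1 Y ≤ C.len u v + e) (hD : C.Dl u v Y ≤ e) :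
    H1 (Y ∩ ball (C.pt u) r) ≤ r + 3 * e := by
  have h0 : 0 ≤ infDist (C.pt v) Y := infDist_nonneg
  obtain ⟨b, hb, hb'⟩ := BallAux.near_out hY (x := C.pt v) (c := C.pt u) (r := r)
    (by
      have h1 := C.dist_pt_ge v u
      have h2 : v - u ≤ |v - u| := le_abs_self _
      linarith)
  refine BallAux.one_root C (by linarith) hY hr hb (Or.inr rfl) (Or.inl hb') ?_ hH hD
  intro i hi _
  right
  exact (hiso i hi).trans ((le_abs_self _).trans (C.dist_pt_ge _ _))

theorem Cv.ball_upper_right (C : Cv) {u v : ℝ} {r : ℝ} (hr : 0 < r)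
    (hiso : ∀ i, C.t i < v → 4 * r ≤ v - C.t i) {Y : Set E2} (hY : Cpt Y)
    (hu' : infDist (C.pt u) Y + r ≤ v - u)
    {e : ℝ} (hH : H1 Y ≤ C.len u v + e) (hD : C.Dl u v Y ≤ e) :
    H1 (Y ∩ ball (C.pt v) r) ≤ r + 3 * e := by
  have h0 : 0 ≤ infDist (C.pt u) Y := infDist_nonneg
  obtain ⟨b, hb, hb'⟩ := BallAux.near_out hY (x := C.pt u) (c := C.pt v) (r := r)
    (by
      have h1 := C.dist_pt_ge u v
      have h2 : v - u ≤ |u - v| := by
        rw [abs_sub_comm]
        exact le_abs_self _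
      linarith)
  refine BallAux.one_root C (by linarith) hY hr hb (Or.inl hb') (Or.inr rfl) ?_ hH hD
  intro i _ hi
  right
  refine (hiso i hi).trans ?_
  have h1 := C.dist_pt_ge (C.t i) v
  have h2 : v - C.t i ≤ |C.t i - v| := by
    rw [abs_sub_comm]
    exact le_abs_self _
  linarith

end Pool.Agent.Lib.P8e
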