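import Pool.Agent.Lib.P8e.Cv

set_option autoImplicit false

/-!
# Blocks: the building blocks of the charge `f`

A block is a `C^1` function `w` supported in `closedBall c ρ` together with at most two unit vectors (`arms`), the directions of the
network at the centre. `D u = ∫ ∇w · ∇u`, `T u = ∑_ν ∫_0^ρ ∂_ν w ∂_ν u (c + r ν) dr`.
`Rep m p q M`: the charge `p - q` represents `D u + m T u`.
-/

open MeasureTheory Set Metric
open scoped ENNReal NNReal InnerProductSpace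

namespace Pool.Agent.Lib.P8e

/-- `C^1` functions with compact support in `Ω`. -/
def C1c (Ω : Set E2) (u : E2 → ℝ) : Prop :=
  ContDiff ℝ 1 u ∧ HasCompactSupport u ∧ tsupport u ⊆ Ω

/-- Dirichlet integral. -/
noncomputable def Dir (u : E2 → ℝ) : ℝ := ∫ x, ‖fderiv ℝ u x‖ ^ 2

/-- Blocks. -/
structure Blk where
  /-- the potential -/
  w : E2 → ℝ
  /-- the centre -/
  c : E2
  /-- the radius -/
  ρ : ℝ
  /-- the directions of the network at the centre -/
  arms : Finset E2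

namespace Blk

noncomputable def D (b : Blk) (u : E2 → ℝ) : ℝ := ∫ x, ⟪gradient b.w x, gradient u x⟫_ℝ

noncomputable def T (b : Blk) (u : E2 → ℝ) : ℝ :=
  ∑ ν ∈ b.arms, ∫ r in (0 : ℝ)..b.ρ,
    (fderiv ℝ b.w (b.c + r • ν) ν) * (fderiv ℝ u (b.c + r • ν) ν)

structure Reg (b : Blk) : Prop where
  ρ_pos : 0 < b.ρ
  smooth : ContDiff ℝ 1 b.w
  supp : ∀ x, b.ρ ≤ dist x b.c → b.w x = 0 ∧ fderiv ℝ b.w x = 0
  unit : ∀ ν ∈ b.arms, ‖ν‖ = 1

structure Rep (b : Blk) (m : ℝ) (p q : Measure E2) (M : ℝ) : Prop where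
  mass : p univ + q univ ≤ ENNReal.ofReal M
  suppp : p (closedBall b.c b.ρ)ᶜ = 0
  suppq : q (closedBall b.c b.ρ)ᶜ = 0
  formula : ∀ u : E2 → ℝ, C1c univ u → ∫ x, u x ∂p - ∫ x, u x ∂q = b.D u + m * b.T u
  full : ∀ U : Set E2, IsOpen U → (U ∩ ball b.c b.ρ).Nonempty →
    ∃ A ⊆ U ∩ ball b.c b.ρ, MeasurableSet A ∧ p A ≠ q A

end Blk

/-- Countable families of blocks with disjoint closed balls in `Ω`. -/
structure Fam (Ω : Set E2) (m : ℝ) (β : Type) where
  b : β → Blk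
  M : β → ℝ
  p : β → Measure E2
  q : β → Measure E2
  reg : ∀ i, (b i).Reg
  rep : ∀ i, (b i).Rep m (p i) (q i) (M i)
  M_nonneg : ∀ i, 0 ≤ M i
  M_sum : Summable M
  sub : ∀ i, closedBall (b i).c (b i).ρ ⊆ Ω
  disj : ∀ i j, i ≠ j → Disjoint (closedBall (b i).c (b i).ρ) (closedBall (b j).c (b j).ρ)
  dense : ∀ U : Set E2, IsOpen U → U ⊆ Ω → U.Nonempty →
    ∃ i, (U ∩ ball (b i).c (b i).ρ).Nonempty

end Pool.Agent.Lib.P8e
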