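import Pool.Agent.Lib.P8e.Blk

set_option autoImplicit false

/-!
# Bumps: blocks without arms
-/

open MeasureTheory Set Metric
open scoped ENNReal NNReal InnerProductSpace

namespace Pool.Agent.Lib.P8e

/-- The bump. -/
noncomputable def bump (c : E2) (ρ ε : ℝ) : Blk where
  w := fun x => ε * max (1 - (dist x c / ρ) ^ 2) 0 ^ 3
  c := c
  ρ := ρ
  arms := ∅

namespace Bump

open Filter Topology

/-- Powers of the positive part. -/
lemma hasDerivAt_pos_pow {n : ℕ} (hn : 1 ≤ n) (t : ℝ) :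
    HasDerivAt (fun t : ℝ => max t 0 ^ (n + 1)) ((n + 1) * max t 0 ^ n) t := by
  rcases lt_trichotomy t 0 with h | h | h
  · have h1 : (fun t : ℝ => max t 0 ^ (n + 1)) =ᶠ[𝓝 t] fun _ => 0 := by
      filter_upwards [gt_mem_nhds h] with y hy
      rw [max_eq_right hy.le, zero_pow (by omega)]
    rw [max_eq_right h.le, zero_pow (by omega), mul_zero]
    exact (hasDerivAt_const t (0:ℝ)).congr_of_eventuallyEq h1
  · subst h
    rw [max_self, zero_pow (by omega), mul_zero]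
    have h1 : (fun t : ℝ => max t 0 ^ (n + 1)) =O[𝓝 0] fun t => ‖t - 0‖ ^ (n + 1) := by
      apply Asymptotics.IsBigO.of_bound 1
      filter_upwards with y
      rw [one_mul, sub_zero, norm_pow, norm_pow, norm_norm]
      apply pow_le_pow_left₀ (norm_nonneg _)
      rw [Real.norm_eq_abs, Real.norm_eq_abs, abs_of_nonneg (le_max_right _ _)]
      exact max_le (le_abs_self _) (abs_nonneg _)
    have h2 := (h1.hasFDerivAt (𝕜 := ℝ) (by omega)).hasDerivAt
    simpa using h2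
  · have h1 : (fun t : ℝ => max t 0 ^ (n + 1)) =ᶠ[𝓝 t] fun t => t ^ (n + 1) := by
      filter_upwards [lt_mem_nhds h] with y hy
      rw [max_eq_left hy.le]
    rw [max_eq_left h.le]
    have h2 := (hasDerivAt_pow (n + 1) t).congr_of_eventuallyEq h1
    push_cast at h2
    simpa using h2

/-- The basic function. -/
noncomputable def sg (c : E2) (ρ : ℝ) (x : E2) : ℝ := 1 - (dist x c / ρ) ^ 2

lemma hasFDerivAt_sg (c : E2) (ρ : ℝ) (x : E2) :
    HasFDerivAt (sg c ρ) ((-(2 / ρ ^ 2)) • innerSL ℝ (x - c)) x := by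
  have h1 : HasFDerivAt (fun x : E2 => ‖x - c‖ ^ 2) (2 • innerSL ℝ (x - c)) x :=
    (((hasFDerivAt_id x).sub_const c).norm_sq).congr_fderiv (by
        ext v
        simp)
  have h2 : sg c ρ = fun x => 1 - (1 / ρ ^ 2) * ‖x - c‖ ^ 2 := by
    funext y
    unfold sg
    rw [dist_eq_norm]
    ring
  rw [h2]
  refine ((h1.const_mul (1 / ρ ^ 2)).const_sub 1).congr_fderiv ?_
  ext v
  simp only [neg_smul, neg_apply, smul_apply, smul_eq_mul,
    nsmul_eq_mul]
  push_cast
  ring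

/-- The positive part. -/
noncomputable def ps (c : E2) (ρ : ℝ) (x : E2) : ℝ := max (sg c ρ x) 0

lemma continuous_sg (c : E2) (ρ : ℝ) : Continuous (sg c ρ) := by
  unfold sg
  fun_prop

lemma continuous_ps (c : E2) (ρ : ℝ) : Continuous (ps c ρ) :=
  (continuous_sg c ρ).max continuous_const

lemma ps_nonneg (c : E2) (ρ : ℝ) (x : E2) : 0 ≤ ps c ρ x := le_max_right _ _

lemma sg_le_one (c : E2) (ρ : ℝ) (x : E2) : sg c ρ x ≤ 1 := by
  unfold sg
  have := sq_nonneg (dist x c / ρ)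
  linarith

lemma ps_le_one (c : E2) (ρ : ℝ) (x : E2) : ps c ρ x ≤ 1 := max_le (sg_le_one c ρ x) zero_le_one

lemma sg_nonpos {c : E2} {ρ : ℝ} (hρ : 0 < ρ) {x : E2} (hx : ρ ≤ dist x c) : sg c ρ x ≤ 0 := by
  unfold sg
  have h1 : 1 ≤ dist x c / ρ := by rwa [le_div_iff₀ hρ, one_mul]
  nlinarith

lemma ps_zero {c : E2} {ρ : ℝ} (hρ : 0 < ρ) {x : E2} (hx : ρ ≤ dist x c) : ps c ρ x = 0 :=
  max_eq_right (sg_nonpos hρ hx)

lemma sg_pos {c : E2} {ρ : ℝ} (hρ : 0 < ρ) {x : E2} (hx : dist x c < ρ) : 0 < sg c ρ x := by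
  unfold sg
  have h1 : dist x c / ρ < 1 := by rwa [div_lt_iff₀ hρ, one_mul]
  have h2 : 0 ≤ dist x c / ρ := by positivity
  nlinarith

lemma hasFDerivAt_ps (c : E2) (ρ : ℝ) {n : ℕ} (hn : 1 ≤ n) (x : E2) :
    HasFDerivAt (fun x => ps c ρ x ^ (n + 1))
      (((n + 1) * ps c ρ x ^ n) • ((-(2 / ρ ^ 2)) • innerSL ℝ (x - c))) x :=
  (hasDerivAt_pos_pow hn (sg c ρ x)).comp_hasFDerivAt x (hasFDerivAt_sg c ρ x)

lemma hasFDerivAt_w (c : E2) (ρ ε : ℝ) (x : E2) :
    HasFDerivAt (bump c ρ ε).w ((-(6 * ε / ρ ^ 2) * ps c ρ x ^ 2) • innerSL ℝ (x - c)) x := by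
  have h1 := (hasFDerivAt_ps c ρ (n := 2) (by norm_num) x).const_mul ε
  have h2 : (bump c ρ ε).w = fun x => ε * ps c ρ x ^ (2 + 1) := rfl
  rw [h2]
  refine h1.congr_fderiv ?_
  rw [smul_smul, smul_smul]
  congr 1
  push_cast
  ring

lemma fderiv_w (c : E2) (ρ ε : ℝ) (x : E2) :
    fderiv ℝ (bump c ρ ε).w x = (-(6 * ε / ρ ^ 2) * ps c ρ x ^ 2) • innerSL ℝ (x - c) :=
  (hasFDerivAt_w c ρ ε x).fderiv

lemma contDiff_w (c : E2) (ρ ε : ℝ) : ContDiff ℝ 1 (bump c ρ ε).w := by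
  rw [contDiff_one_iff_fderiv]
  refine ⟨fun x => (hasFDerivAt_w c ρ ε x).differentiableAt, ?_⟩
  have h1 : fderiv ℝ (bump c ρ ε).w =
      fun x => (-(6 * ε / ρ ^ 2) * ps c ρ x ^ 2) • innerSL ℝ (x - c) := by
    funext x
    exact fderiv_w c ρ ε x
  rw [h1]
  have h2 := continuous_ps c ρ
  have h3 : Continuous fun x : E2 => innerSL ℝ (x - c) := by fun_prop
  exact (continuous_const.mul (h2.pow 2)).smul h3

/-- Components of the vector field. -/
noncomputable def V (c : E2) (ρ : ℝ) (j : Fin 2) (x : E2) : ℝ := ps c ρ x ^ 2 * (x j - c j)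

/-- The basis. -/
noncomputable def ee (j : Fin 2) : E2 := EuclideanSpace.single j 1

lemma hasFDerivAt_V (c : E2) (ρ : ℝ) (j : Fin 2) (x : E2) :
    HasFDerivAt (V c ρ j)
      (ps c ρ x ^ 2 • (EuclideanSpace.proj j : E2 →L[ℝ] ℝ) +
        (x j - c j) • ((2 * ps c ρ x) • ((-(2 / ρ ^ 2)) • innerSL ℝ (x - c)))) x := by
  have h1 := hasFDerivAt_ps c ρ (n := 1) le_rfl x
  have h2 : HasFDerivAt (fun x : E2 => x j - c j) (EuclideanSpace.proj j : E2 →L[ℝ] ℝ) x :=
    (EuclideanSpace.proj j : E2 →L[ℝ] ℝ).hasFDerivAt.sub_const (c j)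
  have h3 := h1.mul h2
  have h4 : V c ρ j = (fun x => ps c ρ x ^ (1 + 1)) * (fun x : E2 => x j - c j) := rfl
  rw [h4]
  refine h3.congr_fderiv ?_
  norm_num

lemma inner_ee (v : E2) (j : Fin 2) : ⟪v, ee j⟫_ℝ = v j := by
  unfold ee
  rw [EuclideanSpace.inner_single_right]
  simp

lemma fderiv_V (c : E2) (ρ : ℝ) (j : Fin 2) (x : E2) :
    fderiv ℝ (V c ρ j) x (ee j) =
      ps c ρ x ^ 2 - (4 / ρ ^ 2) * ps c ρ x * (x j - c j) ^ 2 := by
  rw [(hasFDerivAt_V c ρ j x).fderiv]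
  have h1 : (EuclideanSpace.proj j : E2 →L[ℝ] ℝ) (ee j) = 1 := by
    simp [ee]
  simp only [add_apply, smul_apply, h1, innerSL_apply_apply,
    inner_ee, smul_eq_mul]
  have h2 : (x - c) j = x j - c j := rfl
  rw [h2]
  ring

/-- Minus the Laplacian. -/
noncomputable def kap (c : E2) (ρ ε : ℝ) (x : E2) : ℝ :=
  (12 * ε / ρ ^ 2) * (ps c ρ x * (ps c ρ x - 2 * (dist x c / ρ) ^ 2))

lemma dist_sq_eq (c x : E2) : dist x c ^ 2 = (x 0 - c 0) ^ 2 + (x 1 - c 1) ^ 2 := by
  rw [EuclideanSpace.dist_eq, Real.sq_sqrt (by positivity), Fin.sum_univ_two]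
  rw [Real.dist_eq, Real.dist_eq, sq_abs, sq_abs]

lemma kap_eq (c : E2) (ρ ε : ℝ) (x : E2) :
    kap c ρ ε x = (6 * ε / ρ ^ 2) *
      (fderiv ℝ (V c ρ 0) x (ee 0) + fderiv ℝ (V c ρ 1) x (ee 1)) := by
  rw [fderiv_V, fderiv_V]
  unfold kap
  rw [div_pow, dist_sq_eq]
  ring

lemma continuous_kap (c : E2) (ρ ε : ℝ) : Continuous (kap c ρ ε) := by
  unfold kap
  have := continuous_ps c ρ
  fun_prop

lemma kap_zero {c : E2} {ρ ε : ℝ} (hρ : 0 < ρ) {x : E2} (hx : ρ ≤ dist x c) :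
    kap c ρ ε x = 0 := by
  unfold kap
  rw [ps_zero hρ hx]
  ring

lemma kap_ball {c : E2} {ρ ε : ℝ} (hρ : 0 < ρ) {x : E2} (hx : dist x c < ρ) :
    kap c ρ ε x = (12 * ε / ρ ^ 2) *
      ((1 - (dist x c / ρ) ^ 2) * (1 - 3 * (dist x c / ρ) ^ 2)) := by
  unfold kap
  have h1 : ps c ρ x = 1 - (dist x c / ρ) ^ 2 := max_eq_left (sg_pos hρ hx).le
  rw [h1]
  ring

lemma abs_kap_le {c : E2} {ρ ε : ℝ} (hρ : 0 < ρ) (hε : 0 ≤ ε) (x : E2) :
    |kap c ρ ε x| ≤ 12 * ε / ρ ^ 2 := by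
  have h0 : 0 ≤ 12 * ε / ρ ^ 2 := by positivity
  rcases lt_or_ge (dist x c) ρ with h | h
  · rw [kap_ball hρ h, abs_mul, abs_of_nonneg h0]
    have h1 : dist x c / ρ < 1 := by rwa [div_lt_iff₀ hρ, one_mul]
    have h2 : 0 ≤ dist x c / ρ := by positivity
    set s := (dist x c / ρ) ^ 2 with hs
    have hs0 : 0 ≤ s := by positivity
    have hs1 : s ≤ 1 := by nlinarith
    have h3 : |(1 - s) * (1 - 3 * s)| ≤ 1 := by
      rw [abs_le]
      constructor <;> nlinarith
    nlinarith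
  · rw [kap_zero hρ h, abs_zero]
    exact h0

/-- Measures with the density `kap`. -/
noncomputable def pp (κ : E2 → ℝ) : Measure E2 := volume.withDensity (fun x => ENNReal.ofReal (κ x))

lemma integral_pp {κ : E2 → ℝ} (hκ : Continuous κ) (u : E2 → ℝ) :
    ∫ x, u x ∂(pp κ) = ∫ x, (κ x).toNNReal * u x := by
  have h1 : Measurable fun x => (κ x).toNNReal := hκ.measurable.real_toNNReal
  have h2 := integral_withDensity_eq_integral_smul (μ := (volume : Measure E2)) h1 u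
  have h3 : pp κ = volume.withDensity (fun x => (((κ x).toNNReal : ℝ≥0) : ℝ≥0∞)) := rfl
  rw [h3, h2]
  rfl

lemma integral_diff {κ : E2 → ℝ} (hκ : Continuous κ) {u : E2 → ℝ} (hu : Continuous u)
    (hc : HasCompactSupport u) :
    ∫ x, u x ∂(pp κ) - ∫ x, u x ∂(pp (fun x => -κ x)) = ∫ x, κ x * u x := by
  rw [integral_pp hκ, integral_pp (κ := fun x => -κ x) hκ.neg, ← integral_sub]
  · apply integral_congr_ae
    filter_upwards with x
    rw [← sub_mul, Real.coe_toNNReal', Real.coe_toNNReal']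
    congr 1
    exact max_zero_sub_max_neg_zero_eq_self (κ x)
  · have h1 : Continuous fun x => ((κ x).toNNReal : ℝ) * u x :=
      (NNReal.continuous_coe.comp (continuous_real_toNNReal.comp hκ)).mul hu
    exact h1.integrable_of_hasCompactSupport hc.mul_left
  · have h1 : Continuous fun x => ((-κ x).toNNReal : ℝ) * u x :=
      (NNReal.continuous_coe.comp (continuous_real_toNNReal.comp hκ.neg)).mul hu
    exact h1.integrable_of_hasCompactSupport hc.mul_left

/-- The sign argument. -/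
lemma full_aux {κ : E2 → ℝ} (hκ : Continuous κ) {U : Set E2} (hU : IsOpen U) {x₀ : E2}
    (hx : x₀ ∈ U) (h0 : 0 < κ x₀) :
    ∃ A ⊆ U, MeasurableSet A ∧ pp κ A ≠ 0 ∧ pp (fun x => -κ x) A = 0 := by
  set A : Set E2 := U ∩ {x | 0 < κ x} with hA
  have hAo : IsOpen A := hU.inter (isOpen_lt continuous_const hκ)
  refine ⟨A, inter_subset_left, hAo.measurableSet, ?_, ?_⟩
  · unfold pp
    rw [Ne, withDensity_apply_eq_zero hκ.measurable.ennreal_ofReal]
    have h1 : {x | ENNReal.ofReal (κ x) ≠ 0} ∩ A = A := by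
      apply inter_eq_right.2
      intro x hx
      simp only [mem_ofPred_eq, ne_eq, ENNReal.ofReal_eq_zero, not_le]
      exact hx.2
    rw [h1]
    exact (hAo.measure_pos volume ⟨x₀, hx, h0⟩).ne'
  · unfold pp
    rw [withDensity_apply_eq_zero (show Measurable fun x => ENNReal.ofReal (-κ x) from
      hκ.neg.measurable.ennreal_ofReal)]
    have h1 : {x | ENNReal.ofReal (-κ x) ≠ 0} ∩ A = ∅ := by
      rw [eq_empty_iff_forall_notMem]
      rintro x ⟨hx1, hx2⟩
      apply hx1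
      rw [ENNReal.ofReal_eq_zero]
      have : 0 < κ x := hx2.2
      linarith
    rw [h1, measure_empty]

lemma full_aux2 {κ : E2 → ℝ} (hκ : Continuous κ) {U : Set E2} (hU : IsOpen U) {x₀ : E2}
    (hx : x₀ ∈ U) (h0 : κ x₀ ≠ 0) :
    ∃ A ⊆ U, MeasurableSet A ∧ pp κ A ≠ pp (fun x => -κ x) A := by
  rcases lt_or_gt_of_ne h0 with h | h
  · obtain ⟨A, hA1, hA2, hA3, hA4⟩ := full_aux (κ := fun x => -κ x) hκ.neg hU hx (by
      show 0 < -κ x₀
      linarith)
    refine ⟨A, hA1, hA2, ?_⟩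
    simp only [neg_neg] at hA4
    intro h5
    apply hA3
    rw [← h5]
    exact hA4
  · obtain ⟨A, hA1, hA2, hA3, hA4⟩ := full_aux hκ hU hx h
    refine ⟨A, hA1, hA2, ?_⟩
    rw [hA4]
    exact hA3

lemma exists_ne {c : E2} {ρ ε : ℝ} (hρ : 0 < ρ) (hε : 0 < ε) {U : Set E2} (hU : IsOpen U)
    (hne : (U ∩ ball c ρ).Nonempty) : ∃ x ∈ U ∩ ball c ρ, kap c ρ ε x ≠ 0 := by
  obtain ⟨y, hyU, hyb⟩ := hne
  by_cases h : kap c ρ ε y ≠ 0
  · exact ⟨y, ⟨hyU, hyb⟩, h⟩
  push Not at h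
  have hO : IsOpen (U ∩ ball c ρ) := hU.inter isOpen_ball
  have hcont : Continuous fun t : ℝ => y + t • (y - c) := by fun_prop
  have h1 : ∀ᶠ t : ℝ in 𝓝 0, y + t • (y - c) ∈ U ∩ ball c ρ := by
    apply hcont.continuousAt.eventually_mem
    apply hO.mem_nhds
    simpa using ⟨hyU, hyb⟩
  obtain ⟨δ, hδ, hδ2⟩ := Metric.eventually_nhds_iff.1 h1
  have h2 := hδ2 (y := δ / 2) (by
    rw [Real.dist_eq, sub_zero, abs_of_pos (by positivity)]
    linarith)
  refine ⟨_, h2, ?_⟩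
  have hfac : 0 < 12 * ε / ρ ^ 2 := by positivity
  rw [mem_ball] at hyb
  have h3 : 3 * (dist y c / ρ) ^ 2 = 1 := by
    rw [kap_ball hρ hyb] at h
    have h4 : dist y c / ρ < 1 := by rwa [div_lt_iff₀ hρ, one_mul]
    have h5 : 0 ≤ dist y c / ρ := by positivity
    have h6 : 0 < 1 - (dist y c / ρ) ^ 2 := by nlinarith
    rcases mul_eq_zero.1 h with h7 | h7
    · exact absurd h7 hfac.ne'
    · rcases mul_eq_zero.1 h7 with h8 | h8
      · exact absurd h8 h6.ne'
      · linarith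
  have hb2 := h2.2
  rw [mem_ball] at hb2
  rw [kap_ball hρ hb2]
  have h9 : dist (y + (δ / 2) • (y - c)) c = (1 + δ / 2) * dist y c := by
    rw [dist_eq_norm, dist_eq_norm]
    have : y + (δ / 2) • (y - c) - c = (1 + δ / 2) • (y - c) := by module
    rw [this, norm_smul, Real.norm_eq_abs, abs_of_pos (by positivity)]
  rw [h9] at hb2 ⊢
  have h10 : ((1 + δ / 2) * dist y c / ρ) ^ 2 = (1 + δ / 2) ^ 2 * (dist y c / ρ) ^ 2 := by
    ring
  have h11 : (1 + δ / 2) * dist y c / ρ < 1 := by rwa [div_lt_iff₀ hρ, one_mul]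
  have h12 : 0 ≤ (1 + δ / 2) * dist y c / ρ := by positivity
  have h13 : 0 < 1 - ((1 + δ / 2) * dist y c / ρ) ^ 2 := by nlinarith
  refine mul_ne_zero hfac.ne' (mul_ne_zero h13.ne' ?_)
  rw [h10]
  have h14 : 1 - 3 * ((1 + δ / 2) ^ 2 * (dist y c / ρ) ^ 2) = 1 - (1 + δ / 2) ^ 2 := by
    rw [show 3 * ((1 + δ / 2) ^ 2 * (dist y c / ρ) ^ 2) =
      (1 + δ / 2) ^ 2 * (3 * (dist y c / ρ) ^ 2) by ring, h3]
    ring
  rw [h14]
  nlinarith

lemma parts {c : E2} {ρ : ℝ} (j : Fin 2) {u : E2 → ℝ} (hu : C1c univ u) :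
    ∫ x, V c ρ j x * fderiv ℝ u x (ee j) = -∫ x, fderiv ℝ (V c ρ j) x (ee j) * u x := by
  have hV : Continuous (V c ρ j) := by
    unfold V
    have := continuous_ps c ρ
    fun_prop
  have hV' : Continuous fun x => fderiv ℝ (V c ρ j) x (ee j) := by
    simp only [fderiv_V]
    have := continuous_ps c ρ
    fun_prop
  have hu' : Continuous fun x => fderiv ℝ u x (ee j) :=
    (hu.1.continuous_fderiv one_ne_zero).clm_apply continuous_const
  have hc' : HasCompactSupport fun x => fderiv ℝ u x (ee j) :=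
    (hu.2.1.fderiv ℝ).comp_left (g := fun A : E2 →L[ℝ] ℝ => A (ee j)) (by simp)
  apply integral_mul_fderiv_eq_neg_fderiv_mul_of_integrable
  · exact (hV'.mul hu.1.continuous).integrable_of_hasCompactSupport hu.2.1.mul_left
  · exact (hV.mul hu').integrable_of_hasCompactSupport hc'.mul_left
  · exact (hV.mul hu.1.continuous).integrable_of_hasCompactSupport hu.2.1.mul_left
  · intro x _
    exact (hasFDerivAt_V c ρ j x).differentiableAt
  · intro x _
    exact (hu.1.differentiable one_ne_zero) x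

lemma sum_ee (v : E2) : v = v 0 • ee 0 + v 1 • ee 1 := by
  ext i
  fin_cases i <;> simp [ee]

lemma inner_grad (c : E2) (ρ ε : ℝ) (u : E2 → ℝ) (x : E2) :
    ⟪gradient (bump c ρ ε).w x, gradient u x⟫_ℝ =
      -(6 * ε / ρ ^ 2) * (V c ρ 0 x * fderiv ℝ u x (ee 0) + V c ρ 1 x * fderiv ℝ u x (ee 1)) := by
  have h1 : ⟪gradient (bump c ρ ε).w x, gradient u x⟫_ℝ =
      fderiv ℝ (bump c ρ ε).w x (gradient u x) :=
    InnerProductSpace.toDual_symm_apply
  have h2 : ⟪gradient u x, x - c⟫_ℝ = fderiv ℝ u x (x - c) :=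
    InnerProductSpace.toDual_symm_apply
  rw [h1, fderiv_w, smul_apply, innerSL_apply_apply, real_inner_comm, h2]
  have h3 : fderiv ℝ u x (x - c) =
      (x 0 - c 0) * fderiv ℝ u x (ee 0) + (x 1 - c 1) * fderiv ℝ u x (ee 1) := by
    conv_lhs => rw [sum_ee (x - c)]
    rw [map_add, map_smul, map_smul]
    rfl
  rw [h3]
  unfold V
  rw [smul_eq_mul]
  ring

end Bump

open Bump

theorem bump_reg (c : E2) {ρ ε : ℝ} (hρ : 0 < ρ) : (bump c ρ ε).Reg where
  ρ_pos := hρ
  smooth := contDiff_w c ρ ε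
  supp := by
    intro x hx
    have hx' : ρ ≤ dist x c := hx
    refine ⟨?_, ?_⟩
    · show ε * ps c ρ x ^ 3 = 0
      rw [ps_zero hρ hx']
      ring
    · rw [fderiv_w, ps_zero hρ hx']
      simp
  unit := by
    intro ν hν
    simp [bump] at hν

theorem bump_grad (c : E2) {ρ ε : ℝ} (hρ : 0 < ρ) (hε : 0 ≤ ε) (x : E2) :
    ‖fderiv ℝ (bump c ρ ε).w x‖ ≤ 6 * ε / ρ := by
  rw [fderiv_w, norm_smul, innerSL_apply_norm]
  rcases lt_or_ge (dist x c) ρ with h | h
  · have h1 : ‖-(6 * ε / ρ ^ 2) * ps c ρ x ^ 2‖ ≤ 6 * ε / ρ ^ 2 := by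
      rw [norm_mul, norm_neg, Real.norm_of_nonneg (by positivity), Real.norm_of_nonneg (by positivity)]
      have h2 : ps c ρ x ^ 2 ≤ 1 := pow_le_one₀ (ps_nonneg c ρ x) (ps_le_one c ρ x)
      have h3 : 0 ≤ 6 * ε / ρ ^ 2 := by positivity
      nlinarith
    have h4 : ‖x - c‖ ≤ ρ := by
      rw [← dist_eq_norm]
      exact h.le
    calc _ ≤ 6 * ε / ρ ^ 2 * ρ := mul_le_mul h1 h4 (norm_nonneg _) (by positivity)
      _ = 6 * ε / ρ := by field_simp
  · rw [ps_zero hρ h]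
    simp only [ne_eq, OfNat.ofNat_ne_zero, not_false_eq_true, zero_pow, mul_zero, norm_zero,
      zero_mul]
    positivity

lemma Bump.vol_real (c : E2) {ρ : ℝ} (hρ : 0 < ρ) :
    volume.real (closedBall c ρ) = ρ ^ 2 * Real.pi := by
  rw [Measure.real, EuclideanSpace.volume_closedBall_fin_two, ENNReal.toReal_mul,
    ENNReal.toReal_pow, ENNReal.toReal_ofReal hρ.le, ENNReal.toReal_ofReal Real.pi_pos.le]

theorem bump_Dir (c : E2) {ρ ε : ℝ} (hρ : 0 < ρ) (hε : 0 ≤ ε) :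
    Dir (bump c ρ ε).w ≤ 200 * ε ^ 2 := by
  unfold Dir
  have h1 : ∫ x in closedBall c ρ, ‖fderiv ℝ (bump c ρ ε).w x‖ ^ 2 =
      ∫ x, ‖fderiv ℝ (bump c ρ ε).w x‖ ^ 2 := by
    apply setIntegral_eq_integral_of_forall_compl_eq_zero
    intro x hx
    rw [mem_closedBall, not_le] at hx
    rw [((bump_reg c hρ (ε := ε)).supp x hx.le).2]
    simp
  rw [← h1]
  have h2 : ‖∫ x in closedBall c ρ, ‖fderiv ℝ (bump c ρ ε).w x‖ ^ 2‖ ≤
      (6 * ε / ρ) ^ 2 * volume.real (closedBall c ρ) := by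
    apply norm_setIntegral_le_of_norm_le_const (isCompact_closedBall c ρ).measure_lt_top
    intro x _
    rw [norm_pow, norm_norm]
    exact pow_le_pow_left₀ (norm_nonneg _) (bump_grad c hρ hε x) 2
  refine (le_abs_self _).trans (h2.trans ?_)
  rw [Bump.vol_real c hρ]
  have h3 : (6 * ε / ρ) ^ 2 * (ρ ^ 2 * Real.pi) = 36 * Real.pi * ε ^ 2 := by
    field_simp
    ring
  rw [h3]
  have h4 := Real.pi_lt_d2
  have h5 := sq_nonneg ε
  nlinarith

theorem bump_rep (c : E2) {ρ ε : ℝ} (m : ℝ) (hρ : 0 < ρ) (hε : 0 < ε) :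
    ∃ p q : Measure E2, (bump c ρ ε).Rep m p q (100 * ε) := by
  have hκ := continuous_kap c ρ ε
  refine ⟨pp (kap c ρ ε), pp (fun x => -kap c ρ ε x), ?_⟩
  have hzero : ∀ κ : E2 → ℝ, Continuous κ → (∀ x, ρ ≤ dist x c → κ x = 0) →
      pp κ (closedBall c ρ)ᶜ = 0 := by
    intro κ hκ h
    unfold pp
    rw [withDensity_apply_eq_zero hκ.measurable.ennreal_ofReal]
    have h1 : {x | ENNReal.ofReal (κ x) ≠ 0} ∩ (closedBall c ρ)ᶜ = ∅ := by
      rw [eq_empty_iff_forall_notMem]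
      rintro x ⟨hx1, hx2⟩
      apply hx1
      rw [mem_compl_iff, mem_closedBall, not_le] at hx2
      rw [h x hx2.le, ENNReal.ofReal_zero]
    rw [h1, measure_empty]
  refine ⟨?_, ?_, ?_, ?_, ?_⟩
  · -- mass
    have h1 : pp (kap c ρ ε) univ + pp (fun x => -kap c ρ ε x) univ =
        ∫⁻ x, (ENNReal.ofReal (kap c ρ ε x) + ENNReal.ofReal (-kap c ρ ε x)) := by
      unfold pp
      rw [withDensity_apply _ MeasurableSet.univ, withDensity_apply _ MeasurableSet.univ,
        Measure.restrict_univ, lintegral_add_left hκ.measurable.ennreal_ofReal]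
    rw [h1]
    calc ∫⁻ x, (ENNReal.ofReal (kap c ρ ε x) + ENNReal.ofReal (-kap c ρ ε x)) ≤
        ∫⁻ x, (closedBall c ρ).indicator (fun _ => ENNReal.ofReal (12 * ε / ρ ^ 2)) x := by
          apply lintegral_mono
          intro x
          show ENNReal.ofReal (kap c ρ ε x) + ENNReal.ofReal (-kap c ρ ε x) ≤ _
          by_cases hx : x ∈ closedBall c ρ
          · rw [indicator_of_mem hx]
            have h2 := abs_kap_le hρ hε.le (c := c) x
            rcases le_total 0 (kap c ρ ε x) with h3 | h3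
            · rw [ENNReal.ofReal_of_nonpos (show -kap c ρ ε x ≤ 0 by linarith), add_zero]
              apply ENNReal.ofReal_le_ofReal
              exact (le_abs_self _).trans h2
            · rw [ENNReal.ofReal_of_nonpos h3, zero_add]
              apply ENNReal.ofReal_le_ofReal
              exact (neg_le_abs _).trans h2
          · rw [indicator_of_notMem hx]
            rw [mem_closedBall, not_le] at hx
            rw [kap_zero hρ hx.le]
            simp
      _ = ENNReal.ofReal (12 * ε / ρ ^ 2) * volume (closedBall c ρ) := by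
          rw [lintegral_indicator measurableSet_closedBall, setLIntegral_const]
      _ ≤ ENNReal.ofReal (100 * ε) := by
          rw [← ENNReal.ofReal_toReal (isCompact_closedBall c ρ).measure_lt_top.ne,
            ← ENNReal.ofReal_mul (by positivity)]
          apply ENNReal.ofReal_le_ofReal
          have h4 := Bump.vol_real c hρ
          unfold Measure.real at h4
          rw [h4]
          have h5 : 12 * ε / ρ ^ 2 * (ρ ^ 2 * Real.pi) = 12 * Real.pi * ε := by
            field_simp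
          rw [h5]
          have h6 := Real.pi_lt_d2
          nlinarith
  · exact hzero _ hκ (fun x hx => kap_zero hρ hx)
  · exact hzero _ hκ.neg (fun x hx => by
      show -kap c ρ ε x = 0
      rw [kap_zero hρ hx, neg_zero])
  · intro u hu
    rw [integral_diff hκ hu.1.continuous hu.2.1]
    have hT : (bump c ρ ε).T u = 0 := by
      simp [Blk.T, bump]
    rw [hT, mul_zero, add_zero]
    unfold Blk.D
    simp only [inner_grad]
    rw [integral_const_mul, integral_add]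
    · rw [parts 0 hu, parts 1 hu]
      simp only [kap_eq]
      have hV' : ∀ j, Integrable fun x => fderiv ℝ (V c ρ j) x (ee j) * u x := by
        intro j
        have hV' : Continuous fun x => fderiv ℝ (V c ρ j) x (ee j) := by
          simp only [fderiv_V]
          have := continuous_ps c ρ
          fun_prop
        exact (hV'.mul hu.1.continuous).integrable_of_hasCompactSupport hu.2.1.mul_left
      have h5 : ∀ x, 6 * ε / ρ ^ 2 * (fderiv ℝ (V c ρ 0) x (ee 0) + fderiv ℝ (V c ρ 1) x (ee 1)) *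
          u x = 6 * ε / ρ ^ 2 * (fderiv ℝ (V c ρ 0) x (ee 0) * u x +
            fderiv ℝ (V c ρ 1) x (ee 1) * u x) := by
        intro x
        ring
      simp only [h5]
      rw [integral_const_mul, integral_add (hV' 0) (hV' 1)]
      ring
    all_goals
      have hV : ∀ j, Continuous (V c ρ j) := by
        intro j
        unfold V
        have := continuous_ps c ρ
        fun_prop
      have hu' : ∀ j, Continuous fun x => fderiv ℝ u x (ee j) := fun j =>
        (hu.1.continuous_fderiv one_ne_zero).clm_apply continuous_const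
      have hc' : ∀ j, HasCompactSupport fun x => fderiv ℝ u x (ee j) := fun j =>
        (hu.2.1.fderiv ℝ).comp_left (g := fun A : E2 →L[ℝ] ℝ => A (ee j)) (by simp)
      exact ((hV _).mul (hu' _)).integrable_of_hasCompactSupport (hc' _).mul_left
  · intro U hU hne
    obtain ⟨x₀, hx₀, h0⟩ := exists_ne hρ hε hU hne
    exact full_aux2 hκ (hU.inter isOpen_ball) hx₀ h0

end Pool.Agent.Lib.P8e
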