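import Pool.Agent.Lib.P8e.TLem

set_option autoImplicit false

/-!
# Concave chains

PROOF SKETCH. `alt_sum`: let `e_i = dirv (s_i)` for `1 ≤ i ≤ n`, `e_0 = e_(n+1) = 0`. Claim: for every set `g` of indices in
`{0..n}` the vector `∑_{i ∈ g} (e_i - e_(i+1))` has norm `≤ 1`. Take a unit vector `z = (a, b)` and `c_i = z · e_i = (a + b s_i) / √(1 + s_i^2)`.
* If `|a| < 1/2`: the full sum is `0`, so `∑_g (c_i - c_(i+1)) ≤ 1/2 ∑_{i=0}^n |c_i - c_(i+1)| ≤ 1/2 (|c_1| + |c_n| + (s_1 - s_n)) ≤ 1/2 (0.6 + 0.6 + 0.2) ≤ 1`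
  (`|c_i| ≤ |a| + |b|/10 ≤ 0.6`, `|c_i - c_(i+1)| ≤ |s_i - s_(i+1)|`).
* If `a ≥ 1/2`: `c_i > 0`, and `F(s) = (a + b s)/√(1 + s^2)` is increasing for `s ≤ b/a` and decreasing for `s ≥ b/a`; since `s_i`
  decreases, `c` increases up to some index `m` and decreases afterwards, so `∑_g (c_i - c_(i+1)) ≤ ∑_{i ≥ m} (c_i - c_(i+1)) = c_m ≤ 1`.
* If `a ≤ -1/2`: pass to `-z` and the complement of `g` (the full sum is `0`).
Then `‖w‖ ≤ 1` follows by `z = w / ‖w‖`.
`chain`: `tlem` with terminals `y_0..y_n` (`ι = Fin (n + 1)`), `ψ_i = e_i - e_(i+1)`, where `e_(i+1) = dirv (s i)` (shift of the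
index: here the edge from `y_i` to `y_(i+1)` has slope `s i`); summation by parts.
`chain_dist`: write `y_i = x_i + (y_i - x_i)` where `x_(i+1) - x_i = |x_(i+1) - x_i| dirv (s i)`.
-/

open MeasureTheory Set Metric
open scoped ENNReal NNReal InnerProductSpace

namespace Pool.Agent.Lib.P8e

/-- The unit vector of slope `s`. -/
noncomputable def dirv (s : ℝ) : E2 := (√(1 + s ^ 2))⁻¹ • !₂[1, s]

private lemma sqrt_pos' (s : ℝ) : 0 < √(1 + s ^ 2) := Real.sqrt_pos.mpr (by positivity)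

private lemma sqrt_sq' (s : ℝ) : √(1 + s ^ 2) ^ 2 = 1 + s ^ 2 := Real.sq_sqrt (by positivity)

private lemma one_le_sqrt' (s : ℝ) : 1 ≤ √(1 + s ^ 2) := by
  rw [Real.one_le_sqrt]
  nlinarith [sq_nonneg s]

private lemma dirv_zero (s : ℝ) : dirv s 0 = (√(1 + s ^ 2))⁻¹ := by
  simp [dirv]

private lemma dirv_one (s : ℝ) : dirv s 1 = (√(1 + s ^ 2))⁻¹ * s := by
  simp [dirv]

private lemma inner_E2 (x y : E2) : ⟪x, y⟫_ℝ = x 0 * y 0 + x 1 * y 1 := by
  rw [PiLp.inner_apply, Fin.sum_univ_two]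
  simp only [RCLike.inner_apply, conj_trivial]
  ring

lemma norm_dirv (s : ℝ) : ‖dirv s‖ = 1 := by
  have h : ‖dirv s‖ ^ 2 = 1 := by
    rw [← real_inner_self_eq_norm_sq, inner_E2, dirv_zero, dirv_one]
    have h1 := sqrt_pos' s
    have h2 := sqrt_sq' s
    field_simp
    rw [h2]
  have h1 : 0 ≤ ‖dirv s‖ := norm_nonneg _
  nlinarith

lemma dirv_sub_le (s s' : ℝ) : ‖dirv s - dirv s'‖ ≤ |s - s'| := by
  apply abs_le_of_sq_le_sq' _ (abs_nonneg _) |>.2
  rw [sq_abs, @norm_sub_sq_real, norm_dirv, norm_dirv, inner_E2, dirv_zero, dirv_one, dirv_zero,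
    dirv_one]
  set A := √(1 + s ^ 2) with hA
  set B := √(1 + s' ^ 2) with hB
  have hA1 : 1 ≤ A := one_le_sqrt' s
  have hB1 : 1 ≤ B := one_le_sqrt' s'
  have hA2 : A ^ 2 = 1 + s ^ 2 := sqrt_sq' s
  have hB2 : B ^ 2 = 1 + s' ^ 2 := sqrt_sq' s'
  have hA0 : 0 < A := by linarith
  have hB0 : 0 < B := by linarith
  have e : (1 : ℝ) ^ 2 - 2 * (A⁻¹ * B⁻¹ + A⁻¹ * s * (B⁻¹ * s')) + 1 ^ 2 =
      ((s - s') ^ 2 - (A - B) ^ 2) / (A * B) := by
    field_simp
    nlinarith
  rw [e, div_le_iff₀ (by positivity)]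
  have h1 : 1 ≤ A * B := by nlinarith
  nlinarith [sq_nonneg (A - B), sq_nonneg (s - s')]

/-- A vector with positive first coordinate is a multiple of `dirv`. -/
lemma eq_smul_dirv (a b : ℝ) (ha : 0 ≤ a) (s : ℝ) (hb : b = s * a) :
    (!₂[a, b] : E2) = ‖(!₂[a, b] : E2)‖ • dirv s := by
  have h1 := sqrt_pos' s
  have h2 := sqrt_sq' s
  have hn : ‖(!₂[a, b] : E2)‖ = a * √(1 + s ^ 2) := by
    rw [EuclideanSpace.norm_eq, Fin.sum_univ_two]
    have : ‖(!₂[a, b] : E2) 0‖ ^ 2 + ‖(!₂[a, b] : E2) 1‖ ^ 2 = (a * √(1 + s ^ 2)) ^ 2 := by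
      rw [mul_pow, h2]
      simp only [Real.norm_eq_abs, sq_abs]
      show a ^ 2 + b ^ 2 = a ^ 2 * (1 + s ^ 2)
      rw [hb]
      ring
    rw [this, Real.sqrt_sq (by positivity)]
  rw [hn]
  unfold dirv
  rw [smul_smul, mul_assoc, mul_inv_cancel₀ h1.ne', mul_one]
  ext i
  fin_cases i
  · simp
  · simp [hb, mul_comm]

/-- comparison of the cosines -/
private lemma F_mono {a b s t : ℝ} (hs : 0 < a + b * s) (ht : 0 < a + b * t) (hst : t ≤ s)
    (h : 0 ≤ (b - a * s) * (a + b * t) + (b - a * t) * (a + b * s)) :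
    (a + b * t) * (√(1 + t ^ 2))⁻¹ ≤ (a + b * s) * (√(1 + s ^ 2))⁻¹ := by
  have h1 := sqrt_pos' s
  have h2 := sqrt_pos' t
  have h3 := sqrt_sq' s
  have h4 := sqrt_sq' t
  rw [← div_eq_mul_inv, ← div_eq_mul_inv, div_le_div_iff₀ h2 h1]
  apply abs_le_of_sq_le_sq' _ (by positivity) |>.2
  rw [mul_pow, mul_pow, h3, h4]
  nlinarith [mul_nonneg (sub_nonneg.mpr hst) h]

private lemma F_anti {a b s t : ℝ} (hs : 0 < a + b * s) (ht : 0 < a + b * t) (hst : t ≤ s)
    (h : (b - a * s) * (a + b * t) + (b - a * t) * (a + b * s) ≤ 0) :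
    (a + b * s) * (√(1 + s ^ 2))⁻¹ ≤ (a + b * t) * (√(1 + t ^ 2))⁻¹ := by
  have h1 := sqrt_pos' s
  have h2 := sqrt_pos' t
  have h3 := sqrt_sq' s
  have h4 := sqrt_sq' t
  rw [← div_eq_mul_inv, ← div_eq_mul_inv, div_le_div_iff₀ h1 h2]
  apply abs_le_of_sq_le_sq' _ (by positivity) |>.2
  rw [mul_pow, mul_pow, h3, h4]
  nlinarith [mul_nonneg (sub_nonneg.mpr hst) (neg_nonneg.mpr h)]

/-- the vectors of the alternating sum -/
private noncomputable def ev (n : ℕ) (s : ℕ → ℝ) (i : ℕ) : E2 :=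
  if 1 ≤ i ∧ i ≤ n then dirv (s (i - 1)) else 0

private lemma ev_succ {n : ℕ} {s : ℕ → ℝ} {k : ℕ} (hk : k < n) : ev n s (k + 1) = dirv (s k) := by
  unfold ev
  rw [if_pos ⟨by omega, by omega⟩]
  simp

private lemma ev_zero (n : ℕ) (s : ℕ → ℝ) : ev n s 0 = 0 := by
  unfold ev
  rw [if_neg (by omega)]

private lemma ev_last (n : ℕ) (s : ℕ → ℝ) : ev n s (n + 1) = 0 := by
  unfold ev
  rw [if_neg (by omega)]

private lemma term_eq {n : ℕ} {s : ℕ → ℝ} {i : ℕ} (hi : i ≤ n) :
    ((if 1 ≤ i then dirv (s (i - 1)) else 0) - (if i < n then dirv (s i) else 0)) =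
      ev n s i - ev n s (i + 1) := by
  unfold ev
  congr 1
  · by_cases h : 1 ≤ i
    · rw [if_pos h, if_pos ⟨h, hi⟩]
    · rw [if_neg h, if_neg (by omega)]
  · by_cases h : i < n
    · rw [if_pos h, if_pos ⟨by omega, by omega⟩]
      simp
    · rw [if_neg h, if_neg (by omega)]

private lemma inner_dirv (z : E2) (s : ℝ) :
    ⟪z, dirv s⟫_ℝ = (z 0 + z 1 * s) * (√(1 + s ^ 2))⁻¹ := by
  rw [inner_E2, dirv_zero, dirv_one]
  ring

private lemma inner_le_one {z : E2} (hz : ‖z‖ = 1) (s : ℝ) : ⟪z, dirv s⟫_ℝ ≤ 1 := by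
  have := real_inner_le_norm z (dirv s)
  rw [hz, norm_dirv] at this
  linarith

/-- the case of positive first coordinate -/
private lemma pos_case (n : ℕ) (s : ℕ → ℝ) (hs : ∀ i, |s i| ≤ 1 / 10) (hanti : Antitone s)
    (z : E2) (hz : ‖z‖ = 1) (ha : 1 / 2 ≤ z 0) (g : Finset ℕ) :
    ∑ i ∈ Finset.range (n + 1), (if i ∈ g then ⟪z, ev n s i - ev n s (i + 1)⟫_ℝ else 0) ≤ 1 := by
  set c : ℕ → ℝ := fun i => ⟪z, ev n s i⟫_ℝ with hc
  set u : ℕ → ℝ := fun i => if i ∈ g then c i - c (i + 1) else 0 with hu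
  have hsum : ∑ i ∈ Finset.range (n + 1), (if i ∈ g then ⟪z, ev n s i - ev n s (i + 1)⟫_ℝ else 0) =
      ∑ i ∈ Finset.range (n + 1), u i := by
    refine Finset.sum_congr rfl fun i _ => ?_
    simp only [hu, hc, inner_sub_right]
  rw [hsum]
  have hb : |z 1| ≤ 1 := by
    have h1 : z 0 ^ 2 + z 1 ^ 2 = 1 := by
      have h2 := real_inner_self_eq_norm_sq z
      rw [inner_E2, hz] at h2
      linarith
    rw [abs_le]
    constructor
    · nlinarith [sq_nonneg (z 0)]
    · nlinarith [sq_nonneg (z 0)]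
  have hpos : ∀ i, 0 < z 0 + z 1 * s i := by
    intro i
    have h1 : |z 1 * s i| ≤ 1 * (1 / 10) := by
      rw [abs_mul]
      exact mul_le_mul hb (hs i) (abs_nonneg _) (by norm_num)
    have h2 := (abs_le.mp h1).1
    linarith
  have hck : ∀ k, k < n → c (k + 1) = (z 0 + z 1 * s k) * (√(1 + s k ^ 2))⁻¹ := by
    intro k hk
    simp only [hc]
    rw [ev_succ hk, inner_dirv]
  have hc1 : ∀ k, k < n → c (k + 1) ≤ 1 := by
    intro k hk
    simp only [hc]
    rw [ev_succ hk]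
    exact inner_le_one hz _
  have hc0 : ∀ k, k < n → 0 < c (k + 1) := by
    intro k hk
    rw [hck k hk]
    have := sqrt_pos' (s k)
    have h2 := hpos k
    positivity
  -- backward induction
  have key : ∀ j k, k + 1 + j = n → (∑ i ∈ Finset.Ico (k + 1) (n + 1), u i ≤ 1) ∧
      (0 ≤ z 1 - z 0 * s k → ∑ i ∈ Finset.Ico (k + 1) (n + 1), u i ≤ c (k + 1)) := by
    intro j
    induction j with
    | zero =>
      intro k hk
      have hk' : k + 1 = n := by omega
      have hI : ∑ i ∈ Finset.Ico (k + 1) (n + 1), u i = u n := by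
        rw [hk']
        simp
      have hun : u n ≤ c (k + 1) := by
        have h0 : c (n + 1) = 0 := by
          simp only [hc]
          rw [ev_last, inner_zero_right]
        have h1 := hc0 k (by omega)
        rw [hk'] at h1 ⊢
        simp only [hu]
        split_ifs
        · rw [h0]
          linarith
        · exact h1.le
      rw [hI]
      exact ⟨hun.trans (hc1 k (by omega)), fun _ => hun⟩
    | succ j ih =>
      intro k hk
      obtain ⟨ih1, ih2⟩ := ih (k + 1) (by omega)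
      have hI : ∑ i ∈ Finset.Ico (k + 1) (n + 1), u i =
          u (k + 1) + ∑ i ∈ Finset.Ico (k + 1 + 1) (n + 1), u i := by
        rw [Finset.sum_eq_sum_Ico_succ_bot (by omega)]
      rw [hI]
      have hkk : k < n := by omega
      have hkk1 : k + 1 < n := by omega
      have e0 := hck k hkk
      have e1 := hck (k + 1) hkk1
      have hmono : s (k + 1) ≤ s k := hanti (Nat.le_succ k)
      have hp0 := hpos k
      have hp1 := hpos (k + 1)
      have ha0 : 0 < z 0 := by linarith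
      by_cases hG : 0 ≤ z 1 - z 0 * s k
      · have hG1 : 0 ≤ z 1 - z 0 * s (k + 1) := by nlinarith
        have h3 := ih2 hG1
        have h4 : c (k + 1 + 1) ≤ c (k + 1) := by
          rw [e0, e1]
          exact F_mono hp0 hp1 hmono (by positivity)
        have h5 : u (k + 1) + ∑ i ∈ Finset.Ico (k + 1 + 1) (n + 1), u i ≤ c (k + 1) := by
          simp only [hu] at h3 ⊢
          split_ifs
          · linarith
          · linarith
        exact ⟨h5.trans (hc1 k hkk), fun _ => h5⟩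
      · push Not at hG
        refine ⟨?_, fun h => absurd h (not_le.mpr hG)⟩
        by_cases hG1 : 0 ≤ z 1 - z 0 * s (k + 1)
        · have h3 := ih2 hG1
          have h6 := hc1 k hkk
          have h7 := hc1 (k + 1) hkk1
          simp only [hu] at h3 ⊢
          split_ifs
          · linarith
          · linarith
        · push Not at hG1
          have h4 : c (k + 1) ≤ c (k + 1 + 1) := by
            rw [e0, e1]
            refine F_anti hp0 hp1 hmono ?_
            nlinarith [mul_pos (neg_pos.mpr hG) hp1, mul_pos (neg_pos.mpr hG1) hp0]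
          simp only [hu] at ih1 ⊢
          split_ifs
          · linarith
          · linarith
  rcases Nat.eq_zero_or_pos n with hn | hn
  · subst hn
    simp only [zero_add, Finset.range_one, Finset.sum_singleton]
    simp only [hu, hc]
    rw [ev_zero, ev_last, inner_zero_right]
    split_ifs <;> norm_num
  · have h1 := (key (n - 1) 0 (by omega)).1
    rw [Finset.range_eq_Ico, Finset.sum_eq_sum_Ico_succ_bot (by omega)]
    have h2 : u 0 ≤ 0 := by
      simp only [hu]
      split_ifs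
      · have h3 := hc0 0 hn
        have h4 : c 0 = 0 := by
          simp only [hc]
          rw [ev_zero, inner_zero_right]
        rw [h4]
        linarith
      · exact le_refl 0
    linarith

private lemma total_zero (n : ℕ) (s : ℕ → ℝ) (z : E2) :
    ∑ i ∈ Finset.range (n + 1), ⟪z, ev n s i - ev n s (i + 1)⟫_ℝ = 0 := by
  rw [← inner_sum, Finset.sum_range_sub', ev_zero, ev_last, sub_zero, inner_zero_right]

/-- the case of small first coordinate -/
private lemma small_case (n : ℕ) (s : ℕ → ℝ) (hs : ∀ i, |s i| ≤ 1 / 10) (hanti : Antitone s)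
    (z : E2) (hz : ‖z‖ = 1) (ha : |z 0| ≤ 1 / 2) (g : Finset ℕ) :
    ∑ i ∈ Finset.range (n + 1), (if i ∈ g then ⟪z, ev n s i - ev n s (i + 1)⟫_ℝ else 0) ≤ 1 := by
  rcases Nat.eq_zero_or_pos n with hn | hn
  · subst hn
    simp only [zero_add, Finset.range_one, Finset.sum_singleton]
    rw [ev_zero, ev_last, sub_zero, inner_zero_right]
    split_ifs <;> norm_num
  obtain ⟨m, rfl⟩ : ∃ m, n = m + 1 := ⟨n - 1, by omega⟩
  have hb : |z 1| ≤ 1 := by
    have h1 : z 0 ^ 2 + z 1 ^ 2 = 1 := by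
      have h2 := real_inner_self_eq_norm_sq z
      rw [inner_E2, hz] at h2
      linarith
    rw [abs_le]
    constructor
    · nlinarith [sq_nonneg (z 0)]
    · nlinarith [sq_nonneg (z 0)]
  set c : ℕ → ℝ := fun i => ⟪z, dirv (s i)⟫_ℝ with hc
  have hcb : ∀ i, |c i| ≤ 3 / 5 := by
    intro i
    simp only [hc]
    rw [inner_dirv, abs_mul, abs_of_pos (inv_pos.mpr (sqrt_pos' (s i)))]
    have h1 : (√(1 + s i ^ 2))⁻¹ ≤ 1 := inv_le_one_of_one_le₀ (one_le_sqrt' (s i))
    have h2 : |z 0 + z 1 * s i| ≤ 3 / 5 := by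
      have h3 : |z 1 * s i| ≤ 1 * (1 / 10) := by
        rw [abs_mul]
        exact mul_le_mul hb (hs i) (abs_nonneg _) (by norm_num)
      have h4 := abs_add_le (z 0) (z 1 * s i)
      linarith
    have h5 : 0 ≤ |z 0 + z 1 * s i| := abs_nonneg _
    have h6 : 0 ≤ (√(1 + s i ^ 2))⁻¹ := inv_nonneg.mpr (Real.sqrt_nonneg _)
    nlinarith
  have hlip : ∀ i j, i ≤ j → |c i - c j| ≤ s i - s j := by
    intro i j hij
    simp only [hc]
    rw [← inner_sub_right]
    have h1 := abs_real_inner_le_norm z (dirv (s i) - dirv (s j))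
    rw [hz, one_mul] at h1
    have h2 := dirv_sub_le (s i) (s j)
    rw [abs_of_nonneg (sub_nonneg.mpr (hanti hij))] at h2
    linarith
  -- the terms
  have hle : ∀ i ∈ Finset.range m,
      (if i + 1 ∈ g then ⟪z, ev (m + 1) s (i + 1) - ev (m + 1) s (i + 1 + 1)⟫_ℝ else 0) ≤
        s i - s (i + 1) := by
    intro i hi
    rw [Finset.mem_range] at hi
    rw [ev_succ (by omega), ev_succ (by omega), inner_sub_right]
    have h1 := (abs_le.mp (hlip i (i + 1) (Nat.le_succ i))).2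
    have h2 := hanti (Nat.le_succ i)
    split_ifs
    · exact h1
    · exact sub_nonneg.mpr h2
  rw [Finset.sum_range_succ, Finset.sum_range_succ']
  have h1 := Finset.sum_le_sum hle
  rw [Finset.sum_range_sub' (fun i => s i)] at h1
  have h2 : (if 0 ∈ g then ⟪z, ev (m + 1) s 0 - ev (m + 1) s (0 + 1)⟫_ℝ else 0) ≤ max (-c 0) 0 := by
    split_ifs
    · rw [ev_zero, ev_succ (by omega), zero_sub, inner_neg_right]
      exact le_max_left _ _
    · exact le_max_right _ _
  have h3 : (if m + 1 ∈ g then ⟪z, ev (m + 1) s (m + 1) - ev (m + 1) s (m + 1 + 1)⟫_ℝ else 0) ≤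
      max (c m) 0 := by
    split_ifs
    · rw [ev_last, ev_succ (by omega), sub_zero]
      exact le_max_left _ _
    · exact le_max_right _ _
  have h4 : s 0 - s m ≤ 1 / 5 := by
    have h5 := (abs_le.mp (hs 0)).2
    have h6 := (abs_le.mp (hs m)).1
    linarith
  have h5 := hlip 0 m (Nat.zero_le m)
  have h6 := abs_le.mp h5
  have h7 := abs_le.mp (hcb 0)
  have h8 := abs_le.mp (hcb m)
  have h9 : max (-c 0) 0 + max (c m) 0 ≤ 4 / 5 := by
    rcases le_total (-c 0) 0 with h | h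
    · rw [max_eq_right h]
      rcases le_total (c m) 0 with h' | h'
      · rw [max_eq_right h']
        norm_num
      · rw [max_eq_left h']
        linarith
    · rw [max_eq_left h]
      rcases le_total (c m) 0 with h' | h'
      · rw [max_eq_right h']
        linarith
      · rw [max_eq_left h']
        linarith
  linarith

private lemma inner_alt (n : ℕ) (s : ℕ → ℝ) (hs : ∀ i, |s i| ≤ 1 / 10) (hanti : Antitone s)
    (z : E2) (hz : ‖z‖ = 1) (g : Finset ℕ) :
    ∑ i ∈ Finset.range (n + 1), (if i ∈ g then ⟪z, ev n s i - ev n s (i + 1)⟫_ℝ else 0) ≤ 1 := by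
  by_cases h1 : |z 0| ≤ 1 / 2
  · exact small_case n s hs hanti z hz h1 g
  · push Not at h1
    rcases lt_abs.mp h1 with h2 | h2
    · exact pos_case n s hs hanti z hz h2.le g
    · -- pass to `-z` and the complement
      have h3 := pos_case n s hs hanti (-z) (by rw [norm_neg, hz]) (by
        have : (-z) 0 = -(z 0) := rfl
        rw [this]
        exact h2.le) (Finset.range (n + 1) \ g)
      have h4 := total_zero n s z
      have h5 : ∑ i ∈ Finset.range (n + 1),
          (if i ∈ g then ⟪z, ev n s i - ev n s (i + 1)⟫_ℝ else 0) =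
          ∑ i ∈ Finset.range (n + 1), (if i ∈ Finset.range (n + 1) \ g then
            ⟪-z, ev n s i - ev n s (i + 1)⟫_ℝ else 0) +
          ∑ i ∈ Finset.range (n + 1), ⟪z, ev n s i - ev n s (i + 1)⟫_ℝ := by
        rw [← Finset.sum_add_distrib]
        refine Finset.sum_congr rfl fun i hi => ?_
        by_cases hg : i ∈ g
        · rw [if_pos hg, if_neg (by simp [hg]), zero_add]
        · rw [if_neg hg, if_pos (by rw [Finset.mem_sdiff]; exact ⟨hi, hg⟩), inner_neg_left]
          ring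
      rw [h5, h4, add_zero]
      exact h3

theorem alt_sum (n : ℕ) (s : ℕ → ℝ) (hs : ∀ i, |s i| ≤ 1 / 10) (hanti : Antitone s)
    (g : Finset ℕ) :
    ‖∑ i ∈ g.filter (· ≤ n), ((if 1 ≤ i then dirv (s (i - 1)) else 0) -
      (if i < n then dirv (s i) else 0))‖ ≤ 1 := by
  have h0 : ∑ i ∈ g.filter (· ≤ n), ((if 1 ≤ i then dirv (s (i - 1)) else 0) -
      (if i < n then dirv (s i) else 0)) =
      ∑ i ∈ (Finset.range (n + 1)).filter (· ∈ g), (ev n s i - ev n s (i + 1)) := by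
    have e1 : g.filter (· ≤ n) = (Finset.range (n + 1)).filter (· ∈ g) := by
      ext i
      simp only [Finset.mem_filter, Finset.mem_range]
      constructor
      · rintro ⟨h1, h2⟩
        exact ⟨by omega, h1⟩
      · rintro ⟨h1, h2⟩
        exact ⟨h2, by omega⟩
    rw [e1]
    refine Finset.sum_congr rfl fun i hi => ?_
    rw [Finset.mem_filter, Finset.mem_range] at hi
    exact term_eq (by omega)
  rw [h0]
  set w := ∑ i ∈ (Finset.range (n + 1)).filter (· ∈ g), (ev n s i - ev n s (i + 1)) with hw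
  by_contra hcon
  push Not at hcon
  have hw0 : 0 < ‖w‖ := by linarith
  set z : E2 := ‖w‖⁻¹ • w with hz
  have hz1 : ‖z‖ = 1 := by
    rw [hz, norm_smul, norm_inv, norm_norm, inv_mul_cancel₀ hw0.ne']
  have h1 := inner_alt n s hs hanti z hz1 g
  rw [← Finset.sum_filter, ← inner_sum, ← hw, hz, real_inner_smul_left,
    real_inner_self_eq_norm_sq, sq, ← mul_assoc, inv_mul_cancel₀ hw0.ne', one_mul] at h1
  linarith

theorem chain {S : Set E2} (hS : Cpt S) (n : ℕ) (y : ℕ → E2) (hy : ∀ i ≤ n, y i ∈ S)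
    (s : ℕ → ℝ) (hs : ∀ i, |s i| ≤ 1 / 10) (hanti : Antitone s) :
    ∑ i ∈ Finset.range n, ⟪dirv (s i), y (i + 1) - y i⟫_ℝ ≤ H1 S := by
  have h0 : ∑ i : Fin (n + 1), (ev n s i - ev n s (i + 1)) = 0 := by
    rw [Fin.sum_univ_eq_sum_range (fun i => ev n s i - ev n s (i + 1)), Finset.sum_range_sub',
      ev_zero, ev_last, sub_zero]
  have h1 : ∀ g : Finset (Fin (n + 1)), ‖∑ i ∈ g, (ev n s i - ev n s (i + 1))‖ ≤ 1 := by
    intro g
    have h2 := alt_sum n s hs hanti (g.map Fin.valEmbedding)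
    have h3 : (g.map Fin.valEmbedding).filter (· ≤ n) = g.map Fin.valEmbedding := by
      apply Finset.filter_true_of_mem
      intro i hi
      rw [Finset.mem_map] at hi
      obtain ⟨j, _, rfl⟩ := hi
      simp only [Fin.valEmbedding_apply]
      omega
    rw [h3, Finset.sum_map] at h2
    have h4 : ∑ i ∈ g, (ev n s i - ev n s (i + 1)) =
        ∑ i ∈ g, ((if 1 ≤ Fin.valEmbedding i then dirv (s (Fin.valEmbedding i - 1)) else 0) -
          (if Fin.valEmbedding i < n then dirv (s (Fin.valEmbedding i)) else 0)) := by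
      refine Finset.sum_congr rfl fun i _ => ?_
      rw [term_eq (by simp only [Fin.valEmbedding_apply]; omega)]
      rfl
    rw [h4]
    exact h2
  have h2 := tlem hS.1 hS.2.1 (fun i : Fin (n + 1) => y i) (fun i => hy i (by omega))
    (fun i : Fin (n + 1) => ev n s i - ev n s (i + 1)) h0 h1
  have h3 : ∑ i : Fin (n + 1), ⟪ev n s i - ev n s (i + 1), y i⟫_ℝ ≤ H1 S := by
    unfold H1
    exact (ENNReal.ofReal_le_iff_le_toReal hS.2.2).mp h2
  rw [Fin.sum_univ_eq_sum_range (fun i => ⟪ev n s i - ev n s (i + 1), y i⟫_ℝ)] at h3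
  refine le_trans (le_of_eq ?_) h3
  -- summation by parts
  have e1 : ∑ i ∈ Finset.range (n + 1), ⟪ev n s i - ev n s (i + 1), y i⟫_ℝ =
      ∑ i ∈ Finset.range (n + 1), ⟪ev n s i, y i⟫_ℝ -
        ∑ i ∈ Finset.range (n + 1), ⟪ev n s (i + 1), y i⟫_ℝ := by
    rw [← Finset.sum_sub_distrib]
    refine Finset.sum_congr rfl fun i _ => ?_
    rw [inner_sub_left]
  rw [e1, Finset.sum_range_succ', Finset.sum_range_succ (fun i => ⟪ev n s (i + 1), y i⟫_ℝ),
    ev_zero, ev_last, inner_zero_left, inner_zero_left, add_zero, add_zero,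
    ← Finset.sum_sub_distrib]
  refine Finset.sum_congr rfl fun i hi => ?_
  rw [Finset.mem_range] at hi
  rw [ev_succ hi, inner_sub_right]

/-- The chain inequality: `x_0, ..., x_n` is a concave chain with slopes `s i`. -/
theorem chain_dist {S : Set E2} (hS : Cpt S) (n : ℕ) (hn : 1 ≤ n) (x : ℕ → E2)
    (s : ℕ → ℝ) (hs : ∀ i, |s i| ≤ 1 / 10) (hanti : Antitone s)
    (hx : ∀ i < n, x (i + 1) - x i = dist (x (i + 1)) (x i) • dirv (s i)) :
    ∑ i ∈ Finset.range n, dist (x (i + 1)) (x i) ≤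
      H1 S + infDist (x 0) S + infDist (x n) S +
        ∑ i ∈ Finset.range (n - 1), (s i - s (i + 1)) * infDist (x (i + 1)) S := by
  have hne : S.Nonempty := hS.2.1.nonempty
  have hch : ∀ i, ∃ y ∈ S, infDist (x i) S = dist (x i) y := fun i =>
    hS.1.exists_infDist_eq_dist hne (x i)
  choose y hy hyd using hch
  obtain ⟨m, rfl⟩ : ∃ m, n = m + 1 := ⟨n - 1, by omega⟩
  have h1 := chain hS (m + 1) y (fun i _ => hy i) s hs hanti
  set δ : ℕ → E2 := fun i => x i - y i with hδ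
  have hδn : ∀ i, ‖δ i‖ = infDist (x i) S := by
    intro i
    rw [hyd i, dist_eq_norm]
  have e1 : ∀ i ∈ Finset.range (m + 1), dist (x (i + 1)) (x i) =
      ⟪dirv (s i), y (i + 1) - y i⟫_ℝ + (⟪dirv (s i), δ (i + 1)⟫_ℝ - ⟪dirv (s i), δ i⟫_ℝ) := by
    intro i hi
    rw [Finset.mem_range] at hi
    have h2 : ⟪dirv (s i), x (i + 1) - x i⟫_ℝ = dist (x (i + 1)) (x i) := by
      rw [hx i hi, real_inner_smul_right, real_inner_self_eq_norm_sq, norm_dirv]
      ring
    rw [← h2, ← inner_sub_right, ← inner_add_right]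
    congr 1
    simp only [hδ]
    abel
  rw [Finset.sum_congr rfl e1, Finset.sum_add_distrib, Finset.sum_sub_distrib]
  rw [Finset.sum_range_succ (fun i => ⟪dirv (s i), δ (i + 1)⟫_ℝ),
    Finset.sum_range_succ' (fun i => ⟪dirv (s i), δ i⟫_ℝ)]
  have h2 : ∑ i ∈ Finset.range m, ⟪dirv (s i), δ (i + 1)⟫_ℝ -
      ∑ i ∈ Finset.range m, ⟪dirv (s (i + 1)), δ (i + 1)⟫_ℝ ≤
      ∑ i ∈ Finset.range m, (s i - s (i + 1)) * infDist (x (i + 1)) S := by
    rw [← Finset.sum_sub_distrib]
    refine Finset.sum_le_sum fun i _ => ?_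
    rw [← inner_sub_left]
    have h3 := real_inner_le_norm (dirv (s i) - dirv (s (i + 1))) (δ (i + 1))
    have h4 := dirv_sub_le (s i) (s (i + 1))
    rw [abs_of_nonneg (sub_nonneg.mpr (hanti (Nat.le_succ i)))] at h4
    rw [hδn] at h3
    exact h3.trans (mul_le_mul_of_nonneg_right h4 infDist_nonneg)
  have h3 : ⟪dirv (s m), δ (m + 1)⟫_ℝ ≤ infDist (x (m + 1)) S := by
    have := real_inner_le_norm (dirv (s m)) (δ (m + 1))
    rw [norm_dirv, one_mul, hδn] at this
    exact this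
  have h4 : -⟪dirv (s 0), δ 0⟫_ℝ ≤ infDist (x 0) S := by
    have := abs_real_inner_le_norm (dirv (s 0)) (δ 0)
    rw [norm_dirv, one_mul, hδn] at this
    exact (neg_le_abs _).trans this
  simp only [Nat.add_sub_cancel]
  linarith

end Pool.Agent.Lib.P8e
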