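import Pool.Agent.Lib.P8e.Cv

set_option autoImplicit false

/-!
# The closure of a connected set has the same length

PROOF SKETCH. Let `A = closure S \ S`, `ν = μH[1].restrict S` (finite), `ν A = 0`. If `x ∈ A` and `s₀ ∈ S`, `0 < r < dist x s₀`: `dist · x` is continuous on the connected set `S`, takes arbitrarily small
positive values and a value `> r`, so it takes all values in `(0, r)` on `S`; it is 1-Lipschitz, hence `ν (closedBall x r) ≥ ofReal r`.
Given `η > 0` and `δ > 0`: outer regularity gives an open `U ⊇ A` with `ν U < η`. For every `x ∈ A` choose `0 < r_x ≤ δ` with `closedBall x r_x ⊆ U` and `r_x < dist x s₀`. Vitali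
(`Vitali.exists_disjoint_subfamily_covering_enlargement_closedBall`, `τ = 5`): a disjoint subfamily (countable, the balls have positive `ν` measure or nonempty interior) whose 5-enlargements cover `A`, so the
Hausdorff premeasure of scale `10 δ` satisfies `≤ ∑ 10 r_i ≤ 10 ∑ ν (closedBall) ≤ 10 ν U ≤ 10 η` (`Measure.hausdorffMeasure_le_liminf_tsum` or `hausdorffMeasure_apply`). So `μH[1] A = 0`.
-/

open MeasureTheory Set Metric
open scoped ENNReal NNReal

namespace Pool.Agent.Lib.P8e

/-- lower density bound for connected sets -/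
private theorem ball_lower {S : Set E2} (hS : IsConnected S) {x s₀ : E2} (hx : x ∈ closure S)
    (hs₀ : s₀ ∈ S) {r : ℝ} (hr : r < dist x s₀) :
    ENNReal.ofReal r ≤ μH[1] (S ∩ closedBall x r) := by
  have hsub : Ioo 0 r ⊆ (fun y => dist y x) '' (S ∩ closedBall x r) := by
    rintro ρ ⟨h0, h1⟩
    obtain ⟨y, hy, hxy⟩ := Metric.mem_closure_iff.1 hx ρ h0
    have hiv := hS.isPreconnected.intermediate_value hy hs₀
      (f := fun y => dist y x) (continuous_id.dist continuous_const).continuousOn
    have hmem : ρ ∈ Icc (dist y x) (dist s₀ x) := by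
      constructor
      · rw [dist_comm]
        exact hxy.le
      · rw [dist_comm]
        linarith
    obtain ⟨z, hz, hz'⟩ := hiv hmem
    refine ⟨z, ⟨hz, ?_⟩, hz'⟩
    rw [mem_closedBall]
    have : dist z x = ρ := hz'
    linarith
  have hlip : LipschitzWith 1 (fun y : E2 => dist y x) := LipschitzWith.dist_left x
  have h1 := hlip.hausdorffMeasure_image_le (zero_le_one) (S ∩ closedBall x r)
  have h2 : ENNReal.ofReal r ≤ μH[1] ((fun y : E2 => dist y x) '' (S ∩ closedBall x r)) := by
    calc ENNReal.ofReal r = volume (Ioo (0 : ℝ) r) := by simp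
      _ = μH[1] (Ioo (0 : ℝ) r) := by rw [hausdorffMeasure_real]
      _ ≤ _ := measure_mono hsub
  refine h2.trans (h1.trans ?_)
  simp

theorem hausdorff_closure_diff {S : Set E2} (hS : IsConnected S) (hm : MeasurableSet S)
    (hfin : μH[1] S ≠ ∞) : μH[1] (closure S \ S) = 0 := by
  classical
  set A := closure S \ S with hA
  set ν : Measure E2 := (μH[1] : Measure E2).restrict S with hν
  have : IsFiniteMeasure ν := ⟨by rw [hν, Measure.restrict_apply_univ]; exact hfin.lt_top⟩
  have hAm : MeasurableSet A := isClosed_closure.measurableSet.diff hm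
  have hνA : ν A = 0 := by
    rw [hν, Measure.restrict_apply hAm]
    have : A ∩ S = ∅ := by
      ext x
      simp [hA]
    rw [this, measure_empty]
  obtain ⟨s₀, hs₀⟩ := hS.nonempty
  -- the covering at scale `δ`
  have key : ∀ n : ℕ, ∃ u : Set E2, ∃ r : E2 → ℝ, u.Countable ∧ (∀ x ∈ u, 0 < r x ∧ r x ≤ 1 / (n + 1)) ∧
      A ⊆ ⋃ x : u, closedBall (x : E2) (5 * r x) ∧
      ∑' x : u, ENNReal.ofReal (r x) ≤ ENNReal.ofReal (1 / (n + 1)) := by
    intro n
    have hη : (0 : ℝ) < 1 / (n + 1) := by positivity
    obtain ⟨U, hAU, hUo, hU⟩ := A.exists_isOpen_lt_of_lt (μ := ν) (ENNReal.ofReal (1 / (n + 1)))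
      (by rw [hνA]; exact ENNReal.ofReal_pos.2 hη)
    have hex : ∀ x : E2, ∃ r : ℝ, x ∈ A → 0 < r ∧ r ≤ 1 / (n + 1) ∧ closedBall x r ⊆ U ∧
        r < dist x s₀ := by
      intro x
      by_cases hx : x ∈ A
      · obtain ⟨ε, hε, hball⟩ := Metric.isOpen_iff.1 hUo x (hAU hx)
        have hd : 0 < dist x s₀ := dist_pos.2 (fun h => hx.2 (h ▸ hs₀))
        refine ⟨min (ε / 2) (min (1 / (n + 1)) (dist x s₀ / 2)), fun _ => ⟨?_, ?_, ?_, ?_⟩⟩
        · exact lt_min (by positivity) (lt_min hη (by positivity))
        · exact (min_le_right _ _).trans (min_le_left _ _)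
        · refine (closedBall_subset_closedBall (min_le_left _ _)).trans
            ((closedBall_subset_ball (by linarith)).trans hball)
        · have : min (ε / 2) (min (1 / ((n : ℝ) + 1)) (dist x s₀ / 2)) ≤ dist x s₀ / 2 :=
            (min_le_right _ _).trans (min_le_right _ _)
          linarith
      · exact ⟨0, fun h => absurd h hx⟩
    choose r hr using hex
    obtain ⟨u, huA, hud, hcov⟩ := Vitali.exists_disjoint_subfamily_covering_enlargement_closedBall
      A (fun x => x) r (1 / (n + 1)) (fun x hx => (hr x hx).2.1) 5 (by norm_num)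
    have huc : u.Countable := by
      refine hud.countable_of_nonempty_interior ?_
      intro x hx
      refine ⟨x, ?_⟩
      exact ball_subset_interior_closedBall (mem_ball_self (hr x (huA hx)).1)
    refine ⟨u, r, huc, fun x hx => ⟨(hr x (huA hx)).1, (hr x (huA hx)).2.1⟩, ?_, ?_⟩
    · intro x hx
      obtain ⟨b, hb, hsub⟩ := hcov x hx
      rw [mem_iUnion]
      exact ⟨⟨b, hb⟩, hsub (mem_closedBall_self (hr x hx).1.le)⟩
    · have : Countable u := huc.to_subtype
      calc ∑' x : u, ENNReal.ofReal (r x) ≤ ∑' x : u, ν (closedBall (x : E2) (r x)) := by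
            refine ENNReal.tsum_le_tsum (fun x => ?_)
            rw [hν, Measure.restrict_apply isClosed_closedBall.measurableSet, inter_comm]
            exact ball_lower hS (huA x.2).1 hs₀ (hr x (huA x.2)).2.2.2
        _ = ν (⋃ x ∈ u, closedBall x (r x)) :=
            (measure_biUnion huc hud (fun x _ => isClosed_closedBall.measurableSet)).symm
        _ ≤ ν U := measure_mono (iUnion₂_subset (fun x hx => (hr x (huA hx)).2.2.1))
        _ ≤ _ := hU.le
  choose u r huc hr hcov hsum using key
  have : ∀ n, Countable (u n) := fun n => (huc n).to_subtype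
  have hdiam : ∀ n (x : u n), ediam (closedBall (x : E2) (5 * r n x)) ≤
      ENNReal.ofReal (10 * r n x) := by
    intro n x
    have h0 := (hr n x x.2).1
    refine (ediam_le_of_forall_dist_le (C := 10 * r n x) ?_).trans (le_of_eq rfl)
    intro y hy z hz
    have h1 : dist y x ≤ 5 * r n x := hy
    have h2 : dist z x ≤ 5 * r n x := hz
    have := dist_triangle_right y z (x : E2)
    linarith
  have hlim : Filter.Tendsto (fun n : ℕ => ENNReal.ofReal (10 * (1 / ((n : ℝ) + 1)))) Filter.atTop
      (nhds 0) := by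
    have h1 : Filter.Tendsto (fun n : ℕ => 10 * (1 / ((n : ℝ) + 1))) Filter.atTop (nhds (10 * 0)) :=
      tendsto_one_div_add_atTop_nhds_zero_nat.const_mul 10
    rw [mul_zero] at h1
    have := ENNReal.tendsto_ofReal h1
    rwa [ENNReal.ofReal_zero] at this
  have hmain := Measure.hausdorffMeasure_le_liminf_tsum (X := E2) (β := ℕ) (ι := fun n => u n) 1 A
    (l := Filter.atTop) (fun n : ℕ => ENNReal.ofReal (10 * (1 / ((n : ℝ) + 1)))) hlim
    (fun n x => closedBall (x : E2) (5 * r n x))
    (Filter.Eventually.of_forall (fun n x => (hdiam n x).trans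
      (ENNReal.ofReal_le_ofReal (by have := (hr n x x.2).2; linarith))))
    (Filter.Eventually.of_forall hcov)
  have hbound : ∀ n, ∑' x : u n, ediam (closedBall (x : E2) (5 * r n x)) ^ (1 : ℝ) ≤
      ENNReal.ofReal (10 * (1 / ((n : ℝ) + 1))) := by
    intro n
    calc ∑' x : u n, ediam (closedBall (x : E2) (5 * r n x)) ^ (1 : ℝ)
        ≤ ∑' x : u n, ENNReal.ofReal 10 * ENNReal.ofReal (r n x) := by
          refine ENNReal.tsum_le_tsum (fun x => ?_)
          rw [ENNReal.rpow_one, ← ENNReal.ofReal_mul (by norm_num)]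
          exact hdiam n x
      _ = ENNReal.ofReal 10 * ∑' x : u n, ENNReal.ofReal (r n x) := ENNReal.tsum_mul_left
      _ ≤ ENNReal.ofReal 10 * ENNReal.ofReal (1 / ((n : ℝ) + 1)) := by
          gcongr
          exact hsum n
      _ = _ := by rw [← ENNReal.ofReal_mul (by norm_num)]
  have h0 : Filter.Tendsto (fun n => ∑' x : u n, ediam (closedBall (x : E2) (5 * r n x)) ^ (1 : ℝ))
      Filter.atTop (nhds 0) :=
    tendsto_of_tendsto_of_tendsto_of_le_of_le tendsto_const_nhds hlim (fun n => zero_le) hbound
  rw [h0.liminf_eq] at hmain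
  exact le_antisymm hmain zero_le

end Pool.Agent.Lib.P8e
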