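import Pool.Agent.Lib.P8e.Blk

set_option autoImplicit false

/-!
# The functional at `∑ (w_i + φ_i)`

The functions `w_i + φ_i`, `i ∈ s`, have disjoint supports in the closed balls.
-/

open MeasureTheory Set Metric
open scoped ENNReal NNReal InnerProductSpace

namespace Pool.Agent.Lib.P8e

/-- The test function. -/
noncomputable def Fam.tst {Ω : Set E2} {m : ℝ} {β : Type} (F : Fam Ω m β) (s : Finset β)
    (φ : β → E2 → ℝ) : E2 → ℝ := fun x => ∑ i ∈ s, ((F.b i).w x + φ i x)

namespace CombAux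

lemma tsupport_w {b : Blk} (hb : b.Reg) : tsupport b.w ⊆ closedBall b.c b.ρ := by
  refine closure_minimal ?_ isClosed_closedBall
  intro x hx
  rw [Function.mem_support] at hx
  rw [mem_closedBall]
  by_contra h
  exact hx (hb.supp x (not_le.mp h).le).1

lemma w_compact {b : Blk} (hb : b.Reg) : HasCompactSupport b.w :=
  (isCompact_closedBall b.c b.ρ).of_isClosed_subset (isClosed_tsupport _) (tsupport_w hb)

lemma φ_compact {b : Blk} {φ : E2 → ℝ} (h : tsupport φ ⊆ ball b.c b.ρ) :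
    HasCompactSupport φ :=
  (isCompact_closedBall b.c b.ρ).of_isClosed_subset (isClosed_tsupport _)
    (h.trans ball_subset_closedBall)

lemma fderiv_φ_zero {φ : E2 → ℝ} {x : E2}
    (hx : x ∉ tsupport φ) : fderiv ℝ φ x = 0 := by
  have := support_fderiv_subset ℝ (f := φ)
  by_contra h1
  exact hx (this h1)

lemma fderiv_φ_zero' {b : Blk} {φ : E2 → ℝ} (h : tsupport φ ⊆ ball b.c b.ρ) {x : E2}
    (hx : b.ρ ≤ dist x b.c) : fderiv ℝ φ x = 0 := by
  apply fderiv_φ_zero
  intro h1
  have := h h1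
  rw [mem_ball] at this
  linarith

variable {Ω : Set E2} {m : ℝ} {β : Type} (F : Fam Ω m β) (s : Finset β) (φ : β → E2 → ℝ)

lemma tst_fderiv (hφ : ∀ i, ContDiff ℝ 1 (φ i)) (x : E2) :
    fderiv ℝ (F.tst s φ) x = ∑ i ∈ s, (fderiv ℝ (F.b i).w x + fderiv ℝ (φ i) x) := by
  unfold Fam.tst
  rw [fderiv_fun_sum]
  · refine Finset.sum_congr rfl (fun i _ => ?_)
    rw [fderiv_fun_add]
    · exact ((F.reg i).smooth.differentiable (by norm_num)).differentiableAt
    · exact ((hφ i).differentiable (by norm_num)).differentiableAt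
  · intro i _
    exact (((F.reg i).smooth.differentiable (by norm_num)).differentiableAt).add
      (((hφ i).differentiable (by norm_num)).differentiableAt)

/-- At a point outside the `i`-th closed ball the `i`-th term of the derivative vanishes. -/
lemma term_zero (hs : ∀ i, tsupport (φ i) ⊆ ball (F.b i).c (F.b i).ρ) (i : β) {x : E2}
    (hx : x ∉ closedBall (F.b i).c (F.b i).ρ) :
    fderiv ℝ (F.b i).w x + fderiv ℝ (φ i) x = 0 := by
  have h : (F.b i).ρ ≤ dist x (F.b i).c := by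
    rw [mem_closedBall, not_le] at hx
    exact hx.le
  rw [((F.reg i).supp x h).2, fderiv_φ_zero' (hs i) h, add_zero]

/-- In the `i`-th closed ball only the `i`-th term survives. -/
lemma tst_fderiv_ball [DecidableEq β] (hφ : ∀ i, ContDiff ℝ 1 (φ i))
    (hs : ∀ i, tsupport (φ i) ⊆ ball (F.b i).c (F.b i).ρ) (i : β) {x : E2}
    (hx : x ∈ closedBall (F.b i).c (F.b i).ρ) :
    fderiv ℝ (F.tst s φ) x =
      if i ∈ s then fderiv ℝ (F.b i).w x + fderiv ℝ (φ i) x else 0 := by
  rw [tst_fderiv F s φ hφ]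
  have h0 : ∀ j, j ≠ i → fderiv ℝ (F.b j).w x + fderiv ℝ (φ j) x = 0 := by
    intro j hj
    apply term_zero F φ hs j
    intro h
    exact (Set.disjoint_left.mp (F.disj j i hj) h) hx
  split_ifs with hi
  · rw [Finset.sum_eq_single i (fun j _ hj => h0 j hj) (fun h => absurd hi h)]
  · refine Finset.sum_eq_zero (fun j hj => h0 j ?_)
    rintro rfl
    exact hi hj

lemma tst_fderiv_out (hφ : ∀ i, ContDiff ℝ 1 (φ i))
    (hs : ∀ i, tsupport (φ i) ⊆ ball (F.b i).c (F.b i).ρ) {x : E2}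
    (hx : ∀ i ∈ s, x ∉ closedBall (F.b i).c (F.b i).ρ) : fderiv ℝ (F.tst s φ) x = 0 := by
  rw [tst_fderiv F s φ hφ]
  exact Finset.sum_eq_zero (fun j hj => term_zero F φ hs j (hx j hj))

/-- Pythagoras for functions with disjoint supports. -/
lemma norm_sq_sum (hφ : ∀ i, ContDiff ℝ 1 (φ i))
    (hs : ∀ i, tsupport (φ i) ⊆ ball (F.b i).c (F.b i).ρ) (x : E2) :
    ‖fderiv ℝ (F.tst s φ) x‖ ^ 2 =
      ∑ i ∈ s, ‖fderiv ℝ (F.b i).w x + fderiv ℝ (φ i) x‖ ^ 2 := by
  classical
  by_cases h : ∃ i ∈ s, x ∈ closedBall (F.b i).c (F.b i).ρ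
  · obtain ⟨i, hi, hx⟩ := h
    rw [tst_fderiv_ball F s φ hφ hs i hx, if_pos hi]
    rw [Finset.sum_eq_single i]
    · intro j _ hj
      rw [term_zero F φ hs j, norm_zero]
      · norm_num
      · intro h
        exact (Set.disjoint_left.mp (F.disj j i hj) h) hx
    · exact fun h => absurd hi h
  · push Not at h
    rw [tst_fderiv_out F s φ hφ hs h, norm_zero]
    symm
    have : ∀ i ∈ s, ‖fderiv ℝ (F.b i).w x + fderiv ℝ (φ i) x‖ ^ 2 = 0 := by
      intro i hi
      rw [term_zero F φ hs i (h i hi), norm_zero]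
      norm_num
    rw [Finset.sum_eq_zero this]
    norm_num

lemma cont_fderiv {u : E2 → ℝ} (hu : ContDiff ℝ 1 u) : Continuous (fderiv ℝ u) :=
  hu.continuous_fderiv (by norm_num)

lemma norm_gradient (u : E2 → ℝ) (x : E2) : ‖gradient u x‖ = ‖fderiv ℝ u x‖ := by
  unfold gradient
  exact LinearIsometryEquiv.norm_map _ _

lemma inner_self_gradient (u : E2 → ℝ) (x : E2) :
    ⟪gradient u x, gradient u x⟫_ℝ = ‖fderiv ℝ u x‖ ^ 2 := by
  rw [real_inner_self_eq_norm_sq, norm_gradient]

lemma gradient_def (u : E2 → ℝ) (x : E2) :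
    gradient u x = (InnerProductSpace.toDual ℝ E2).symm (fderiv ℝ u x) := rfl

lemma norm_sq_add (u v : E2 → ℝ) (x : E2) :
    ‖fderiv ℝ u x + fderiv ℝ v x‖ ^ 2 =
      ‖fderiv ℝ u x‖ ^ 2 + 2 * ⟪gradient u x, gradient v x⟫_ℝ + ‖fderiv ℝ v x‖ ^ 2 := by
  have h1 : ‖fderiv ℝ u x + fderiv ℝ v x‖ = ‖gradient u x + gradient v x‖ := by
    rw [gradient_def, gradient_def, ← map_add, LinearIsometryEquiv.norm_map]
  rw [h1, norm_add_sq_real, norm_gradient, norm_gradient]

lemma cont_gradient {u : E2 → ℝ} (hu : ContDiff ℝ 1 u) : Continuous (gradient u) := by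
  have : gradient u = fun x => (InnerProductSpace.toDual ℝ E2).symm (fderiv ℝ u x) := rfl
  rw [this]
  exact (LinearIsometryEquiv.continuous _).comp (cont_fderiv hu)

lemma integrable_norm_sq {u : E2 → ℝ} (hu : ContDiff ℝ 1 u) (hc : HasCompactSupport u) :
    Integrable (fun x => ‖fderiv ℝ u x‖ ^ 2) := by
  refine Continuous.integrable_of_hasCompactSupport ((cont_fderiv hu).norm.pow 2) ?_
  refine (hc.fderiv (𝕜 := ℝ)).mono ?_
  intro x hx
  rw [Function.mem_support] at hx ⊢
  intro h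
  apply hx
  rw [h, norm_zero]
  norm_num

lemma integrable_inner {u v : E2 → ℝ} (hu : ContDiff ℝ 1 u) (hv : ContDiff ℝ 1 v)
    (hc : HasCompactSupport u) :
    Integrable (fun x => ⟪gradient u x, gradient v x⟫_ℝ) := by
  refine Continuous.integrable_of_hasCompactSupport
    ((cont_gradient hu).inner (cont_gradient hv)) ?_
  refine (hc.fderiv (𝕜 := ℝ)).mono ?_
  intro x hx
  rw [Function.mem_support] at hx ⊢
  intro h
  apply hx
  rw [gradient_def u, h, map_zero, inner_zero_left]

lemma gradient_add' {u v : E2 → ℝ} (g : E2 → ℝ) (x : E2)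
    (h : fderiv ℝ g x = fderiv ℝ u x + fderiv ℝ v x) :
    gradient g x = gradient u x + gradient v x := by
  rw [gradient_def, gradient_def, gradient_def, h, map_add]

end CombAux

open CombAux

theorem Fam.tst_C1c {Ω : Set E2} {m : ℝ} {β : Type} (F : Fam Ω m β)
    (s : Finset β) (φ : β → E2 → ℝ) (hφ : ∀ i, ContDiff ℝ 1 (φ i))
    (hs : ∀ i, tsupport (φ i) ⊆ ball (F.b i).c (F.b i).ρ) : C1c Ω (F.tst s φ) := by
  have hsub : tsupport (F.tst s φ) ⊆ ⋃ i ∈ s, closedBall (F.b i).c (F.b i).ρ := by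
    refine closure_minimal ?_ (Set.Finite.isClosed_biUnion s.finite_toSet
      (fun i _ => isClosed_closedBall))
    intro x hx
    rw [Function.mem_support] at hx
    by_contra h
    rw [mem_iUnion₂] at h
    push Not at h
    apply hx
    unfold Fam.tst
    refine Finset.sum_eq_zero (fun i hi => ?_)
    have h1 : x ∉ closedBall (F.b i).c (F.b i).ρ := h i hi
    have h2 : (F.b i).ρ ≤ dist x (F.b i).c := by
      rw [mem_closedBall, not_le] at h1
      exact h1.le
    have h3 : φ i x = 0 := by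
      by_contra h4
      have := (hs i) (subset_tsupport _ h4)
      rw [mem_ball] at this
      linarith
    rw [((F.reg i).supp x h2).1, h3, add_zero]
  have hcomp : IsCompact (⋃ i ∈ s, closedBall (F.b i).c (F.b i).ρ) :=
    s.finite_toSet.isCompact_biUnion (fun i _ => isCompact_closedBall _ _)
  refine ⟨?_, hcomp.of_isClosed_subset (isClosed_tsupport _) hsub, hsub.trans ?_⟩
  · unfold Fam.tst
    exact ContDiff.sum (fun i _ => (F.reg i).smooth.add (hφ i))
  · exact iUnion₂_subset (fun i _ => F.sub i)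

theorem Fam.tst_functional {Ω : Set E2} (hΩ : IsOpen Ω) {m : ℝ} {β : Type}
    (F : Fam Ω m β) (f : SignedMeasure E2)
    (hf : ∀ u : E2 → ℝ, C1c univ u →
      HasSum (fun i => (F.b i).D u + m * (F.b i).T u) (integralS f u))
    (s : Finset β) (φ : β → E2 → ℝ) (hφ : ∀ i, ContDiff ℝ 1 (φ i))
    (hs : ∀ i, tsupport (φ i) ⊆ ball (F.b i).c (F.b i).ρ) (μ : Measure E2) [IsFiniteMeasure μ] :
    functional Ω f m μ (F.tst s φ) =
      -((1 / 2) * ∑ i ∈ s, Dir (F.b i).w) - m * ∑ i ∈ s, (F.b i).T (F.b i).w +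
        ∑ i ∈ s, ((1 / 2) * Dir (φ i) - m * (F.b i).T (φ i)) +
        (m / 2) * ∫ x in Ω, ‖fderiv ℝ (F.tst s φ) x‖ ^ 2 ∂μ := by
  classical
  have hC := F.tst_C1c s φ hφ hs
  have hC' : C1c univ (F.tst s φ) := ⟨hC.1, hC.2.1, subset_univ _⟩
  -- the Dirichlet integral
  have h1 : ∫ x in Ω, ‖fderiv ℝ (F.tst s φ) x‖ ^ 2 =
      ∑ i ∈ s, (Dir (F.b i).w + 2 * (F.b i).D (φ i) + Dir (φ i)) := by
    have h2 : ∫ x in Ω, ‖fderiv ℝ (F.tst s φ) x‖ ^ 2 =
        ∫ x, ‖fderiv ℝ (F.tst s φ) x‖ ^ 2 := by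
      apply setIntegral_eq_integral_of_forall_compl_eq_zero
      intro x hx
      have h3 : fderiv ℝ (F.tst s φ) x = 0 := by
        by_contra h
        exact hx (hC.2.2 (support_fderiv_subset ℝ h))
      rw [h3, norm_zero]
      norm_num
    rw [h2]
    have h4 : ∀ x, ‖fderiv ℝ (F.tst s φ) x‖ ^ 2 = ∑ i ∈ s,
        (‖fderiv ℝ (F.b i).w x‖ ^ 2 + 2 * ⟪gradient (F.b i).w x, gradient (φ i) x⟫_ℝ +
          ‖fderiv ℝ (φ i) x‖ ^ 2) := by
      intro x
      rw [norm_sq_sum F s φ hφ hs x]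
      exact Finset.sum_congr rfl (fun i _ => norm_sq_add _ _ _)
    rw [integral_congr_ae (Filter.Eventually.of_forall h4)]
    have i1 : ∀ i, Integrable (fun x => ‖fderiv ℝ (F.b i).w x‖ ^ 2) := fun i =>
      integrable_norm_sq (F.reg i).smooth (w_compact (F.reg i))
    have i2 : ∀ i, Integrable (fun x => 2 * ⟪gradient (F.b i).w x, gradient (φ i) x⟫_ℝ) :=
      fun i => (integrable_inner (F.reg i).smooth (hφ i) (w_compact (F.reg i))).const_mul 2
    have i3 : ∀ i, Integrable (fun x => ‖fderiv ℝ (φ i) x‖ ^ 2) := fun i =>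
      integrable_norm_sq (hφ i) (φ_compact (hs i))
    have i12 : ∀ i, Integrable (fun x => ‖fderiv ℝ (F.b i).w x‖ ^ 2 +
        2 * ⟪gradient (F.b i).w x, gradient (φ i) x⟫_ℝ) := fun i => (i1 i).add (i2 i)
    have i4 : ∀ i, Integrable (fun x => ‖fderiv ℝ (F.b i).w x‖ ^ 2 +
        2 * ⟪gradient (F.b i).w x, gradient (φ i) x⟫_ℝ + ‖fderiv ℝ (φ i) x‖ ^ 2) :=
      fun i => (i12 i).add (i3 i)
    rw [integral_finsetSum s (fun i _ => i4 i)]
    refine Finset.sum_congr rfl (fun i _ => ?_)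
    rw [integral_add (i12 i) (i3 i), integral_add (i1 i) (i2 i), integral_const_mul]
    rfl
  -- the charge
  have h5 : integralS f (F.tst s φ) = ∑ i ∈ s, (Dir (F.b i).w + (F.b i).D (φ i) +
      m * ((F.b i).T (F.b i).w + (F.b i).T (φ i))) := by
    have hD : ∀ i, (F.b i).D (F.tst s φ) =
        if i ∈ s then Dir (F.b i).w + (F.b i).D (φ i) else 0 := by
      intro i
      have h6 : ∀ x, ⟪gradient (F.b i).w x, gradient (F.tst s φ) x⟫_ℝ =
          if i ∈ s then ‖fderiv ℝ (F.b i).w x‖ ^ 2 +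
            ⟪gradient (F.b i).w x, gradient (φ i) x⟫_ℝ else 0 := by
        intro x
        by_cases hx : x ∈ closedBall (F.b i).c (F.b i).ρ
        · have h7 := tst_fderiv_ball F s φ hφ hs i hx
          split_ifs with hi
          · rw [if_pos hi] at h7
            rw [gradient_add' (u := (F.b i).w) (v := φ i) _ x h7, inner_add_right,
              inner_self_gradient]
          · rw [if_neg hi] at h7
            rw [gradient_def (F.tst s φ), h7, map_zero, inner_zero_right]
        · have h8 : (F.b i).ρ ≤ dist x (F.b i).c := by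
            rw [mem_closedBall, not_le] at hx
            exact hx.le
          have h9 := ((F.reg i).supp x h8).2
          rw [gradient_def (F.b i).w, h9, map_zero, inner_zero_left, inner_zero_left, norm_zero]
          split_ifs <;> norm_num
      unfold Blk.D
      rw [integral_congr_ae (Filter.Eventually.of_forall h6)]
      split_ifs with hi
      · rw [integral_add (integrable_norm_sq (F.reg i).smooth (w_compact (F.reg i)))
          (integrable_inner (F.reg i).smooth (hφ i) (w_compact (F.reg i)))]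
        rfl
      · simp
    have hT : ∀ i, (F.b i).T (F.tst s φ) =
        if i ∈ s then (F.b i).T (F.b i).w + (F.b i).T (φ i) else 0 := by
      intro i
      unfold Blk.T
      have h10 : ∀ ν ∈ (F.b i).arms, ∀ r ∈ Set.uIcc (0 : ℝ) (F.b i).ρ,
          (F.b i).c + r • ν ∈ closedBall (F.b i).c (F.b i).ρ := by
        intro ν hν r hr
        rw [Set.uIcc_of_le (F.reg i).ρ_pos.le, Set.mem_Icc] at hr
        rw [mem_closedBall, dist_eq_norm, add_sub_cancel_left, norm_smul,
          (F.reg i).unit ν hν, mul_one, Real.norm_of_nonneg hr.1]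
        exact hr.2
      split_ifs with hi
      · rw [← Finset.sum_add_distrib]
        refine Finset.sum_congr rfl (fun ν hν => ?_)
        have hcw : Continuous (fun r : ℝ => fderiv ℝ (F.b i).w ((F.b i).c + r • ν) ν) :=
          ((cont_fderiv (F.reg i).smooth).comp (by fun_prop)).clm_apply continuous_const
        have hcφ : Continuous (fun r : ℝ => fderiv ℝ (φ i) ((F.b i).c + r • ν) ν) :=
          ((cont_fderiv (hφ i)).comp (by fun_prop)).clm_apply continuous_const
        have j1 : IntervalIntegrable (fun r : ℝ => fderiv ℝ (F.b i).w ((F.b i).c + r • ν) ν *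
            fderiv ℝ (F.b i).w ((F.b i).c + r • ν) ν) volume 0 (F.b i).ρ :=
          (hcw.mul hcw).intervalIntegrable _ _
        have j2 : IntervalIntegrable (fun r : ℝ => fderiv ℝ (F.b i).w ((F.b i).c + r • ν) ν *
            fderiv ℝ (φ i) ((F.b i).c + r • ν) ν) volume 0 (F.b i).ρ :=
          (hcw.mul hcφ).intervalIntegrable _ _
        rw [← intervalIntegral.integral_add j1 j2]
        refine intervalIntegral.integral_congr (fun r hr => ?_)
        have h11 := tst_fderiv_ball F s φ hφ hs i (h10 ν hν r hr)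
        rw [if_pos hi] at h11
        show fderiv ℝ (F.b i).w ((F.b i).c + r • ν) ν *
          fderiv ℝ (F.tst s φ) ((F.b i).c + r • ν) ν = _
        rw [h11, ContinuousLinearMap.add_apply]
        ring
      · refine Finset.sum_eq_zero (fun ν hν => ?_)
        rw [intervalIntegral.integral_congr (g := fun _ => (0 : ℝ))]
        · simp
        · intro r hr
          have h11 := tst_fderiv_ball F s φ hφ hs i (h10 ν hν r hr)
          rw [if_neg hi] at h11
          show fderiv ℝ (F.b i).w ((F.b i).c + r • ν) ν *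
            fderiv ℝ (F.tst s φ) ((F.b i).c + r • ν) ν = 0
          rw [h11]
          simp
    have h12 := hf _ hC'
    have h13 : HasSum (fun i => (F.b i).D (F.tst s φ) + m * (F.b i).T (F.tst s φ))
        (∑ i ∈ s, ((F.b i).D (F.tst s φ) + m * (F.b i).T (F.tst s φ))) := by
      apply hasSum_sum_of_ne_finset_zero
      intro i hi
      rw [hD i, hT i, if_neg hi, if_neg hi]
      ring
    rw [h12.unique h13]
    refine Finset.sum_congr rfl (fun i hi => ?_)
    rw [hD i, hT i, if_pos hi, if_pos hi]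
  unfold functional
  rw [h1, h5]
  simp only [Finset.sum_add_distrib, Finset.sum_sub_distrib, ← Finset.mul_sum]
  ring

/-- For a set `S` missing the supports of the `φ_i`. -/
theorem Fam.tst_S {Ω : Set E2} (hΩ : IsOpen Ω) {m : ℝ} {β : Type}
    (F : Fam Ω m β) (s : Finset β) (φ : β → E2 → ℝ) (hφ : ∀ i, ContDiff ℝ 1 (φ i))
    (hs : ∀ i, tsupport (φ i) ⊆ ball (F.b i).c (F.b i).ρ) {S : Set E2} (hS : IsClosed S)
    (hSΩ : S ⊆ Ω) (hfin : μH[1] S ≠ ∞) (hmiss : ∀ i ∈ s, Disjoint (tsupport (φ i)) S) :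
    ∫ x in Ω, ‖fderiv ℝ (F.tst s φ) x‖ ^ 2 ∂((μH[1] : Measure E2).restrict S) =
      ∑ i ∈ s, ∫ x in S, ‖fderiv ℝ (F.b i).w x‖ ^ 2 ∂(μH[1] : Measure E2) := by
  rw [Measure.restrict_restrict hΩ.measurableSet, Set.inter_eq_self_of_subset_right hSΩ]
  have h1 : ∫ x in S, ‖fderiv ℝ (F.tst s φ) x‖ ^ 2 ∂(μH[1] : Measure E2) =
      ∫ x in S, ∑ i ∈ s, ‖fderiv ℝ (F.b i).w x‖ ^ 2 ∂(μH[1] : Measure E2) := by
    refine setIntegral_congr_fun hS.measurableSet (fun x hx => ?_)
    show ‖fderiv ℝ (F.tst s φ) x‖ ^ 2 = ∑ i ∈ s, ‖fderiv ℝ (F.b i).w x‖ ^ 2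
    rw [norm_sq_sum F s φ hφ hs x]
    refine Finset.sum_congr rfl (fun i hi => ?_)
    have h2 : fderiv ℝ (φ i) x = 0 :=
      fderiv_φ_zero (fun h => Set.disjoint_left.mp (hmiss i hi) h hx)
    rw [h2, add_zero]
  rw [h1]
  refine integral_finsetSum s (fun i _ => ?_)
  have : IsFiniteMeasure ((μH[1] : Measure E2).restrict S) := by
    refine ⟨?_⟩
    rw [Measure.restrict_apply_univ]
    exact lt_of_le_of_ne le_top hfin
  have hcont : Continuous (fun x => ‖fderiv ℝ (F.b i).w x‖ ^ 2) :=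
    (cont_fderiv (F.reg i).smooth).norm.pow 2
  have hcs : HasCompactSupport (fun x => ‖fderiv ℝ (F.b i).w x‖ ^ 2) := by
    refine ((w_compact (F.reg i)).fderiv (𝕜 := ℝ)).mono ?_
    intro x hx
    rw [Function.mem_support] at hx ⊢
    intro h
    apply hx
    rw [h, norm_zero]
    norm_num
  obtain ⟨C, hC⟩ := hcs.exists_bound_of_continuous hcont
  exact Integrable.of_bound hcont.aestronglyMeasurable C (Filter.Eventually.of_forall hC)

end Pool.Agent.Lib.P8e
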