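import Pool.Agent.Lib.P8e.Cv

set_option autoImplicit false

/-!
# Lower bound of the length by multiplicity (Eilenberg inequality)
-/

open MeasureTheory Set Metric
open scoped ENNReal NNReal InnerProductSpace

namespace Pool.Agent.Lib.P8e

namespace MultAux

/-- The levels carrying `k` points of `B` with mutual distances `> 1 / (n + 1)`. -/
def T (k : ℕ) (c : E2) (B : Set E2) (n : ℕ) : Set ℝ :=
  {s | ∃ g : Fin k → E2, (∀ i, g i ∈ B ∧ dist (g i) c = s) ∧
    ∀ i j, i ≠ j → 1 / ((n : ℝ) + 1) < dist (g i) (g j)}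

theorem T_mono (k : ℕ) (c : E2) (B : Set E2) : Monotone (T k c B) := by
  intro n m hnm s hs
  obtain ⟨g, h1, h2⟩ := hs
  refine ⟨g, h1, fun i j hij => lt_of_le_of_lt ?_ (h2 i j hij)⟩
  have h3 : (n : ℝ) ≤ m := by exact_mod_cast hnm
  apply one_div_le_one_div_of_le
  · positivity
  · linarith

/-- The estimate for one cover. -/
theorem cover (k : ℕ) (c : E2) (B : Set E2) (n : ℕ) (t : ℕ → Set E2) (ht : B ⊆ ⋃ m, t m)
    (hd : ∀ m, ediam (t m) ≤ ENNReal.ofReal (1 / ((n : ℝ) + 1))) :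
    (k : ℝ≥0∞) * volume (T k c B n) ≤ ∑' m, ⨆ _ : (t m).Nonempty, ediam (t m) ^ (1 : ℝ) := by
  set f : E2 → ℝ := fun x => dist x c with hf
  have hlip : LipschitzWith 1 f := LipschitzWith.dist_left c
  set I : ℕ → Set ℝ := fun m => toMeasurable volume (f '' t m) with hI
  have hIm : ∀ m, MeasurableSet (I m) := fun m => measurableSet_toMeasurable _ _
  have hIsub : ∀ m, f '' t m ⊆ I m := fun m => subset_toMeasurable _ _
  have hIvol : ∀ m, volume (I m) ≤ ⨆ _ : (t m).Nonempty, ediam (t m) ^ (1 : ℝ) := by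
    intro m
    rw [hI]
    simp only [measure_toMeasurable]
    rcases (t m).eq_empty_or_nonempty with h | h
    · rw [h]; simp
    · refine le_trans ?_ (le_iSup _ h)
      rw [ENNReal.rpow_one]
      refine (Real.volume_le_diam _).trans ?_
      have := hlip.ediam_image_le (t m)
      simpa using this
  have hcount : ∀ s ∈ T k c B n, (k : ℝ≥0∞) ≤ ∑' m, (I m).indicator (fun _ => (1 : ℝ≥0∞)) s := by
    rintro s ⟨g, h1, h2⟩
    have hm : ∀ i, ∃ m, g i ∈ t m := fun i => mem_iUnion.1 (ht (h1 i).1)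
    choose m hm using hm
    have hinj : Function.Injective m := by
      intro i j hij
      by_contra hne
      have h3 := h2 i j hne
      have h4 : edist (g i) (g j) ≤ ENNReal.ofReal (1 / ((n : ℝ) + 1)) := by
        refine le_trans ?_ (hd (m i))
        exact edist_le_ediam_of_mem (hm i) (by rw [hij]; exact hm j)
      rw [edist_dist] at h4
      have h5 : dist (g i) (g j) ≤ 1 / ((n : ℝ) + 1) :=
        (ENNReal.ofReal_le_ofReal_iff (by positivity)).1 h4
      linarith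
    calc (k : ℝ≥0∞) = ∑ i : Fin k, (I (m i)).indicator (fun _ => (1 : ℝ≥0∞)) s := by
          have : ∀ i : Fin k, (I (m i)).indicator (fun _ => (1 : ℝ≥0∞)) s = 1 := by
            intro i
            apply indicator_of_mem
            exact hIsub _ ⟨g i, hm i, (h1 i).2⟩
          simp [this]
      _ = ∑ j ∈ Finset.univ.map ⟨m, hinj⟩, (I j).indicator (fun _ => (1 : ℝ≥0∞)) s := by
          rw [Finset.sum_map]; rfl
      _ ≤ ∑' m, (I m).indicator (fun _ => (1 : ℝ≥0∞)) s := ENNReal.sum_le_tsum _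
  have hmeas : ∀ m, Measurable ((I m).indicator (fun _ : ℝ => (1 : ℝ≥0∞))) := fun m =>
    measurable_const.indicator (hIm m)
  have hmeas' : Measurable fun s : ℝ => ∑' m, (I m).indicator (fun _ => (1 : ℝ≥0∞)) s :=
    Measurable.ennreal_tsum hmeas
  calc (k : ℝ≥0∞) * volume (T k c B n)
      ≤ k * volume {s : ℝ | (k : ℝ≥0∞) ≤ ∑' m, (I m).indicator (fun _ => (1 : ℝ≥0∞)) s} := by
        gcongr
        exact fun s hs => hcount s hs
    _ ≤ ∫⁻ s : ℝ, ∑' m, (I m).indicator (fun _ => (1 : ℝ≥0∞)) s :=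
        mul_meas_ge_le_lintegral hmeas' _
    _ = ∑' m, volume (I m) := by
        rw [lintegral_tsum (fun m => (hmeas m).aemeasurable)]
        congr 1
        ext m
        exact lintegral_indicator_one (hIm m)
    _ ≤ ∑' m, ⨆ _ : (t m).Nonempty, ediam (t m) ^ (1 : ℝ) := ENNReal.tsum_le_tsum hIvol

theorem level (k : ℕ) (c : E2) (B : Set E2) (n : ℕ) :
    (k : ℝ≥0∞) * volume (T k c B n) ≤ μH[1] B := by
  rw [Measure.hausdorffMeasure_apply]
  have hpos : (0 : ℝ≥0∞) < ENNReal.ofReal (1 / ((n : ℝ) + 1)) := by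
    rw [ENNReal.ofReal_pos]; positivity
  refine le_trans ?_ (le_iSup₂ (f := fun (r : ℝ≥0∞) (_ : 0 < r) =>
    ⨅ (t : ℕ → Set E2) (_ : B ⊆ ⋃ n, t n) (_ : ∀ n, ediam (t n) ≤ r),
      ∑' n, ⨆ _ : (t n).Nonempty, ediam (t n) ^ (1 : ℝ)) _ hpos)
  refine le_iInf fun t => le_iInf fun ht => le_iInf fun hd => cover k c B n t ht hd

end MultAux

theorem mult (k : ℕ) (c : E2) (A : Set E2) (r₁ r₂ : ℝ)
    (h : ∀ s ∈ Ioo r₁ r₂, ∃ g : Fin k → E2, Function.Injective g ∧
      ∀ i, g i ∈ A ∧ dist (g i) c = s) :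
    ENNReal.ofReal (k * (r₂ - r₁)) ≤ μH[1] (A ∩ {x | r₁ < dist x c ∧ dist x c < r₂}) := by
  set B := A ∩ {x | r₁ < dist x c ∧ dist x c < r₂} with hB
  have hsub : Ioo r₁ r₂ ⊆ ⋃ n, MultAux.T k c B n := by
    intro s hs
    obtain ⟨g, hg, hgA⟩ := h s hs
    have hev : ∀ᶠ n : ℕ in Filter.atTop, ∀ i j : Fin k, i ≠ j →
        1 / ((n : ℝ) + 1) < dist (g i) (g j) := by
      rw [Filter.eventually_all]
      intro i
      rw [Filter.eventually_all]
      intro j
      by_cases hij : i = j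
      · exact Filter.Eventually.of_forall fun n h => absurd hij h
      · have hpos : 0 < dist (g i) (g j) := dist_pos.2 (hg.ne hij)
        have := (tendsto_one_div_add_atTop_nhds_zero_nat (𝕜 := ℝ)).eventually_lt_const hpos
        filter_upwards [this] with n hn _
        exact hn
    obtain ⟨n, hn⟩ := hev.exists
    refine mem_iUnion.2 ⟨n, g, fun i => ⟨⟨(hgA i).1, ?_⟩, (hgA i).2⟩, hn⟩
    show r₁ < dist (g i) c ∧ dist (g i) c < r₂
    rw [(hgA i).2]; exact hs
  calc ENNReal.ofReal (k * (r₂ - r₁)) = k * volume (Ioo r₁ r₂) := by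
        rw [Real.volume_Ioo, ENNReal.ofReal_mul (Nat.cast_nonneg k), ENNReal.ofReal_natCast]
    _ ≤ k * volume (⋃ n, MultAux.T k c B n) := by gcongr
    _ = ⨆ n, k * volume (MultAux.T k c B n) := by
        rw [(MultAux.T_mono k c B).measure_iUnion, ENNReal.mul_iSup]
    _ ≤ μH[1] B := iSup_le fun n => MultAux.level k c B n

end Pool.Agent.Lib.P8e
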