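import Pool.Agent.Lib.P8e.TInf
import Pool.Agent.Lib.P8e.Topo
import Pool.Agent.Lib.P8e.Mult

set_option autoImplicit false

/-!
# Lower bound of the length in annuli centred on the curve

PROOF SKETCH (`level_one`). `c = pt (t_j)`, `d = infDist c Y < s ≤ r`, `Y ∩ sphere c s` has at most one point. The nearest point `y_j` of `Y` to `c` is
inside, the nearest point `y_u` to `pt u` is outside the ball `ball c s` (`hu'`), so there is exactly one point `q` on the sphere (`exists_sphere`)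
and `cut_conn` applies: `Y_out = Y \ ball c s` and `Y_in = Y ∩ closedBall c s` are compact connected, `H1 Y_in ≥ |y_j - q| ≥ s - d`
(`Cpt.dist_le`). `Dl u v Y_out ≤ 2 e + τ_j s`: ends: `y_u, y_v ∈ Y_out`; `i ≠ j`: if `y_i ∈ Y_out` the distance is `≤ d_i`; if `y_i` is in the ball then
`|x_i - c| ≤ d_i + s`, `4 s ≤ 4 r ≤ |x_i - c|`, so `(3/4) |x_i - c| ≤ d_i` and `infDist x_i Y_out ≤ |x_i - q| ≤ |x_i - c| + s ≤ (5/4) |x_i - c| ≤ 2 d_i`; `i = j`: `≤ s`.
So `len u v + e ≥ H1 Y ≥ H1 Y_out + H1 Y_in ≥ len u v - 2 e - τ_j s + s - d` (the two pieces share only `q`), `τ_j ≤ 1/20`, hence `s ≤ (20/19) (3 e + d) ≤ 4 e + 2 d`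
(`e ≥ 0` by `t_inf`).
`ann_low`: for `s ∈ (max r₁ (4 e + 2 d), r₂)` the sphere has at least two points of `Y` (`level_one`), use `mult` with `k = 2`.
`ann_low_left/right`: `k = 1`, `exists_sphere` (`y_u` at distance `d` from `pt u`, and `y_v` at distance `≥ r`).
-/

open MeasureTheory Set Metric
open scoped ENNReal NNReal InnerProductSpace

namespace Pool.Agent.Lib.P8e

/-- Cutting `Y` by a sphere which it meets in one point. -/
private lemma cut_H1 {Y : Set E2} (hY : Cpt Y) {c q : E2} {s : ℝ}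
    (hq : Y ∩ sphere c s = {q}) :
    Cpt (Y \ ball c s) ∧ Cpt (Y ∩ closedBall c s) ∧
      H1 (Y \ ball c s) + H1 (Y ∩ closedBall c s) ≤ H1 Y := by
  obtain ⟨hYc, hYconn, hYf⟩ := hY
  obtain ⟨h1, h2⟩ := cut_conn hYc hYconn hq
  have hf1 : μH[1] (Y \ ball c s) ≠ ∞ := ne_top_of_le_ne_top hYf (measure_mono sdiff_subset)
  have hf2 : μH[1] (Y ∩ closedBall c s) ≠ ∞ :=
    ne_top_of_le_ne_top hYf (measure_mono inter_subset_left)
  refine ⟨⟨hYc.diff isOpen_ball, h1, hf1⟩, ⟨hYc.inter_right isClosed_closedBall, h2, hf2⟩, ?_⟩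
  have hB : H1 (Y ∩ closedBall c s) ≤ H1 (Y ∩ ball c s) := by
    have hsub : Y ∩ closedBall c s ⊆ (Y ∩ ball c s) ∪ {q} := by
      rintro x ⟨hxY, hx⟩
      rcases lt_or_eq_of_le (mem_closedBall.mp hx) with h | h
      · exact Or.inl ⟨hxY, mem_ball.mpr h⟩
      · right
        have : x ∈ Y ∩ sphere c s := ⟨hxY, mem_sphere.mpr h⟩
        rwa [hq] at this
    have hz : μH[1] ({q} : Set E2) = 0 := by
      have : NullSingletonClass (μH[1] : Measure E2) :=
        Measure.nullSingletonClass_hausdorff E2 one_pos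
      exact measure_singleton q
    have hle : μH[1] (Y ∩ closedBall c s) ≤ μH[1] (Y ∩ ball c s) := by
      calc μH[1] (Y ∩ closedBall c s) ≤ μH[1] ((Y ∩ ball c s) ∪ {q}) := measure_mono hsub
        _ ≤ μH[1] (Y ∩ ball c s) + μH[1] ({q} : Set E2) := measure_union_le _ _
        _ = μH[1] (Y ∩ ball c s) := by rw [hz, add_zero]
    exact ENNReal.toReal_mono (ne_top_of_le_ne_top hYf (measure_mono inter_subset_left)) hle
  have hs := H1_split hYf (A := Y \ ball c s) (B := Y ∩ ball c s)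
    (hYc.measurableSet.diff measurableSet_ball) (hYc.measurableSet.inter measurableSet_ball)
    sdiff_subset inter_subset_left (by
      rw [Set.disjoint_left]
      rintro x ⟨_, hx⟩ ⟨_, hx'⟩
      exact hx hx')
  linarith

theorem Cv.level_one (C : Cv) {u v : ℝ} (j : ℕ) {r : ℝ} (hr : 0 < r)
    (hu : 4 * r ≤ C.t j - u) (hv : 4 * r ≤ v - C.t j)
    (hiso : ∀ i, i ≠ j → 4 * r ≤ |C.t i - C.t j|) {Y : Set E2} (hY : Cpt Y)
    (hu' : infDist (C.pt u) Y + r < C.t j - u) (hv' : infDist (C.pt v) Y + r < v - C.t j)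
    {e : ℝ} (hH : H1 Y ≤ C.len u v + e) (hD : C.Dl u v Y ≤ e) {s : ℝ}
    (hs : C.dj Y j < s) (hsr : s ≤ r)
    (hone : (Y ∩ sphere (C.pt (C.t j)) s).Subsingleton) :
    s ≤ 4 * e + 2 * C.dj Y j := by
  set c : E2 := C.pt (C.t j) with hc
  have hd0 : 0 ≤ C.dj Y j := infDist_nonneg
  have hs0 : 0 < s := lt_of_le_of_lt hd0 hs
  have he0 : 0 ≤ e := (C.Dl_nonneg u v Y).trans hD
  have huv : u ≤ v := by linarith
  obtain ⟨yj, hyjY, hyj⟩ := exists_near hY c
  obtain ⟨yu, hyuY, hyu⟩ := exists_near hY (C.pt u)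
  obtain ⟨yv, hyvY, hyv⟩ := exists_near hY (C.pt v)
  have hyj' : dist c yj = C.dj Y j := hyj
  -- `yu`, `yv` are outside the ball
  have hyu_out : s < dist yu c := by
    have h1 : |u - C.t j| ≤ dist (C.pt u) c := C.dist_pt_ge u (C.t j)
    have h2 : dist (C.pt u) c ≤ dist (C.pt u) yu + dist yu c := dist_triangle _ _ _
    have h3 : C.t j - u ≤ |u - C.t j| := by
      rw [abs_sub_comm]
      exact le_abs_self _
    linarith
  have hyv_out : s < dist yv c := by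
    have h1 : |v - C.t j| ≤ dist (C.pt v) c := C.dist_pt_ge v (C.t j)
    have h2 : dist (C.pt v) c ≤ dist (C.pt v) yv + dist yv c := dist_triangle _ _ _
    have h3 : v - C.t j ≤ |v - C.t j| := le_abs_self _
    linarith
  obtain ⟨q, hqY, hq⟩ := exists_sphere hY.2.1 (c := c) (r := s) hyjY hyuY
    (by rw [dist_comm, hyj']; exact hs.le) hyu_out.le
  have hqs : Y ∩ sphere c s = {q} := by
    apply Set.eq_singleton_iff_unique_mem.mpr
    have hm : q ∈ Y ∩ sphere c s := ⟨hqY, mem_sphere.mpr hq⟩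
    exact ⟨hm, fun x hx => hone hx hm⟩
  obtain ⟨hCo, hCi, hsum⟩ := cut_H1 hY hqs
  set Yo : Set E2 := Y \ ball c s with hYo
  have hqo : q ∈ Yo := ⟨hqY, by rw [mem_ball, hq]; exact lt_irrefl s⟩
  have hyuo : yu ∈ Yo := ⟨hyuY, by rw [mem_ball]; exact not_lt.mpr hyu_out.le⟩
  have hyvo : yv ∈ Yo := ⟨hyvY, by rw [mem_ball]; exact not_lt.mpr hyv_out.le⟩
  -- the inner piece
  have hin : s - C.dj Y j ≤ H1 (Y ∩ closedBall c s) := by
    have h1 : dist yj q ≤ H1 (Y ∩ closedBall c s) := by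
      refine hCi.dist_le ⟨hyjY, ?_⟩ ⟨hqY, ?_⟩
      · rw [mem_closedBall, dist_comm, hyj']
        exact hs.le
      · rw [mem_closedBall, hq]
    have h2 : dist q c ≤ dist q yj + dist yj c := dist_triangle _ _ _
    rw [dist_comm q yj, dist_comm yj c, hyj', hq] at h2
    linarith
  -- the outer piece
  have ht := C.t_inf huv hCo
  have hdi : ∀ i, i ≠ j → C.dj Yo i ≤ 2 * C.dj Y i := by
    intro i hij
    obtain ⟨yi, hyiY, hyi⟩ := exists_near hY (C.pt (C.t i))
    have hyi' : dist (C.pt (C.t i)) yi = C.dj Y i := hyi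
    have hdi0 : 0 ≤ C.dj Y i := infDist_nonneg
    by_cases hb : yi ∈ ball c s
    · have h1 : dist (C.pt (C.t i)) c ≤ dist (C.pt (C.t i)) yi + dist yi c := dist_triangle _ _ _
      have h2 : dist yi c < s := mem_ball.mp hb
      have h3 : |C.t i - C.t j| ≤ dist (C.pt (C.t i)) c := C.dist_pt_ge _ _
      have h4 := hiso i hij
      have h5 : C.dj Yo i ≤ dist (C.pt (C.t i)) q := infDist_le_dist_of_mem hqo
      have h6 : dist (C.pt (C.t i)) q ≤ dist (C.pt (C.t i)) c + dist c q := dist_triangle _ _ _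
      rw [dist_comm c q, hq] at h6
      linarith
    · have h1 : C.dj Yo i ≤ dist (C.pt (C.t i)) yi := infDist_le_dist_of_mem ⟨hyiY, hb⟩
      linarith
  have hdj : C.dj Yo j ≤ s := by
    have h1 : C.dj Yo j ≤ dist c q := infDist_le_dist_of_mem hqo
    rw [dist_comm, hq] at h1
    exact h1
  have hDo : C.Dl u v Yo ≤ 2 * e + C.τ j * s := by
    have h1 : infDist (C.pt u) Yo ≤ infDist (C.pt u) Y := by
      rw [← hyu]
      exact infDist_le_dist_of_mem hyuo
    have h2 : infDist (C.pt v) Yo ≤ infDist (C.pt v) Y := by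
      rw [← hyv]
      exact infDist_le_dist_of_mem hyvo
    have hS1 := C.summable_Dl u v hY.1 hY.2.1.nonempty
    have hS2 := C.summable_Dl u v hCo.1 hCo.2.1.nonempty
    have hS3 : Summable (fun i : ℕ => if i = j then C.τ j * s else 0) :=
      (hasSum_ite_eq j (C.τ j * s)).summable
    have h3 : (∑' i, if u < C.t i ∧ C.t i < v then C.τ i * C.dj Yo i else 0) ≤
        2 * (∑' i, if u < C.t i ∧ C.t i < v then C.τ i * C.dj Y i else 0) + C.τ j * s := by
      have e1 : (∑' i : ℕ, if i = j then C.τ j * s else 0) = C.τ j * s := tsum_ite_eq j _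
      rw [← tsum_mul_left]
      refine le_trans ?_ (le_of_eq (congrArg₂ (· + ·) rfl e1))
      rw [← (hS1.mul_left 2).tsum_add hS3]
      refine hS2.tsum_le_tsum (fun i => ?_) ((hS1.mul_left 2).add hS3)
      by_cases hij : i = j
      · subst hij
        have hτ := C.τ_pos i
        rw [if_pos rfl]
        split_ifs with hi
        · have : C.τ i * C.dj Yo i ≤ C.τ i * s := mul_le_mul_of_nonneg_left hdj hτ.le
          have : 0 ≤ 2 * (C.τ i * C.dj Y i) := by positivity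
          linarith
        · have : 0 ≤ C.τ i * s := by positivity
          linarith
      · rw [if_neg hij, add_zero]
        split_ifs with hi
        · have := mul_le_mul_of_nonneg_left (hdi i hij) (C.τ_pos i).le
          linarith
        · simp
    have h4 : 0 ≤ infDist (C.pt u) Y := infDist_nonneg
    have h5 : 0 ≤ infDist (C.pt v) Y := infDist_nonneg
    unfold Cv.Dl at hD ⊢
    linarith
  have hτj : C.τ j * s ≤ 1 / 20 * s := mul_le_mul_of_nonneg_right (C.tau_le j) hs0.le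
  linarith

theorem Cv.ann_low (C : Cv) {u v : ℝ} (j : ℕ) {r : ℝ} (hr : 0 < r)
    (hu : 4 * r ≤ C.t j - u) (hv : 4 * r ≤ v - C.t j)
    (hiso : ∀ i, i ≠ j → 4 * r ≤ |C.t i - C.t j|) {Y : Set E2} (hY : Cpt Y)
    (hu' : infDist (C.pt u) Y + r < C.t j - u) (hv' : infDist (C.pt v) Y + r < v - C.t j)
    {e : ℝ} (hH : H1 Y ≤ C.len u v + e) (hD : C.Dl u v Y ≤ e) {r₁ r₂ : ℝ} (h0 : 0 ≤ r₁)
    (h1 : r₁ ≤ r₂) (h2 : r₂ ≤ r) :
    2 * (r₂ - r₁) - 8 * e - 4 * C.dj Y j ≤
      H1 (Y ∩ {x | r₁ < dist x (C.pt (C.t j)) ∧ dist x (C.pt (C.t j)) < r₂}) := by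
  have hd0 : 0 ≤ C.dj Y j := infDist_nonneg
  have he0 : 0 ≤ e := (C.Dl_nonneg u v Y).trans hD
  set s₀ : ℝ := max r₁ (4 * e + 2 * C.dj Y j) with hs₀
  have hs₀1 : r₁ ≤ s₀ := le_max_left _ _
  have hs₀2 : 4 * e + 2 * C.dj Y j ≤ s₀ := le_max_right _ _
  have hs₀3 : s₀ ≤ r₁ + (4 * e + 2 * C.dj Y j) := by
    apply max_le <;> linarith
  rcases le_total r₂ s₀ with hcase | hcase
  · have : (0:ℝ) ≤ H1 (Y ∩ {x | r₁ < dist x (C.pt (C.t j)) ∧ dist x (C.pt (C.t j)) < r₂}) :=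
      ENNReal.toReal_nonneg
    linarith
  · have hm := mult 2 (C.pt (C.t j)) Y s₀ r₂ (by
      intro s hs
      have hns : ¬ (Y ∩ sphere (C.pt (C.t j)) s).Subsingleton := by
        intro hone
        have := C.level_one j hr hu hv hiso hY hu' hv' hH hD
          (by linarith [hs.1]) (by linarith [hs.2]) hone
        linarith [hs.1]
      rw [Set.not_subsingleton_iff] at hns
      obtain ⟨a, ha, b, hb, hab⟩ := hns
      refine ⟨![a, b], ?_, ?_⟩
      · intro i k hik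
        fin_cases i <;> fin_cases k
        · rfl
        · exact absurd hik hab
        · exact absurd hik.symm hab
        · rfl
      · intro i
        fin_cases i
        · exact ⟨ha.1, mem_sphere.mp ha.2⟩
        · exact ⟨hb.1, mem_sphere.mp hb.2⟩)
    have hsub : Y ∩ {x | s₀ < dist x (C.pt (C.t j)) ∧ dist x (C.pt (C.t j)) < r₂} ⊆
        Y ∩ {x | r₁ < dist x (C.pt (C.t j)) ∧ dist x (C.pt (C.t j)) < r₂} := by
      rintro x ⟨hx, hx1, hx2⟩
      exact ⟨hx, lt_of_le_of_lt hs₀1 hx1, hx2⟩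
    have hf : μH[1] (Y ∩ {x | r₁ < dist x (C.pt (C.t j)) ∧ dist x (C.pt (C.t j)) < r₂}) ≠ ∞ :=
      ne_top_of_le_ne_top hY.2.2 (measure_mono inter_subset_left)
    have hm2 := ENNReal.toReal_mono hf (hm.trans (measure_mono hsub))
    rw [ENNReal.toReal_ofReal (by
      have : 0 ≤ r₂ - s₀ := by linarith
      positivity)] at hm2
    push_cast at hm2
    unfold H1
    linarith

private lemma ann_end {Y : Set E2} (hY : Cpt Y) {c yb : E2} (hyb : yb ∈ Y) {r r₁ r₂ : ℝ}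
    (hr : r ≤ dist yb c) (h0 : 0 ≤ r₁) (h2 : r₂ ≤ r) :
    (r₂ - r₁) - infDist c Y ≤ H1 (Y ∩ {x | r₁ < dist x c ∧ dist x c < r₂}) := by
  have hd0 : 0 ≤ infDist c Y := infDist_nonneg
  obtain ⟨ya, hyaY, hya⟩ := exists_near hY c
  have h3 : (0:ℝ) ≤ H1 (Y ∩ {x | r₁ < dist x c ∧ dist x c < r₂}) := ENNReal.toReal_nonneg
  set s₀ : ℝ := max r₁ (infDist c Y) with hs₀
  have hs₀1 : r₁ ≤ s₀ := le_max_left _ _
  have hs₀2 : infDist c Y ≤ s₀ := le_max_right _ _
  have hs₀3 : s₀ ≤ r₁ + infDist c Y := by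
    apply max_le <;> linarith
  rcases le_total r₂ s₀ with hcase | hcase
  · linarith
  · have hm := mult 1 c Y s₀ r₂ (by
      intro s hs
      obtain ⟨q, hqY, hq⟩ := exists_sphere hY.2.1 (c := c) (r := s) hyaY hyb
        (by rw [dist_comm, hya]; exact hs₀2.trans hs.1.le) (by linarith [hs.2])
      exact ⟨fun _ => q, fun i k _ => Subsingleton.elim i k, fun _ => ⟨hqY, hq⟩⟩)
    have hsub : Y ∩ {x | s₀ < dist x c ∧ dist x c < r₂} ⊆
        Y ∩ {x | r₁ < dist x c ∧ dist x c < r₂} := by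
      rintro x ⟨hx, hx1, hx2⟩
      exact ⟨hx, lt_of_le_of_lt hs₀1 hx1, hx2⟩
    have hf : μH[1] (Y ∩ {x | r₁ < dist x c ∧ dist x c < r₂}) ≠ ∞ :=
      ne_top_of_le_ne_top hY.2.2 (measure_mono inter_subset_left)
    have hm2 := ENNReal.toReal_mono hf (hm.trans (measure_mono hsub))
    rw [ENNReal.toReal_ofReal (by
      have : 0 ≤ r₂ - s₀ := by linarith
      positivity)] at hm2
    push_cast at hm2
    unfold H1
    linarith

theorem Cv.ann_low_left (C : Cv) {u v : ℝ} {r : ℝ} {Y : Set E2} (hY : Cpt Y)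
    (hv' : infDist (C.pt v) Y + r ≤ v - u) {r₁ r₂ : ℝ} (h0 : 0 ≤ r₁)
    (h1 : r₁ ≤ r₂) (h2 : r₂ ≤ r) :
    (r₂ - r₁) - infDist (C.pt u) Y ≤
      H1 (Y ∩ {x | r₁ < dist x (C.pt u) ∧ dist x (C.pt u) < r₂}) := by
  obtain ⟨yv, hyvY, hyv⟩ := exists_near hY (C.pt v)
  refine ann_end hY hyvY (r := r) ?_ h0 h2
  have e1 : |v - u| ≤ dist (C.pt v) (C.pt u) := C.dist_pt_ge v u
  have e2 : dist (C.pt v) (C.pt u) ≤ dist (C.pt v) yv + dist yv (C.pt u) := dist_triangle _ _ _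
  have e3 : v - u ≤ |v - u| := le_abs_self _
  linarith

theorem Cv.ann_low_right (C : Cv) {u v : ℝ} {r : ℝ} {Y : Set E2} (hY : Cpt Y)
    (hu' : infDist (C.pt u) Y + r ≤ v - u) {r₁ r₂ : ℝ} (h0 : 0 ≤ r₁)
    (h1 : r₁ ≤ r₂) (h2 : r₂ ≤ r) :
    (r₂ - r₁) - infDist (C.pt v) Y ≤
      H1 (Y ∩ {x | r₁ < dist x (C.pt v) ∧ dist x (C.pt v) < r₂}) := by
  obtain ⟨yu, hyuY, hyu⟩ := exists_near hY (C.pt u)
  refine ann_end hY hyuY (r := r) ?_ h0 h2
  have e1 : |u - v| ≤ dist (C.pt u) (C.pt v) := C.dist_pt_ge u v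
  have e2 : dist (C.pt u) (C.pt v) ≤ dist (C.pt u) yu + dist yu (C.pt v) := dist_triangle _ _ _
  have e3 : v - u ≤ |u - v| := by
    rw [abs_sub_comm]
    exact le_abs_self _
  linarith

end Pool.Agent.Lib.P8e
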