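import Pool.Agent.Lib.P8e.Ball
import Pool.Agent.Lib.P8e.Level

set_option autoImplicit false

/-!
# Cutting at a vertex, step 1: a good circle
-/

open MeasureTheory Set Metric
open scoped ENNReal NNReal InnerProductSpace

namespace Pool.Agent.Lib.P8e

/-- Comparison of the defects of two sets. -/
private lemma Cv.Dl_bound (C : Cv) {u v : ℝ} {Y Z : Set E2} (hY : Cpt Y) (hZ : Cpt Z) {m : ℝ}
    (hm : 0 ≤ m) (h1 : infDist (C.pt u) Z ≤ infDist (C.pt u) Y)
    (h2 : infDist (C.pt v) Z ≤ infDist (C.pt v) Y)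
    (h3 : ∀ i, u < C.t i → C.t i < v → C.dj Z i ≤ 2 * C.dj Y i + m) :
    C.Dl u v Z ≤ 2 * C.Dl u v Y + m / 20 := by
  have hsY := C.summable_Dl u v hY.1 hY.2.1.nonempty
  have hsZ := C.summable_Dl u v hZ.1 hZ.2.1.nonempty
  have hsT := C.summable_turn u v
  have hle : (∑' j, if u < C.t j ∧ C.t j < v then C.τ j * C.dj Z j else 0) ≤
      ∑' j, (2 * (if u < C.t j ∧ C.t j < v then C.τ j * C.dj Y j else 0) +
        m * (if u < C.t j ∧ C.t j < v then C.τ j else 0)) := by
    refine hsZ.tsum_le_tsum ?_ ((hsY.mul_left 2).add (hsT.mul_left m))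
    intro i
    by_cases hi : u < C.t i ∧ C.t i < v
    · simp only [hi, and_self, if_true]
      have := h3 i hi.1 hi.2
      have h4 := mul_le_mul_of_nonneg_left this (C.τ_pos i).le
      linarith
    · simp only [hi, if_false]
      simp
  rw [(hsY.mul_left 2).tsum_add (hsT.mul_left m), tsum_mul_left, tsum_mul_left] at hle
  have hT := C.turn_le u v
  have hT0 : m * (∑' j, if u < C.t j ∧ C.t j < v then C.τ j else 0) ≤ m * (1 / 20) :=
    mul_le_mul_of_nonneg_left hT hm
  have hn1 : 0 ≤ infDist (C.pt u) Y := infDist_nonneg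
  have hn2 : 0 ≤ infDist (C.pt v) Y := infDist_nonneg
  unfold Cv.Dl
  linarith

private lemma Cv.Dl_ends (C : Cv) {u v : ℝ} {Y : Set E2} {e : ℝ}
    (hD : C.Dl u v Y ≤ e) : infDist (C.pt u) Y ≤ e ∧ infDist (C.pt v) Y ≤ e := by
  have h0 : 0 ≤ ∑' j, if u < C.t j ∧ C.t j < v then C.τ j * C.dj Y j else 0 := by
    refine tsum_nonneg fun i => ?_
    split_ifs
    · exact mul_nonneg (C.τ_pos i).le infDist_nonneg
    · exact le_rfl
  have hn1 : 0 ≤ infDist (C.pt u) Y := infDist_nonneg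
  have hn2 : 0 ≤ infDist (C.pt v) Y := infDist_nonneg
  unfold Cv.Dl at hD
  constructor <;> linarith

private lemma three_points {Y : Set E2} {c : E2} {s : ℝ}
    (h : ¬ ∃ g : Fin 3 → E2, Function.Injective g ∧ ∀ i, g i ∈ Y ∧ dist (g i) c = s)
    {q q' : E2} (hq : q ∈ Y ∩ sphere c s) (hq' : q' ∈ Y ∩ sphere c s) (hne : q ≠ q') :
    Y ∩ sphere c s = {q, q'} := by
  ext x
  simp only [mem_insert_iff, mem_singleton_iff]
  constructor
  · intro hx
    by_contra hcon
    push Not at hcon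
    apply h
    refine ⟨![q, q', x], ?_, ?_⟩
    · intro i k hik
      fin_cases i <;> fin_cases k <;> simp_all
    · intro i
      fin_cases i
      · exact ⟨hq.1, mem_sphere.1 hq.2⟩
      · exact ⟨hq'.1, mem_sphere.1 hq'.2⟩
      · exact ⟨hx.1, mem_sphere.1 hx.2⟩
  · rintro (rfl | rfl)
    · exact hq
    · exact hq'

private lemma meas_annulus (c : E2) (a b : ℝ) :
    MeasurableSet {x : E2 | a < dist x c ∧ dist x c < b} := by
  have h1 : IsOpen {x : E2 | a < dist x c} := isOpen_lt continuous_const (by fun_prop)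
  have h2 : IsOpen {x : E2 | dist x c < b} := isOpen_lt (by fun_prop) continuous_const
  exact (h1.inter h2).measurableSet

/-- Both nearest points to the ends cannot lie in the same component. -/
private lemma Cv.not_same (C : Cv) {u v : ℝ} (j : ℕ) {r s : ℝ} (hr : 0 < r) (hs : r / 2 < s)
    (hsr : s < r)
    (hu : 4 * r ≤ C.t j - u) (hv : 4 * r ≤ v - C.t j)
    (hiso : ∀ i, i ≠ j → 4 * r ≤ |C.t i - C.t j|) {Y : Set E2} (hY : Cpt Y)
    {e : ℝ} (he : 0 ≤ e) (her : 200 * e ≤ r)
    (hH : H1 Y ≤ C.len u v + e) (hD : C.Dl u v Y ≤ e)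
    (hann : 2 * s - 12 * e ≤ H1 (Y ∩ ball (C.pt (C.t j)) s))
    {Ka Kb : Set E2} (hKa : Cpt Ka) (hKb : Cpt Kb) (hdisj : Disjoint Ka Kb)
    (hun : Y \ ball (C.pt (C.t j)) s = Ka ∪ Kb) {a b : E2} (ha : a ∈ Ka) (hb : b ∈ Kb)
    (has : dist a (C.pt (C.t j)) = s) (hbs : dist b (C.pt (C.t j)) = s) {yu yv : E2}
    (hyu : yu ∈ Ka) (hyv : yv ∈ Ka) (hdu : dist (C.pt u) yu = infDist (C.pt u) Y)
    (hdv : dist (C.pt v) yv = infDist (C.pt v) Y) : False := by
  set c := C.pt (C.t j) with hc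
  obtain ⟨hZ, hHZ⟩ := hKa.union_segment ha c
  set Z := Ka ∪ segment ℝ a c with hZdef
  have hcZ : c ∈ Z := Or.inr (right_mem_segment ℝ a c)
  have hb0 : 0 ≤ H1 Kb := ENNReal.toReal_nonneg
  have hDl : C.Dl u v Z ≤ 2 * C.Dl u v Y + (2 * H1 Kb) / 20 := by
    refine C.Dl_bound hY hZ (by positivity) ?_ ?_ ?_
    · rw [← hdu]; exact infDist_le_dist_of_mem (Or.inl hyu)
    · rw [← hdv]; exact infDist_le_dist_of_mem (Or.inl hyv)
    · intro i _ _
      obtain ⟨y, hy, hdy⟩ := exists_near hY (C.pt (C.t i))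
      have hd0 : 0 ≤ C.dj Y i := infDist_nonneg
      have hdy' : dist (C.pt (C.t i)) y = C.dj Y i := hdy
      by_cases hij : i = j
      · subst hij
        have : C.dj Z i = 0 := by
          have h0 : infDist c Z = 0 := infDist_zero_of_mem hcZ
          exact h0
        rw [this]; positivity
      have h4 := hiso i hij
      have h5 : |C.t i - C.t j| ≤ dist (C.pt (C.t i)) c := C.dist_pt_ge _ _
      have h6 : C.dj Z i ≤ dist (C.pt (C.t i)) c := infDist_le_dist_of_mem hcZ
      by_cases hyb : y ∈ ball c s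
      · have h7 : dist y c < s := hyb
        have h8 := dist_triangle (C.pt (C.t i)) y c
        linarith
      · have hyK : y ∈ Ka ∪ Kb := by rw [← hun]; exact ⟨hy, hyb⟩
        rcases hyK with hyK | hyK
        · have h7 : C.dj Z i ≤ dist (C.pt (C.t i)) y := infDist_le_dist_of_mem (Or.inl hyK)
          linarith
        · have h7 : dist y b ≤ H1 Kb := hKb.dist_le hyK hb
          have h8 := dist_triangle4 (C.pt (C.t i)) y b c
          linarith
  have ht := C.t_inf (by linarith : u ≤ v) hZ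
  have hYf : μH[1] Y ≠ ∞ := hY.2.2
  have hs1 : H1 (Y \ ball c s) + H1 (Y ∩ ball c s) ≤ H1 Y :=
    H1_split hYf (hY.1.measurableSet.diff measurableSet_ball)
      (hY.1.measurableSet.inter measurableSet_ball) sdiff_subset inter_subset_left
      (disjoint_sdiff_left.mono_right inter_subset_right)
  have hs2 : H1 Ka + H1 Kb ≤ H1 (Y \ ball c s) := by
    rw [hun]
    refine H1_split ?_ hKa.1.measurableSet hKb.1.measurableSet subset_union_left
      subset_union_right hdisj
    rw [← hun]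
    exact ne_top_of_le_ne_top hYf (measure_mono sdiff_subset)
  linarith

/-- A good circle around a vertex. -/
theorem Cv.good_circle (C : Cv) {u v : ℝ} (j : ℕ) {r : ℝ} (hr : 0 < r)
    (hu : 4 * r ≤ C.t j - u) (hv : 4 * r ≤ v - C.t j)
    (hiso : ∀ i, i ≠ j → 4 * r ≤ |C.t i - C.t j|) {Y : Set E2} (hY : Cpt Y)
    {e : ℝ} (he : 0 ≤ e) (her : 200 * e ≤ r)
    (hH : H1 Y ≤ C.len u v + e) (hD : C.Dl u v Y ≤ e) (hd : C.dj Y j ≤ e) :
    ∃ (s : ℝ) (Km Kp : Set E2) (qm qp : E2), r / 2 < s ∧ s < r ∧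
      IsCompact Km ∧ IsConnected Km ∧ IsCompact Kp ∧ IsConnected Kp ∧ Disjoint Km Kp ∧
      Y \ ball (C.pt (C.t j)) s = Km ∪ Kp ∧ qm ∈ Km ∧ qp ∈ Kp ∧
      dist qm (C.pt (C.t j)) = s ∧ dist qp (C.pt (C.t j)) = s ∧
      infDist (C.pt u) Km = infDist (C.pt u) Y ∧ infDist (C.pt v) Kp = infDist (C.pt v) Y ∧
      2 * s - 12 * e ≤ H1 (Y ∩ ball (C.pt (C.t j)) s) := by
  obtain ⟨heu, hev⟩ := C.Dl_ends hD
  have hYf : μH[1] Y ≠ ∞ := hY.2.2
  set c := C.pt (C.t j) with hc
  have hu1 : infDist (C.pt u) Y + r < C.t j - u := by linarith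
  have hv1 : infDist (C.pt v) Y + r < v - C.t j := by linarith
  -- lower bound in balls
  have hlow : ∀ s, 0 ≤ s → s ≤ r → 2 * s - 12 * e ≤
      H1 (Y ∩ {x | 0 < dist x c ∧ dist x c < s}) := by
    intro s hs0 hsr
    have := C.ann_low j hr hu hv hiso hY hu1 hv1 hH hD (le_refl 0) hs0 hsr
    linarith
  -- (1) a level with at most two points
  obtain ⟨s, hs, hsn⟩ : ∃ s ∈ Ioo (r / 2) r,
      ¬ ∃ g : Fin 3 → E2, Function.Injective g ∧ ∀ i, g i ∈ Y ∧ dist (g i) c = s := by
    by_contra hcon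
    push Not at hcon
    have hm := mult 3 c Y (r / 2) r hcon
    have hfin : μH[1] (Y ∩ {x | r / 2 < dist x c ∧ dist x c < r}) ≠ ∞ :=
      ne_top_of_le_ne_top hYf (measure_mono inter_subset_left)
    have hm' : ((3 : ℕ) : ℝ) * (r - r / 2) ≤ H1 (Y ∩ {x | r / 2 < dist x c ∧ dist x c < r}) := by
      rw [H1, ← ENNReal.ofReal_le_iff_le_toReal hfin]
      exact hm
    have hup := C.ball_upper j hr hu hv hiso hY hu1.le hv1.le hH hD
    have hl := hlow (r / 2) (by linarith) (by linarith)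
    have hsp : H1 (Y ∩ {x | r / 2 < dist x c ∧ dist x c < r}) +
        H1 (Y ∩ {x | 0 < dist x c ∧ dist x c < r / 2}) ≤ H1 (Y ∩ ball c r) := by
      refine H1_split ?_ (hY.1.measurableSet.inter (meas_annulus c _ _))
        (hY.1.measurableSet.inter (meas_annulus c _ _)) ?_ ?_ ?_
      · exact ne_top_of_le_ne_top hYf (measure_mono inter_subset_left)
      · rintro x ⟨hx, hx1, hx2⟩; exact ⟨hx, hx2⟩
      · rintro x ⟨hx, hx1, hx2⟩
        refine ⟨hx, ?_⟩
        rw [mem_ball]; linarith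
      · rw [Set.disjoint_left]
        rintro x ⟨_, hx1, _⟩ ⟨_, _, hx2⟩
        linarith
    push_cast at hm'
    linarith
  have hs0 : 0 < s := by linarith [hs.1]
  -- (2) exactly two points
  have hdjs : C.dj Y j < s := by linarith [hs.1]
  have hnot : ¬ (Y ∩ sphere c s).Subsingleton := by
    intro hsub
    have := C.level_one j hr hu hv hiso hY hu1 hv1 hH hD hdjs hs.2.le hsub
    linarith [hs.1]
  rw [Set.not_subsingleton_iff] at hnot
  obtain ⟨q, hq, q', hq', hne⟩ := hnot
  have hqq : Y ∩ sphere c s = {q, q'} := three_points hsn hq hq' hne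
  have hqs : dist q c = s := mem_sphere.1 hq.2
  have hqs' : dist q' c = s := mem_sphere.1 hq'.2
  -- the ball meets Y
  obtain ⟨yc, hyc, hdc⟩ := exists_near hY c
  have hdc' : dist c yc = C.dj Y j := hdc
  have hbne : (Y ∩ ball c s).Nonempty := by
    refine ⟨yc, hyc, ?_⟩
    rw [mem_ball, dist_comm]; linarith
  have hqF : q ∈ Y \ ball c s := ⟨hq.1, by rw [mem_ball]; linarith⟩
  have hqF' : q' ∈ Y \ ball c s := ⟨hq'.1, by rw [mem_ball]; linarith⟩
  obtain ⟨hKc, hKn, -⟩ := comp_touch hY.1 hY.2.1 hbne hqF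
  obtain ⟨hKc', hKn', -⟩ := comp_touch hY.1 hY.2.1 hbne hqF'
  have hun := two_comp hY.1 hY.2.1 hbne hqq
  have hann : 2 * s - 12 * e ≤ H1 (Y ∩ ball c s) := by
    refine (hlow s hs0.le hs.2.le).trans (H1_mono ?_ ?_)
    · exact ne_top_of_le_ne_top hYf (measure_mono inter_subset_left)
    · rintro x ⟨hx, _, hx2⟩; exact ⟨hx, hx2⟩
  -- nearest points to the ends
  obtain ⟨yu, hyu, hdu⟩ := exists_near hY (C.pt u)
  obtain ⟨yv, hyv, hdv⟩ := exists_near hY (C.pt v)
  have hyuF : yu ∈ Y \ ball c s := by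
    refine ⟨hyu, ?_⟩
    rw [mem_ball]
    have h1 : |u - C.t j| ≤ dist (C.pt u) c := C.dist_pt_ge _ _
    have h2 := neg_abs_le (u - C.t j)
    have h3 := dist_triangle (C.pt u) yu c
    linarith [hs.2]
  have hyvF : yv ∈ Y \ ball c s := by
    refine ⟨hyv, ?_⟩
    rw [mem_ball]
    have h1 : |v - C.t j| ≤ dist (C.pt v) c := C.dist_pt_ge _ _
    have h2 := le_abs_self (v - C.t j)
    have h3 := dist_triangle (C.pt v) yv c
    linarith [hs.2]
  set K := connectedComponentIn (Y \ ball c s) q with hK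
  set K' := connectedComponentIn (Y \ ball c s) q' with hK'
  have hKY : K ⊆ Y := (connectedComponentIn_subset _ _).trans sdiff_subset
  have hKY' : K' ⊆ Y := (connectedComponentIn_subset _ _).trans sdiff_subset
  have hcpK : Cpt K := ⟨hKc, hKn, ne_top_of_le_ne_top hYf (measure_mono hKY)⟩
  have hcpK' : Cpt K' := ⟨hKc', hKn', ne_top_of_le_ne_top hYf (measure_mono hKY')⟩
  have hqK : q ∈ K := mem_connectedComponentIn hqF
  have hqK' : q' ∈ K' := mem_connectedComponentIn hqF'
  -- (3) the components are disjoint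
  have hdisj : Disjoint K K' := by
    rw [Set.disjoint_iff_inter_eq_empty]
    by_contra hcon
    obtain ⟨x, hx, hx'⟩ := Set.nonempty_iff_ne_empty.2 hcon
    have hKK : K = K' := by
      rw [hK, hK', connectedComponentIn_eq hx, connectedComponentIn_eq hx']
    rw [← hKK, union_self] at hun
    have hDl : C.Dl u v K ≤ 2 * C.Dl u v Y + s / 20 := by
      refine C.Dl_bound hY hcpK hs0.le ?_ ?_ ?_
      · rw [← hdu]; exact infDist_le_dist_of_mem (by rw [← hun]; exact hyuF)
      · rw [← hdv]; exact infDist_le_dist_of_mem (by rw [← hun]; exact hyvF)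
      · intro i _ _
        obtain ⟨y, hy, hdy⟩ := exists_near hY (C.pt (C.t i))
        have hd0 : 0 ≤ C.dj Y i := infDist_nonneg
        have hdy' : dist (C.pt (C.t i)) y = C.dj Y i := hdy
        have h6 : C.dj K i ≤ dist (C.pt (C.t i)) q := infDist_le_dist_of_mem hqK
        by_cases hij : i = j
        · subst hij
          have h7 : dist (C.pt (C.t i)) q = s := by rw [dist_comm]; exact hqs
          linarith
        have h4 := hiso i hij
        have h5 : |C.t i - C.t j| ≤ dist (C.pt (C.t i)) c := C.dist_pt_ge _ _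
        by_cases hyb : y ∈ ball c s
        · have h7 : dist y c < s := hyb
          have h8 := dist_triangle (C.pt (C.t i)) y c
          have h9 := dist_triangle_right (C.pt (C.t i)) q c
          linarith [hs.2]
        · have h7 : C.dj K i ≤ dist (C.pt (C.t i)) y :=
            infDist_le_dist_of_mem (by rw [← hun]; exact ⟨hy, hyb⟩)
          linarith
    have ht := C.t_inf (by linarith : u ≤ v) hcpK
    have hs1 : H1 (Y \ ball c s) + H1 (Y ∩ ball c s) ≤ H1 Y :=
      H1_split hYf (hY.1.measurableSet.diff measurableSet_ball)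
        (hY.1.measurableSet.inter measurableSet_ball) sdiff_subset inter_subset_left
        (disjoint_sdiff_left.mono_right inter_subset_right)
    rw [hun] at hs1
    linarith [hs.1]
  -- (4) the nearest points are in different components
  have hinf : ∀ (x y : E2) (L : Set E2), y ∈ L → L ⊆ Y → dist x y = infDist x Y →
      infDist x L = infDist x Y := by
    intro x y L hyL hLY hxy
    refine le_antisymm ?_ (infDist_le_infDist_of_subset hLY ⟨y, hyL⟩)
    rw [← hxy]; exact infDist_le_dist_of_mem hyL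
  have hyuK : yu ∈ K ∪ K' := by rw [← hun]; exact hyuF
  have hyvK : yv ∈ K ∪ K' := by rw [← hun]; exact hyvF
  rcases hyuK with h1 | h1 <;> rcases hyvK with h2 | h2
  · exact absurd (C.not_same j hr hs.1 hs.2 hu hv hiso hY he her hH hD hann hcpK hcpK' hdisj hun
      hqK hqK' hqs hqs' h1 h2 hdu hdv) id
  · exact ⟨s, K, K', q, q', hs.1, hs.2, hKc, hKn, hKc', hKn', hdisj, hun, hqK, hqK', hqs, hqs',
      hinf _ _ _ h1 hKY hdu, hinf _ _ _ h2 hKY' hdv, hann⟩
  · exact ⟨s, K', K, q', q, hs.1, hs.2, hKc', hKn', hKc, hKn, hdisj.symm,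
      by rw [hun, union_comm], hqK', hqK, hqs', hqs,
      hinf _ _ _ h1 hKY' hdu, hinf _ _ _ h2 hKY hdv, hann⟩
  · exact absurd (C.not_same j hr hs.1 hs.2 hu hv hiso hY he her hH hD hann hcpK' hcpK hdisj.symm
      (by rw [hun, union_comm]) hqK' hqK hqs' hqs h1 h2 hdu hdv) id

end Pool.Agent.Lib.P8e
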