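import Pool.Agent.Lib.P8e.Defs

set_option autoImplicit false

/-!
# The curve: data and notation

`C.h x = κ + σ x - ∑ τ_j (x - t_j)_+` is a concave, piecewise affine function with countably many vertices `t_j`
in `[3/16, 13/16]` and slope jumps `-τ_j`. `C.SK` is its graph over `[1/8, 7/8]`; `ρ_j`, `ρe` are the radii of the needles.
-/

open MeasureTheory Set Metric
open scoped ENNReal NNReal InnerProductSpace

namespace Pool.Agent.Lib.P8e

/-- The data of the curve. -/
structure Cv where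
  /-- abscissas of the vertices -/
  t : ℕ → ℝ
  /-- slope jumps -/
  τ : ℕ → ℝ
  /-- slope at the left end -/
  σ : ℝ
  /-- constant term -/
  κ : ℝ
  /-- radii of the needles -/
  ρ : ℕ → ℝ
  /-- radius of the two end needles -/
  ρe : ℝ
  τ_pos : ∀ j, 0 < τ j
  τ_sum : Summable τ
  τ_tot : ∑' j, τ j ≤ 1 / 20
  σ_le : |σ| ≤ 1 / 20
  t_lo : ∀ j, 3 / 16 ≤ t j
  t_hi : ∀ j, t j ≤ 13 / 16
  ρ_pos : ∀ j, 0 < ρ j
  ρ_le : ∀ j, ρ j ≤ 1 / 200
  ρe_pos : 0 < ρe
  ρe_le : ρe ≤ 1 / 200
  iso : ∀ i j, i ≠ j → 8 * ρ j ≤ |t i - t j|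

/-- Length as a real number. -/
noncomputable def H1 (Y : Set E2) : ℝ := (μH[1] Y).toReal

/-- Compact connected sets of finite length. -/
def Cpt (Y : Set E2) : Prop := IsCompact Y ∧ IsConnected Y ∧ μH[1] Y ≠ ∞

namespace Cv

/-- The concave function. -/
noncomputable def h (C : Cv) (x : ℝ) : ℝ := C.κ + C.σ * x - ∑' j, C.τ j * max (x - C.t j) 0

/-- The point of the graph with abscissa `x`. -/
noncomputable def pt (C : Cv) (x : ℝ) : E2 := !₂[x, C.h x]

/-- The arc of the graph over `[u, v]`. -/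
def arc (C : Cv) (u v : ℝ) : Set E2 := C.pt '' Icc u v

/-- The curve. -/
def SK (C : Cv) : Set E2 := C.arc (1 / 8) (7 / 8)

/-- Length of an arc. -/
noncomputable def len (C : Cv) (u v : ℝ) : ℝ := H1 (C.arc u v)

/-- Total turning in the open interval `(u, v)`. -/
noncomputable def turn (C : Cv) (u v : ℝ) : ℝ := ∑' j, if u < C.t j ∧ C.t j < v then C.τ j else 0

/-- Distance from the `j`-th vertex to `Y`. -/
noncomputable def dj (C : Cv) (Y : Set E2) (j : ℕ) : ℝ := infDist (C.pt (C.t j)) Y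

/-- The defect of `Y` with respect to the arc over `[u, v]`. -/
noncomputable def Dl (C : Cv) (u v : ℝ) (Y : Set E2) : ℝ :=
  infDist (C.pt u) Y + infDist (C.pt v) Y +
    ∑' j, if u < C.t j ∧ C.t j < v then C.τ j * C.dj Y j else 0

end Cv

end Pool.Agent.Lib.P8e
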