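import Pool.Agent.Lib.P8e.HFun
import Pool.Agent.Lib.P8e.Cv

set_option autoImplicit false

/-!
# The network as a `Cv`

PROOF SKETCH. Index type `ι = (γ × Bool ⊕ Bool) × ℕ` (countable and infinite, so `ι ≃ ℕ`: `nonempty_denumerable`). Vertices and jumps:
`((g, false), k)`: `a_g + ℓ_g sk k`, `w_g wk k`; `((g, true), k)`: `a_g + ℓ_g - ℓ_g sk k`, `w_g wk k`; right end `(false, k)`: `3/4 + (1/4) sk k`, `(1/100) wk k`;
left end `(true, k)`: `1/4 - (1/4) sk k`, `(1/100) wk k`. `κ = σ = 0`.
`h`: `w_g ℓ_g wk k max ((x - a_g)/ℓ_g - sk k) 0 = w_g wk k max (x - (a_g + ℓ_g sk k)) 0` and so on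
(`(1/400) wk k max (4 x - 3 - sk k) 0 = (1/100) wk k max (x - (3/4 + sk k/4)) 0`, `(1/400) wk k max (4 x - 1 + sk k) 0 = (1/100) wk k max (x - (1/4 - sk k/4)) 0`);
summable families of nonnegative reals (`Summable.tsum_prod`, `Summable.tsum_sum` ...). `∑ τ = ∑ w_g (1/2 + 1/2) + 2 (1/100) (1/2) ≤ 1/50`.
`∑ √τ`: `√(w_g wk k) = √w_g √(3/8) 2^(-k)`.
Every vertex is isolated: `∃ δ > 0, ∀ i ≠ j, 8 δ ≤ |t_i - t_j|` (in the same sequence the distance is at least `ℓ sk k/2`; the two sequences of the same gap are in different halves, distance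
`≥ ℓ/2`; vertices of other gaps are outside the closed gap, distance `≥ ℓ sk k`; for the end sequences likewise, the other vertices being in `[1/4, 3/4]` or at the other end).
`ρ_j = min δ_j (min ρ'_j (1/200))` with `closedBall (pt t_j) ρ'_j ⊆ Ω` (`hv`, `Ω` open). `ρe` similarly.
-/

open MeasureTheory Set Metric

namespace Pool.Agent.Lib.P8e

namespace CvAux

/-- Index type of the families of vertices: left and right half of every gap, right end, left end. -/
abbrev BT (γ : Type) : Type := (γ ⊕ γ) ⊕ (Unit ⊕ Unit)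

section

variable {γ : Type} (G : Gp γ)

/-- The weight of a family. -/
noncomputable def vw : BT γ → ℝ
  | .inl (.inl g) => G.w g
  | .inl (.inr g) => G.w g
  | .inr _ => 1 / 100

/-- The point of accumulation of a family. -/
noncomputable def pp0 : BT γ → ℝ
  | .inl (.inl g) => G.a g
  | .inl (.inr g) => G.a g + G.ℓ g
  | .inr (.inl _) => 3 / 4
  | .inr (.inr _) => 1 / 4

/-- The signed scale of a family. -/
noncomputable def qq : BT γ → ℝ
  | .inl (.inl g) => G.ℓ g
  | .inl (.inr g) => -G.ℓ g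
  | .inr (.inl _) => 1 / 4
  | .inr (.inr _) => -(1 / 4)

/-- Left end of the domain of a family. -/
noncomputable def lo : BT γ → ℝ
  | .inl (.inl g) => G.a g
  | .inl (.inr g) => G.a g + G.ℓ g / 2
  | .inr (.inl _) => 3 / 4
  | .inr (.inr _) => 0

/-- Right end of the domain of a family. -/
noncomputable def hi : BT γ → ℝ
  | .inl (.inl g) => G.a g + G.ℓ g / 2
  | .inl (.inr g) => G.a g + G.ℓ g
  | .inr (.inl _) => 1
  | .inr (.inr _) => 1 / 4

/-- The vertices. -/
noncomputable def TT (i : BT γ × ℕ) : ℝ := pp0 G i.1 + qq G i.1 * sk i.2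

/-- The jumps. -/
noncomputable def WW (i : BT γ × ℕ) : ℝ := vw G i.1 * wk i.2

lemma csk_pos (k : ℕ) : 0 < sk k := by unfold sk; positivity

lemma csk_le (k : ℕ) : sk k ≤ 1 / 4 := by
  unfold sk
  have h : (1 / 2 : ℝ) ^ k ≤ 1 := pow_le_one₀ (by norm_num) (by norm_num)
  rw [pow_add]
  nlinarith

lemma csk_succ (k : ℕ) : sk (k + 1) = sk k / 2 := by
  unfold sk
  rw [show k + 1 + 2 = (k + 2) + 1 by ring, pow_succ]
  ring

lemma csk_anti {k l : ℕ} (h : k ≤ l) : sk l ≤ sk k := by
  unfold sk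
  exact pow_le_pow_of_le_one (by norm_num) (by norm_num) (by omega)

lemma cwk_pos (k : ℕ) : 0 < wk k := by unfold wk; positivity

lemma cwk_summable : Summable wk := by
  unfold wk
  exact (summable_geometric_of_lt_one (by norm_num) (by norm_num)).mul_left _

lemma csqrt_wk (k : ℕ) : √(wk k) = √(3 / 8) * (1 / 2) ^ k := by
  unfold wk
  rw [Real.sqrt_mul (by norm_num)]
  congr 1
  rw [show ((1 : ℝ) / 4) ^ k = ((1 / 2) ^ k) ^ 2 by
    rw [← pow_mul, mul_comm, pow_mul]; norm_num]
  exact Real.sqrt_sq (by positivity)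

lemma csqrt_wk_summable : Summable fun k => √(wk k) := by
  have h : (fun k => √(wk k)) = fun k => √(3 / 8) * (1 / 2) ^ k := funext csqrt_wk
  rw [h]
  exact (summable_geometric_of_lt_one (by norm_num) (by norm_num)).mul_left _

lemma hasSum_BT (f : BT γ → ℝ) {s1 s2 : ℝ} (h1 : HasSum (fun g => f (.inl (.inl g))) s1)
    (h2 : HasSum (fun g => f (.inl (.inr g))) s2) :
    HasSum f (s1 + s2 + (f (.inr (.inl ())) + f (.inr (.inr ())))) := by
  have h3 : HasSum (fun u : Unit => f (.inr (.inl u))) (f (.inr (.inl ()))) := hasSum_unique _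
  have h4 : HasSum (fun u : Unit => f (.inr (.inr u))) (f (.inr (.inr ()))) := hasSum_unique _
  exact HasSum.sum (HasSum.sum h1 h2) (HasSum.sum h3 h4)

lemma cvw_pos (b : BT γ) : 0 < vw G b := by
  rcases b with (g | g) | (u | u)
  · exact G.w_pos g
  · exact G.w_pos g
  · norm_num [vw]
  · norm_num [vw]

lemma vw_hasSum : HasSum (vw G) (∑' g, G.w g + ∑' g, G.w g + (1 / 100 + 1 / 100)) :=
  hasSum_BT (vw G) G.w_sum.hasSum G.w_sum.hasSum

lemma vw_sqrt : Summable fun b => √(vw G b) :=
  (hasSum_BT (fun b => √(vw G b)) G.w_sqrt.hasSum G.w_sqrt.hasSum).summable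

lemma WW_pos (i : BT γ × ℕ) : 0 < WW G i := mul_pos (cvw_pos G _) (cwk_pos _)

lemma WW_summable : Summable (WW G) :=
  (vw_hasSum G).summable.mul_of_nonneg cwk_summable (fun b => (cvw_pos G b).le)
    (fun k => (cwk_pos k).le)

lemma WW_sqrt : Summable fun i => √(WW G i) := by
  have h : (fun i => √(WW G i)) = fun i : BT γ × ℕ => √(vw G i.1) * √(wk i.2) := by
    funext i
    exact Real.sqrt_mul (cvw_pos G _).le _
  rw [h]
  exact (vw_sqrt G).mul_of_nonneg csqrt_wk_summable (fun b => Real.sqrt_nonneg _)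
    (fun k => Real.sqrt_nonneg _)

lemma WW_tsum : ∑' i, WW G i ≤ 1 / 20 := by
  have h := (vw_hasSum G).summable.tsum_mul_tsum cwk_summable (WW_summable G)
  have h2 : ∑' i, WW G i = (∑' b, vw G b) * ∑' k, wk k := h.symm
  rw [h2, (vw_hasSum G).tsum_eq, wk_tsum]
  have := G.w_tot
  linarith

/-- The vertices are well inside the domain of the family. -/
lemma TT_lo (b : BT γ) (k : ℕ) : lo G b + |qq G b| * sk k ≤ TT G (b, k) := by
  have h1 := csk_pos k
  have h2 := csk_le k
  rcases b with (g | g) | (u | u)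
  · have := G.ℓ_pos g
    simp only [TT, lo, qq, pp0, abs_of_pos this, le_refl]
  · have := G.ℓ_pos g
    simp only [TT, lo, qq, pp0, abs_neg, abs_of_pos this]
    nlinarith
  · simp only [TT, lo, qq, pp0]
    rw [abs_of_pos (by norm_num)]
  · simp only [TT, lo, qq, pp0, abs_neg]
    rw [abs_of_pos (by norm_num)]
    linarith

lemma TT_hi (b : BT γ) (k : ℕ) : TT G (b, k) ≤ hi G b - |qq G b| * sk k := by
  have h1 := csk_pos k
  have h2 := csk_le k
  rcases b with (g | g) | (u | u)
  · have := G.ℓ_pos g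
    simp only [TT, hi, qq, pp0, abs_of_pos this]
    nlinarith
  · have := G.ℓ_pos g
    simp only [TT, hi, qq, pp0, abs_neg, abs_of_pos this]
    linarith
  · simp only [TT, hi, qq, pp0]
    rw [abs_of_pos (by norm_num)]
    linarith
  · simp only [TT, hi, qq, pp0, abs_neg]
    rw [abs_of_pos (by norm_num)]
    linarith

lemma qq_pos (b : BT γ) : 0 < |qq G b| := by
  rcases b with (g | g) | (u | u)
  · have := G.ℓ_pos g
    simp only [qq, abs_of_pos this, this]
  · have := G.ℓ_pos g
    simp only [qq, abs_neg, abs_of_pos this, this]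
  · simp only [qq]; norm_num
  · simp only [qq]; norm_num

lemma cgap_order {g g' : γ} (h : g ≠ g') :
    G.a g + G.ℓ g ≤ G.a g' ∨ G.a g' + G.ℓ g' ≤ G.a g := by
  by_contra hcon
  push Not at hcon
  obtain ⟨h1, h2⟩ := hcon
  have h3 := G.ℓ_pos g
  have h4 := G.ℓ_pos g'
  have h5 : max (G.a g) (G.a g') ∈ Icc (G.a g) (G.a g + G.ℓ g) :=
    ⟨le_max_left _ _, max_le (by linarith) h1.le⟩
  have h6 : max (G.a g) (G.a g') ∈ Icc (G.a g') (G.a g' + G.ℓ g') :=
    ⟨le_max_right _ _, max_le h2.le (by linarith)⟩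
  exact Set.disjoint_left.1 (G.disj g g' h) h5 h6

lemma dom_order {b b' : BT γ} (h : b ≠ b') : hi G b ≤ lo G b' ∨ hi G b' ≤ lo G b := by
  rcases b with (g | g) | (u | u) <;> rcases b' with (g' | g') | (u' | u')
  · have hg : g ≠ g' := fun e => h (by rw [e])
    have h3 := G.ℓ_pos g
    have h4 := G.ℓ_pos g'
    simp only [hi, lo]
    rcases cgap_order G hg with h1 | h1
    · left; linarith
    · right; linarith
  · simp only [hi, lo]
    have h3 := G.ℓ_pos g
    have h4 := G.ℓ_pos g'
    by_cases hg : g = g'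
    · subst hg; left; linarith
    rcases cgap_order G hg with h1 | h1
    · left; linarith
    · right; linarith
  · simp only [hi, lo]
    have := G.hi g; have := G.ℓ_pos g
    left; linarith
  · simp only [hi, lo]
    have := G.lo g; have := G.ℓ_pos g
    right; linarith
  · simp only [hi, lo]
    have h3 := G.ℓ_pos g
    have h4 := G.ℓ_pos g'
    by_cases hg : g = g'
    · subst hg; right; linarith
    rcases cgap_order G hg with h1 | h1
    · left; linarith
    · right; linarith
  · have hg : g ≠ g' := fun e => h (by rw [e])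
    have h3 := G.ℓ_pos g
    have h4 := G.ℓ_pos g'
    simp only [hi, lo]
    rcases cgap_order G hg with h1 | h1
    · left; linarith
    · right; linarith
  · simp only [hi, lo]
    have := G.hi g; have := G.ℓ_pos g
    left; linarith
  · simp only [hi, lo]
    have := G.lo g; have := G.ℓ_pos g
    right; linarith
  · simp only [hi, lo]
    have := G.hi g'; have := G.ℓ_pos g'
    right; linarith
  · simp only [hi, lo]
    have := G.hi g'; have := G.ℓ_pos g'
    right; linarith
  · exact absurd rfl h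
  · simp only [hi, lo]
    right; norm_num
  · simp only [hi, lo]
    have := G.lo g'; have := G.ℓ_pos g'
    left; linarith
  · simp only [hi, lo]
    have := G.lo g'; have := G.ℓ_pos g'
    left; linarith
  · simp only [hi, lo]
    left; norm_num
  · exact absurd rfl h

/-- All vertices are isolated. -/
lemma TT_iso (i j : BT γ × ℕ) (h : i ≠ j) : |qq G i.1| * sk (i.2 + 1) ≤ |TT G i - TT G j| := by
  obtain ⟨b, k⟩ := i
  obtain ⟨b', k'⟩ := j
  have h1 := csk_pos k
  have h1' := csk_pos k'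
  have hq := qq_pos G b
  have hq' := qq_pos G b'
  by_cases hb : b = b'
  · subst hb
    have hk : k ≠ k' := fun e => h (by rw [e])
    have h2 : TT G (b, k) - TT G (b, k') = qq G b * (sk k - sk k') := by
      simp only [TT]; ring
    rw [h2, abs_mul]
    apply mul_le_mul_of_nonneg_left _ hq.le
    simp only
    rcases lt_or_gt_of_ne hk with h3 | h3
    · have h4 : sk k' ≤ sk (k + 1) := csk_anti h3
      rw [csk_succ] at h4 ⊢
      rw [abs_of_nonneg (by linarith)]
      linarith
    · have h4 : sk k ≤ sk (k' + 1) := csk_anti h3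
      rw [csk_succ] at h4 ⊢
      rw [abs_of_nonpos (by linarith)]
      linarith
  · have h2 := TT_lo G b k
    have h3 := TT_hi G b k
    have h4 := TT_lo G b' k'
    have h5 := TT_hi G b' k'
    have h6 : 0 < |qq G b'| * sk k' := mul_pos hq' h1'
    have h7 : 0 < |qq G b| * sk k := mul_pos hq h1
    simp only
    rw [csk_succ]
    rcases dom_order G hb with h8 | h8
    · have h9 : |TT G (b, k) - TT G (b', k')| = -(TT G (b, k) - TT G (b', k')) :=
        abs_of_nonpos (by linarith)
      rw [h9]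
      linarith
    · have h9 : |TT G (b, k) - TT G (b', k')| = TT G (b, k) - TT G (b', k') :=
        abs_of_nonneg (by linarith)
      rw [h9]
      linarith

lemma TT_t_lo (i : BT γ × ℕ) : 3 / 16 ≤ TT G i := by
  obtain ⟨b, k⟩ := i
  have h1 := csk_pos k
  have h2 := csk_le k
  rcases b with (g | g) | (u | u)
  · have := TT_lo G (.inl (.inl g)) k
    have h3 : 0 < |qq G (.inl (.inl g))| * sk k := mul_pos (qq_pos G _) h1
    have := G.lo g
    simp only [lo] at *
    linarith
  · have := TT_lo G (.inl (.inr g)) k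
    have h3 : 0 < |qq G (.inl (.inr g))| * sk k := mul_pos (qq_pos G _) h1
    have := G.lo g
    have := G.ℓ_pos g
    simp only [lo] at *
    linarith
  · simp only [TT, qq, pp0]; linarith
  · simp only [TT, qq, pp0]; linarith

lemma TT_t_hi (i : BT γ × ℕ) : TT G i ≤ 13 / 16 := by
  obtain ⟨b, k⟩ := i
  have h1 := csk_pos k
  have h2 := csk_le k
  rcases b with (g | g) | (u | u)
  · have := TT_hi G (.inl (.inl g)) k
    have h3 : 0 < |qq G (.inl (.inl g))| * sk k := mul_pos (qq_pos G _) h1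
    have := G.hi g
    have := G.ℓ_pos g
    simp only [hi] at *
    linarith
  · have := TT_hi G (.inl (.inr g)) k
    have h3 : 0 < |qq G (.inl (.inr g))| * sk k := mul_pos (qq_pos G _) h1
    have := G.hi g
    simp only [hi] at *
    linarith
  · simp only [TT, qq, pp0]; linarith
  · simp only [TT, qq, pp0]; linarith

lemma TT_mem (i : BT γ × ℕ) : TT G i < 1 / 4 ∨ 3 / 4 < TT G i ∨
    ∃ g, TT G i ∈ Ioo (G.a g) (G.a g + G.ℓ g) := by
  obtain ⟨b, k⟩ := i
  have h1 := csk_pos k
  have h2 := csk_le k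
  rcases b with (g | g) | (u | u)
  · right; right
    have h4 := TT_lo G (.inl (.inl g)) k
    have h5 := TT_hi G (.inl (.inl g)) k
    have h3 : 0 < |qq G (.inl (.inl g))| * sk k := mul_pos (qq_pos G _) h1
    have := G.ℓ_pos g
    simp only [lo, hi] at *
    exact ⟨g, by linarith, by linarith⟩
  · right; right
    have h4 := TT_lo G (.inl (.inr g)) k
    have h5 := TT_hi G (.inl (.inr g)) k
    have h3 : 0 < |qq G (.inl (.inr g))| * sk k := mul_pos (qq_pos G _) h1
    have := G.ℓ_pos g
    simp only [lo, hi] at *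
    exact ⟨g, by linarith, by linarith⟩
  · right; left
    simp only [TT, qq, pp0]; linarith
  · left
    simp only [TT, qq, pp0]; linarith

lemma cterm_summable (x : ℝ) : Summable fun i => WW G i * max (x - TT G i) 0 := by
  refine Summable.of_nonneg_of_le (fun i => mul_nonneg (WW_pos G i).le (le_max_right _ _)) ?_
    ((WW_summable G).mul_right (|x| + 1))
  intro i
  apply mul_le_mul_of_nonneg_left _ (WW_pos G i).le
  have h1 := TT_t_lo G i
  apply max_le
  · have := le_abs_self x
    linarith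
  · positivity

/-- Scaling of a hinge. -/
lemma cscale_max {l : ℝ} (hl : 0 < l) (y : ℝ) : max (l * y) 0 = l * max y 0 := by
  rw [mul_max_of_nonneg _ _ hl.le, mul_zero]

lemma cinner_sum (x : ℝ) (b : BT γ) : ∑' k, WW G (b, k) * max (x - TT G (b, k)) 0 =
    match b with
    | .inl (.inl g) => G.w g * (G.ℓ g * al ((x - G.a g) / G.ℓ g))
    | .inl (.inr g) => G.w g * (G.ℓ g * ar ((x - G.a g) / G.ℓ g))
    | .inr (.inl _) => 1 / 400 * al (4 * x - 3)
    | .inr (.inr _) => 1 / 400 * ar (4 * x) := by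
  rcases b with (g | g) | (u | u)
  · have hl := G.ℓ_pos g
    simp only [WW, TT, vw, pp0, qq, al]
    rw [← tsum_mul_left, ← tsum_mul_left]
    refine tsum_congr fun k => ?_
    have h : x - (G.a g + G.ℓ g * sk k) = G.ℓ g * ((x - G.a g) / G.ℓ g - sk k) := by
      field_simp
      ring
    rw [h, cscale_max hl]
    ring
  · have hl := G.ℓ_pos g
    simp only [WW, TT, vw, pp0, qq, ar]
    rw [← tsum_mul_left, ← tsum_mul_left]
    refine tsum_congr fun k => ?_
    have h : x - (G.a g + G.ℓ g + -G.ℓ g * sk k) =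
        G.ℓ g * ((x - G.a g) / G.ℓ g - 1 + sk k) := by
      field_simp
      ring
    rw [h, cscale_max hl]
    ring
  · simp only [WW, TT, vw, pp0, qq, al]
    rw [← tsum_mul_left]
    refine tsum_congr fun k => ?_
    have h : x - (3 / 4 + 1 / 4 * sk k) = (1 / 4) * (4 * x - 3 - sk k) := by ring
    rw [h, cscale_max (by norm_num)]
    ring
  · simp only [WW, TT, vw, pp0, qq, ar]
    rw [← tsum_mul_left]
    refine tsum_congr fun k => ?_
    have h : x - (1 / 4 + -(1 / 4) * sk k) = (1 / 4) * (4 * x - 1 + sk k) := by ring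
    rw [h, cscale_max (by norm_num)]
    ring

lemma ch_sum (x : ℝ) : ∑' i, WW G i * max (x - TT G i) 0 = -G.h x := by
  have hs := cterm_summable G x
  rw [hs.tsum_prod]
  set S : BT γ → ℝ := fun b => ∑' k, WW G (b, k) * max (x - TT G (b, k)) 0 with hS
  have hSs : Summable S := hs.prod
  have h1 : Summable fun g => S (.inl (.inl g)) :=
    hSs.comp_injective (i := fun g : γ => (Sum.inl (Sum.inl g) : BT γ))
      (fun g g' h => by simpa using h)
  have h2 : Summable fun g => S (.inl (.inr g)) :=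
    hSs.comp_injective (i := fun g : γ => (Sum.inl (Sum.inr g) : BT γ))
      (fun g g' h => by simpa using h)
  have h3 := hasSum_BT S h1.hasSum h2.hasSum
  rw [h3.tsum_eq, ← h1.tsum_add h2]
  have e1 : ∀ g, S (.inl (.inl g)) = G.w g * (G.ℓ g * al ((x - G.a g) / G.ℓ g)) :=
    fun g => cinner_sum G x (.inl (.inl g))
  have e2 : ∀ g, S (.inl (.inr g)) = G.w g * (G.ℓ g * ar ((x - G.a g) / G.ℓ g)) :=
    fun g => cinner_sum G x (.inl (.inr g))
  have e3 : S (.inr (.inl ())) = 1 / 400 * al (4 * x - 3) := cinner_sum G x (.inr (.inl ()))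
  have e4 : S (.inr (.inr ())) = 1 / 400 * ar (4 * x) := cinner_sum G x (.inr (.inr ()))
  simp only [e1, e2, e3, e4, Gp.h]
  have e5 : ∀ g, G.w g * (G.ℓ g * al ((x - G.a g) / G.ℓ g)) +
      G.w g * (G.ℓ g * ar ((x - G.a g) / G.ℓ g)) =
      G.w g * (G.ℓ g * (al ((x - G.a g) / G.ℓ g) + ar ((x - G.a g) / G.ℓ g))) := fun g => by ring
  simp only [e5]
  ring

end

end CvAux

open CvAux in
theorem Gp.exists_Cv {γ : Type} [Countable γ] (G : Gp γ) {Ω : Set E2} (hΩ : IsOpen Ω)
    (hv : ∀ x : ℝ, 0 ≤ x → x ≤ 1 →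
      (x < 1 / 4 ∨ 3 / 4 < x ∨ ∃ g, x ∈ Ioo (G.a g) (G.a g + G.ℓ g)) → !₂[x, G.h x] ∈ Ω) :
    ∃ C : Cv, (∀ x, C.h x = G.h x) ∧ (Summable fun j => √(C.τ j)) ∧
      (∀ j, closedBall (C.pt (C.t j)) (C.ρ j) ⊆ Ω) ∧
      closedBall (C.pt (1 / 8)) C.ρe ⊆ Ω ∧ closedBall (C.pt (7 / 8)) C.ρe ⊆ Ω := by
  -- radii
  have hrad : ∀ x : ℝ, 0 ≤ x → x ≤ 1 →
      (x < 1 / 4 ∨ 3 / 4 < x ∨ ∃ g, x ∈ Ioo (G.a g) (G.a g + G.ℓ g)) →
      ∃ r : ℝ, 0 < r ∧ closedBall (!₂[x, G.h x] : E2) r ⊆ Ω := by
    intro x h0 h1 h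
    exact Metric.nhds_basis_closedBall.mem_iff.1 (hΩ.mem_nhds (hv x h0 h1 h))
  have hT : ∀ i : BT γ × ℕ, ∃ r : ℝ, 0 < r ∧ closedBall (!₂[TT G i, G.h (TT G i)] : E2) r ⊆ Ω := by
    intro i
    have h1 := TT_t_lo G i
    have h2 := TT_t_hi G i
    exact hrad _ (by linarith) (by linarith) (TT_mem G i)
  choose rr hrr0 hrr using hT
  obtain ⟨r1, hr1, hr1b⟩ := hrad (1 / 8) (by norm_num) (by norm_num) (Or.inl (by norm_num))
  obtain ⟨r2, hr2, hr2b⟩ := hrad (7 / 8) (by norm_num) (by norm_num)
    (Or.inr (Or.inl (by norm_num)))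
  obtain ⟨den⟩ := nonempty_denumerable (BT γ × ℕ)
  let e : ℕ ≃ BT γ × ℕ := (Denumerable.eqv (BT γ × ℕ)).symm
  let C : Cv :=
    { t := fun j => TT G (e j)
      τ := fun j => WW G (e j)
      σ := 0
      κ := 0
      ρ := fun j => min (|qq G (e j).1| * sk ((e j).2 + 1) / 8) (min (rr (e j)) (1 / 200))
      ρe := min r1 (min r2 (1 / 200))
      τ_pos := fun j => WW_pos G (e j)
      τ_sum := e.summable_iff.2 (WW_summable G)
      τ_tot := by
        have := e.tsum_eq (WW G)
        rw [this]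
        exact WW_tsum G
      σ_le := by norm_num
      t_lo := fun j => TT_t_lo G _
      t_hi := fun j => TT_t_hi G _
      ρ_pos := fun j => lt_min (by
        have := qq_pos G (e j).1
        have := csk_pos ((e j).2 + 1)
        positivity) (lt_min (hrr0 _) (by norm_num))
      ρ_le := fun j => (min_le_right _ _).trans (min_le_right _ _)
      ρe_pos := lt_min hr1 (lt_min hr2 (by norm_num))
      ρe_le := (min_le_right _ _).trans (min_le_right _ _)
      iso := by
        intro i j hij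
        have h1 := TT_iso G (e j) (e i) (fun h => hij (e.injective h.symm))
        rw [abs_sub_comm] at h1
        have h2 : min (|qq G (e j).1| * sk ((e j).2 + 1) / 8) (min (rr (e j)) (1 / 200)) ≤
          |qq G (e j).1| * sk ((e j).2 + 1) / 8 := min_le_left _ _
        linarith }
  have hh : ∀ x, C.h x = G.h x := by
    intro x
    have h1 : C.h x = 0 + 0 * x - ∑' j, WW G (e j) * max (x - TT G (e j)) 0 := rfl
    rw [h1, e.tsum_eq (fun i => WW G i * max (x - TT G i) 0), ch_sum]
    ring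
  have hpt : ∀ x, C.pt x = !₂[x, G.h x] := by
    intro x
    rw [Cv.pt, hh]
  refine ⟨C, hh, ?_, ?_, ?_, ?_⟩
  · exact e.summable_iff.2 (WW_sqrt G)
  · intro j
    rw [hpt]
    refine (closedBall_subset_closedBall ?_).trans (hrr (e j))
    exact (min_le_right _ _).trans (min_le_left _ _)
  · rw [hpt]
    exact (closedBall_subset_closedBall (min_le_left _ _)).trans hr1b
  · rw [hpt]
    exact (closedBall_subset_closedBall ((min_le_right _ _).trans (min_le_left _ _))).trans hr2b

end Pool.Agent.Lib.P8e
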