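import Mathlib

set_option autoImplicit false

/-!
# Optimal reinforcing networks: definitions

* `energy Ω f m μ`: the energy `E_f(μ)` with values in the extended reals.
* `Adm Ω L`: the closed connected sets `S ⊆ Ω` with `H^1(S) ≤ L`.
* `ML Ω L`: the weak* closure of the measures `H^1 ⌞ S`, `S ∈ Adm Ω L`.
* `IsOptimalNetwork Ω f m L μ S θ`: `μ = θ H^1 ⌞ S` maximises `E_f` on `ML Ω L`, `S ⊆ closure Ω` is compact and
  connected with `H^1(S) < ∞`, and `θ ≥ 1` almost everywhere on `S`.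
-/

open MeasureTheory Set Metric
open scoped ENNReal NNReal

namespace Pool.Agent.Lib.P8e

/-- The Euclidean plane. -/
abbrev E2 : Type := EuclideanSpace ℝ (Fin 2)

/-- Test functions: smooth functions with compact support contained in `Ω`. -/
def IsTest (Ω : Set E2) (u : E2 → ℝ) : Prop :=
  ContDiff ℝ ((⊤ : ℕ∞) : WithTop ℕ∞) u ∧ HasCompactSupport u ∧ tsupport u ⊆ Ω

/-- The integral of `u` against the signed measure `f`. -/
noncomputable def integralS (f : SignedMeasure E2) (u : E2 → ℝ) : ℝ :=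
  ∫ x, u x ∂f.toJordanDecomposition.posPart - ∫ x, u x ∂f.toJordanDecomposition.negPart

/-- The functional `1/2 ∫_Ω |∇u|^2 dx + m/2 ∫_Ω |∇u|^2 dμ - ∫ u df`. -/
noncomputable def functional (Ω : Set E2) (f : SignedMeasure E2) (m : ℝ) (μ : Measure E2)
    (u : E2 → ℝ) : ℝ :=
  (1 / 2) * (∫ x in Ω, ‖fderiv ℝ u x‖ ^ 2) + (m / 2) * (∫ x in Ω, ‖fderiv ℝ u x‖ ^ 2 ∂μ) -
    integralS f u

/-- The energy `E_f(μ)`: the infimum of the functional over all test functions. -/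
noncomputable def energy (Ω : Set E2) (f : SignedMeasure E2) (m : ℝ) (μ : Measure E2) : EReal :=
  ⨅ u : {u : E2 → ℝ // IsTest Ω u}, ((functional Ω f m μ u.1 : ℝ) : EReal)

/-- The admissible sets: closed connected subsets of `Ω` of length at most `L`. -/
def Adm (Ω : Set E2) (L : ℝ) : Set (Set E2) :=
  {S | IsClosed S ∧ IsConnected S ∧ S ⊆ Ω ∧ μH[1] S ≤ ENNReal.ofReal L}

/-- The relaxed class: the weak* closure of the measures `H^1 ⌞ S`, `S` admissible. -/
def ML (Ω : Set E2) (L : ℝ) : Set (FiniteMeasure E2) :=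
  closure {ν | ∃ S ∈ Adm Ω L, (ν : Measure E2) = (μH[1] : Measure E2).restrict S}

/-- `μ = θ H^1 ⌞ S` is an optimal network. -/
def IsOptimalNetwork (Ω : Set E2) (f : SignedMeasure E2) (m L : ℝ) (μ : FiniteMeasure E2)
    (S : Set E2) (θ : E2 → ℝ≥0∞) : Prop :=
  μ ∈ ML Ω L ∧ (∀ ν ∈ ML Ω L, energy Ω f m (ν : Measure E2) ≤ energy Ω f m (μ : Measure E2)) ∧
  IsCompact S ∧ IsConnected S ∧ S ⊆ closure Ω ∧ μH[1] S < ∞ ∧ Measurable θ ∧
  (∀ᵐ x ∂((μH[1] : Measure E2).restrict S), 1 ≤ θ x) ∧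
  (μ : Measure E2) = ((μH[1] : Measure E2).restrict S).withDensity θ

/-- Bounded Lipschitz domains: near every boundary point the domain is, in suitable orthonormal
coordinates, the subgraph of a Lipschitz function. -/
def IsLipschitzDomain (Ω : Set E2) : Prop :=
  IsOpen Ω ∧ IsConnected Ω ∧ Bornology.IsBounded Ω ∧
  ∀ p ∈ frontier Ω, ∃ (A : E2 ≃ₗᵢ[ℝ] E2) (r : ℝ) (c : ℝ≥0) (ψ : ℝ → ℝ), 0 < r ∧
    LipschitzWith c ψ ∧ ∀ x ∈ ball p r, (x ∈ Ω ↔ A x 1 < ψ (A x 0))

/-- Strictly convex domains: the closure is convex and the boundary contains no nondegenerate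
segment. -/
def IsStrictlyConvexDomain (Ω : Set E2) : Prop :=
  Convex ℝ (closure Ω) ∧ ∀ a b : E2, a ≠ b → ¬ segment ℝ a b ⊆ frontier Ω

/-- `f` is a signed measure on `Ω`. -/
def LivesOn (f : SignedMeasure E2) (Ω : Set E2) : Prop :=
  ∀ A : Set E2, MeasurableSet A → Disjoint A Ω → f A = 0

/-- The support of `f` is all of `Ω`. -/
def HasFullSupport (f : SignedMeasure E2) (Ω : Set E2) : Prop :=
  ∀ x ∈ Ω, ∀ r : ℝ, 0 < r → 0 < f.totalVariation (ball x r ∩ Ω)

end Pool.Agent.Lib.P8e
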