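import Pool.Agent.Lib.P8e.CvD

set_option autoImplicit false

/-!
# The domain

`Ω = ball (1/2, 0) 1 ∩ {x_1 < H (x_0)}`.

PROOF SKETCH. Open: `H_cont`. Convex: ball and strict hypograph of a concave function. `closure Ω ⊆ closedBall ∩ {x_1 ≤ H (x_0)}`. No segment in the frontier: let
`p ≠ q` be in `closure Ω`; if `p_0 ≠ q_0` (say `p_0 < q_0`) take `θ` from `H_strict`, the point `z = (1-θ) p + θ q` has `z_1 ≤ (1-θ) H p_0 + θ H q_0 < H z_0`
and is in the open ball (strict convexity of balls: `StrictConvex`, `strictConvex_closedBall`, `interior_closedBall`); if `p_0 = q_0` the midpoint has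
`z_1 < max (p_1, q_1) ≤ H z_0` and is in the open ball. So `z ∈ Ω`, which is open, hence `z ∉ frontier Ω`.
`exists_dom`: for `0 ≤ x ≤ 1` the point `(x, h x)` is in the ball (`|x - 1/2| ≤ 1/2`, `|h x| ≤ 1/10`), and below `H` by `h_lt`; `Gp.exists_Cv`. `SK ⊆ closure Ω`: limit of the
points `x - (0, 1/(n+1)) ∈ Ω` (`h_le`). `μH[1] (SK ∩ frontier Ω) > 0`: for `x ∈ K = Icc (1/4) (3/4) \ ⋃ Icc (a g) (a g + ℓ g)` the point `pt x = (x, H x)` (`h_eq`) is in `closure Ω \ Ω`;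
the projection `x ↦ x 0` is 1-Lipschitz, so `μH[1] (pt '' K) ≥ μH[1] K = volume K > 0` (`hausdorffMeasure_real`).
-/

open MeasureTheory Set Metric

namespace Pool.Agent.Lib.P8e

/-- The domain. -/
def Gp.Om {γ : Type} (G : Gp γ) : Set E2 := {x | x ∈ ball (!₂[1 / 2, 0] : E2) 1 ∧ x 1 < G.H (x 0)}

namespace DomD

variable {γ : Type} (G : Gp γ)

lemma cont0 (i : Fin 2) : Continuous fun x : E2 => x i := by
  fun_prop

lemma mem_ball_iff (x : E2) : x ∈ ball (!₂[1 / 2, 0] : E2) 1 ↔ (x 0 - 1 / 2) ^ 2 + x 1 ^ 2 < 1 := by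
  rw [mem_ball, EuclideanSpace.dist_eq, Real.sqrt_lt' one_pos]
  simp [Fin.sum_univ_two, Real.dist_eq, sq_abs]

lemma closure_sub {x : E2} (hx : x ∈ closure G.Om) :
    x ∈ closedBall (!₂[1 / 2, 0] : E2) 1 ∧ x 1 ≤ G.H (x 0) := by
  have hcl : IsClosed {x : E2 | x ∈ closedBall (!₂[1 / 2, 0] : E2) 1 ∧ x 1 ≤ G.H (x 0)} := by
    apply IsClosed.inter isClosed_closedBall
    exact isClosed_le (cont0 1) (G.H_cont.comp (cont0 0))
  have : closure G.Om ⊆ {x : E2 | x ∈ closedBall (!₂[1 / 2, 0] : E2) 1 ∧ x 1 ≤ G.H (x 0)} :=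
    closure_minimal (fun y hy => ⟨ball_subset_closedBall hy.1, hy.2.le⟩) hcl
  exact this hx

end DomD

theorem Gp.isOpen_Om {γ : Type} (G : Gp γ) : IsOpen G.Om := by
  apply IsOpen.inter isOpen_ball
  exact isOpen_lt (DomD.cont0 1) (G.H_cont.comp (DomD.cont0 0))

theorem Gp.convex_Om {γ : Type} (G : Gp γ) : Convex ℝ G.Om := by
  apply Convex.inter (convex_ball _ _)
  intro x hx y hy a b ha hb hab
  replace hx : x 1 < G.H (x 0) := hx
  replace hy : y 1 < G.H (y 0) := hy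
  change (a • x + b • y) 1 < G.H ((a • x + b • y) 0)
  simp only [PiLp.add_apply, PiLp.smul_apply, smul_eq_mul]
  have h := G.H_concave.2 (mem_univ (x 0)) (mem_univ (y 0)) ha hb hab
  simp only [smul_eq_mul] at h
  rcases ha.lt_or_eq with ha | ha
  · nlinarith [mul_lt_mul_of_pos_left hx ha, mul_le_mul_of_nonneg_left hy.le hb]
  · subst ha
    have hb1 : b = 1 := by linarith
    subst hb1
    simpa using hy

lemma DomD.exists_point {γ : Type} (G : Gp γ) {p q : E2} (hp : p ∈ closure G.Om) (hq : q ∈ closure G.Om)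
    (hpq : p 0 < q 0) : ∃ z ∈ segment ℝ p q, z ∈ G.Om := by
  obtain ⟨hp1, hp2⟩ := DomD.closure_sub G hp
  obtain ⟨hq1, hq2⟩ := DomD.closure_sub G hq
  obtain ⟨θ, h0, h1, hθ⟩ := G.H_strict hpq
  refine ⟨(1 - θ) • p + θ • q, ⟨1 - θ, θ, by linarith, h0.le, by ring, rfl⟩, ?_, ?_⟩
  · have hne : p ≠ q := by
      rintro rfl
      exact lt_irrefl _ hpq
    have := (strictConvex_closedBall ℝ (!₂[1 / 2, 0] : E2) 1) hp1 hq1 hne (by linarith : (0 : ℝ) < 1 - θ) h0
      (by ring)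
    rwa [interior_closedBall _ one_ne_zero] at this
  · simp only [PiLp.add_apply, PiLp.smul_apply, smul_eq_mul]
    nlinarith [mul_le_mul_of_nonneg_left hp2 (by linarith : (0 : ℝ) ≤ 1 - θ), mul_le_mul_of_nonneg_left hq2 h0.le]

lemma DomD.exists_point' {γ : Type} (G : Gp γ) {p q : E2} (hp : p ∈ closure G.Om) (hq : q ∈ closure G.Om)
    (hpq : p 0 = q 0) (hne : p ≠ q) : ∃ z ∈ segment ℝ p q, z ∈ G.Om := by
  obtain ⟨hp1, hp2⟩ := DomD.closure_sub G hp
  obtain ⟨hq1, hq2⟩ := DomD.closure_sub G hq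
  have h1 : p 1 ≠ q 1 := by
    intro h
    apply hne
    ext i
    fin_cases i
    · exact hpq
    · exact h
  refine ⟨(1 / 2 : ℝ) • p + (1 / 2 : ℝ) • q, ⟨1 / 2, 1 / 2, by norm_num, by norm_num, by norm_num, rfl⟩,
    ?_, ?_⟩
  · have := (strictConvex_closedBall ℝ (!₂[1 / 2, 0] : E2) 1) hp1 hq1 hne (by norm_num : (0 : ℝ) < 1 / 2)
      (by norm_num : (0 : ℝ) < 1 / 2) (by norm_num)
    rwa [interior_closedBall _ one_ne_zero] at this
  · simp only [PiLp.add_apply, PiLp.smul_apply, smul_eq_mul]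
    rw [← hpq]
    rw [← hpq] at hq2
    have e : 1 / 2 * p 0 + 1 / 2 * p 0 = p 0 := by ring
    rw [e]
    rcases lt_or_gt_of_ne h1 with h | h <;> linarith

theorem Gp.strict_Om {γ : Type} (G : Gp γ) : IsStrictlyConvexDomain G.Om := by
  refine ⟨G.convex_Om.closure, ?_⟩
  intro a b hab hseg
  have ha : a ∈ closure G.Om := frontier_subset_closure (hseg (left_mem_segment ℝ a b))
  have hb : b ∈ closure G.Om := frontier_subset_closure (hseg (right_mem_segment ℝ a b))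
  have key : ∃ z ∈ segment ℝ a b, z ∈ G.Om := by
    rcases lt_trichotomy (a 0) (b 0) with h | h | h
    · exact DomD.exists_point G ha hb h
    · exact DomD.exists_point' G ha hb h hab
    · obtain ⟨z, hz, hz'⟩ := DomD.exists_point G hb ha h
      exact ⟨z, by rwa [segment_symm] at hz, hz'⟩
  obtain ⟨z, hz, hz'⟩ := key
  have := hseg hz
  rw [G.isOpen_Om.frontier_eq] at this
  exact this.2 hz'

theorem exists_dom : ∃ (Ω : Set E2) (C : Cv), IsOpen Ω ∧ Convex ℝ Ω ∧ Bornology.IsBounded Ω ∧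
    IsStrictlyConvexDomain Ω ∧ (∀ x ∈ closure Ω, ∀ y ∈ closure Ω, dist x y ≤ 2) ∧
    (Summable fun j => √(C.τ j)) ∧ (∀ j, closedBall (C.pt (C.t j)) (C.ρ j) ⊆ Ω) ∧
    closedBall (C.pt (1 / 8)) C.ρe ⊆ Ω ∧ closedBall (C.pt (7 / 8)) C.ρe ⊆ Ω ∧
    C.SK ⊆ closure Ω ∧
    (∀ᶠ n : ℕ in Filter.atTop, ∀ x ∈ C.SK, x - !₂[0, 1 / ((n : ℝ) + 1)] ∈ Ω) ∧
    0 < μH[1] (C.SK ∩ frontier Ω) := by
  obtain ⟨γ, hγ, ⟨G⟩⟩ := exists_Gp
  obtain ⟨C, hC, h1, h2, h3, h4⟩ := G.exists_Cv G.isOpen_Om (by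
    intro x h0 h1 hx
    refine ⟨?_, ?_⟩
    · rw [DomD.mem_ball_iff]
      have := G.h_abs h0 h1
      simp only [Matrix.cons_val_zero, Matrix.cons_val_one]
      have h2 := abs_le.1 this
      have h3 : G.h x ^ 2 ≤ (1 / 10) ^ 2 := sq_le_sq' (by linarith) h2.2
      nlinarith
    · simpa using G.h_lt h0 h1 hx)
  have hpt : ∀ x, C.pt x = !₂[x, G.h x] := fun x => by rw [Cv.pt, hC]
  have hlim : ∀ᶠ n : ℕ in Filter.atTop, ∀ x ∈ C.SK, x - !₂[0, 1 / ((n : ℝ) + 1)] ∈ G.Om := by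
    filter_upwards [Filter.eventually_ge_atTop 1] with n hn x hx
    obtain ⟨u, hu, rfl⟩ := hx
    rw [hpt]
    have hn' : (1 : ℝ) ≤ n := by exact_mod_cast hn
    have hn1 : 1 / ((n : ℝ) + 1) ≤ 1 / 2 := by
      apply one_div_le_one_div_of_le <;> linarith
    have hn0 : 0 < 1 / ((n : ℝ) + 1) := by positivity
    have hu0 : 0 ≤ u := by linarith [hu.1]
    have hu1 : u ≤ 1 := by linarith [hu.2]
    have ha := abs_le.1 (G.h_abs hu0 hu1)
    have hle := G.h_le hu0 hu1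
    refine ⟨?_, ?_⟩
    · rw [DomD.mem_ball_iff]
      simp only [PiLp.sub_apply, Matrix.cons_val_zero, Matrix.cons_val_one, sub_zero]
      have h5 : (G.h u - 1 / ((n : ℝ) + 1)) ^ 2 ≤ (3 / 5) ^ 2 := sq_le_sq' (by linarith) (by linarith)
      have h6 : (u - 1 / 2) ^ 2 ≤ (3 / 8) ^ 2 := sq_le_sq' (by linarith [hu.1]) (by linarith [hu.2])
      nlinarith
    · simp only [PiLp.sub_apply, Matrix.cons_val_zero, Matrix.cons_val_one, sub_zero]
      linarith
  have hclos : C.SK ⊆ closure G.Om := by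
    intro x hx
    apply mem_closure_of_tendsto (f := fun n : ℕ => x - !₂[0, 1 / ((n : ℝ) + 1)]) (b := Filter.atTop)
    · have h5 : Filter.Tendsto (fun n : ℕ => (!₂[0, 1 / ((n : ℝ) + 1)] : E2)) Filter.atTop
          (nhds (!₂[0, 0] : E2)) := by
        have hc : Continuous fun s : ℝ => (!₂[0, s] : E2) := by fun_prop
        exact (hc.tendsto 0).comp tendsto_one_div_add_atTop_nhds_zero_nat
      have h6 := (tendsto_const_nhds (x := x)).sub h5
      have h7 : x - (!₂[0, 0] : E2) = x := by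
        ext i
        fin_cases i <;> simp
      rwa [h7] at h6
    · filter_upwards [hlim] with n hn using hn x hx
  refine ⟨G.Om, C, G.isOpen_Om, G.convex_Om, isBounded_ball.subset (fun x hx => hx.1), G.strict_Om,
    ?_, h1, h2, h3, h4, hclos, hlim, ?_⟩
  · intro x hx y hy
    have hx' := (DomD.closure_sub G hx).1
    have hy' := (DomD.closure_sub G hy).1
    rw [mem_closedBall] at hx' hy'
    linarith [dist_triangle_right x y (!₂[1 / 2, 0] : E2)]
  · set K : Set ℝ := Icc (1 / 4 : ℝ) (3 / 4) \ ⋃ g, Icc (G.a g) (G.a g + G.ℓ g) with hK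
    have hsub : C.pt '' K ⊆ C.SK ∩ frontier G.Om := by
      rintro _ ⟨x, hx, rfl⟩
      have hxS : C.pt x ∈ C.SK := ⟨x, ⟨by linarith [hx.1.1], by linarith [hx.1.2]⟩, rfl⟩
      refine ⟨hxS, ?_⟩
      rw [G.isOpen_Om.frontier_eq]
      refine ⟨hclos hxS, ?_⟩
      intro hmem
      have h5 := hmem.2
      rw [hpt] at h5
      simp only [Matrix.cons_val_zero, Matrix.cons_val_one] at h5
      have h6 := G.h_eq hx.1.1 hx.1.2 (fun g hg => hx.2 (mem_iUnion.2 ⟨g, Ioo_subset_Icc_self hg⟩))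
      linarith
    have hproj : (fun y : E2 => y 0) '' (C.pt '' K) = K := by
      rw [image_image]
      have : (fun x => (C.pt x) 0) = id := by
        funext x
        simp [Cv.pt]
      rw [this, image_id]
    have hlip : LipschitzWith 1 (fun y : E2 => y 0) := by
      apply LipschitzWith.of_dist_le_mul
      intro x y
      rw [NNReal.coe_one, one_mul, EuclideanSpace.dist_eq, Real.dist_eq]
      apply Real.le_sqrt_of_sq_le
      rw [sq_abs, Fin.sum_univ_two, Real.dist_eq, Real.dist_eq, sq_abs, sq_abs]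
      nlinarith [sq_nonneg (x 1 - y 1)]
    have h5 : μH[1] ((fun y : E2 => y 0) '' (C.pt '' K)) ≤ μH[1] (C.pt '' K) := by
      have := hlip.hausdorffMeasure_image_le zero_le_one (C.pt '' K)
      simpa using this
    rw [hproj] at h5
    have h6 : (μH[1] : Measure ℝ) K = volume K := by
      rw [hausdorffMeasure_real]
    rw [h6] at h5
    exact lt_of_lt_of_le G.pos (h5.trans (measure_mono hsub))

end Pool.Agent.Lib.P8e
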