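import Pool.Agent.Lib.P8e.Blk

set_option autoImplicit false

/-!
# Lower bound of the energy at the candidate

PROOF SKETCH. Let `u` be a test function. `D_i u ≤ 1/2 Dir w_i + 1/2 ∫_{closedBall_i} |∇u|^2` (`∇w_i = 0` outside the ball) and
`T_i u ≤ 1/2 T_i w_i + 1/2 ∑_{ν ∈ arms} ∫_0^ρ |∇u|^2(c + r ν) dr` (`ab ≤ (a^2+b^2)/2`, `|∂_ν u| ≤ ‖∇u‖`). Sums over `i`: the balls are disjoint and in `Ω`, so
`∑ ∫_{ball_i} |∇u|^2 ≤ ∫_Ω |∇u|^2`; the arm segments `{c_i + r ν | 0 < r ≤ ρ_i}` are pairwise disjoint subsets of `SK ∩ Ω` (for the same `i` and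
`ν ≠ ν'` because unit vectors are different), and `∫_0^ρ g(c + r ν) dr = ∫_{segment} g dH^1` (`r ↦ c + r ν` is an isometry `ℝ → E2`:
`Isometry.map_hausdorffMeasure`, `hausdorffMeasure_real`), so `∑_i ∑_ν ∫_0^ρ |∇u|^2 ≤ ∫_{Ω ∩ SK} |∇u|^2 dH^1`. Therefore
`functional ≥ 1/2 ∫_Ω |∇u|^2 + m/2 ∫_{Ω ∩ SK} |∇u|^2 - ∑ (D_i u + m T_i u) ≥ -(1/2 ∑ Dir w_i + m/2 ∑ T_i w_i)`.
(`integralS f u` is the sum by `hf`; all sums are summable: bounded by the summable series.)
-/

open MeasureTheory Set Metric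
open scoped ENNReal NNReal InnerProductSpace

namespace Pool.Agent.Lib.P8e

/-- The common value. -/
noncomputable def Fam.A {Ω : Set E2} {m : ℝ} {β : Type} (F : Fam Ω m β) : ℝ :=
  (1 / 2) * ∑' i, Dir (F.b i).w + (m / 2) * ∑' i, (F.b i).T (F.b i).w

namespace ELowAux

/-- the squared norm of the gradient -/
noncomputable def g (u : E2 → ℝ) (x : E2) : ℝ := ‖fderiv ℝ u x‖ ^ 2

lemma g_nonneg (u : E2 → ℝ) (x : E2) : 0 ≤ g u x := by unfold g; positivity

lemma norm_gradient (u : E2 → ℝ) (x : E2) : ‖gradient u x‖ = ‖fderiv ℝ u x‖ := by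
  unfold gradient
  exact LinearIsometryEquiv.norm_map _ _

lemma cont_fderiv {u : E2 → ℝ} (hu : ContDiff ℝ 1 u) : Continuous (fderiv ℝ u) :=
  hu.continuous_fderiv (by norm_num)

lemma cont_gradient {u : E2 → ℝ} (hu : ContDiff ℝ 1 u) : Continuous (gradient u) := by
  have : gradient u = fun x => (InnerProductSpace.toDual ℝ E2).symm (fderiv ℝ u x) := rfl
  rw [this]
  exact (InnerProductSpace.toDual ℝ E2).symm.continuous.comp (cont_fderiv hu)

lemma g_cont {u : E2 → ℝ} (hu : ContDiff ℝ 1 u) : Continuous (g u) :=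
  (cont_fderiv hu).norm.pow 2

lemma g_supp {u : E2 → ℝ} (hs : HasCompactSupport u) : HasCompactSupport (g u) := by
  have h := (hs.fderiv ℝ).norm
  have h2 : HasCompactSupport (fun x => ‖fderiv ℝ u x‖) := h
  exact h2.comp_left (g := fun t : ℝ => t ^ 2) (by simp)

lemma reg_compact {b : Blk} (hb : b.Reg) : HasCompactSupport b.w := by
  refine HasCompactSupport.intro (isCompact_closedBall b.c b.ρ) fun x hx => ?_
  rw [mem_closedBall, not_le] at hx
  exact (hb.supp x hx.le).1

/-- the Dirichlet part -/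
lemma D_le {b : Blk} (hb : b.Reg) {u : E2 → ℝ} (hu : ContDiff ℝ 1 u) (hs : HasCompactSupport u) :
    b.D u ≤ (1 / 2) * Dir b.w + (1 / 2) * ∫ x in closedBall b.c b.ρ, g u x := by
  have hw := hb.smooth
  have hws := reg_compact hb
  have hgi : Integrable (g u) volume := (g_cont hu).integrable_of_hasCompactSupport (g_supp hs)
  have hwi : Integrable (g b.w) volume := (g_cont hw).integrable_of_hasCompactSupport (g_supp hws)
  have hmeas : MeasurableSet (closedBall b.c b.ρ) := isClosed_closedBall.measurableSet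
  have hind : Integrable ((closedBall b.c b.ρ).indicator (g u)) volume := hgi.indicator hmeas
  have hcross : Integrable (fun x => ⟪gradient b.w x, gradient u x⟫_ℝ) volume := by
    apply Continuous.integrable_of_hasCompactSupport
    · exact (cont_gradient hw).inner (cont_gradient hu)
    · refine HasCompactSupport.intro (isCompact_closedBall b.c b.ρ) fun x hx => ?_
      rw [mem_closedBall, not_le] at hx
      have h0 : gradient b.w x = 0 := by
        rw [← norm_eq_zero, norm_gradient, (hb.supp x hx.le).2, norm_zero]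
      rw [h0, inner_zero_left]
  have hDir : Dir b.w = ∫ x, g b.w x := rfl
  unfold Blk.D
  rw [hDir, ← integral_indicator hmeas, ← integral_const_mul, ← integral_const_mul,
    ← integral_add (hwi.const_mul _) (hind.const_mul _)]
  refine integral_mono hcross ((hwi.const_mul _).add (hind.const_mul _)) fun x => ?_
  by_cases hx : x ∈ closedBall b.c b.ρ
  · simp only [indicator_of_mem hx]
    have h1 : ⟪gradient b.w x, gradient u x⟫_ℝ ≤ ‖fderiv ℝ b.w x‖ * ‖fderiv ℝ u x‖ := by
      rw [← norm_gradient, ← norm_gradient]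
      exact real_inner_le_norm _ _
    unfold g
    nlinarith [sq_nonneg (‖fderiv ℝ b.w x‖ - ‖fderiv ℝ u x‖)]
  · simp only [indicator_of_notMem hx]
    rw [mem_closedBall, not_le] at hx
    have h0 : gradient b.w x = 0 := by
      rw [← norm_eq_zero, norm_gradient, (hb.supp x hx.le).2, norm_zero]
    rw [h0, inner_zero_left]
    have := g_nonneg b.w x
    linarith

/-- the part on the arms -/
lemma T_le {b : Blk} (hb : b.Reg) {u : E2 → ℝ} (hu : ContDiff ℝ 1 u) :
    b.T u ≤ (1 / 2) * b.T b.w +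
      (1 / 2) * ∑ ν ∈ b.arms, ∫ r in (0 : ℝ)..b.ρ, g u (b.c + r • ν) := by
  unfold Blk.T
  rw [Finset.mul_sum, Finset.mul_sum, ← Finset.sum_add_distrib]
  refine Finset.sum_le_sum fun ν hν => ?_
  have hline : Continuous fun r : ℝ => b.c + r • ν := by fun_prop
  have c1 : Continuous fun r : ℝ => fderiv ℝ b.w (b.c + r • ν) ν :=
    ((cont_fderiv hb.smooth).comp hline).clm_apply continuous_const
  have c2 : Continuous fun r : ℝ => fderiv ℝ u (b.c + r • ν) ν :=
    ((cont_fderiv hu).comp hline).clm_apply continuous_const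
  have c3 : Continuous fun r : ℝ => g u (b.c + r • ν) := (g_cont hu).comp hline
  have c4 : Continuous fun r : ℝ => (1 / 2 : ℝ) *
      ((fderiv ℝ b.w (b.c + r • ν) ν) * (fderiv ℝ b.w (b.c + r • ν) ν)) :=
    continuous_const.mul (c1.mul c1)
  have c5 : Continuous fun r : ℝ => (1 / 2 : ℝ) * g u (b.c + r • ν) := continuous_const.mul c3
  have c6 : Continuous fun r : ℝ => (fderiv ℝ b.w (b.c + r • ν) ν) *
      (fderiv ℝ u (b.c + r • ν) ν) := c1.mul c2
  rw [← intervalIntegral.integral_const_mul, ← intervalIntegral.integral_const_mul,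
    ← intervalIntegral.integral_add (c4.intervalIntegrable _ _) (c5.intervalIntegrable _ _)]
  refine intervalIntegral.integral_mono_on hb.ρ_pos.le (c6.intervalIntegrable _ _)
    ((c4.add c5).intervalIntegrable _ _) fun r _ => ?_
  have h1 : (fderiv ℝ u (b.c + r • ν) ν) ^ 2 ≤ g u (b.c + r • ν) := by
    unfold g
    have h := (fderiv ℝ u (b.c + r • ν)).le_opNorm ν
    rw [hb.unit ν hν, mul_one, Real.norm_eq_abs] at h
    rw [← sq_abs]
    exact pow_le_pow_left₀ (abs_nonneg _) h 2
  nlinarith [sq_nonneg (fderiv ℝ b.w (b.c + r • ν) ν - fderiv ℝ u (b.c + r • ν) ν)]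

/-- the segments -/
def seg (b : Blk) (ν : E2) : Set E2 := (fun r : ℝ => b.c + r • ν) '' Ioc 0 b.ρ

lemma isom_line (c ν : E2) (hν : ‖ν‖ = 1) : Isometry fun r : ℝ => c + r • ν := by
  refine Isometry.of_dist_eq fun r s => ?_
  rw [dist_add_left, dist_eq_norm, ← sub_smul, norm_smul, hν, mul_one, Real.dist_eq,
    Real.norm_eq_abs]

lemma closedEmb (c ν : E2) (hν : ‖ν‖ = 1) :
    Topology.IsClosedEmbedding fun r : ℝ => c + r • ν :=
  (isom_line c ν hν).isClosedEmbedding

lemma seg_meas (b : Blk) (ν : E2) (hν : ‖ν‖ = 1) : MeasurableSet (seg b ν) :=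
  (closedEmb b.c ν hν).measurableEmbedding.measurableSet_image.2 measurableSet_Ioc

lemma seg_integral {b : Blk} (hb : b.Reg) (ν : E2) (hν : ‖ν‖ = 1) (f : E2 → ℝ) :
    ∫ r in (0 : ℝ)..b.ρ, f (b.c + r • ν) = ∫ x in seg b ν, f x ∂(μH[1] : Measure E2) := by
  have h1 := (isom_line b.c ν hν).map_hausdorffMeasure (d := 1) (Or.inl zero_le_one)
  have hsub : seg b ν ⊆ range fun r : ℝ => b.c + r • ν := image_subset_range _ _
  have h2 : (μH[1] : Measure E2).restrict (seg b ν) =
      ((μH[1] : Measure E2).restrict (range fun r : ℝ => b.c + r • ν)).restrict (seg b ν) := by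
    rw [Measure.restrict_restrict (seg_meas b ν hν), inter_eq_self_of_subset_left hsub]
  rw [h2, ← h1, hausdorffMeasure_real, intervalIntegral.integral_of_le hb.ρ_pos.le]
  rw [(closedEmb b.c ν hν).setIntegral_map]
  congr 2
  unfold seg
  rw [preimage_image_eq _ (isom_line b.c ν hν).injective]

lemma seg_sub_ball {b : Blk} (ν : E2) (hν : ‖ν‖ = 1) : seg b ν ⊆ closedBall b.c b.ρ := by
  rintro _ ⟨r, hr, rfl⟩
  rw [mem_closedBall, dist_eq_norm, add_sub_cancel_left, norm_smul, hν, mul_one,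
    Real.norm_eq_abs, abs_of_pos hr.1]
  exact hr.2

lemma seg_disj {b : Blk} {ν ν' : E2} (hν : ‖ν‖ = 1) (hν' : ‖ν'‖ = 1) (hne : ν ≠ ν') :
    Disjoint (seg b ν) (seg b ν') := by
  rw [Set.disjoint_left]
  rintro x ⟨r, hr, rfl⟩ ⟨r', hr', h⟩
  have h1 : r' • ν' = r • ν := add_left_cancel h
  have h2 : r' = r := by
    have := congrArg norm h1
    rwa [norm_smul, norm_smul, hν, hν', mul_one, mul_one, Real.norm_eq_abs, Real.norm_eq_abs,
      abs_of_pos hr.1, abs_of_pos hr'.1] at this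
  rw [h2] at h1
  exact hne (smul_right_injective E2 hr.1.ne' h1).symm

end ELowAux

open ELowAux in
theorem Fam.energy_ge {Ω : Set E2} (hΩ : IsOpen Ω) (hb : Bornology.IsBounded Ω) {m : ℝ}
    (hm : 0 < m) {β : Type} [Countable β] (F : Fam Ω m β) (f : SignedMeasure E2)
    (hf : ∀ u : E2 → ℝ, C1c univ u →
      HasSum (fun i => (F.b i).D u + m * (F.b i).T u) (integralS f u))
    (hDir : Summable fun i => Dir (F.b i).w) (hT : Summable fun i => (F.b i).T (F.b i).w)
    {SK : Set E2} (hSK : IsCompact SK) (hfin : μH[1] SK ≠ ∞)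
    (harm : ∀ i, ∀ ν ∈ (F.b i).arms, ∀ r ∈ Icc 0 (F.b i).ρ, (F.b i).c + r • ν ∈ SK) :
    ((-F.A : ℝ) : EReal) ≤ energy Ω f m ((μH[1] : Measure E2).restrict SK) := by
  unfold energy
  refine le_iInf ?_
  rintro ⟨u, hu, hus, husub⟩
  rw [EReal.coe_le_coe_iff]
  have hu1 : ContDiff ℝ 1 u := hu.of_le (by exact_mod_cast le_top)
  have hsum := hf u ⟨hu1, hus, subset_univ _⟩
  have hgc := g_cont hu1
  have hgs := g_supp hus
  have hgi : Integrable (g u) volume := hgc.integrable_of_hasCompactSupport hgs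
  have : IsFiniteMeasure ((μH[1] : Measure E2).restrict SK) :=
    ⟨by rw [Measure.restrict_apply_univ]; exact lt_top_iff_ne_top.2 hfin⟩
  have hgm : Integrable (g u) ((μH[1] : Measure E2).restrict SK) :=
    hgc.integrable_of_hasCompactSupport hgs
  -- the two families
  set a : β → ℝ := fun i => ∫ x in closedBall (F.b i).c (F.b i).ρ, g u x with ha
  set s : β → ℝ := fun i => ∑ ν ∈ (F.b i).arms, ∫ r in (0 : ℝ)..(F.b i).ρ,
    g u ((F.b i).c + r • ν) with hs
  have ha0 : ∀ i, 0 ≤ a i := fun i => setIntegral_nonneg isClosed_closedBall.measurableSet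
    fun x _ => g_nonneg u x
  have hs0 : ∀ i, 0 ≤ s i := fun i => Finset.sum_nonneg fun ν _ =>
    intervalIntegral.integral_nonneg (F.reg i).ρ_pos.le fun r _ => g_nonneg u _
  have haS : ∀ t : Finset β, ∑ i ∈ t, a i ≤ ∫ x in Ω, g u x := by
    intro t
    rw [ha, ← integral_biUnion_finset t (fun i _ => isClosed_closedBall.measurableSet)
      (fun i _ j _ hij => F.disj i j hij) (fun i _ => hgi.integrableOn)]
    refine setIntegral_mono_set hgi.integrableOn
      (Filter.Eventually.of_forall fun x => g_nonneg u x) ?_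
    exact (iUnion₂_subset fun i _ => F.sub i).eventuallyLE
  have hsS : ∀ t : Finset β,
      ∑ i ∈ t, s i ≤ ∫ x in Ω, g u x ∂((μH[1] : Measure E2).restrict SK) := by
    intro t
    rw [Measure.restrict_restrict hΩ.measurableSet]
    have h1 : ∑ i ∈ t, s i = ∑ k ∈ t.sigma fun i => (F.b i).arms,
        ∫ x in seg (F.b k.1) k.2, g u x ∂(μH[1] : Measure E2) := by
      rw [Finset.sum_sigma]
      refine Finset.sum_congr rfl fun i _ => Finset.sum_congr rfl fun ν hν => ?_
      exact seg_integral (F.reg i) ν ((F.reg i).unit ν hν) _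
    have hsubSK : ∀ i, ∀ ν ∈ (F.b i).arms, seg (F.b i) ν ⊆ Ω ∩ SK := by
      intro i ν hν
      refine subset_inter ((seg_sub_ball ν ((F.reg i).unit ν hν)).trans (F.sub i)) ?_
      rintro _ ⟨r, hr, rfl⟩
      exact harm i ν hν r ⟨hr.1.le, hr.2⟩
    have hint : IntegrableOn (g u) (Ω ∩ SK) (μH[1] : Measure E2) := by
      have : IntegrableOn (g u) SK (μH[1] : Measure E2) := hgm
      exact this.mono_set inter_subset_right
    rw [h1, ← integral_biUnion_finset]
    · refine setIntegral_mono_set hint (Filter.Eventually.of_forall fun x => g_nonneg u x) ?_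
      refine (iUnion₂_subset fun k hk => ?_).eventuallyLE
      rw [Finset.mem_sigma] at hk
      exact hsubSK k.1 k.2 hk.2
    · intro k hk
      rw [Finset.mem_sigma] at hk
      exact seg_meas _ _ ((F.reg k.1).unit k.2 hk.2)
    · rintro ⟨i, ν⟩ hk ⟨i', ν'⟩ hk' hne
      rw [Finset.mem_coe, Finset.mem_sigma] at hk hk'
      have hν := (F.reg i).unit ν hk.2
      have hν' := (F.reg i').unit ν' hk'.2
      by_cases hii : i = i'
      · subst hii
        have : ν ≠ ν' := fun h => hne (by rw [h])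
        exact seg_disj hν hν' this
      · exact (F.disj i i' hii).mono (seg_sub_ball ν hν) (seg_sub_ball ν' hν')
    · intro k hk
      rw [Finset.mem_sigma] at hk
      exact hint.mono_set (hsubSK k.1 k.2 hk.2)
  have hsa : Summable a := summable_of_sum_le ha0 haS
  have hss : Summable s := summable_of_sum_le hs0 hsS
  have hta : ∑' i, a i ≤ ∫ x in Ω, g u x := hsa.tsum_le_of_sum_le haS
  have hts : ∑' i, s i ≤ ∫ x in Ω, g u x ∂((μH[1] : Measure E2).restrict SK) :=
    hss.tsum_le_of_sum_le hsS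
  have hmain : integralS f u ≤ F.A + ((1 / 2) * ∑' i, a i + (m / 2) * ∑' i, s i) := by
    have hR : HasSum (fun i => ((1 / 2) * Dir (F.b i).w + (m / 2) * (F.b i).T (F.b i).w) +
        ((1 / 2) * a i + (m / 2) * s i))
        (F.A + ((1 / 2) * ∑' i, a i + (m / 2) * ∑' i, s i)) := by
      unfold Fam.A
      exact ((hDir.hasSum.mul_left _).add (hT.hasSum.mul_left _)).add
        ((hsa.hasSum.mul_left _).add (hss.hasSum.mul_left _))
    refine hasSum_le (fun i => ?_) hsum hR
    have h1 := D_le (F.reg i) hu1 hus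
    have h2 := T_le (F.reg i) hu1
    have h3 := mul_le_mul_of_nonneg_left h2 hm.le
    have e1 : a i = ∫ x in closedBall (F.b i).c (F.b i).ρ, g u x := rfl
    have e2 : s i = ∑ ν ∈ (F.b i).arms, ∫ r in (0 : ℝ)..(F.b i).ρ,
      g u ((F.b i).c + r • ν) := rfl
    rw [← e1] at h1
    rw [← e2] at h3
    linarith
  show -F.A ≤ functional Ω f m ((μH[1] : Measure E2).restrict SK) u
  unfold functional
  have e1 : ∫ x in Ω, ‖fderiv ℝ u x‖ ^ 2 = ∫ x in Ω, g u x := rfl
  have e2 : ∫ x in Ω, ‖fderiv ℝ u x‖ ^ 2 ∂((μH[1] : Measure E2).restrict SK) =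
    ∫ x in Ω, g u x ∂((μH[1] : Measure E2).restrict SK) := rfl
  rw [e1, e2]
  have h3 := mul_le_mul_of_nonneg_left hts (by positivity : (0 : ℝ) ≤ m / 2)
  linarith

end Pool.Agent.Lib.P8e
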