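import Pool.Agent.Lib.P8e.Blk

set_option autoImplicit false

/-!
# The charge `f`

PROOF SKETCH. `P = Measure.sum p`, `Q = Measure.sum q` are finite (`∑ M_i < ∞`), `f = P.toSignedMeasure - Q.toSignedMeasure`.
General lemma: for finite measures `P, Q` and `f = P - Q` with Jordan decomposition `f⁺, f⁻`: `f⁺ + Q = f⁻ + P` as measures, so for bounded measurable
(or integrable for both) `u`: `integralS f u = ∫ u dP - ∫ u dQ`. `∫ u dP = ∑ ∫ u dp_i` (`hasSum_integral_measure`), so
`HasSum (D_i u + m T_i u) (integralS f u)` by `rep.formula`.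
`LivesOn`: all `p_i, q_i` live on `closedBall ⊆ Ω`. `HasFullSupport`: `U = ball x r ∩ Ω` is open nonempty; take `i` from `dense`, `A` from `rep.full`;
`f A = p_i A - q_i A ≠ 0` because the other closed balls are disjoint from `A`; `|f A| ≤ totalVariation A ≤ totalVariation U`.
-/

open MeasureTheory Set Metric
open scoped ENNReal NNReal InnerProductSpace

namespace Pool.Agent.Lib.P8e

namespace FMeasAux

/-- The integral against a difference of finite measures. -/
theorem integralS_sub (P Q : Measure E2) [IsFiniteMeasure P] [IsFiniteMeasure Q] (u : E2 → ℝ)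
    (hu : ∀ μ : Measure E2, IsFiniteMeasure μ → Integrable u μ) :
    integralS (P.toSignedMeasure - Q.toSignedMeasure) u = ∫ x, u x ∂P - ∫ x, u x ∂Q := by
  set f : SignedMeasure E2 := P.toSignedMeasure - Q.toSignedMeasure with hf
  set a := f.toJordanDecomposition.posPart with ha
  set b := f.toJordanDecomposition.negPart with hb
  have hJ : f = a.toSignedMeasure - b.toSignedMeasure :=
    (SignedMeasure.toSignedMeasure_toJordanDecomposition f).symm
  have h1 : P + b = a + Q := by
    ext A hA
    have h2 : f A = (P A).toReal - (Q A).toReal := by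
      rw [hf]
      simp only [FunLike.coe_sub, Pi.sub_apply, Measure.toSignedMeasure_apply_measurable hA]
      rfl
    have h3 : f A = (a A).toReal - (b A).toReal := by
      conv_lhs => rw [hJ]
      simp only [FunLike.coe_sub, Pi.sub_apply, Measure.toSignedMeasure_apply_measurable hA]
      rfl
    rw [Measure.add_apply, Measure.add_apply]
    have e1 : P A ≠ ∞ := measure_ne_top P A
    have e2 : Q A ≠ ∞ := measure_ne_top Q A
    have e3 : a A ≠ ∞ := measure_ne_top a A
    have e4 : b A ≠ ∞ := measure_ne_top b A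
    rw [← ENNReal.toReal_eq_toReal_iff' (by simp [e1, e4]) (by simp [e2, e3]),
      ENNReal.toReal_add e1 e4, ENNReal.toReal_add e3 e2]
    linarith
  have h2 : ∫ x, u x ∂(P + b) = ∫ x, u x ∂(a + Q) := by rw [h1]
  rw [integral_add_measure (hu P inferInstance) (hu b inferInstance),
    integral_add_measure (hu a inferInstance) (hu Q inferInstance)] at h2
  show ∫ x, u x ∂a - ∫ x, u x ∂b = _
  linarith

end FMeasAux

open FMeasAux in
theorem Fam.exists_f {Ω : Set E2} (hΩ : IsOpen Ω) {m : ℝ} {β : Type} [Countable β]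
    (F : Fam Ω m β) : ∃ f : SignedMeasure E2, LivesOn f Ω ∧ HasFullSupport f Ω ∧
      ∀ u : E2 → ℝ, C1c univ u →
        HasSum (fun i => (F.b i).D u + m * (F.b i).T u) (integralS f u) := by
  have hsum : ∑' i, ENNReal.ofReal (F.M i) ≠ ∞ := by
    rw [← ENNReal.ofReal_tsum_of_nonneg F.M_nonneg F.M_sum]
    exact ENNReal.ofReal_ne_top
  have hPfin : IsFiniteMeasure (Measure.sum F.p) := by
    refine ⟨?_⟩
    rw [Measure.sum_apply _ MeasurableSet.univ]
    refine lt_of_le_of_lt (ENNReal.tsum_le_tsum fun i => ?_) (lt_top_iff_ne_top.2 hsum)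
    exact le_self_add.trans (F.rep i).mass
  have hQfin : IsFiniteMeasure (Measure.sum F.q) := by
    refine ⟨?_⟩
    rw [Measure.sum_apply _ MeasurableSet.univ]
    refine lt_of_le_of_lt (ENNReal.tsum_le_tsum fun i => ?_) (lt_top_iff_ne_top.2 hsum)
    exact le_add_self.trans (F.rep i).mass
  set f : SignedMeasure E2 := (Measure.sum F.p).toSignedMeasure -
    (Measure.sum F.q).toSignedMeasure with hf
  have hfA : ∀ A, MeasurableSet A → f A =
      (Measure.sum F.p A).toReal - (Measure.sum F.q A).toReal := by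
    intro A hA
    rw [hf]
    simp only [FunLike.coe_sub, Pi.sub_apply, Measure.toSignedMeasure_apply_measurable hA]
    rfl
  refine ⟨f, ?_, ?_, ?_⟩
  · intro A hA hdis
    have hc : ∀ i, A ⊆ (closedBall (F.b i).c (F.b i).ρ)ᶜ := fun i y hy hyc =>
      Set.disjoint_left.1 hdis hy (F.sub i hyc)
    have h1 : Measure.sum F.p A = 0 := by
      rw [Measure.sum_apply _ hA, ENNReal.tsum_eq_zero]
      exact fun i => measure_mono_null (hc i) (F.rep i).suppp
    have h2 : Measure.sum F.q A = 0 := by
      rw [Measure.sum_apply _ hA, ENNReal.tsum_eq_zero]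
      exact fun i => measure_mono_null (hc i) (F.rep i).suppq
    rw [hfA A hA, h1, h2]; simp
  · intro x hx r hr
    have hUo : IsOpen (ball x r ∩ Ω) := isOpen_ball.inter hΩ
    obtain ⟨i, hi⟩ := F.dense (ball x r ∩ Ω) hUo inter_subset_right ⟨x, mem_ball_self hr, hx⟩
    obtain ⟨A, hAU, hA, hne⟩ := (F.rep i).full (ball x r ∩ Ω) hUo hi
    have hAi : A ⊆ closedBall (F.b i).c (F.b i).ρ := fun y hy =>
      ball_subset_closedBall (hAU hy).2
    have hc : ∀ j, j ≠ i → A ⊆ (closedBall (F.b j).c (F.b j).ρ)ᶜ := fun j hj y hy hyc =>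
      Set.disjoint_left.1 (F.disj i j (Ne.symm hj)) (hAi hy) hyc
    have h1 : Measure.sum F.p A = F.p i A := by
      rw [Measure.sum_apply _ hA]
      exact tsum_eq_single i fun j hj => measure_mono_null (hc j hj) (F.rep j).suppp
    have h2 : Measure.sum F.q A = F.q i A := by
      rw [Measure.sum_apply _ hA]
      exact tsum_eq_single i fun j hj => measure_mono_null (hc j hj) (F.rep j).suppq
    have e1 : F.p i A ≠ ∞ := by rw [← h1]; exact measure_ne_top _ _
    have e2 : F.q i A ≠ ∞ := by rw [← h2]; exact measure_ne_top _ _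
    have h3 : f A ≠ 0 := by
      rw [hfA A hA, h1, h2]
      intro h0
      apply hne
      rw [← ENNReal.toReal_eq_toReal_iff' e1 e2]
      linarith
    have h4 : f.totalVariation A ≠ 0 := fun h0 =>
      h3 (SignedMeasure.null_of_totalVariation_zero f h0)
    exact lt_of_lt_of_le (pos_iff_ne_zero.2 h4)
      (measure_mono fun y hy => (hAU hy).1)
  · intro u hu
    have huint : ∀ μ : Measure E2, IsFiniteMeasure μ → Integrable u μ := fun μ _ =>
      hu.1.continuous.integrable_of_hasCompactSupport hu.2.1
    rw [integralS_sub _ _ u huint]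
    have h1 : HasSum (fun i => ∫ x, u x ∂(F.p i)) (∫ x, u x ∂(Measure.sum F.p)) :=
      hasSum_integral_measure (huint _ inferInstance)
    have h2 : HasSum (fun i => ∫ x, u x ∂(F.q i)) (∫ x, u x ∂(Measure.sum F.q)) :=
      hasSum_integral_measure (huint _ inferInstance)
    have h3 := h1.sub h2
    refine h3.congr_fun ?_
    intro i
    exact ((F.rep i).formula u hu).symm

end Pool.Agent.Lib.P8e
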