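import Pool.Agent.Lib.P8e.Defs

set_option autoImplicit false

/-!
# Maximal families of disjoint closed balls

PROOF SKETCH. Zorn's lemma (`zorn_subset`) for sets `𝓕` of pairs `(c, r)`, `0 < r ≤ R`, `closedBall c r ⊆ O`, with pairwise disjoint closed balls (`Set.PairwiseDisjoint` or
`∀ p ∈ 𝓕, ∀ q ∈ 𝓕, p ≠ q → Disjoint ..`); a maximal family is countable because the open balls are disjoint nonempty open sets in a separable space
(`Set.PairwiseDisjoint.countable_of_isOpen`). If a nonempty open `U ⊆ O` met no open ball of the family it would meet no closed ball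
(`closedBall = closure (ball)` in a normed space, `r ≠ 0`), and a small closed ball inside `U` could be added (its pair is not in the family since its own ball meets `U`).
-/

open Set Metric

namespace Pool.Agent.Lib.P8e

theorem exists_max_family {E : Type} [NormedAddCommGroup E] [NormedSpace ℝ E]
    [TopologicalSpace.SeparableSpace E] [Nontrivial E] (O : Set E) (R : ℝ) (hR : 0 < R) :
    ∃ 𝓕 : Set (E × ℝ), 𝓕.Countable ∧ (∀ p ∈ 𝓕, 0 < p.2 ∧ p.2 ≤ R ∧ closedBall p.1 p.2 ⊆ O) ∧
      (∀ p ∈ 𝓕, ∀ q ∈ 𝓕, p ≠ q → Disjoint (closedBall p.1 p.2) (closedBall q.1 q.2)) ∧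
      ∀ U : Set E, IsOpen U → U ⊆ O → U.Nonempty → ∃ p ∈ 𝓕, (U ∩ ball p.1 p.2).Nonempty := by
  classical
  let S : Set (Set (E × ℝ)) := {𝓕 | (∀ p ∈ 𝓕, 0 < p.2 ∧ p.2 ≤ R ∧ closedBall p.1 p.2 ⊆ O) ∧
      (∀ p ∈ 𝓕, ∀ q ∈ 𝓕, p ≠ q → Disjoint (closedBall p.1 p.2) (closedBall q.1 q.2))}
  obtain ⟨M, hM⟩ : ∃ M, Maximal (· ∈ S) M := by
    apply zorn_subset
    intro c hcS hc
    refine ⟨⋃₀ c, ⟨?_, ?_⟩, fun s hs => subset_sUnion_of_mem hs⟩
    · rintro p ⟨s, hs, hp⟩
      exact (hcS hs).1 p hp
    · rintro p ⟨s, hs, hp⟩ q ⟨t, ht, hq⟩ hpq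
      rcases hc.total hs ht with h | h
      · exact (hcS ht).2 p (h hp) q hq hpq
      · exact (hcS hs).2 p hp q (h hq) hpq
  have h1 := hM.prop.1
  have h2 := hM.prop.2
  refine ⟨M, ?_, h1, h2, ?_⟩
  · have hdis : M.PairwiseDisjoint (fun p : E × ℝ => ball p.1 p.2) := by
      intro p hp q hq hpq
      exact (h2 p hp q hq hpq).mono ball_subset_closedBall ball_subset_closedBall
    exact hdis.countable_of_isOpen (fun p _ => isOpen_ball)
      (fun p hp => ⟨p.1, mem_ball_self (h1 p hp).1⟩)
  · intro U hU hUO hUne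
    by_contra hcon
    push Not at hcon
    have hball : ∀ p ∈ M, Disjoint U (closedBall p.1 p.2) := by
      intro p hp
      rw [← closure_ball p.1 (h1 p hp).1.ne']
      apply Disjoint.closure_right _ hU
      rw [disjoint_iff_inter_eq_empty]
      exact hcon p hp
    obtain ⟨u, hu⟩ := hUne
    obtain ⟨ε, hε, hεU⟩ := Metric.isOpen_iff.1 hU u hu
    set r := min (ε / 2) R with hr
    have hr0 : 0 < r := lt_min (by linarith) hR
    have hrU : closedBall u r ⊆ U := by
      refine subset_trans (closedBall_subset_ball ?_) hεU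
      have := min_le_left (ε / 2) R
      linarith
    have hmem : insert (u, r) M ∈ S := by
      refine ⟨?_, ?_⟩
      · intro p hp
        rcases mem_insert_iff.1 hp with rfl | hp
        · exact ⟨hr0, min_le_right _ _, hrU.trans hUO⟩
        · exact h1 p hp
      · intro p hp q hq hpq
        rcases mem_insert_iff.1 hp with rfl | hp
        · rcases mem_insert_iff.1 hq with rfl | hq
          · exact absurd rfl hpq
          · exact (hball q hq).mono_left hrU
        · rcases mem_insert_iff.1 hq with rfl | hq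
          · exact ((hball p hp).mono_left hrU).symm
          · exact h2 p hp q hq hpq
    have hsub : insert (u, r) M ⊆ M := hM.2 hmem (subset_insert _ _)
    have huM : (u, r) ∈ M := hsub (mem_insert _ _)
    have hd := hball _ huM
    exact disjoint_left.1 hd hu (mem_closedBall_self hr0.le)

end Pool.Agent.Lib.P8e
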