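import Pool.Agent.Lib.P8e.OneCut

set_option autoImplicit false

/-!
# Stability: almost optimal sets are close to the curve

PROOF. Fix `D > 0`. Choose a finite set `F` of indices such that `∑_{j ∉ F} τ_j` is small, and show by strong induction on the number
of elements of `F` with `u < t_j < v` that for some `e₀ > 0` every `Y` with `H1 Y ≤ len u v + e₀` and `Dl u v Y ≤ e₀`
is contained in the `D`-neighbourhood of the curve. Base: half perimeter inequality; step: `one_cut`.
-/

open MeasureTheory Set Metric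
open scoped ENNReal NNReal InnerProductSpace

namespace Pool.Agent.Lib.P8e

namespace StabAux

lemma stewart (a b z : E2) (t : ℝ) :
    ‖z - (a + t • (b - a))‖ ^ 2 = (1 - t) * ‖z - a‖ ^ 2 + t * ‖z - b‖ ^ 2 - t * (1 - t) * ‖a - b‖ ^ 2 := by
  have e1 : z - (a + t • (b - a)) = (z - a) - t • (b - a) := by abel
  have e2 : z - b = (z - a) - (b - a) := by abel
  have e3 : ‖a - b‖ = ‖b - a‖ := norm_sub_rev a b
  rw [e1, e2, e3]
  generalize z - a = p
  generalize b - a = q
  rw [norm_sub_sq_real, norm_sub_sq_real, norm_smul, inner_smul_right, mul_pow,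
    Real.norm_eq_abs, sq_abs]
  ring

end StabAux

open StabAux

/-- Elementary geometry. -/
lemma near_segment {a b z : E2} {η : ℝ} (h0 : 0 ≤ η) (h1 : η ≤ 1) (hab : dist a b ≤ 1)
    (h : dist a z + dist z b ≤ dist a b + η) :
    ∃ p ∈ segment ℝ a b, dist z p ≤ 2 * √η := by
  set α := dist a z with hα
  set β := dist z b with hβ
  set L := dist a b with hL
  have hα0 : 0 ≤ α := dist_nonneg
  have hβ0 : 0 ≤ β := dist_nonneg
  have hL0 : 0 ≤ L := dist_nonneg
  have htri : L ≤ α + β := dist_triangle a z b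
  rcases eq_or_lt_of_le (add_nonneg hα0 hβ0) with h2 | h2
  · refine ⟨a, left_mem_segment ℝ a b, ?_⟩
    have h3 : α = 0 := by linarith
    rw [dist_comm, ← hα, h3]
    positivity
  · set t := α / (α + β) with ht
    have ht0 : 0 ≤ t := by positivity
    have ht1 : t ≤ 1 := by
      rw [ht, div_le_one h2]; linarith
    refine ⟨a + t • (b - a), ?_, ?_⟩
    · rw [segment_eq_image']
      exact ⟨t, ⟨ht0, ht1⟩, rfl⟩
    · rw [dist_eq_norm]
      have h3 := stewart a b z t
      have e1 : ‖z - a‖ = α := by rw [hα, dist_comm, dist_eq_norm]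
      have e2 : ‖z - b‖ = β := by rw [hβ, dist_eq_norm]
      have e3 : ‖a - b‖ = L := by rw [hL, dist_eq_norm]
      rw [e1, e2, e3] at h3
      have h4 : (1 - t) * α ^ 2 + t * β ^ 2 - t * (1 - t) * L ^ 2 =
          α * β / (α + β) ^ 2 * ((α + β - L) * (α + β + L)) := by
        rw [ht]
        field_simp
        ring
      have h5 : α * β / (α + β) ^ 2 * ((α + β - L) * (α + β + L)) ≤ η := by
        have h6 : (α + β - L) * (α + β + L) ≤ η * (2 * (α + β)) := by
          apply mul_le_mul (by linarith) (by linarith) (by linarith) h0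
        have h7 : 0 ≤ α * β / (α + β) ^ 2 := by positivity
        refine (mul_le_mul_of_nonneg_left h6 h7).trans ?_
        have h8 : α * β / (α + β) ^ 2 * (η * (2 * (α + β))) = η * (2 * (α * β) / (α + β)) := by
          field_simp
        rw [h8]
        have h9 : 2 * (α * β) / (α + β) ≤ 1 := by
          rw [div_le_one h2]
          have : α + β ≤ 2 := by linarith
          nlinarith [sq_nonneg (α - β)]
        calc η * (2 * (α * β) / (α + β)) ≤ η * 1 := mul_le_mul_of_nonneg_left h9 h0
          _ = η := mul_one η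
      have h10 : ‖z - (a + t • (b - a))‖ ^ 2 ≤ η := by rw [h3, h4]; exact h5
      have h11 : ‖z - (a + t • (b - a))‖ ≤ √η := Real.le_sqrt_of_sq_le h10
      have h12 : 0 ≤ √η := Real.sqrt_nonneg η
      linarith

namespace StabAux

/-- The claim for one arc. -/
def Claim (C : Cv) (D u v : ℝ) : Prop :=
  ∃ φ : ℝ, 0 < φ ∧ ∀ Y : Set E2, Cpt Y →
    H1 Y ≤ C.len u v + φ → C.Dl u v Y ≤ φ → ∀ z ∈ Y, infDist z C.SK ≤ D

lemma sum_nonneg' (C : Cv) (u v : ℝ) (Y : Set E2) :
    0 ≤ ∑' j, if u < C.t j ∧ C.t j < v then C.τ j * C.dj Y j else 0 := by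
  apply tsum_nonneg
  intro k
  split_ifs
  · exact mul_nonneg (C.τ_pos k).le infDist_nonneg
  · exact le_rfl

lemma base (C : Cv) {D u v : ℝ} (hD : 0 < D) (hu : 1 / 8 ≤ u) (huv : u ≤ v) (hv : v ≤ 7 / 8)
    {κ : ℝ} (hκ : C.turn u v ≤ κ) (h1 : κ ≤ D / 2) (h2 : κ ≤ D ^ 2 / 64) (h3 : κ ≤ 1 / 4) :
    Claim C D u v := by
  refine ⟨min (D ^ 2 / 192) (1 / 12), by positivity, ?_⟩
  intro Y hY hH hDl z hz
  set e := min (D ^ 2 / 192) (1 / 12) with he
  have he1 : e ≤ D ^ 2 / 192 := min_le_left _ _
  have he2 : e ≤ 1 / 12 := min_le_right _ _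
  have he0 : 0 < e := by rw [he]; positivity
  have hκ0 : 0 ≤ C.turn u v := C.turn_nonneg u v
  obtain ⟨yu, hyu, hyu'⟩ := exists_near hY (C.pt u)
  obtain ⟨yv, hyv, hyv'⟩ := exists_near hY (C.pt v)
  have hs := sum_nonneg' C u v Y
  have hDl' : infDist (C.pt u) Y + infDist (C.pt v) Y +
    (∑' j, if u < C.t j ∧ C.t j < v then C.τ j * C.dj Y j else 0) ≤ e := hDl
  have hiu : 0 ≤ infDist (C.pt u) Y := infDist_nonneg
  have hiv : 0 ≤ infDist (C.pt v) Y := infDist_nonneg
  have hdu : dist (C.pt u) yu ≤ e := by linarith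
  have hdv : dist (C.pt v) yv ≤ e := by linarith
  have hp := hY.half_perimeter_le hyu hz hyv
  have hch := C.len_le_chord huv
  have hprod : (v - u) * C.turn u v ≤ κ := by
    have h4 : v - u ≤ 1 := by linarith
    have h5 : 0 ≤ v - u := by linarith
    nlinarith
  have hP : dist (C.pt u) (C.pt v) ≤ 1 := by
    have h4 := C.dist_pt_le u v
    rw [abs_of_nonpos (by linarith)] at h4
    linarith
  have t1 : dist (C.pt u) (C.pt v) ≤ dist (C.pt u) yu + dist yu yv + dist yv (C.pt v) :=
    dist_triangle4 _ _ _ _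
  have t2 : dist (C.pt u) z ≤ dist (C.pt u) yu + dist yu z := dist_triangle _ _ _
  have t3 : dist z (C.pt v) ≤ dist z yv + dist yv (C.pt v) := dist_triangle _ _ _
  have c1 : dist yv (C.pt v) = dist (C.pt v) yv := dist_comm _ _
  have c2 : dist yv yu = dist yu yv := dist_comm _ _
  have hkey : dist (C.pt u) z + dist z (C.pt v) ≤ dist (C.pt u) (C.pt v) + (2 * κ + 6 * e) := by
    linarith
  have hκ' : 0 ≤ κ := hκ0.trans hκ
  obtain ⟨p, hp1, hp2⟩ := near_segment (by positivity) (by linarith) hP hkey
  obtain ⟨x, hx, hxp⟩ := C.near_chord huv p hp1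
  have hmem : C.pt x ∈ C.SK := ⟨x, ⟨by linarith [hx.1], by linarith [hx.2]⟩, rfl⟩
  have h4 : infDist z C.SK ≤ dist z (C.pt x) := infDist_le_dist_of_mem hmem
  have h5 := dist_triangle z p (C.pt x)
  have h6 : √(2 * κ + 6 * e) ≤ D / 4 := by
    rw [Real.sqrt_le_left (by positivity)]
    linarith
  linarith

lemma step (C : Cv) {D u v : ℝ} (hD : 0 < D) (j : ℕ) (huj : u < C.t j) (hjv : C.t j < v)
    (h1 : Claim C D u (C.t j)) (h2 : Claim C D (C.t j) v) : Claim C D u v := by
  obtain ⟨e1, he1, H1'⟩ := h1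
  obtain ⟨e2, he2, H2'⟩ := h2
  have hρ := C.ρ_pos j
  have hτ := C.τ_pos j
  set r := min D (min ((C.t j - u) / 4) (min ((v - C.t j) / 4) (2 * C.ρ j))) with hr
  have hr0 : 0 < r := by
    rw [hr]
    refine lt_min hD (lt_min (by linarith) (lt_min (by linarith) (by linarith)))
  have hrD : r ≤ D := min_le_left _ _
  have hr1 : r ≤ (C.t j - u) / 4 := (min_le_right _ _).trans (min_le_left _ _)
  have hr2 : r ≤ (v - C.t j) / 4 := (min_le_right _ _).trans ((min_le_right _ _).trans (min_le_left _ _))
  have hr3 : r ≤ 2 * C.ρ j := (min_le_right _ _).trans ((min_le_right _ _).trans (min_le_right _ _))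
  set e := min (e1 / 25) (min (e2 / 25) (r / 200)) with he
  have he0 : 0 < e := by
    rw [he]
    refine lt_min (by linarith) (lt_min (by linarith) (by linarith))
  have hee1 : e ≤ e1 / 25 := min_le_left _ _
  have hee2 : e ≤ e2 / 25 := (min_le_right _ _).trans (min_le_left _ _)
  have hee3 : e ≤ r / 200 := (min_le_right _ _).trans (min_le_right _ _)
  refine ⟨min e (e * C.τ j), by positivity, ?_⟩
  intro Y hY hH hDl z hz
  have hm1 : min e (e * C.τ j) ≤ e := min_le_left _ _
  have hm2 : min e (e * C.τ j) ≤ e * C.τ j := min_le_right _ _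
  have hDl' : infDist (C.pt u) Y + infDist (C.pt v) Y +
    (∑' j, if u < C.t j ∧ C.t j < v then C.τ j * C.dj Y j else 0) ≤ min e (e * C.τ j) := hDl
  have hiu : 0 ≤ infDist (C.pt u) Y := infDist_nonneg
  have hiv : 0 ≤ infDist (C.pt v) Y := infDist_nonneg
  have hd : C.dj Y j ≤ e := by
    have hsum := C.summable_Dl u v hY.1 hY.2.1.nonempty
    have h3 := hsum.le_tsum j (fun k _ => by
      split_ifs
      · exact mul_nonneg (C.τ_pos k).le infDist_nonneg
      · exact le_rfl)
    simp only [huj, hjv, and_self, if_true] at h3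
    have h4 : C.τ j * C.dj Y j ≤ C.τ j * e := by
      have : e * C.τ j = C.τ j * e := mul_comm _ _
      linarith
    exact le_of_mul_le_mul_left h4 hτ
  obtain ⟨Y1, Y2, cY1, cY2, hcov, a1, a2, a3, a4⟩ := C.one_cut (u := u) (v := v) j hr0 (by linarith) (by linarith)
    (fun i hi => by
      have := C.iso i j hi
      linarith) hY he0.le (by linarith) (by linarith) (by linarith) hd
  rcases hcov hz with (h | h) | h
  · exact H1' Y1 cY1 (by linarith) (by linarith) z h
  · exact H2' Y2 cY2 (by linarith) (by linarith) z h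
  · have hmem : C.pt (C.t j) ∈ C.SK := by
      have := C.t_lo j
      have := C.t_hi j
      exact ⟨C.t j, ⟨by linarith, by linarith⟩, rfl⟩
    have h4 : infDist z C.SK ≤ dist z (C.pt (C.t j)) := infDist_le_dist_of_mem hmem
    have h5 : dist z (C.pt (C.t j)) < r := h
    linarith

end StabAux

open StabAux

theorem Cv.stab (C : Cv) {D : ℝ} (hD : 0 < D) : ∃ φ : ℝ, 0 < φ ∧ ∀ Y : Set E2, Cpt Y →
    H1 Y ≤ C.len (1 / 8) (7 / 8) + φ → C.Dl (1 / 8) (7 / 8) Y ≤ φ → ∀ z ∈ Y, infDist z C.SK ≤ D := by
  classical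
  set κ := min (D / 2) (min (D ^ 2 / 64) (1 / 4)) with hκ
  have hκ0 : 0 < κ := by rw [hκ]; positivity
  have hk1 : κ ≤ D / 2 := min_le_left _ _
  have hk2 : κ ≤ D ^ 2 / 64 := (min_le_right _ _).trans (min_le_left _ _)
  have hk3 : κ ≤ 1 / 4 := (min_le_right _ _).trans (min_le_right _ _)
  obtain ⟨F, hF⟩ : ∃ F : Finset ℕ, (∑' j, C.τ j) - κ < ∑ j ∈ F, C.τ j := by
    have h0 := C.τ_sum.hasSum
    rw [HasSum, SummationFilter.unconditional_filter] at h0
    exact (h0.eventually_const_lt (show (∑' j, C.τ j) - κ < ∑' j, C.τ j by linarith)).exists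
  have hmain : ∀ n : ℕ, ∀ u v : ℝ, 1 / 8 ≤ u → u ≤ v → v ≤ 7 / 8 →
      (F.filter (fun j => u < C.t j ∧ C.t j < v)).card = n → Claim C D u v := by
    intro n
    induction n using Nat.strong_induction_on with
    | _ n ih =>
      intro u v hu huv hv hn
      rcases (F.filter (fun j => u < C.t j ∧ C.t j < v)).eq_empty_or_nonempty with h0 | ⟨j, hj⟩
      · refine base C hD hu huv hv (κ := κ) ?_ hk1 hk2 hk3
        have h2 : C.turn u v + ∑ j ∈ F, C.τ j ≤ ∑' j, C.τ j := by
          have e1 : ∑ j ∈ F, C.τ j = ∑' j, if j ∈ F then C.τ j else 0 := by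
            rw [tsum_eq_sum (s := F) (fun j hj => if_neg hj)]
            exact Finset.sum_congr rfl (fun j hj => (if_pos hj).symm)
          have hs : Summable (fun j => if j ∈ F then C.τ j else 0) :=
            summable_of_ne_finset_zero (s := F) (fun j hj => if_neg hj)
          rw [e1]
          unfold Cv.turn
          rw [← (C.summable_turn u v).tsum_add hs]
          apply ((C.summable_turn u v).add hs).tsum_le_tsum _ C.τ_sum
          intro j
          have hτ := (C.τ_pos j).le
          by_cases hjF : j ∈ F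
          · have : ¬ (u < C.t j ∧ C.t j < v) := by
              intro h
              have : j ∈ F.filter (fun j => u < C.t j ∧ C.t j < v) := Finset.mem_filter.2 ⟨hjF, h⟩
              rw [h0] at this
              simp at this
            rw [if_neg this, if_pos hjF]; linarith
          · rw [if_neg hjF]
            split_ifs <;> linarith
        linarith
      · have hj' := (Finset.mem_filter.1 hj)
        have hlt1 : (F.filter (fun i => u < C.t i ∧ C.t i < C.t j)).card < n := by
          rw [← hn]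
          apply Finset.card_lt_card
          rw [Finset.ssubset_iff_of_subset]
          · refine ⟨j, hj, ?_⟩
            intro h
            exact lt_irrefl _ (Finset.mem_filter.1 h).2.2
          · intro i hi
            have := Finset.mem_filter.1 hi
            exact Finset.mem_filter.2 ⟨this.1, this.2.1, this.2.2.trans hj'.2.2⟩
        have hlt2 : (F.filter (fun i => C.t j < C.t i ∧ C.t i < v)).card < n := by
          rw [← hn]
          apply Finset.card_lt_card
          rw [Finset.ssubset_iff_of_subset]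
          · refine ⟨j, hj, ?_⟩
            intro h
            exact lt_irrefl _ (Finset.mem_filter.1 h).2.1
          · intro i hi
            have := Finset.mem_filter.1 hi
            exact Finset.mem_filter.2 ⟨this.1, hj'.2.1.trans this.2.1, this.2.2⟩
        have htl := C.t_lo j
        have hth := C.t_hi j
        exact step C hD j hj'.2.1 hj'.2.2
          (ih _ hlt1 u (C.t j) hu hj'.2.1.le (by linarith) rfl)
          (ih _ hlt2 (C.t j) v (by linarith) hj'.2.2.le hv rfl)
  exact hmain _ (1 / 8) (7 / 8) le_rfl (by norm_num) le_rfl rfl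

end Pool.Agent.Lib.P8e
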