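import Pool.Agent.Lib.P8e.FinN
import Pool.Agent.Lib.P8e.Stab
import Pool.Agent.Lib.P8e.MaxFam

set_option autoImplicit false

/-!
# The data of the bumps

PROOF SKETCH. `O = Ω \ closure (SK ∪ ⋃ closedBall (N.c i) (N.ρ i))`, `exists_max_family O 1`, `κ` the type of the pairs `(c, r)` of the family (countable).
`dense`: let `U ⊆ Ω` be open and nonempty. If `U ∩ O` is nonempty it meets a ball of the family. Otherwise `U ⊆ closure (SK ∪ ⋃ closedBall)`; `U' = U \ SK` is open (`SK` compact) and nonempty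
(if `x ∈ U ∩ SK` then `x + (0, δ) ∈ U \ SK` for small `δ > 0`, `SK` being a graph), so `U'` meets `⋃ closedBall` (it is open and contained in the closure of `SK ∪ ⋃ closedBall`, and misses `SK`), and an open set
meeting `closedBall (N.c i) (N.ρ i)` meets `ball (N.c i) (N.ρ i)` (`closure_ball`, radius `≠ 0`).
`small`: the compact set `closedBall (c k) (r k)` misses `SK`, so there is `D > 0` with `D < infDist z SK` for all its points (`infDist` is continuous and positive there, `SK` closed nonempty). Let `φ_k` be the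
constant of `C.stab` for `D` and `φ_k' = min φ_k 1`, `e k = (1/4)^(enc k + 1)`, `ε k = (r k/6) √(e k φ_k')` (`enc : κ → ℕ` injective). If `S` meets the closed ball then not
`Dl S ≤ φ_k`, so `Dl S > φ_k'` and `(6 ε k/r k)^2 = e k φ_k' ≤ e k Dl S`. `∑ e ≤ 1/3`, `ε k ≤ (1/2)^(enc k + 1)` (`r k ≤ 1`).
-/

open MeasureTheory Set Metric
open scoped ENNReal NNReal InnerProductSpace

namespace Pool.Agent.Lib.P8e

/-- The data of the bumps. -/
structure BD {Ω : Set E2} {C : Cv} {ι : Type} (N : ND Ω C ι) (κ : Type) : Type where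
  c : κ → E2
  r : κ → ℝ
  ε : κ → ℝ
  e : κ → ℝ
  r_pos : ∀ k, 0 < r k
  r_le : ∀ k, r k ≤ 1
  ε_pos : ∀ k, 0 < ε k
  ε_le : ∀ k, ε k ≤ 1
  ε_sum : Summable ε
  e_nonneg : ∀ k, 0 ≤ e k
  e_sum : Summable e
  e_tot : ∑' k, e k ≤ 1
  sub : ∀ k, closedBall (c k) (r k) ⊆ Ω
  disj : ∀ k l, k ≠ l → Disjoint (closedBall (c k) (r k)) (closedBall (c l) (r l))
  disjN : ∀ i k, Disjoint (closedBall (N.c i) (N.ρ i)) (closedBall (c k) (r k))
  dense : ∀ U : Set E2, IsOpen U → U ⊆ Ω → U.Nonempty →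
    (∃ i, (U ∩ ball (N.c i) (N.ρ i)).Nonempty) ∨ ∃ k, (U ∩ ball (c k) (r k)).Nonempty
  small : ∀ S : Set E2, Cpt S → H1 S ≤ C.len (1 / 8) (7 / 8) → ∀ k,
    (S ∩ closedBall (c k) (r k)).Nonempty → (6 * ε k / r k) ^ 2 ≤ e k * C.Dl (1 / 8) (7 / 8) S

theorem ND.exists_BD {Ω : Set E2} (hΩ : IsOpen Ω) {C : Cv} {ι : Type} (N : ND Ω C ι) :
    ∃ κ : Type, Countable κ ∧ Nonempty (BD N κ) := by
  classical
  have hSK : IsCompact C.SK := (C.cpt_arc (by norm_num : (1 / 8 : ℝ) ≤ 7 / 8)).1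
  have hSKne : C.SK.Nonempty :=
    (C.cpt_arc (by norm_num : (1 / 8 : ℝ) ≤ 7 / 8)).2.1.nonempty
  set A : Set E2 := C.SK ∪ ⋃ i, closedBall (N.c i) (N.ρ i) with hA
  set O : Set E2 := Ω \ closure A with hO
  have hOopen : IsOpen O := hΩ.sdiff isClosed_closure
  obtain ⟨𝓕, hc, h1, h2, h3⟩ := exists_max_family O 1 one_pos
  have hcount : Countable 𝓕 := hc.to_subtype
  obtain ⟨enc, henc⟩ := hcount.exists_injective_nat
  -- distance to the curve
  have hD : ∀ k : 𝓕, ∃ D : ℝ, 0 < D ∧ ∀ z ∈ closedBall k.1.1 k.1.2, D < infDist z C.SK := by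
    intro k
    have hk := h1 k.1 k.2
    have hcomp : IsCompact (closedBall k.1.1 k.1.2) := isCompact_closedBall _ _
    obtain ⟨z0, hz0, hmin⟩ := hcomp.exists_isMinOn ⟨k.1.1, mem_closedBall_self hk.1.le⟩
      (continuous_infDist_pt C.SK).continuousOn
    have hpos : 0 < infDist z0 C.SK := by
      have hz0' : z0 ∉ C.SK := by
        intro h
        exact (hk.2.2 hz0).2 (subset_closure (Or.inl h))
      exact (hSK.isClosed.notMem_iff_infDist_pos hSKne).1 hz0'
    refine ⟨infDist z0 C.SK / 2, by linarith, fun z hz => ?_⟩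
    have := hmin hz
    simp only [mem_setOf_eq] at this
    linarith
  choose Dk hDk0 hDk using hD
  have hφ : ∀ k : 𝓕, ∃ φ : ℝ, 0 < φ ∧ φ ≤ 1 ∧ ∀ S : Set E2, Cpt S →
      H1 S ≤ C.len (1 / 8) (7 / 8) → (S ∩ closedBall k.1.1 k.1.2).Nonempty →
      φ ≤ C.Dl (1 / 8) (7 / 8) S := by
    intro k
    obtain ⟨φ, hφ0, hφ⟩ := C.stab (hDk0 k)
    refine ⟨min φ 1, lt_min hφ0 one_pos, min_le_right _ _, ?_⟩
    intro S hS hH hne
    by_contra hcon
    push Not at hcon
    obtain ⟨z, hzS, hzB⟩ := hne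
    have h4 := hφ S hS (by linarith) (hcon.le.trans (min_le_left _ _)) z hzS
    exact absurd (hDk k z hzB) (not_lt.2 h4)
  choose φ hφ0 hφ1 hφ using hφ
  set e : 𝓕 → ℝ := fun k => (1 / 4) ^ (enc k + 1) with he
  have he0 : ∀ k, 0 < e k := fun k => by positivity
  set ε : 𝓕 → ℝ := fun k => (k.1.2 / 6) * √(e k * φ k) with hε
  have hεle : ∀ k, ε k ≤ (1 / 2) ^ (enc k + 1) := by
    intro k
    have hk := h1 k.1 k.2
    have hs : √(e k * φ k) ≤ (1 / 2) ^ (enc k + 1) := by
      apply Real.sqrt_le_iff.2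
      refine ⟨by positivity, ?_⟩
      calc e k * φ k ≤ e k * 1 := mul_le_mul_of_nonneg_left (hφ1 k) (he0 k).le
        _ = ((1 / 2) ^ (enc k + 1)) ^ 2 := by
            rw [mul_one, he, ← pow_mul, mul_comm, pow_mul]; norm_num
    calc ε k ≤ 1 * √(e k * φ k) := by
          apply mul_le_mul_of_nonneg_right _ (Real.sqrt_nonneg _)
          linarith [hk.2.1]
      _ ≤ (1 / 2) ^ (enc k + 1) := by rw [one_mul]; exact hs
  have hgeo2 : Summable fun n : ℕ => (1 / 2 : ℝ) ^ (n + 1) :=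
    (summable_nat_add_iff 1).2 (summable_geometric_of_lt_one (by norm_num) (by norm_num))
  have hgeo4 : Summable fun n : ℕ => (1 / 4 : ℝ) ^ (n + 1) :=
    (summable_nat_add_iff 1).2 (summable_geometric_of_lt_one (by norm_num) (by norm_num))
  have hεpos : ∀ k, 0 < ε k := by
    intro k
    have hk := h1 k.1 k.2
    exact mul_pos (by linarith [hk.1]) (Real.sqrt_pos.2 (mul_pos (he0 k) (hφ0 k)))
  refine ⟨𝓕, hcount, ⟨{
    c := fun k => k.1.1
    r := fun k => k.1.2
    ε := ε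
    e := e
    r_pos := fun k => (h1 k.1 k.2).1
    r_le := fun k => (h1 k.1 k.2).2.1
    ε_pos := hεpos
    ε_le := fun k => (hεle k).trans (pow_le_one₀ (by norm_num) (by norm_num))
    ε_sum := ?_
    e_nonneg := fun k => (he0 k).le
    e_sum := hgeo4.comp_injective henc
    e_tot := ?_
    sub := fun k => (h1 k.1 k.2).2.2.trans sdiff_subset
    disj := fun k l hkl => h2 k.1 k.2 l.1 l.2 (fun h => hkl (Subtype.ext h))
    disjN := ?_
    dense := ?_
    small := ?_ }⟩⟩
  · exact Summable.of_nonneg_of_le (fun k => (hεpos k).le) hεle (hgeo2.comp_injective henc)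
  · have h4 : ∑' k, e k ≤ ∑' n : ℕ, (1 / 4 : ℝ) ^ (n + 1) :=
      tsum_comp_le_tsum_of_inj hgeo4 (fun n => by positivity) henc
    have h5 : ∑' n : ℕ, (1 / 4 : ℝ) ^ (n + 1) = 1 / 3 := by
      have h6 : ∑' n : ℕ, (1 / 4 : ℝ) ^ (n + 1) = ∑' n : ℕ, (1 / 4 : ℝ) * (1 / 4 : ℝ) ^ n := by
        congr 1; funext n; rw [pow_succ']
      rw [h6, tsum_mul_left, tsum_geometric_of_lt_one (by norm_num) (by norm_num)]
      norm_num
    linarith
  · intro i k
    rw [Set.disjoint_left]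
    intro x hx1 hx2
    exact ((h1 k.1 k.2).2.2 hx2).2 (subset_closure (Or.inr (mem_iUnion.2 ⟨i, hx1⟩)))
  · intro U hU hUΩ hUne
    by_cases hcase : (U ∩ O).Nonempty
    · right
      obtain ⟨p, hp, x, ⟨hxU, -⟩, hxb⟩ := h3 (U ∩ O) (hU.inter hOopen) inter_subset_right hcase
      exact ⟨⟨p, hp⟩, x, hxU, hxb⟩
    · left
      have hUcl : U ⊆ closure A := by
        intro x hx
        by_contra hcon
        exact hcase ⟨x, hx, hUΩ hx, hcon⟩
      have hU' : IsOpen (U \ C.SK) := hU.sdiff hSK.isClosed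
      have hne' : (U \ C.SK).Nonempty := by
        obtain ⟨x, hx⟩ := hUne
        by_cases hxS : x ∈ C.SK
        · obtain ⟨s, hs, rfl⟩ := hxS
          obtain ⟨δ, hδ, hball⟩ := Metric.isOpen_iff.1 hU _ hx
          refine ⟨C.pt s + (δ / 2) • EuclideanSpace.single (1 : Fin 2) (1 : ℝ), hball ?_, ?_⟩
          · rw [mem_ball, dist_eq_norm, add_sub_cancel_left, norm_smul,
              EuclideanSpace.norm_single]
            simp only [norm_one, mul_one, Real.norm_eq_abs]
            rw [abs_of_pos (by linarith)]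
            linarith
          · rintro ⟨s', hs', h⟩
            have h0 := congrArg (fun p : E2 => p 0) h
            have h1 := congrArg (fun p : E2 => p 1) h
            simp [Cv.pt] at h0 h1
            rw [h0] at h1
            linarith
        · exact ⟨x, hx, hxS⟩
      obtain ⟨x, hx⟩ := hne'
      obtain ⟨y, hyU, hyA⟩ := mem_closure_iff.1 (hUcl hx.1) _ hU' hx
      rcases hyA with hyA | hyA
      · exact absurd hyA hyU.2
      · obtain ⟨i, hi⟩ := mem_iUnion.1 hyA
        rw [← closure_ball (N.c i) (N.ρ_pos i).ne'] at hi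
        obtain ⟨z, hz1, hz2⟩ := mem_closure_iff.1 hi _ hU hyU.1
        exact ⟨i, z, hz1, hz2⟩
  · intro S hS hH k hne
    have hk := h1 k.1 k.2
    have h4 := hφ k S hS hH hne
    have h5 : (6 * ε k / k.1.2) ^ 2 = e k * φ k := by
      have h6 : 6 * ε k / k.1.2 = √(e k * φ k) := by
        rw [hε]
        have hk0 : k.1.2 ≠ 0 := hk.1.ne'
        field_simp
      rw [h6, Real.sq_sqrt (mul_nonneg (he0 k).le (hφ0 k).le)]
    rw [h5]
    exact mul_le_mul_of_nonneg_left h4 (he0 k).le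

end Pool.Agent.Lib.P8e
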