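import Pool.Agent.Lib.P8e.Blk

set_option autoImplicit false

/-!
# The energy is finite at a point; the candidate is in the relaxed class

PROOF SKETCH. `energy_ne_bot`: `|integralS f u| ≤ ∑ K_i √(Dir u)`, so with `μ = H^1⌞{x₀} = 0` (`hausdorffMeasure` of a point is `0` for `d = 1 > 0`) `functional ≥ 1/2 Dir u - K √(Dir u) ≥ -K^2/2`
(`∫_Ω ‖∇u‖^2 = Dir u` because `tsupport u ⊆ Ω`).
`mem_ML`: the translates `S_n = SK - (0, 1/n)` are in `Adm Ω L` for large `n` (`hshift`; translation is an isometry, so `H^1` is the same), and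
`∫ g dH^1⌞S_n = ∫_{SK} g(x - (0, 1/n)) dH^1 → ∫_{SK} g dH^1` (dominated convergence), i.e. the finite measures converge weakly.
-/

open MeasureTheory Set Metric
open scoped ENNReal NNReal InnerProductSpace

namespace Pool.Agent.Lib.P8e

private lemma IsTest.toC1c {Ω : Set E2} {u : E2 → ℝ} (hu : IsTest Ω u) : C1c univ u := by
  refine ⟨hu.1.of_le ?_, hu.2.1, subset_univ _⟩
  exact_mod_cast le_top

private lemma setIntegral_eq_Dir {Ω : Set E2} {u : E2 → ℝ} (hu : IsTest Ω u) :
    ∫ x in Ω, ‖fderiv ℝ u x‖ ^ 2 = Dir u := by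
  unfold Dir
  refine setIntegral_eq_integral_of_forall_compl_eq_zero fun x hx => ?_
  have h1 : x ∉ tsupport u := fun h => hx (hu.2.2 h)
  have h2 : fderiv ℝ u x = 0 := by
    by_contra h
    exact h1 (support_fderiv_subset ℝ h)
  rw [h2]
  simp

private lemma Dir_nonneg' (u : E2 → ℝ) : 0 ≤ Dir u := integral_nonneg fun x => by positivity

theorem energy_ne_bot {Ω : Set E2} (hΩ : IsOpen Ω) {m : ℝ} {β : Type} [Countable β] (F : Fam Ω m β)
    (f : SignedMeasure E2)
    (hf : ∀ u : E2 → ℝ, C1c univ u →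
      HasSum (fun i => (F.b i).D u + m * (F.b i).T u) (integralS f u))
    (K : β → ℝ) (hK : ∀ i, 0 ≤ K i) (hKs : Summable K)
    (hbd : ∀ i, ∀ u : E2 → ℝ, C1c univ u →
      |(F.b i).D u + m * (F.b i).T u| ≤ K i * √(Dir u))
    {L : ℝ} (hL : 0 ≤ L) {x₀ : E2} (hx : x₀ ∈ Ω) :
    ∃ S₀ ∈ Adm Ω L, energy Ω f m ((μH[1] : Measure E2).restrict S₀) ≠ ⊥ := by
  have h0 : (μH[1] : Measure E2) {x₀} = 0 := by
    have := Measure.nullSingletonClass_hausdorff E2 (d := 1) one_pos
    exact measure_singleton x₀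
  refine ⟨{x₀}, ⟨isClosed_singleton, isConnected_singleton, by simpa using hx, by simp [h0]⟩, ?_⟩
  have hr : (μH[1] : Measure E2).restrict {x₀} = 0 := Measure.restrict_eq_zero.2 h0
  rw [hr]
  set Kt : ℝ := ∑' i, K i with hKt
  have key : ((-(Kt ^ 2 / 2) : ℝ) : EReal) ≤ energy Ω f m (0 : Measure E2) := by
    unfold energy
    refine le_iInf fun u => ?_
    have hu := u.2
    have hC := IsTest.toC1c hu
    have hD := Dir_nonneg' u.1
    have hs : ‖∑' i, ((F.b i).D u.1 + m * (F.b i).T u.1)‖ ≤ Kt * √(Dir u.1) :=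
      tsum_of_norm_bounded (hKs.hasSum.mul_right (√(Dir u.1))) fun i => by
        rw [Real.norm_eq_abs]
        exact hbd i u.1 hC
    rw [(hf u.1 hC).tsum_eq, Real.norm_eq_abs] at hs
    have hs' := (abs_le.1 hs).2
    have hsq := Real.sq_sqrt hD
    have : -(Kt ^ 2 / 2) ≤ functional Ω f m (0 : Measure E2) u.1 := by
      unfold functional
      rw [setIntegral_eq_Dir hu]
      simp only [Measure.restrict_zero, integral_zero_measure, mul_zero, add_zero]
      nlinarith [sq_nonneg (√(Dir u.1) - Kt)]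
    exact_mod_cast this
  intro hbot
  rw [hbot] at key
  exact absurd (le_bot_iff.1 key) (EReal.coe_ne_bot _)

private lemma restrict_image_shift (e : E2 ≃ᵢ E2) {SK : Set E2} (hm : MeasurableSet SK) :
    Measure.map e ((μH[1] : Measure E2).restrict SK) =
      (μH[1] : Measure E2).restrict (e '' SK) := by
  have h1 : Measure.map e (μH[1] : Measure E2) = μH[1] := e.map_hausdorffMeasure 1
  have h2 : MeasurableSet (e '' SK) :=
    (e.toHomeomorph.toMeasurableEquiv.measurableSet_image).2 hm
  have h3 : Measurable e := e.continuous.measurable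
  conv_rhs => rw [← h1]
  rw [Measure.restrict_map h3 h2, preimage_image_eq _ e.injective]

theorem mem_ML {Ω : Set E2} {SK : Set E2} (hSK : Cpt SK)
    (hshift : ∀ᶠ n : ℕ in Filter.atTop, ∀ x ∈ SK, x - !₂[0, 1 / ((n : ℝ) + 1)] ∈ Ω)
    (μ : FiniteMeasure E2) (hμ : (μ : Measure E2) = (μH[1] : Measure E2).restrict SK) :
    μ ∈ ML Ω (H1 SK) := by
  obtain ⟨hc, hconn, hfin⟩ := hSK
  have hm : MeasurableSet SK := hc.isClosed.measurableSet
  let e : ℕ → E2 ≃ᵢ E2 := fun n => IsometryEquiv.subRight (!₂[0, 1 / ((n : ℝ) + 1)] : E2)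
  have he : ∀ n x, e n x = x - !₂[0, 1 / ((n : ℝ) + 1)] := fun n x => rfl
  have hlim : Filter.Tendsto (fun n : ℕ => (!₂[0, 1 / ((n : ℝ) + 1)] : E2)) Filter.atTop
      (nhds 0) := by
    have h1 : Filter.Tendsto (fun n : ℕ => 1 / ((n : ℝ) + 1)) Filter.atTop (nhds 0) :=
      tendsto_one_div_add_atTop_nhds_zero_nat
    have h2 : Continuous fun t : ℝ => (!₂[0, t] : E2) := by
      have : (fun t : ℝ => (!₂[0, t] : E2)) =
          fun t => (EuclideanSpace.equiv (Fin 2) ℝ).symm ![0, t] := rfl
      rw [this]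
      refine (EuclideanSpace.equiv (Fin 2) ℝ).symm.continuous.comp ?_
      refine continuous_pi fun i => ?_
      fin_cases i
      · exact continuous_const
      · exact continuous_id
    have h3 : (!₂[0, 0] : E2) = 0 := by
      ext i
      fin_cases i <;> rfl
    have h4 := (h2.tendsto 0).comp h1
    rw [h3] at h4
    exact h4
  refine mem_closure_of_tendsto (f := fun n => μ.map (e n)) (b := Filter.atTop) ?_ ?_
  · rw [FiniteMeasure.tendsto_iff_forall_integral_tendsto]
    intro g
    have hmap : ∀ n, ∫ x, g x ∂((μ.map (e n) : FiniteMeasure E2) : Measure E2) =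
        ∫ x, g (x - !₂[0, 1 / ((n : ℝ) + 1)]) ∂(μ : Measure E2) := by
      intro n
      rw [FiniteMeasure.toMeasure_map]
      rw [integral_map (e n).continuous.measurable.aemeasurable
        g.continuous.aestronglyMeasurable]
      rfl
    simp only [hmap]
    refine tendsto_integral_of_dominated_convergence (fun _ => ‖g‖) ?_ (integrable_const _) ?_ ?_
    · intro n
      exact (g.continuous.comp (continuous_id.sub continuous_const)).aestronglyMeasurable
    · intro n
      exact Filter.Eventually.of_forall fun x => g.norm_coe_le_norm _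
    · refine Filter.Eventually.of_forall fun x => ?_
      have h5 : Filter.Tendsto (fun n : ℕ => x - (!₂[0, 1 / ((n : ℝ) + 1)] : E2)) Filter.atTop
          (nhds (x - 0)) := tendsto_const_nhds.sub hlim
      rw [sub_zero] at h5
      exact (g.continuous.tendsto x).comp h5
  · filter_upwards [hshift] with n hn
    refine ⟨e n '' SK, ⟨?_, ?_, ?_, ?_⟩, ?_⟩
    · exact (hc.image (e n).continuous).isClosed
    · exact hconn.image _ (e n).continuous.continuousOn
    · rintro _ ⟨x, hx, rfl⟩
      exact hn x hx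
    · rw [(e n).hausdorffMeasure_image]
      unfold H1
      rw [ENNReal.ofReal_toReal hfin]
    · rw [FiniteMeasure.toMeasure_map, hμ]
      exact restrict_image_shift (e n) hm

end Pool.Agent.Lib.P8e
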