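import Pool.Agent.Lib.P8e.Prof

set_option autoImplicit false

/-!
# The gain from a missed needle

PROOF SKETCH. Fix once and for all a smooth `χ : ℝ → ℝ` with `χ = 1` on `(-∞, 1/4]`, `χ = 0` on `[1/2, ∞)`, nonincreasing, (e.g. `χ t = Real.smoothTransition (2 - 4 t)`),
`|χ'| ≤ K`. For `0 < d ≤ ρ` let `φ₁ x = χ (|x - c|/d)` (smooth: constant near `c`, or use `χ̃ (|x-c|^2/d^2)`), supported in `closedBall c (d/2)`, `Dir φ₁ ≤ K^2 volume (ball c d)/d^2 ≤ 4 K^2 =: K'`
independent of `d` (the gradient is bounded by `K/d`). `T φ₁ = ∑_ν ∫_0^ρ (-a pr(r/ρ)) χ'(r/d)/d dr ≥ a min_{r ∈ [d/4, d/2]} pr(r/ρ) * (χ(1/4) - χ(1/2)) ≥ a √(d/(4 ρ)) (1/2)^2 = (a/8) √(d/ρ)`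
(one arm is enough; the integrand is `≥ 0` and vanishes for `r ∉ [d/4, d/2]`; `needle_arm`). Put `φ = s φ₁`, `s = m T φ₁/K'`:
`1/2 Dir φ - m T φ ≤ -(m T φ₁)^2/(2 K') ≤ -m^2 a^2 (d/ρ)/(128 K')`.
-/

open MeasureTheory Set Metric
open scoped ENNReal NNReal InnerProductSpace

namespace Pool.Agent.Lib.P8e

namespace Gain

/-- The cutoff, as a function of the squared radius. -/
noncomputable def chi (t : ℝ) : ℝ := Real.smoothTransition (2 - 4 * t)

lemma chi_contDiff : ContDiff ℝ ((⊤ : ℕ∞) : WithTop ℕ∞) chi :=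
  Real.smoothTransition.contDiff.comp (contDiff_const.sub (contDiff_const.mul contDiff_id))

lemma chi_one {t : ℝ} (h : t ≤ 1 / 4) : chi t = 1 :=
  Real.smoothTransition.one_of_one_le (by linarith)

lemma chi_zero {t : ℝ} (h : 1 / 2 ≤ t) : chi t = 0 :=
  Real.smoothTransition.zero_of_nonpos (by linarith)

lemma chi_antitone : Antitone chi := fun a b hab =>
  Real.smoothTransition.monotone (by linarith)

lemma chi_deriv_nonpos (t : ℝ) : deriv chi t ≤ 0 := by
  have h1 : Monotone (fun x => -chi x) := fun a b hab => neg_le_neg (chi_antitone hab)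
  have h2 := h1.deriv_nonneg (x := t)
  rw [deriv.fun_neg] at h2
  linarith

/-- The model function. -/
noncomputable def Phi (x : E2) : ℝ := chi (‖x‖ ^ 2)

lemma Phi_contDiff : ContDiff ℝ ((⊤ : ℕ∞) : WithTop ℕ∞) Phi :=
  chi_contDiff.comp (contDiff_norm_sq ℝ)

/-- The rescaled model function. -/
noncomputable def phi (c : E2) (d : ℝ) (x : E2) : ℝ := Phi (d⁻¹ • (x - c))

lemma phi_contDiff (c : E2) (d : ℝ) : ContDiff ℝ ((⊤ : ℕ∞) : WithTop ℕ∞) (phi c d) := by
  have h1 : ContDiff ℝ ((⊤ : ℕ∞) : WithTop ℕ∞) (fun x : E2 => d⁻¹ • (x - c)) := by fun_prop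
  exact Phi_contDiff.comp h1

lemma phi_fderiv (c : E2) (d : ℝ) (x : E2) :
    fderiv ℝ (phi c d) x = d⁻¹ • fderiv ℝ Phi (d⁻¹ • (x - c)) := by
  have h1 : HasFDerivAt Phi (fderiv ℝ Phi (d⁻¹ • (x - c))) (d⁻¹ • (x - c)) :=
    (Phi_contDiff.differentiable (by simp)).differentiableAt.hasFDerivAt
  have h2 : HasFDerivAt (fun x : E2 => d⁻¹ • (x - c)) (d⁻¹ • (ContinuousLinearMap.id ℝ E2)) x :=
    ((hasFDerivAt_id x).sub_const c).const_smul d⁻¹
  have h3 := h1.comp x h2
  have h4 : (Phi ∘ fun x : E2 => d⁻¹ • (x - c)) = phi c d := rfl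
  rw [h4] at h3
  rw [h3.fderiv]
  ext v
  simp

lemma Dir_phi (c : E2) {d : ℝ} (hd : 0 < d) : Dir (phi c d) = Dir Phi := by
  unfold Dir
  have h1 : ∀ x, ‖fderiv ℝ (phi c d) x‖ ^ 2
      = (d⁻¹) ^ 2 * (fun y => ‖fderiv ℝ Phi (d⁻¹ • y)‖ ^ 2) (x - c) := by
    intro x
    rw [phi_fderiv, norm_smul, mul_pow, Real.norm_eq_abs, sq_abs]
  rw [integral_congr_ae (Filter.Eventually.of_forall h1), integral_const_mul,
    integral_sub_right_eq_self (fun y => ‖fderiv ℝ Phi (d⁻¹ • y)‖ ^ 2) c,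
    Measure.integral_comp_inv_smul_of_nonneg volume (fun y => ‖fderiv ℝ Phi y‖ ^ 2) hd.le]
  have h2 : Module.finrank ℝ E2 = 2 := by simp [E2]
  rw [h2, smul_eq_mul, ← mul_assoc, ← mul_pow, inv_mul_cancel₀ hd.ne', one_pow, one_mul]

/-- The radial function. -/
noncomputable def psi (d r : ℝ) : ℝ := chi ((d⁻¹ * r) ^ 2)

lemma psi_contDiff (d : ℝ) : ContDiff ℝ ((⊤ : ℕ∞) : WithTop ℕ∞) (psi d) :=
  chi_contDiff.comp ((contDiff_const.mul contDiff_id).pow 2)

lemma psi_hasDeriv (d r : ℝ) : HasDerivAt (psi d) (deriv (psi d) r) r :=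
  ((psi_contDiff d).differentiable (by simp)).differentiableAt.hasDerivAt

lemma psi_deriv_nonpos {d r : ℝ} (hd : 0 < d) (hr : 0 ≤ r) : deriv (psi d) r ≤ 0 := by
  have h1 : HasDerivAt chi (deriv chi ((d⁻¹ * r) ^ 2)) ((d⁻¹ * r) ^ 2) :=
    (chi_contDiff.differentiable (by simp)).differentiableAt.hasDerivAt
  have h2 : HasDerivAt (fun r : ℝ => (d⁻¹ * r) ^ 2) (2 * (d⁻¹ * r) * d⁻¹) r := by
    have h3 : HasDerivAt (fun r : ℝ => d⁻¹ * r) d⁻¹ r := by
      simpa using (hasDerivAt_id r).const_mul d⁻¹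
    have h4 := h3.fun_pow 2
    simpa using h4
  have h3 := h1.comp r h2
  have h4 : (chi ∘ fun r : ℝ => (d⁻¹ * r) ^ 2) = psi d := rfl
  rw [h4] at h3
  rw [h3.deriv]
  have h5 : 0 ≤ 2 * (d⁻¹ * r) * d⁻¹ := by positivity
  exact mul_nonpos_of_nonpos_of_nonneg (chi_deriv_nonpos _) h5

lemma psi_deriv_zero_left {d r : ℝ} (hd : 0 < d) (hr0 : 0 < r) (hr : r < d / 2) :
    deriv (psi d) r = 0 := by
  have h1 : psi d =ᶠ[nhds r] fun _ => 1 := by
    filter_upwards [Ioo_mem_nhds hr0 hr] with s hs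
    refine chi_one ?_
    have h2 : d⁻¹ * s ≤ 1 / 2 := by
      rw [inv_mul_le_iff₀ hd]; linarith [hs.2]
    have h3 : 0 ≤ d⁻¹ * s := mul_nonneg (inv_nonneg.2 hd.le) hs.1.le
    nlinarith
  rw [h1.deriv_eq, deriv_const]

lemma psi_deriv_zero_right {d r : ℝ} (hd : 0 < d) (hr : 3 / 4 * d < r) :
    deriv (psi d) r = 0 := by
  have h1 : psi d =ᶠ[nhds r] fun _ => 0 := by
    filter_upwards [Ioi_mem_nhds hr] with s hs
    refine chi_zero ?_
    have h2 : 3 / 4 ≤ d⁻¹ * s := by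
      rw [le_inv_mul_iff₀ hd]; linarith [mem_Ioi.1 hs]
    nlinarith
  rw [h1.deriv_eq, deriv_const]

lemma phi_ray (c : E2) (d : ℝ) {ν : E2} (hν : ‖ν‖ = 1) (r : ℝ) :
    fderiv ℝ (phi c d) (c + r • ν) ν = deriv (psi d) r := by
  have h1 : HasFDerivAt (phi c d) (fderiv ℝ (phi c d) (c + r • ν)) (c + r • ν) :=
    ((phi_contDiff c d).differentiable (by simp)).differentiableAt.hasFDerivAt
  have h2 : HasDerivAt (fun s : ℝ => c + s • ν) ν r := by
    simpa using ((hasDerivAt_id r).smul_const ν).const_add c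
  have h3 := h1.comp_hasDerivAt r h2
  have h4 : (phi c d ∘ fun s : ℝ => c + s • ν) = psi d := by
    funext s
    simp only [Function.comp_apply, phi, Phi, psi, add_sub_cancel_left, norm_smul, hν, mul_one,
      Real.norm_eq_abs]
    rw [← abs_mul, sq_abs]
  rw [h4] at h3
  exact h3.deriv.symm

lemma phi_support (c : E2) {d : ℝ} (hd : 0 < d) :
    Function.support (phi c d) ⊆ closedBall c (3 / 4 * d) := by
  intro x hx
  by_contra hcon
  rw [mem_closedBall, not_le, dist_eq_norm] at hcon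
  apply hx
  refine chi_zero ?_
  have h1 : 3 / 4 ≤ ‖d⁻¹ • (x - c)‖ := by
    rw [norm_smul, Real.norm_eq_abs, abs_of_nonneg (inv_nonneg.2 hd.le), le_inv_mul_iff₀ hd]
    linarith
  nlinarith

/-- The lower bound for one arm. -/
lemma arm_bound (c : E2) {ρ a d : ℝ} (arms : Finset E2) (hρ : 0 < ρ) (ha : 0 < a)
    (hν : ∀ ν ∈ arms, ‖ν‖ = 1) (hd : 0 < d) (hdρ : d ≤ ρ) {ν : E2} (hmem : ν ∈ arms) :
    a * √(d / (2 * ρ)) / 16 ≤ ∫ r in (0 : ℝ)..ρ,
      (fderiv ℝ (needle c ρ a arms).w (c + r • ν) ν) * (fderiv ℝ (phi c d) (c + r • ν) ν) := by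
  have hν1 := hν ν hmem
  set κ := a * √(d / (2 * ρ)) / 16 with hκ
  have hκ0 : 0 ≤ κ := by positivity
  have hFTC : ∫ r in (0 : ℝ)..ρ, κ * -deriv (psi d) r = κ := by
    rw [intervalIntegral.integral_const_mul, intervalIntegral.integral_neg,
      intervalIntegral.integral_eq_sub_of_hasDerivAt (f := psi d)
        (fun r _ => psi_hasDeriv d r)
        (((psi_contDiff d).continuous_deriv (by simp)).intervalIntegrable _ _)]
    have h1 : psi d 0 = 1 := chi_one (by norm_num)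
    have h2 : psi d ρ = 0 := by
      refine chi_zero ?_
      have h3 : 1 ≤ d⁻¹ * ρ := by
        rw [le_inv_mul_iff₀ hd]; linarith
      nlinarith
    rw [h1, h2]; ring
  have hcw : Continuous fun r : ℝ => (fderiv ℝ (needle c ρ a arms).w (c + r • ν) ν) := by
    have h1 := (needle_reg (a := a) c arms hρ hν).smooth.continuous_fderiv (by simp)
    exact (h1.comp (by fun_prop)).clm_apply continuous_const
  have hcp : Continuous fun r : ℝ => (fderiv ℝ (phi c d) (c + r • ν) ν) := by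
    have h1 := (phi_contDiff c d).continuous_fderiv (by simp)
    exact (h1.comp (by fun_prop)).clm_apply continuous_const
  calc κ = ∫ r in (0 : ℝ)..ρ, κ * -deriv (psi d) r := hFTC.symm
    _ ≤ _ := by
      refine intervalIntegral.integral_mono_on_of_le_Ioo hρ.le ?_ ?_ ?_
      · exact (continuous_const.mul
          ((psi_contDiff d).continuous_deriv (by simp)).neg).intervalIntegrable _ _
      · exact (hcw.mul hcp).intervalIntegrable _ _
      · intro r hr
        rw [phi_ray c d hν1, needle_arm (a := a) c arms hρ hν1 hr.1]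
        by_cases h1 : r < d / 2
        · rw [psi_deriv_zero_left hd hr.1 h1]; simp
        by_cases h2 : 3 / 4 * d < r
        · rw [psi_deriv_zero_right hd h2]; simp
        push Not at h1 h2
        have h3 := psi_deriv_nonpos hd hr.1.le
        have h4 : κ ≤ a * pr (r / ρ) := by
          have h5 : r / ρ ≤ 3 / 4 := by
            rw [div_le_iff₀ hρ]; linarith
          have h6 : d / (2 * ρ) ≤ r / ρ := by
            rw [div_le_div_iff₀ (by positivity) hρ]
            nlinarith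
          have h7 : √(d / (2 * ρ)) ≤ √(r / ρ) := Real.sqrt_le_sqrt h6
          have h8 : (1 / 16 : ℝ) ≤ (1 - r / ρ) ^ 2 := by nlinarith
          unfold pr
          rw [if_pos (by linarith), hκ, mul_div_assoc]
          refine mul_le_mul_of_nonneg_left ?_ ha.le
          have h9 : √(d / (2 * ρ)) * (1 / 16) ≤ √(r / ρ) * (1 - r / ρ) ^ 2 :=
            mul_le_mul h7 h8 (by norm_num) (Real.sqrt_nonneg _)
          linarith
        have h5 := mul_le_mul_of_nonneg_right h4 (neg_nonneg.2 h3)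
        linarith

end Gain

open Gain in
theorem needle_gain : ∃ c₀ : ℝ, 0 < c₀ ∧ ∀ (c : E2) (ρ a m : ℝ) (arms : Finset E2), 0 < ρ → 0 < a →
    0 < m → arms.Nonempty → (∀ ν ∈ arms, ‖ν‖ = 1) → ∀ d : ℝ, 0 < d → d ≤ ρ →
    ∃ φ : E2 → ℝ, ContDiff ℝ ((⊤ : ℕ∞) : WithTop ℕ∞) φ ∧ HasCompactSupport φ ∧
      tsupport φ ⊆ ball c d ∧
      (1 / 2) * Dir φ - m * (needle c ρ a arms).T φ ≤ -(c₀ * m ^ 2 * a ^ 2 * (d / ρ)) := by
  have hD0 : 0 ≤ Dir Phi := integral_nonneg fun x => sq_nonneg _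
  set K := Dir Phi + 1 with hK
  have hKpos : 0 < K := by positivity
  refine ⟨1 / (1024 * K), by positivity, ?_⟩
  intro c ρ a m arms hρ ha hm hne hν d hd hdρ
  set b := needle c ρ a arms with hb
  set T1 := b.T (phi c d) with hT1
  have hTlow : a * √(d / (2 * ρ)) / 16 ≤ T1 := by
    obtain ⟨ν, hmem⟩ := hne
    refine (arm_bound c arms hρ ha hν hd hdρ hmem).trans ?_
    rw [hT1]
    unfold Blk.T
    refine Finset.single_le_sum (f := fun ν => ∫ r in (0 : ℝ)..b.ρ,
      (fderiv ℝ b.w (b.c + r • ν) ν) * (fderiv ℝ (phi c d) (b.c + r • ν) ν)) ?_ hmem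
    intro ν' hν'
    have h1 := arm_bound c arms hρ ha hν hd hdρ hν'
    have h2 : 0 ≤ a * √(d / (2 * ρ)) / 16 := by positivity
    exact h2.trans h1
  set s := m * T1 / K with hs
  have hdiff : Differentiable ℝ (phi c d) := (phi_contDiff c d).differentiable (by simp)
  have hfd : ∀ x, fderiv ℝ (fun x => s * phi c d x) x = s • fderiv ℝ (phi c d) x := by
    intro x
    exact fderiv_const_mul hdiff.differentiableAt s
  have hsupp : Function.support (fun x => s * phi c d x) ⊆ closedBall c (3 / 4 * d) := by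
    intro x hx
    refine phi_support c hd ?_
    intro h
    apply hx
    simp [h]
  refine ⟨fun x => s * phi c d x, contDiff_const.mul (phi_contDiff c d), ?_, ?_, ?_⟩
  · exact HasCompactSupport.of_support_subset_isCompact (isCompact_closedBall _ _) hsupp
  · refine (closure_minimal hsupp isClosed_closedBall).trans ?_
    exact closedBall_subset_ball (by linarith)
  · have h1 : Dir (fun x => s * phi c d x) = s ^ 2 * Dir Phi := by
      rw [← Dir_phi c hd]
      unfold Dir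
      rw [← integral_const_mul]
      refine integral_congr_ae (Filter.Eventually.of_forall fun x => ?_)
      simp only
      rw [hfd, norm_smul, mul_pow, Real.norm_eq_abs, sq_abs]
    have h2 : b.T (fun x => s * phi c d x) = s * T1 := by
      rw [hT1]
      unfold Blk.T
      rw [Finset.mul_sum]
      refine Finset.sum_congr rfl fun ν _ => ?_
      rw [← intervalIntegral.integral_const_mul]
      refine intervalIntegral.integral_congr fun r _ => ?_
      rw [hfd, ContinuousLinearMap.smul_apply, smul_eq_mul]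
      ring
    rw [h1, h2]
    have h3 : s ^ 2 * Dir Phi ≤ s ^ 2 * K := by
      refine mul_le_mul_of_nonneg_left ?_ (sq_nonneg _)
      linarith
    have h4 : (a * √(d / (2 * ρ)) / 16) ^ 2 ≤ T1 ^ 2 := by
      have : 0 ≤ a * √(d / (2 * ρ)) / 16 := by positivity
      gcongr
    have h5 : (a * √(d / (2 * ρ)) / 16) ^ 2 = a ^ 2 * (d / ρ) / 512 := by
      rw [div_pow, mul_pow, Real.sq_sqrt (by positivity)]
      field_simp
      ring
    rw [h5] at h4
    have h6 : s ^ 2 * K = m ^ 2 * T1 ^ 2 / K := by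
      rw [hs]; field_simp
    have h7 : m * (s * T1) = m ^ 2 * T1 ^ 2 / K := by
      rw [hs]; field_simp
    have h8 : 1 / (1024 * K) * m ^ 2 * a ^ 2 * (d / ρ) = m ^ 2 * (a ^ 2 * (d / ρ) / 512) / K / 2 := by
      field_simp
      ring
    have h9 : m ^ 2 * (a ^ 2 * (d / ρ) / 512) / K ≤ m ^ 2 * T1 ^ 2 / K := by gcongr
    rw [h8, h7]
    rw [h6] at h3
    linarith

end Pool.Agent.Lib.P8e
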