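import Pool.Agent.Lib.P8e.Prof

set_option autoImplicit false

/-!
# The needle: integration by parts in the plane

The density `-Δw` of the needle: `lap c ρ a x = (a/ρ) (3/2 - 7/2 t) (1 - t) / √t`, `t = |x - c|/ρ ∈ (0, 1)`, `0` otherwise.
(`-Δw = -(w'' + w'/r)` with `w' = -a √t (1-t)^2`: `-w'' = (a/ρ) (1 - t)(1 - 5 t)/(2 √t)`, `-w'/r = (a/ρ) (1-t)^2/√t`, sum
`(a/ρ) (1 - t) ((1 - 5 t)/2 + (1 - t)) / √t`.)

PROOF SKETCH. Polar coordinates around `c` (`integral_comp_polarCoord_symm`, the isometry `E2 ≃ ℝ × ℝ` is volume preserving: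
`EuclideanSpace.volume_preserving_symm_measurableEquiv_toLp` or similar), or the divergence theorem off a countable set. In polar coordinates, for a
unit direction `n_θ`: `∫_0^ρ lap u r dr = ∫_0^ρ (a r pr(r/ρ))' u dr = -∫_0^ρ a r pr(r/ρ) ∂_r u dr` (`(r w')' = r Δw`; boundary terms vanish) and
`∇w · ∇u = -a pr(r/ρ) ∂_r u`, so `∫ lap u = ∫ ∇w · ∇u`.
`lap_int`: `∫ |lap| ≤ 2 π ρ^2 (a/ρ) ∫_0^1 4 √t dt ≤ 20 a ρ`.
`lap_ne`: the only zero of `3/2 - 7/2 t` in `(0,1)` is `3/7`.
-/

open MeasureTheory Set Metric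
open scoped ENNReal NNReal InnerProductSpace

namespace Pool.Agent.Lib.P8e

noncomputable def lap (c : E2) (ρ a : ℝ) (x : E2) : ℝ :=
  if 0 < dist x c ∧ dist x c < ρ then
    (a / ρ) * (3 / 2 - 7 / 2 * (dist x c / ρ)) * (1 - dist x c / ρ) / √(dist x c / ρ) else 0

/-- The radial profile of `lap`. -/
private noncomputable def lr (ρ a r : ℝ) : ℝ :=
  if 0 < r ∧ r < ρ then (a / ρ) * (3 / 2 - 7 / 2 * (r / ρ)) * (1 - r / ρ) / √(r / ρ) else 0

private lemma lap_eq (c : E2) (ρ a : ℝ) (x : E2) : lap c ρ a x = lr ρ a ‖x - c‖ := by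
  simp only [lap, lr, dist_eq_norm]

private lemma measurable_lr (ρ a : ℝ) : Measurable (lr ρ a) := by
  unfold lr
  refine Measurable.ite ?_ ?_ measurable_const
  · exact (measurableSet_Ioi).inter (measurableSet_Iio)
  · fun_prop

lemma measurable_lap (c : E2) (ρ a : ℝ) : Measurable (lap c ρ a) := by
  have h : lap c ρ a = fun x => lr ρ a ‖x - c‖ := funext (lap_eq c ρ a)
  rw [h]
  exact (measurable_lr ρ a).comp (by fun_prop)

/-- `r` times the profile. -/
private lemma mul_lr {ρ a r : ℝ} (hr : 0 < r) (hr2 : r < ρ) :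
    r * lr ρ a r = a * (√(r / ρ) * (1 - r / ρ) * (3 / 2 - 7 / 2 * (r / ρ))) := by
  have hρ : 0 < ρ := hr.trans hr2
  have ht : 0 < r / ρ := by positivity
  unfold lr
  rw [if_pos ⟨hr, hr2⟩]
  have hs : 0 < √(r / ρ) := Real.sqrt_pos.2 ht
  have hs2 : √(r / ρ) * √(r / ρ) = r / ρ := Real.mul_self_sqrt ht.le
  have hr3 : r = ρ * (√(r / ρ) * √(r / ρ)) := by rw [hs2]; field_simp
  have : r * ((a / ρ) * (3 / 2 - 7 / 2 * (r / ρ)) * (1 - r / ρ) / √(r / ρ)) =
      (r / √(r / ρ)) * ((a / ρ) * (3 / 2 - 7 / 2 * (r / ρ)) * (1 - r / ρ)) := by ring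
  rw [this]
  have h4 : r / √(r / ρ) = ρ * √(r / ρ) := by
    rw [div_eq_iff hs.ne']
    nth_rw 1 [hr3]
    ring
  rw [h4]
  field_simp

private lemma lr_zero {ρ a r : ℝ} (hr : ¬ (0 < r ∧ r < ρ)) : lr ρ a r = 0 := by
  unfold lr
  rw [if_neg hr]

private lemma mul_lr_abs {ρ a r : ℝ} (ha : 0 < a) :
    |r * lr ρ a r| ≤ (Ioo 0 ρ).indicator (fun _ => 3 / 2 * a) r := by
  by_cases h : 0 < r ∧ r < ρ
  · rw [indicator_of_mem (by exact h), mul_lr h.1 h.2]
    have hρ : 0 < ρ := h.1.trans h.2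
    have ht : 0 < r / ρ := by have := h.1; positivity
    have ht1 : r / ρ < 1 := by rw [div_lt_one hρ]; exact h.2
    obtain ⟨t, htt⟩ : ∃ t, t = r / ρ := ⟨_, rfl⟩
    rw [← htt] at ht ht1 ⊢
    have hs : √t ≤ 1 := Real.sqrt_le_iff.2 ⟨zero_le_one, by simpa using ht1.le⟩
    have hs0 : 0 ≤ √t := Real.sqrt_nonneg _
    have h1 : |(1 - t) * (3 / 2 - 7 / 2 * t)| ≤ 3 / 2 := by
      rw [abs_le]
      constructor <;> nlinarith
    have h2 : a * (√t * (1 - t) * (3 / 2 - 7 / 2 * t)) = a * (√t * ((1 - t) * (3 / 2 - 7 / 2 * t))) := by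
      ring
    rw [h2, abs_mul, abs_mul, abs_of_pos ha, abs_of_nonneg hs0]
    have h3 : √t * |(1 - t) * (3 / 2 - 7 / 2 * t)| ≤ 1 * (3 / 2) :=
      mul_le_mul hs h1 (abs_nonneg _) zero_le_one
    nlinarith
  · rw [lr_zero h, mul_zero, abs_zero, indicator_of_notMem (by exact h)]

private lemma lr_intOn {ρ a : ℝ} (ha : 0 < a) :
    IntegrableOn (fun y : ℝ => y * lr ρ a y) (Ioi 0) := by
  have h1 : IntegrableOn ((Ioo 0 ρ).indicator (fun _ => 3 / 2 * a)) (Ioi 0) := by
    refine Integrable.integrableOn ?_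
    rw [integrable_indicator_iff measurableSet_Ioo]
    exact integrableOn_const (by simp)
  refine Integrable.mono' h1 ?_ ?_
  · exact (measurable_id.mul (measurable_lr ρ a)).aestronglyMeasurable
  · exact Filter.Eventually.of_forall fun r => mul_lr_abs ha

private lemma finrankE2 : Module.finrank ℝ E2 = 2 := by simp

private lemma lr_integrable {ρ a : ℝ} (ha : 0 < a) :
    Integrable (fun x : E2 => lr ρ a ‖x‖) := by
  rw [integrable_fun_norm_addHaar (E := E2) (volume : Measure E2) (f := lr ρ a), finrankE2]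
  simpa using lr_intOn ha

private lemma lap_integrable (c : E2) {ρ a : ℝ} (ha : 0 < a) : Integrable (lap c ρ a) := by
  have h : lap c ρ a = fun x => (fun y : E2 => lr ρ a ‖y‖) (x - c) := funext (lap_eq c ρ a)
  rw [h]
  exact (lr_integrable ha).comp_sub_right c

theorem lap_int (c : E2) {ρ a : ℝ} (hρ : 0 < ρ) (ha : 0 < a) :
    ∫⁻ x, ENNReal.ofReal |lap c ρ a x| ≤ ENNReal.ofReal (20 * a * ρ) := by
  have h0 : ∫⁻ x, ENNReal.ofReal |lap c ρ a x| = ∫⁻ x : E2, ENNReal.ofReal |lr ρ a ‖x‖| := by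
    simp only [lap_eq]
    exact lintegral_sub_right_eq_self (fun x : E2 => ENNReal.ofReal |lr ρ a ‖x‖|) c
  rw [h0, ← ofReal_integral_eq_lintegral_ofReal (lr_integrable ha).abs
    (Filter.Eventually.of_forall fun x => abs_nonneg _)]
  apply ENNReal.ofReal_le_ofReal
  rw [integral_fun_norm_addHaar (E := E2) (volume : Measure E2) (fun y => |lr ρ a y|), finrankE2]
  have h1 : (volume : Measure E2).real (ball 0 1) = Real.pi := by
    rw [Measure.real, EuclideanSpace.volume_ball_fin_two]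
    simp [Real.pi_pos.le]
  rw [h1]
  have h2 : ∫ y in Ioi (0 : ℝ), y ^ (2 - 1) • |lr ρ a y| ≤ 3 / 2 * a * ρ := by
    have h3 : ∫ y in Ioi (0 : ℝ), y ^ (2 - 1) • |lr ρ a y| ≤
        ∫ y in Ioi (0 : ℝ), (Ioo 0 ρ).indicator (fun _ => 3 / 2 * a) y := by
      refine setIntegral_mono_on ?_ ?_ measurableSet_Ioi ?_
      · have := (lr_intOn (ρ := ρ) ha).abs
        refine this.congr ?_
        filter_upwards [ae_restrict_mem measurableSet_Ioi] with y hy
        simp [abs_mul, abs_of_pos (mem_Ioi.1 hy)]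
      · refine Integrable.integrableOn ?_
        rw [integrable_indicator_iff measurableSet_Ioo]
        exact integrableOn_const (by simp)
      · intro y hy
        have := mul_lr_abs (ρ := ρ) (a := a) (r := y) ha
        rw [abs_mul, abs_of_pos (mem_Ioi.1 hy)] at this
        simpa using this
    refine h3.trans ?_
    rw [setIntegral_indicator measurableSet_Ioo]
    have h4 : Ioi (0 : ℝ) ∩ Ioo 0 ρ = Ioo 0 ρ := by
      ext y; simp only [mem_inter_iff, mem_Ioi, mem_Ioo]; tauto
    rw [h4, setIntegral_const]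
    simp only [Measure.real, Real.volume_Ioo, sub_zero, smul_eq_mul]
    rw [ENNReal.toReal_ofReal hρ.le]
    linarith
  have h5 := Real.pi_lt_four
  have h6 := Real.pi_pos
  have h7 : 0 < a * ρ := by positivity
  have h8 : (2 : ℕ) • Real.pi • ∫ y in Ioi (0 : ℝ), y ^ (2 - 1) • |lr ρ a y| =
      2 * (Real.pi * ∫ y in Ioi (0 : ℝ), y ^ (2 - 1) • |lr ρ a y|) := by
    simp [two_mul, two_smul]
  rw [h8]
  have h9 : Real.pi * ∫ y in Ioi (0 : ℝ), y ^ (2 - 1) • |lr ρ a y| ≤ Real.pi * (3 / 2 * a * ρ) :=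
    mul_le_mul_of_nonneg_left h2 h6.le
  have h10 : Real.pi ≤ 3.15 := Real.pi_lt_d2.le
  nlinarith

/-- Polar coordinates: if all weighted radial integrals vanish, so does the integral. -/
private lemma polar_zero (F : E2 → ℝ) (hF : Integrable F)
    (h : ∀ n : E2, ‖n‖ = 1 → ∫ r in Ioi (0 : ℝ), r * F (r • n) = 0) : ∫ x, F x = 0 := by
  have hmp := (volume : Measure E2).measurePreserving_homeomorphUnitSphereProd
  rw [finrankE2] at hmp
  have hemb := Homeomorph.measurableEmbedding (homeomorphUnitSphereProd E2)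
  set G : sphere (0 : E2) 1 × Ioi (0 : ℝ) → ℝ :=
    fun p => F ((homeomorphUnitSphereProd E2).symm p) with hG
  have hGc : (G ∘ (homeomorphUnitSphereProd E2)) = fun x : ({(0 : E2)}ᶜ : Set E2) => F x := by
    funext x
    simp only [hG, Function.comp_apply, Homeomorph.symm_apply_apply]
  have h1 : ∫ x, F x = ∫ x : ({(0 : E2)}ᶜ : Set E2), F x.1 ∂((volume : Measure E2).comap (↑)) := by
    rw [integral_subtype_comap (measurableSet_singleton _).compl fun x => F x,
      restrict_compl_singleton]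
  have h2 : ∫ x : ({(0 : E2)}ᶜ : Set E2), F x.1 ∂((volume : Measure E2).comap (↑)) =
      ∫ p, G p ∂((volume : Measure E2).toSphere.prod (Measure.volumeIoiPow (2 - 1))) := by
    rw [← hmp.integral_comp hemb G]
    rw [← hGc]
    rfl
  have h3 : Integrable G ((volume : Measure E2).toSphere.prod (Measure.volumeIoiPow (2 - 1))) := by
    rw [← hmp.integrable_comp_emb hemb, hGc]
    have h4 : IntegrableOn F ({(0 : E2)}ᶜ : Set E2) := hF.integrableOn
    rw [integrableOn_iff_comap_subtypeVal (by measurability)] at h4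
    exact h4
  rw [h1, h2, integral_prod _ h3]
  have h5 : ∀ n : sphere (0 : E2) 1, ∫ r : Ioi (0 : ℝ), G (n, r) ∂Measure.volumeIoiPow (2 - 1) = 0 := by
    intro n
    have h6 : ∀ r : Ioi (0 : ℝ), G (n, r) = F (r.1 • n.1) := by
      intro r
      simp [hG]
    simp only [h6, Measure.volumeIoiPow, ENNReal.ofReal]
    rw [integral_withDensity_eq_integral_smul,
      integral_subtype_comap measurableSet_Ioi
        fun r : ℝ => Real.toNNReal (r ^ (2 - 1)) • F (r • n.1),
      setIntegral_congr_fun measurableSet_Ioi (g := fun r : ℝ => r * F (r • n.1)) fun x hx => ?_]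
    · exact h n.1 (by simp)
    · simp only [NNReal.smul_def, smul_eq_mul]
      rw [Real.coe_toNNReal _ (pow_nonneg (mem_Ioi.1 hx).le _)]
      norm_num
    · exact (measurable_subtype_coe.pow_const _).real_toNNReal
  simp [h5]

/-- The radial integration by parts. -/
private lemma radial_parts {ρ a : ℝ} (hρ : 0 < ρ) (g g' : ℝ → ℝ)
    (hg : ∀ r, HasDerivAt g (g' r) r) (hg' : Continuous g') :
    ∫ r in Ioc (0 : ℝ) ρ, (a * (√(r / ρ) * (1 - r / ρ) * (3 / 2 - 7 / 2 * (r / ρ))) * g r +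
      r * (a * (√(r / ρ) * (1 - r / ρ) ^ 2)) * g' r) = 0 := by
  have hgc : Continuous g := continuous_iff_continuousAt.2 fun r => (hg r).continuousAt
  rw [← intervalIntegral.integral_of_le hρ.le]
  have h1 : ∀ r ∈ Ioo 0 ρ, HasDerivAt (fun r => (r * (a * (√(r / ρ) * (1 - r / ρ) ^ 2))) * g r)
      (a * (√(r / ρ) * (1 - r / ρ) * (3 / 2 - 7 / 2 * (r / ρ))) * g r +
      r * (a * (√(r / ρ) * (1 - r / ρ) ^ 2)) * g' r) r := by
    intro r hr
    have ht : 0 < r / ρ := by have := hr.1; positivity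
    have h2 : HasDerivAt (fun r : ℝ => r / ρ) (1 / ρ) r := (hasDerivAt_id r).div_const ρ
    have h3 := h2.sqrt ht.ne'
    have h4 := (h2.const_sub 1).pow 2
    have h5 := (hasDerivAt_id r).mul ((h3.mul h4).const_mul a)
    have h6 := h5.mul (hg r)
    refine h6.congr_deriv ?_
    simp only [id]
    have hs : 0 < √(r / ρ) := Real.sqrt_pos.2 ht
    have hs2 : √(r / ρ) * √(r / ρ) = r / ρ := Real.mul_self_sqrt ht.le
    congr 1
    congr 1
    have h7 : r * (1 / ρ / (2 * √(r / ρ))) = √(r / ρ) / 2 := by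
      have : r * (1 / ρ / (2 * √(r / ρ))) = (r / ρ) / (2 * √(r / ρ)) := by ring
      rw [this, div_eq_div_iff (by positivity) (by norm_num)]
      nth_rw 1 [← hs2]
      ring
    have h8 : r * (1 / ρ) = r / ρ := by ring
    push_cast
    simp only [Pi.mul_apply, Pi.pow_apply]
    have h9 : 1 * (a * (√(r / ρ) * (1 - r / ρ) ^ 2)) +
        r * (a * (1 / ρ / (2 * √(r / ρ)) * (1 - r / ρ) ^ 2 +
          √(r / ρ) * (2 * (1 - r / ρ) ^ 1 * -(1 / ρ)))) =
        a * (√(r / ρ) * (1 - r / ρ) ^ 2) + a * ((r * (1 / ρ / (2 * √(r / ρ)))) * (1 - r / ρ) ^ 2 -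
          √(r / ρ) * 2 * (1 - r / ρ) * (r * (1 / ρ))) := by ring
    rw [h9, h7, h8]
    ring
  rw [intervalIntegral.integral_eq_sub_of_hasDerivAt_of_le hρ.le ?_ h1 ?_]
  · have : ρ / ρ = 1 := div_self hρ.ne'
    simp [this]
  · fun_prop
  · apply Continuous.intervalIntegrable
    fun_prop

theorem lap_formula (c : E2) {ρ a : ℝ} (hρ : 0 < ρ) (ha : 0 < a) (arms : Finset E2) (u : E2 → ℝ)
    (hu : C1c univ u) : ∫ x, lap c ρ a x * u x = (needle c ρ a arms).D u := by
  have hw : ContDiff ℝ 1 (needle c ρ a arms).w :=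
    (needle_reg c (∅ : Finset E2) hρ (a := a) (by simp)).smooth
  have hcw : Continuous fun x => gradient (needle c ρ a arms).w x := by
    have h1 := hw.continuous_fderiv (by norm_num)
    exact (InnerProductSpace.toDual ℝ E2).symm.continuous.comp h1
  have hcu : Continuous fun x => gradient u x := by
    have h1 := hu.1.continuous_fderiv (by norm_num)
    exact (InnerProductSpace.toDual ℝ E2).symm.continuous.comp h1
  have hi1 : Integrable (fun x => lap c ρ a x * u x) := by
    obtain ⟨C, hC⟩ := hu.2.1.exists_bound_of_continuous hu.1.continuous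
    exact (lap_integrable c ha).mul_bdd hu.1.continuous.aestronglyMeasurable
      (Filter.Eventually.of_forall hC)
  have hi2 : Integrable (fun x => ⟪gradient (needle c ρ a arms).w x, gradient u x⟫_ℝ) := by
    apply Continuous.integrable_of_hasCompactSupport (by fun_prop)
    have h2 : HasCompactSupport (fderiv ℝ u) := hu.2.1.fderiv (𝕜 := ℝ)
    refine h2.mono ?_
    intro x hx
    simp only [Function.mem_support] at hx ⊢
    intro h3
    apply hx
    simp [gradient, h3]
  have hF : Integrable (fun x => lap c ρ a x * u x -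
      ⟪gradient (needle c ρ a arms).w x, gradient u x⟫_ℝ) := hi1.sub hi2
  have key : ∫ x, (lap c ρ a x * u x - ⟪gradient (needle c ρ a arms).w x, gradient u x⟫_ℝ) = 0 := by
    rw [← integral_add_right_eq_self (fun x => lap c ρ a x * u x -
      ⟪gradient (needle c ρ a arms).w x, gradient u x⟫_ℝ) c]
    refine polar_zero _ (hF.comp_add_right c) ?_
    intro n hn
    have hval : ∀ r : ℝ, 0 < r → r * (lap c ρ a (r • n + c) * u (r • n + c) -
        ⟪gradient (needle c ρ a arms).w (r • n + c), gradient u (r • n + c)⟫_ℝ) =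
        (Ioc 0 ρ).indicator (fun r => (a * (√(r / ρ) * (1 - r / ρ) * (3 / 2 - 7 / 2 * (r / ρ))) * u (r • n + c) +
      r * (a * (√(r / ρ) * (1 - r / ρ) ^ 2)) * fderiv ℝ u (r • n + c) n)) r := by
      intro r hr
      have h1 : lap c ρ a (r • n + c) = lr ρ a r := by
        rw [lap_eq]
        simp [norm_smul, hn, abs_of_pos hr]
      have hd : dist (r • n + c) c = r := by
        simp [dist_eq_norm, norm_smul, hn, abs_of_pos hr]
      have hne : r • n + c ≠ c := by
        intro h
        rw [h, dist_self] at hd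
        exact hr.ne hd
      have h2 : ⟪gradient (needle c ρ a arms).w (r • n + c), gradient u (r • n + c)⟫_ℝ =
          -(a * pr (r / ρ)) * fderiv ℝ u (r • n + c) n := by
        rw [gradient, InnerProductSpace.toDual_symm_apply, needle_fderiv c arms hρ hne, hd]
        rw [add_sub_cancel_right, real_inner_comm, gradient,
          InnerProductSpace.toDual_symm_apply, map_smul, smul_eq_mul]
        field_simp
      rw [h1, h2]
      by_cases hrρ : r < ρ
      · rw [indicator_of_mem (by exact ⟨hr, hrρ.le⟩)]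
        have h3 : pr (r / ρ) = √(r / ρ) * (1 - r / ρ) ^ 2 := by
          rw [pr, if_pos]
          rw [div_le_one hρ]
          exact hrρ.le
        rw [h3, mul_sub, ← mul_assoc, mul_lr hr hrρ]
        ring
      · have h3 : pr (r / ρ) = 0 := by
          unfold pr
          split_ifs with h
          · have : r / ρ = 1 := by
              apply le_antisymm h
              rw [one_le_div hρ]
              exact not_lt.1 hrρ
            simp [this]
          · rfl
        rw [h3, lr_zero (fun h => hrρ h.2)]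
        by_cases hr1 : r = ρ
        · rw [indicator_of_mem (by exact ⟨hr, hr1.le⟩), hr1, div_self hρ.ne']
          simp
        · rw [indicator_of_notMem]
          · simp
          · intro h
            exact hr1 (le_antisymm h.2 (not_lt.1 hrρ))
    rw [setIntegral_congr_fun measurableSet_Ioi (fun r hr => hval r (mem_Ioi.1 hr)),
      setIntegral_indicator measurableSet_Ioc]
    have h4 : Ioi (0 : ℝ) ∩ Ioc 0 ρ = Ioc 0 ρ := by
      ext y; simp only [mem_inter_iff, mem_Ioi, mem_Ioc]; tauto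
    rw [h4]
    refine radial_parts hρ (fun r => u (r • n + c)) (fun r => fderiv ℝ u (r • n + c) n) ?_ ?_
    · intro r
      have h5 : HasFDerivAt u (fderiv ℝ u (r • n + c)) (r • n + c) :=
        ((hu.1.differentiable (by norm_num)) _).hasFDerivAt
      have h6 : HasDerivAt (fun r : ℝ => r • n + c) n r := by
        simpa using ((hasDerivAt_id r).smul_const n).add_const c
      exact h5.comp_hasDerivAt r h6
    · have h7 := hu.1.continuous_fderiv (by norm_num)
      have h8 : Continuous fun r : ℝ => fderiv ℝ u (r • n + c) := h7.comp (by fun_prop)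
      exact h8.clm_apply continuous_const
  rw [integral_sub hi1 hi2, sub_eq_zero] at key
  rw [key]
  rfl

/-- In every open set meeting the ball there is a ball on which `lap` has a constant sign. -/
theorem lap_ne (c : E2) {ρ a : ℝ} (hρ : 0 < ρ) (ha : 0 < a) (U : Set E2) (hU : IsOpen U)
    (hne : (U ∩ ball c ρ).Nonempty) : ∃ (z : E2) (r : ℝ), 0 < r ∧ ball z r ⊆ U ∩ ball c ρ ∧
      ((∀ x ∈ ball z r, 0 < lap c ρ a x) ∨ (∀ x ∈ ball z r, lap c ρ a x < 0)) := by
  have hV : IsOpen (U ∩ ball c ρ) := hU.inter isOpen_ball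
  -- a good point
  obtain ⟨z, hz, hz0, hz1⟩ : ∃ z ∈ U ∩ ball c ρ, z ≠ c ∧ dist z c ≠ 3 * ρ / 7 := by
    by_contra hcon
    push Not at hcon
    have h1 : U ∩ ball c ρ ⊆ {c} ∪ sphere c (3 * ρ / 7) := by
      intro z hz
      by_cases h : z = c
      · exact Or.inl h
      · exact Or.inr (hcon z hz h)
    have h2 : volume (U ∩ ball c ρ) = 0 := by
      refine measure_mono_null h1 ?_
      rw [measure_union_null_iff]
      exact ⟨measure_singleton _, Measure.addHaar_sphere _ _ _⟩
    exact (hV.measure_pos volume hne).ne' h2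
  have hd0 : 0 < dist z c := dist_pos.2 hz0
  -- the formula near `z`
  set f : E2 → ℝ := fun x => (a / ρ) * (3 / 2 - 7 / 2 * (dist x c / ρ)) * (1 - dist x c / ρ) / √(dist x c / ρ)
    with hf
  have hfc : ContinuousAt f z := by
    have h1 : √(dist z c / ρ) ≠ 0 := (Real.sqrt_pos.2 (by positivity)).ne'
    have h2 : Continuous fun x : E2 => (a / ρ) * (3 / 2 - 7 / 2 * (dist x c / ρ)) * (1 - dist x c / ρ) := by
      fun_prop
    have h3 : Continuous fun x : E2 => √(dist x c / ρ) := by fun_prop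
    exact h2.continuousAt.div h3.continuousAt h1
  have hlf : ∀ x, x ≠ c → dist x c < ρ → lap c ρ a x = f x := by
    intro x h1 h2
    unfold lap
    rw [if_pos ⟨dist_pos.2 h1, h2⟩]
  have hfz : f z ≠ 0 := by
    simp only [hf]
    have h1 : dist z c / ρ < 1 := by rw [div_lt_one hρ]; exact hz.2
    have h2 : (3 / 2 - 7 / 2 * (dist z c / ρ)) ≠ 0 := by
      intro h
      apply hz1
      field_simp at h
      linarith
    have h3 : 1 - dist z c / ρ ≠ 0 := by linarith
    have h4 : √(dist z c / ρ) ≠ 0 := (Real.sqrt_pos.2 (by positivity)).ne'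
    have h5 : a / ρ ≠ 0 := by positivity
    exact div_ne_zero (mul_ne_zero (mul_ne_zero h5 h2) h3) h4
  have hW : ∀ᶠ x in nhds z, x ∈ U ∩ ball c ρ ∧ x ≠ c :=
    Filter.Eventually.and (hV.mem_nhds hz) (isOpen_ne.mem_nhds hz0)
  rcases lt_or_gt_of_ne hfz with h | h
  · have h1 : ∀ᶠ x in nhds z, f x < 0 := hfc.eventually_lt continuousAt_const h
    obtain ⟨r, hr, hb⟩ := Metric.eventually_nhds_iff_ball.1 (hW.and h1)
    refine ⟨z, r, hr, fun x hx => (hb x hx).1.1, Or.inr fun x hx => ?_⟩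
    rw [hlf x (hb x hx).1.2 (hb x hx).1.1.2]
    exact (hb x hx).2
  · have h1 : ∀ᶠ x in nhds z, 0 < f x := continuousAt_const.eventually_lt hfc h
    obtain ⟨r, hr, hb⟩ := Metric.eventually_nhds_iff_ball.1 (hW.and h1)
    refine ⟨z, r, hr, fun x hx => (hb x hx).1.1, Or.inl fun x hx => ?_⟩
    rw [hlf x (hb x hx).1.2 (hb x hx).1.1.2]
    exact (hb x hx).2

end Pool.Agent.Lib.P8e
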