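import Pool.Agent.Lib.P8e.Rep1
import Pool.Agent.Lib.P8e.Rep2

set_option autoImplicit false

/-!
# The needle: the measures
-/

open MeasureTheory Set Metric
open scoped ENNReal NNReal InnerProductSpace

namespace Pool.Agent.Lib.P8e

section general

variable {X : Type*} [MeasurableSpace X]

/-- The measure with density the positive part of `g`. -/
private noncomputable def pos (μ : Measure X) (g : X → ℝ) : Measure X :=
  μ.withDensity fun x => ENNReal.ofReal (g x)

private lemma pos_finite (μ : Measure X) {g : X → ℝ} (h : ∫⁻ x, ENNReal.ofReal |g x| ∂μ < ∞) :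
    IsFiniteMeasure (pos μ g) := by
  refine isFiniteMeasure_withDensity ((lintegral_mono fun x => ?_).trans_lt h).ne
  exact ENNReal.ofReal_le_ofReal (le_abs_self _)

private lemma pos_add_univ (μ : Measure X) {g : X → ℝ} (hg : Measurable g) :
    pos μ g univ + pos μ (fun x => -g x) univ = ∫⁻ x, ENNReal.ofReal |g x| ∂μ := by
  unfold pos
  rw [withDensity_apply _ MeasurableSet.univ, withDensity_apply _ MeasurableSet.univ,
    Measure.restrict_univ, ← lintegral_add_left hg.ennreal_ofReal]
  refine lintegral_congr fun x => ?_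
  rcases le_total 0 (g x) with h | h
  · rw [abs_of_nonneg h, ENNReal.ofReal_of_nonpos (by linarith : -g x ≤ 0), add_zero]
  · rw [abs_of_nonpos h, ENNReal.ofReal_of_nonpos h, zero_add]

private lemma pos_integrable (μ : Measure X) {g : X → ℝ} (h : ∫⁻ x, ENNReal.ofReal |g x| ∂μ < ∞)
    {u : X → ℝ} (hu : Measurable u) {C : ℝ} (hC : ∀ x, |u x| ≤ C) : Integrable u (pos μ g) := by
  have := pos_finite μ h
  exact Integrable.of_bound hu.aestronglyMeasurable C (Filter.Eventually.of_forall hC)

private lemma pos_integral (μ : Measure X) {g : X → ℝ} (hg : Measurable g)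
    (h : ∫⁻ x, ENNReal.ofReal |g x| ∂μ < ∞) {u : X → ℝ} (hu : Measurable u) {C : ℝ}
    (hC : ∀ x, |u x| ≤ C) :
    ∫ x, u x ∂(pos μ g) - ∫ x, u x ∂(pos μ (fun x => -g x)) = ∫ x, g x * u x ∂μ := by
  have hgi : Integrable g μ := by
    refine ⟨hg.aestronglyMeasurable, ?_⟩
    refine lt_of_le_of_lt (lintegral_mono fun x => ?_) h
    rw [← ofReal_norm, Real.norm_eq_abs]
  have key : ∀ f : X → ℝ, Measurable f → ∫ x, u x ∂(pos μ f) = ∫ x, max (f x) 0 * u x ∂μ := by
    intro f hf
    have := integral_withDensity_eq_integral_smul (μ := μ) (f := fun x => Real.toNNReal (f x))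
      hf.real_toNNReal u
    unfold pos
    change ∫ x, u x ∂(μ.withDensity fun x => ((Real.toNNReal (f x) : ℝ≥0) : ℝ≥0∞)) = _
    rw [this]
    refine integral_congr_ae (Filter.Eventually.of_forall fun x => ?_)
    change ((Real.toNNReal (f x) : ℝ≥0) : ℝ) * u x = _
    rw [Real.coe_toNNReal']
  rw [key g hg, key (fun x => -g x) hg.neg]
  have hint : ∀ f : X → ℝ, Measurable f → Integrable f μ →
      Integrable (fun x => max (f x) 0 * u x) μ := by
    intro f hf hfi
    refine Integrable.mul_bdd (c := C) ?_ hu.aestronglyMeasurable (Filter.Eventually.of_forall hC)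
    exact hfi.pos_part
  rw [← integral_sub (hint g hg hgi) (hint (fun x => -g x) hg.neg hgi.neg)]
  refine integral_congr_ae (Filter.Eventually.of_forall fun x => ?_)
  simp only
  rcases le_total 0 (g x) with h | h
  · rw [max_eq_left h, max_eq_right (by linarith : -g x ≤ 0)]; ring
  · rw [max_eq_right h, max_eq_left (by linarith : 0 ≤ -g x)]; ring

end general

/-- The arm map. -/
private def arm (c ν : E2) (r : ℝ) : E2 := c + r • ν

private lemma arm_cont (c ν : E2) : Continuous (arm c ν) := by
  unfold arm; fun_prop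

/-- The measure on an arm. -/
private noncomputable def Am (c ν : E2) (g : ℝ → ℝ) : Measure E2 :=
  Measure.map (arm c ν) (pos volume g)

private lemma Am_univ (c ν : E2) (g : ℝ → ℝ) : Am c ν g univ = pos volume g univ := by
  unfold Am
  rw [Measure.map_apply (arm_cont c ν).measurable MeasurableSet.univ, preimage_univ]

private lemma line_null (c ν : E2) : (volume : Measure E2) (range (arm c ν)) = 0 := by
  have h1 : range (arm c ν) ⊆ (AffineSubspace.mk' c (Submodule.span ℝ {ν}) : Set E2) := by
    rintro _ ⟨r, rfl⟩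
    change arm c ν r ∈ AffineSubspace.mk' c (Submodule.span ℝ {ν})
    rw [AffineSubspace.mem_mk']
    unfold arm
    rw [vsub_eq_sub, add_sub_cancel_left]
    exact Submodule.smul_mem _ _ (Submodule.mem_span_singleton_self ν)
  refine measure_mono_null h1 (Measure.addHaar_affineSubspace volume _ ?_)
  intro h
  have h2 : (AffineSubspace.mk' c (Submodule.span ℝ {ν})).direction = ⊤ := by
    rw [h, AffineSubspace.direction_top]
  rw [AffineSubspace.direction_mk'] at h2
  have h3 : Module.finrank ℝ (Submodule.span ℝ ({ν} : Set E2)) ≤ 1 := by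
    have := finrank_span_le_card (R := ℝ) ({ν} : Set E2)
    simpa using this
  rw [h2, finrank_top] at h3
  simp at h3

theorem needle_rep (c : E2) {ρ a m : ℝ} (hρ : 0 < ρ) (hρ1 : ρ ≤ 1) (ha : 0 < a) (hm : 0 < m)
    (arms : Finset E2) (hc : arms.card ≤ 2) (hν : ∀ ν ∈ arms, ‖ν‖ = 1) :
    ∃ p q : Measure E2, (needle c ρ a arms).Rep m p q ((20 + 8 * m) * a) := by
  set g : E2 → ℝ := lap c ρ a with hg
  set l : ℝ → ℝ := fun r => m * lin ρ a r with hl
  have hgm : Measurable g := measurable_lap c ρ a
  have hlm : Measurable l := (measurable_lin ρ a).const_mul m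
  have hgfin : ∫⁻ x, ENNReal.ofReal |g x| < ∞ :=
    lt_of_le_of_lt (lap_int c hρ ha) ENNReal.ofReal_lt_top
  have hlint : ∫⁻ r, ENNReal.ofReal |l r| ≤ ENNReal.ofReal (4 * m * a) := by
    have h1 : ∀ r, ENNReal.ofReal |l r| = ENNReal.ofReal m * ENNReal.ofReal |lin ρ a r| := by
      intro r
      rw [← ENNReal.ofReal_mul hm.le]
      congr 1
      rw [hl]
      simp only
      rw [abs_mul, abs_of_pos hm]
    simp only [h1]
    rw [lintegral_const_mul _ (measurable_lin ρ a).abs.ennreal_ofReal]
    calc ENNReal.ofReal m * ∫⁻ r, ENNReal.ofReal |lin ρ a r|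
        ≤ ENNReal.ofReal m * ENNReal.ofReal (4 * a) := by gcongr; exact lin_int hρ ha
      _ = ENNReal.ofReal (4 * m * a) := by
          rw [← ENNReal.ofReal_mul hm.le]; congr 1; ring
  have hlfin : ∫⁻ r, ENNReal.ofReal |l r| < ∞ := lt_of_le_of_lt hlint ENNReal.ofReal_lt_top
  set p : Measure E2 := pos volume g + ∑ ν ∈ arms, Am c ν l with hp
  set q : Measure E2 := pos volume (fun x => -g x) + ∑ ν ∈ arms, Am c ν (fun r => -l r) with hq
  have hb : (needle c ρ a arms).c = c := rfl
  have hbρ : (needle c ρ a arms).ρ = ρ := rfl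
  -- supports
  have hsup1 : ∀ f : E2 → ℝ, (∀ x, ρ < dist x c → f x = 0) → pos volume f (closedBall c ρ)ᶜ = 0 := by
    intro f hf
    unfold pos
    rw [withDensity_apply _ measurableSet_closedBall.compl]
    refine (setLIntegral_congr_fun measurableSet_closedBall.compl (g := fun _ => 0) ?_).trans (by simp)
    intro x hx
    rw [mem_compl_iff, mem_closedBall, not_le] at hx
    simp only
    rw [hf x hx, ENNReal.ofReal_zero]
  have hsup2 : ∀ ν ∈ arms, ∀ f : ℝ → ℝ, (∀ r, ¬ (0 < r ∧ r < ρ) → f r = 0) →
      Am c ν f (closedBall c ρ)ᶜ = 0 := by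
    intro ν hν' f hf
    unfold Am
    have hmeas : MeasurableSet (arm c ν ⁻¹' (closedBall c ρ)ᶜ) :=
      (arm_cont c ν).measurable measurableSet_closedBall.compl
    rw [Measure.map_apply (arm_cont c ν).measurable measurableSet_closedBall.compl]
    unfold pos
    rw [withDensity_apply _ hmeas]
    refine (setLIntegral_congr_fun hmeas (g := fun _ => 0) ?_).trans (by simp)
    intro r hr
    simp only
    rw [hf r ?_, ENNReal.ofReal_zero]
    rintro ⟨h1, h2⟩
    apply hr
    rw [mem_closedBall, arm, dist_eq_norm, add_sub_cancel_left, norm_smul, hν ν hν', mul_one,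
      Real.norm_of_nonneg h1.le]
    exact h2.le
  have hg0 : ∀ x, ρ < dist x c → g x = 0 := by
    intro x hx
    rw [hg, lap, if_neg (fun h => absurd h.2 (not_lt.2 hx.le))]
  have hl0 : ∀ r, ¬ (0 < r ∧ r < ρ) → l r = 0 := by
    intro r hr
    rw [hl]
    simp only
    rw [lin, if_neg hr, mul_zero]
  refine ⟨p, q, ?_, ?_, ?_, ?_, ?_⟩
  · -- mass
    have h1 : p univ + q univ = (pos volume g univ + pos volume (fun x => -g x) univ) +
        ∑ ν ∈ arms, (Am c ν l univ + Am c ν (fun r => -l r) univ) := by
      rw [hp, hq, Measure.add_apply, Measure.add_apply, Measure.finsetSum_apply,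
        Measure.finsetSum_apply, Finset.sum_add_distrib]
      ring
    have h2 : ∀ ν ∈ arms, Am c ν l univ + Am c ν (fun r => -l r) univ ≤
        ENNReal.ofReal (4 * m * a) := by
      intro ν _
      rw [Am_univ, Am_univ, pos_add_univ volume hlm]
      exact hlint
    rw [h1, pos_add_univ volume hgm]
    have h3 : ∫⁻ x, ENNReal.ofReal |g x| ≤ ENNReal.ofReal (20 * a) := by
      refine (lap_int c hρ ha).trans (ENNReal.ofReal_le_ofReal ?_)
      nlinarith
    have h4 : ∑ ν ∈ arms, (Am c ν l univ + Am c ν (fun r => -l r) univ) ≤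
        ENNReal.ofReal (8 * m * a) := by
      calc ∑ ν ∈ arms, (Am c ν l univ + Am c ν (fun r => -l r) univ)
          ≤ ∑ ν ∈ arms, ENNReal.ofReal (4 * m * a) := Finset.sum_le_sum h2
        _ = ENNReal.ofReal (arms.card * (4 * m * a)) := by
            rw [Finset.sum_const, nsmul_eq_mul, ENNReal.ofReal_mul (Nat.cast_nonneg _),
              ENNReal.ofReal_natCast]
        _ ≤ ENNReal.ofReal (8 * m * a) := by
            apply ENNReal.ofReal_le_ofReal
            have : (arms.card : ℝ) ≤ 2 := by exact_mod_cast hc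
            have h5 : 0 ≤ 4 * m * a := by positivity
            nlinarith
    calc (∫⁻ x, ENNReal.ofReal |g x|) + ∑ ν ∈ arms, (Am c ν l univ + Am c ν (fun r => -l r) univ)
        ≤ ENNReal.ofReal (20 * a) + ENNReal.ofReal (8 * m * a) := add_le_add h3 h4
      _ = ENNReal.ofReal ((20 + 8 * m) * a) := by
          rw [← ENNReal.ofReal_add (by positivity) (by positivity)]; congr 1; ring
  · rw [hb, hbρ, hp, Measure.add_apply, Measure.finsetSum_apply, hsup1 g hg0,
      Finset.sum_eq_zero (fun ν h => hsup2 ν h l hl0), add_zero]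
  · rw [hb, hbρ, hq, Measure.add_apply, Measure.finsetSum_apply,
      hsup1 _ (fun x hx => by rw [hg0 x hx, neg_zero]),
      Finset.sum_eq_zero (fun ν h => hsup2 ν h _ (fun r hr => by rw [hl0 r hr, neg_zero])), add_zero]
  · -- formula
    intro u hu
    have huc : Continuous u := hu.1.continuous
    obtain ⟨C, hC⟩ := hu.2.1.exists_bound_of_continuous huc
    have hC' : ∀ x, |u x| ≤ C := hC
    have hneg : ∫⁻ x, ENNReal.ofReal |(-g x)| < ∞ := by simpa only [abs_neg] using hgfin
    have hneg' : ∫⁻ r, ENNReal.ofReal |(-l r)| < ∞ := by simpa only [abs_neg] using hlfin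
    have hAint : ∀ (ν : E2) (f : ℝ → ℝ), ∫⁻ r, ENNReal.ofReal |f r| < ∞ → Integrable u (Am c ν f) := by
      intro ν f hf
      unfold Am
      rw [integrable_map_measure huc.aestronglyMeasurable (arm_cont c ν).aemeasurable]
      exact pos_integrable volume hf (huc.comp (arm_cont c ν)).measurable (fun r => hC' _)
    have hAi : ∀ (ν : E2) (f : ℝ → ℝ), ∫ x, u x ∂(Am c ν f) = ∫ r, u (arm c ν r) ∂(pos volume f) := by
      intro ν f
      unfold Am
      rw [integral_map (arm_cont c ν).aemeasurable huc.aestronglyMeasurable]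
    have e1 : ∫ x, u x ∂p = ∫ x, u x ∂(pos volume g) + ∑ ν ∈ arms, ∫ x, u x ∂(Am c ν l) := by
      rw [hp, integral_add_measure (pos_integrable volume hgfin huc.measurable hC')
        (integrable_finsetSum_measure.2 (fun ν _ => hAint ν l hlfin)),
        integral_finsetSum_measure (fun ν _ => hAint ν l hlfin)]
    have e2 : ∫ x, u x ∂q = ∫ x, u x ∂(pos volume (fun x => -g x)) +
        ∑ ν ∈ arms, ∫ x, u x ∂(Am c ν (fun r => -l r)) := by
      rw [hq, integral_add_measure (pos_integrable volume hneg huc.measurable hC')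
        (integrable_finsetSum_measure.2 (fun ν _ => hAint ν _ hneg')),
        integral_finsetSum_measure (fun ν _ => hAint ν _ hneg')]
    have e3 := pos_integral volume hgm hgfin huc.measurable hC'
    have e4 : ∀ ν ∈ arms, ∫ x, u x ∂(Am c ν l) - ∫ x, u x ∂(Am c ν (fun r => -l r)) =
        m * ∫ r, lin ρ a r * u (c + r • ν) := by
      intro ν _
      have h9 := pos_integral volume hlm hlfin (u := fun r => u (arm c ν r))
        (huc.comp (arm_cont c ν)).measurable (fun r => hC' _)
      rw [hAi, hAi, h9, ← integral_const_mul]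
      refine integral_congr_ae (Filter.Eventually.of_forall fun r => ?_)
      simp only [hl, arm]
      ring
    rw [e1, e2, ← lap_formula c hρ ha arms u hu, ← lin_formula c hρ ha arms hν u hu, Finset.mul_sum,
      ← Finset.sum_congr rfl e4, Finset.sum_sub_distrib, ← e3]
    ring
  · -- full support
    intro U hU hne
    rw [hb, hbρ] at hne
    obtain ⟨z, r, hr, hsub, hsign⟩ := lap_ne c hρ ha U hU hne
    set L : Set E2 := ⋃ ν ∈ arms, range (arm c ν) with hL
    have hLnull : (volume : Measure E2) L = 0 := by
      rw [hL]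
      exact (measure_biUnion_null_iff (Finset.countable_toSet arms)).2 (fun ν _ => line_null c ν)
    obtain ⟨L', hLL', hL'm, hL'0⟩ := exists_measurable_superset_of_null hLnull
    have hAm : MeasurableSet (ball z r \ L') := measurableSet_ball.diff hL'm
    refine ⟨ball z r \ L', ?_, hAm, ?_⟩
    · exact sdiff_subset.trans hsub
    have harm : ∀ ν ∈ arms, ∀ f : ℝ → ℝ, Am c ν f (ball z r \ L') = 0 := by
      intro ν hν' f
      unfold Am
      rw [Measure.map_apply (arm_cont c ν).measurable hAm]
      have : arm c ν ⁻¹' (ball z r \ L') = ∅ := by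
        rw [eq_empty_iff_forall_notMem]
        intro s hs
        apply hs.2
        apply hLL'
        rw [hL]
        exact mem_biUnion hν' ⟨s, rfl⟩
      rw [this, measure_empty]
    have hpA : p (ball z r \ L') = pos volume g (ball z r \ L') := by
      rw [hp, Measure.add_apply, Measure.finsetSum_apply,
        Finset.sum_eq_zero (fun ν h => harm ν h l), add_zero]
    have hqA : q (ball z r \ L') = pos volume (fun x => -g x) (ball z r \ L') := by
      rw [hq, Measure.add_apply, Measure.finsetSum_apply,
        Finset.sum_eq_zero (fun ν h => harm ν h _), add_zero]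
    have hvol : 0 < (volume : Measure E2) (ball z r \ L') := by
      rw [measure_sdiff_null hL'0]
      exact measure_ball_pos volume z hr
    have hpos : ∀ f : E2 → ℝ, Measurable f → (∀ x ∈ ball z r, 0 < f x) →
        0 < pos volume f (ball z r \ L') := by
      intro f hf hf0
      unfold pos
      rw [withDensity_apply _ hAm, setLIntegral_pos_iff hf.ennreal_ofReal]
      refine lt_of_lt_of_le hvol (measure_mono ?_)
      intro x hx
      refine ⟨?_, hx⟩
      rw [Function.mem_support]
      exact (ENNReal.ofReal_pos.2 (hf0 x hx.1)).ne'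
    have hzero : ∀ f : E2 → ℝ, (∀ x ∈ ball z r, f x < 0) →
        pos volume f (ball z r \ L') = 0 := by
      intro f hf0
      unfold pos
      rw [withDensity_apply _ hAm]
      refine (setLIntegral_congr_fun hAm (g := fun _ => 0) ?_).trans (by simp)
      intro x hx
      simp only
      rw [ENNReal.ofReal_of_nonpos (hf0 x hx.1).le]
    rw [hpA, hqA]
    rcases hsign with h | h
    · have h1 := hpos g hgm h
      have h2 := hzero (fun x => -g x) (fun x hx => by have := h x hx; linarith)
      rw [h2]
      exact h1.ne'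
    · have h1 := hpos (fun x => -g x) hgm.neg (fun x hx => by have := h x hx; linarith)
      have h2 := hzero g h
      rw [h2]
      exact h1.ne

end Pool.Agent.Lib.P8e
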