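import Pool.Agent.Lib.P8e.Prof

set_option autoImplicit false

/-!
# The trace inequality: the line charges have finite energy

PROOF SKETCH. For a unit vector `ν` let `ν_θ` be the rotation of `ν` by `θ`, `U(r, θ) = u(c + r ν_θ)`, `H r = -a pr(r/ρ)`, `H' = -lin ρ a`, `H(0) = H(ρ) = 0`.
`I(θ) = ∫_0^ρ H(r) ∂_r U(r, θ) dr = ∫_0^ρ lin(r) U(r, θ) dr`. `|U(r,0) - U(r,θ)| ≤ ∫_0^θ |∂_θ U(r,φ)| dφ ≤ ∫_0^1 r |∇u|(c + r ν_φ) dφ` for `0 ≤ θ ≤ 1`, so
`|I(0)| ≤ |I(θ)| + ∫_0^1 ∫_0^ρ |lin r| r |∇u| dr dφ`, and averaging over `θ ∈ [0, 1]`: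
`|I(0)| ≤ ∫_0^1 ∫_0^ρ (|H(r)| + r |lin r|) |∇u|(c + r ν_θ) dr dθ ≤ (∫_0^1 ∫_0^ρ (|H| + r |lin|)^2 / r)^(1/2) (∫_0^1 ∫_0^ρ |∇u|^2 r dr dθ)^(1/2)`. The first factor is `≤ K a`
(`|H| ≤ a √(r/ρ)`, `r |lin r| ≤ 2 a √(r/ρ)`, so the integrand is `≤ 9 a^2/ρ`), the second is `≤ √(Dir u)` (polar coordinates,
`integral_comp_polarCoord_symm`, sector of angle `1 < 2 π`).
`T u` is the sum of at most two such `I(0)`.

IMPLEMENTATION. Instead of rotations we use the lines `y = s x`, `0 ≤ s ≤ 1`, in coordinates with `ν` on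
the `x`-axis, and the substitution `x = ρ t^2`, so that all the functions are polynomials in `t`.
-/

open MeasureTheory Set Metric
open scoped ENNReal NNReal InnerProductSpace

namespace Pool.Agent.Lib.P8e

namespace Trace

noncomputable def e0 : E2 := !₂[1, 0]

noncomputable def e1 : E2 := !₂[0, 1]

lemma norm_e0 : ‖e0‖ = 1 := by simp [e0, EuclideanSpace.norm_eq]

lemma norm_e1 : ‖e1‖ = 1 := by simp [e1, EuclideanSpace.norm_eq]

/-- The chart. -/
noncomputable def P (p : ℝ × ℝ) : E2 := p.1 • e0 + p.2 • e1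

lemma P_eq (p : ℝ × ℝ) : P p = !₂[p.1, p.2] := by
  ext i
  fin_cases i <;> simp [P, e0, e1]

lemma P_cont : Continuous P := by
  unfold P
  fun_prop

lemma P_mp : MeasurePreserving P (volume : Measure (ℝ × ℝ)) (volume : Measure E2) := by
  have h := (PiLp.volume_preserving_toLp (Fin 2)).comp (volume_preserving_finTwoArrow ℝ).symm
  have h2 : (@WithLp.toLp 2 (Fin 2 → ℝ)) ∘ (MeasurableEquiv.finTwoArrow.symm : ℝ × ℝ → Fin 2 → ℝ)
      = P := by
    funext p
    rw [P_eq]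
    rfl
  rw [← h2]
  exact h

lemma P_emb : MeasurableEmbedding P := by
  have h2 : ((MeasurableEquiv.toLp 2 (Fin 2 → ℝ)) : (Fin 2 → ℝ) → E2) ∘
      (MeasurableEquiv.finTwoArrow.symm : ℝ × ℝ → Fin 2 → ℝ) = P := by
    funext p
    rw [P_eq]
    rfl
  rw [← h2]
  exact (MeasurableEquiv.toLp 2 (Fin 2 → ℝ)).measurableEmbedding.comp
    MeasurableEquiv.finTwoArrow.symm.measurableEmbedding

/-- The point. -/
noncomputable def q (ρ s t : ℝ) : E2 := (ρ * t ^ 2) • e0 + (s * (ρ * t ^ 2)) • e1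

lemma q_hasDeriv_t (ρ s t : ℝ) :
    HasDerivAt (fun t => q ρ s t) ((2 * ρ * t) • e0 + (s * (2 * ρ * t)) • e1) t := by
  have h1 : HasDerivAt (fun t : ℝ => ρ * t ^ 2) (2 * ρ * t) t := by
    have h2 := (hasDerivAt_pow 2 t).const_mul ρ
    have h3 : ρ * (((2 : ℕ) : ℝ) * t ^ (2 - 1)) = 2 * ρ * t := by norm_num; ring
    rwa [h3] at h2
  exact (h1.smul_const e0).add ((h1.const_mul s).smul_const e1)

lemma q_hasDeriv_s (ρ s t : ℝ) : HasDerivAt (fun s => q ρ s t) ((ρ * t ^ 2) • e1) s := by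
  have h1 : HasDerivAt (fun s : ℝ => s * (ρ * t ^ 2)) (ρ * t ^ 2) s := by
    simpa using (hasDerivAt_id s).mul_const (ρ * t ^ 2)
  exact (h1.smul_const e1).const_add _

lemma q_cont (ρ : ℝ) : Continuous fun p : ℝ × ℝ => q ρ p.1 p.2 := by
  unfold q
  fun_prop

/-- The size of the gradient. -/
noncomputable def g (v : E2 → ℝ) (ρ s t : ℝ) : ℝ := ‖fderiv ℝ v (q ρ s t)‖

lemma g_nonneg (v : E2 → ℝ) (ρ s t : ℝ) : 0 ≤ g v ρ s t := norm_nonneg _

lemma g_cont {v : E2 → ℝ} (hv : ContDiff ℝ 1 v) (ρ : ℝ) :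
    Continuous fun p : ℝ × ℝ => g v ρ p.1 p.2 :=
  ((hv.continuous_fderiv (by simp)).comp (q_cont ρ)).norm

lemma qt_cont (ρ s : ℝ) : Continuous fun t => q ρ s t := by
  unfold q
  fun_prop

lemma qs_cont (ρ t : ℝ) : Continuous fun s => q ρ s t := by
  unfold q
  fun_prop

lemma g_cont_s {v : E2 → ℝ} (hv : ContDiff ℝ 1 v) (ρ t : ℝ) :
    Continuous fun s : ℝ => g v ρ s t := by
  unfold g
  exact ((hv.continuous_fderiv (by simp)).comp (qs_cont ρ t)).norm

lemma g_cont_t {v : E2 → ℝ} (hv : ContDiff ℝ 1 v) (ρ s : ℝ) :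
    Continuous fun t : ℝ => g v ρ s t := by
  unfold g
  exact ((hv.continuous_fderiv (by simp)).comp (qt_cont ρ s)).norm

lemma g_cont2 {v : E2 → ℝ} (hv : ContDiff ℝ 1 v) (ρ : ℝ) :
    Continuous fun p : ℝ × ℝ => p.2 ^ 2 * g v ρ p.1 p.2 :=
  (continuous_snd.pow 2).mul (g_cont hv ρ)

lemma g_cont2' {v : E2 → ℝ} (hv : ContDiff ℝ 1 v) (ρ : ℝ) :
    Continuous fun p : ℝ × ℝ => p.1 ^ 2 * g v ρ p.2 p.1 :=
  (g_cont2 hv ρ).comp (by fun_prop : Continuous fun p : ℝ × ℝ => (p.2, p.1))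

noncomputable def hh (a t : ℝ) : ℝ := a * (t * (1 - t ^ 2) ^ 2)

noncomputable def hp (a t : ℝ) : ℝ := a * ((1 - t ^ 2) * (1 - 5 * t ^ 2))

lemma hh_hasDeriv (a t : ℝ) : HasDerivAt (hh a) (hp a t) t := by
  have h1 : HasDerivAt (fun t : ℝ => 1 - t ^ 2) (-(2 * t)) t := by
    have h2 := (hasDerivAt_pow 2 t).const_sub 1
    simpa using h2
  have h2 : HasDerivAt (fun t : ℝ => (1 - t ^ 2) ^ 2) (2 * (1 - t ^ 2) * -(2 * t)) t := by
    have h3 := h1.fun_pow 2
    simpa using h3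
  have h3 := ((hasDerivAt_id t).mul h2).const_mul a
  have h4 : a * (1 * (1 - t ^ 2) ^ 2 + id t * (2 * (1 - t ^ 2) * -(2 * t))) = hp a t := by
    simp only [id, hp]
    ring
  rw [h4] at h3
  exact h3

/-- The integral over the line of slope `s`, after integration by parts. -/
noncomputable def J (v : E2 → ℝ) (ρ a s : ℝ) : ℝ := ∫ t in (0 : ℝ)..1, hp a t * v (q ρ s t)

lemma hp_cont (a : ℝ) : Continuous (hp a) := by
  unfold hp
  fun_prop

lemma hh_cont (a : ℝ) : Continuous (hh a) := by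
  unfold hh
  fun_prop

lemma v_hasDeriv_t {v : E2 → ℝ} (hv : ContDiff ℝ 1 v) (ρ s t : ℝ) :
    HasDerivAt (fun t => v (q ρ s t))
      (fderiv ℝ v (q ρ s t) ((2 * ρ * t) • e0 + (s * (2 * ρ * t)) • e1)) t :=
  ((hv.differentiable (by simp)).differentiableAt.hasFDerivAt).comp_hasDerivAt t
    (q_hasDeriv_t ρ s t)

lemma v_hasDeriv_s {v : E2 → ℝ} (hv : ContDiff ℝ 1 v) (ρ s t : ℝ) :
    HasDerivAt (fun s => v (q ρ s t)) (fderiv ℝ v (q ρ s t) ((ρ * t ^ 2) • e1)) s :=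
  ((hv.differentiable (by simp)).differentiableAt.hasFDerivAt).comp_hasDerivAt s
    (q_hasDeriv_s ρ s t)

lemma dt_cont {v : E2 → ℝ} (hv : ContDiff ℝ 1 v) (ρ s : ℝ) : Continuous fun t =>
    fderiv ℝ v (q ρ s t) ((2 * ρ * t) • e0 + (s * (2 * ρ * t)) • e1) :=
  ((hv.continuous_fderiv (by simp)).comp (qt_cont ρ s)).clm_apply (by fun_prop)

lemma ds_cont {v : E2 → ℝ} (hv : ContDiff ℝ 1 v) (ρ t : ℝ) : Continuous fun s =>
    fderiv ℝ v (q ρ s t) ((ρ * t ^ 2) • e1) :=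
  ((hv.continuous_fderiv (by simp)).comp (qs_cont ρ t)).clm_apply continuous_const

lemma J_eq {v : E2 → ℝ} (hv : ContDiff ℝ 1 v) (ρ a s : ℝ) :
    ∫ t in (0 : ℝ)..1, hh a t *
      fderiv ℝ v (q ρ s t) ((2 * ρ * t) • e0 + (s * (2 * ρ * t)) • e1) = -J v ρ a s := by
  rw [intervalIntegral.integral_mul_deriv_eq_deriv_mul (fun t _ => hh_hasDeriv a t)
    (fun t _ => v_hasDeriv_t hv ρ s t) ((hp_cont a).intervalIntegrable _ _)
    ((dt_cont hv ρ s).intervalIntegrable _ _)]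
  have h1 : hh a 1 = 0 := by simp [hh]
  have h0 : hh a 0 = 0 := by simp [hh]
  rw [h1, h0, J]
  ring

lemma J_bound1 {v : E2 → ℝ} (hv : ContDiff ℝ 1 v) {ρ a s : ℝ} (hρ : 0 < ρ) (ha : 0 < a)
    (hs0 : 0 ≤ s) (hs1 : s ≤ 1) :
    |J v ρ a s| ≤ ∫ t in (0 : ℝ)..1, 4 * a * ρ * (t ^ 2 * g v ρ s t) := by
  rw [← abs_neg, ← J_eq hv, ← Real.norm_eq_abs]
  refine intervalIntegral.norm_integral_le_of_norm_le zero_le_one ?_ ?_
  · refine Filter.Eventually.of_forall fun t ht => ?_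
    have ht0 : 0 ≤ t := ht.1.le
    have ht1 : t ≤ 1 := ht.2
    rw [norm_mul]
    have h1 : ‖hh a t‖ ≤ a * t := by
      have h2 : 0 ≤ 1 - t ^ 2 := by nlinarith
      have h3 : (1 - t ^ 2) ^ 2 ≤ 1 := by nlinarith
      rw [hh, Real.norm_eq_abs, abs_of_nonneg (by positivity)]
      have h4 : t * (1 - t ^ 2) ^ 2 ≤ t * 1 := mul_le_mul_of_nonneg_left h3 ht0
      have h5 := mul_le_mul_of_nonneg_left h4 ha.le
      linarith
    have h2 : ‖(2 * ρ * t) • e0 + (s * (2 * ρ * t)) • e1‖ ≤ 4 * ρ * t := by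
      refine (norm_add_le _ _).trans ?_
      rw [norm_smul, norm_smul, norm_e0, norm_e1, Real.norm_eq_abs, Real.norm_eq_abs,
        abs_of_nonneg (by positivity), abs_of_nonneg (by positivity)]
      have h3 : s * (2 * ρ * t) ≤ 1 * (2 * ρ * t) :=
        mul_le_mul_of_nonneg_right hs1 (by positivity)
      linarith
    have h3 : ‖fderiv ℝ v (q ρ s t) ((2 * ρ * t) • e0 + (s * (2 * ρ * t)) • e1)‖ ≤
        g v ρ s t * (4 * ρ * t) := by
      refine (ContinuousLinearMap.le_opNorm _ _).trans ?_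
      exact mul_le_mul_of_nonneg_left h2 (norm_nonneg _)
    calc ‖hh a t‖ * ‖fderiv ℝ v (q ρ s t) ((2 * ρ * t) • e0 + (s * (2 * ρ * t)) • e1)‖
        ≤ (a * t) * (g v ρ s t * (4 * ρ * t)) :=
          mul_le_mul h1 h3 (norm_nonneg _) (by positivity)
      _ = 4 * a * ρ * (t ^ 2 * g v ρ s t) := by ring
  · exact (continuous_const.mul ((continuous_id.pow 2).mul (g_cont_t hv ρ s))).intervalIntegrable
      _ _

lemma diff_bound {v : E2 → ℝ} (hv : ContDiff ℝ 1 v) {ρ s t : ℝ} (hρ : 0 < ρ)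
    (hs0 : 0 ≤ s) (hs1 : s ≤ 1) :
    |v (q ρ s t) - v (q ρ 0 t)| ≤ ρ * ∫ σ in (0 : ℝ)..1, t ^ 2 * g v ρ σ t := by
  have h1 : ∫ σ in (0 : ℝ)..s, fderiv ℝ v (q ρ σ t) ((ρ * t ^ 2) • e1)
      = v (q ρ s t) - v (q ρ 0 t) :=
    intervalIntegral.integral_eq_sub_of_hasDerivAt (fun σ _ => v_hasDeriv_s hv ρ σ t)
      ((ds_cont hv ρ t).intervalIntegrable _ _)
  rw [← h1, ← intervalIntegral.integral_const_mul, ← Real.norm_eq_abs]
  have hc : Continuous fun σ => ρ * (t ^ 2 * g v ρ σ t) :=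
    continuous_const.mul (continuous_const.mul (g_cont_s hv ρ t))
  refine (intervalIntegral.norm_integral_le_of_norm_le hs0 (g := fun σ => ρ * (t ^ 2 * g v ρ σ t))
    ?_ (hc.intervalIntegrable _ _)).trans ?_
  · refine Filter.Eventually.of_forall fun σ _ => ?_
    refine (ContinuousLinearMap.le_opNorm _ _).trans (le_of_eq ?_)
    rw [norm_smul, norm_e1, Real.norm_eq_abs, abs_of_nonneg (by positivity), g]
    ring
  · refine intervalIntegral.integral_mono_interval le_rfl hs0 hs1 ?_ (hc.intervalIntegrable _ _)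
    refine Filter.Eventually.of_forall fun σ => ?_
    have := g_nonneg v ρ σ t
    simp only [Pi.zero_apply]
    positivity

lemma inner_cont {v : E2 → ℝ} (hv : ContDiff ℝ 1 v) (ρ : ℝ) :
    Continuous fun t : ℝ => ∫ σ in (0 : ℝ)..1, t ^ 2 * g v ρ σ t := by
  exact intervalIntegral.continuous_parametric_intervalIntegral_of_continuous'
    (f := fun t σ : ℝ => t ^ 2 * g v ρ σ t) (g_cont2' hv ρ) 0 1

lemma inner_cont' {v : E2 → ℝ} (hv : ContDiff ℝ 1 v) (ρ : ℝ) :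
    Continuous fun s : ℝ => ∫ t in (0 : ℝ)..1, t ^ 2 * g v ρ s t := by
  exact intervalIntegral.continuous_parametric_intervalIntegral_of_continuous'
    (f := fun s t : ℝ => t ^ 2 * g v ρ s t) (g_cont2 hv ρ) 0 1

/-- The double integral. -/
noncomputable def M (v : E2 → ℝ) (ρ : ℝ) : ℝ :=
  ∫ t in (0 : ℝ)..1, ∫ s in (0 : ℝ)..1, t ^ 2 * g v ρ s t

lemma M_swap {v : E2 → ℝ} (hv : ContDiff ℝ 1 v) (ρ : ℝ) :
    ∫ s in (0 : ℝ)..1, ∫ t in (0 : ℝ)..1, t ^ 2 * g v ρ s t = M v ρ := by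
  rw [M]
  refine intervalIntegral_intervalIntegral_swap ?_
  have hc : Continuous (Function.uncurry fun s t : ℝ => t ^ 2 * g v ρ s t) :=
    g_cont2 hv ρ
  refine (hc.continuousOn.integrableOn_compact
    (isCompact_Icc.prod isCompact_Icc : IsCompact (Icc (0 : ℝ) 1 ×ˢ Icc (0 : ℝ) 1))).mono_set ?_
  rw [uIoc_of_le zero_le_one]
  exact prod_mono Ioc_subset_Icc_self Ioc_subset_Icc_self

lemma J_bound2 {v : E2 → ℝ} (hv : ContDiff ℝ 1 v) {ρ a s : ℝ} (hρ : 0 < ρ) (ha : 0 < a)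
    (hs0 : 0 ≤ s) (hs1 : s ≤ 1) :
    |J v ρ a s - J v ρ a 0| ≤ 4 * a * ρ * M v ρ := by
  have hcs : ∀ s, Continuous fun t => hp a t * v (q ρ s t) := fun s =>
    (hp_cont a).mul (hv.continuous.comp (qt_cont ρ s))
  rw [J, J, ← intervalIntegral.integral_sub ((hcs s).intervalIntegrable _ _)
    ((hcs 0).intervalIntegrable _ _), M, ← intervalIntegral.integral_const_mul,
    ← Real.norm_eq_abs]
  refine intervalIntegral.norm_integral_le_of_norm_le zero_le_one ?_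
    ((continuous_const.mul (inner_cont hv ρ)).intervalIntegrable _ _)
  refine Filter.Eventually.of_forall fun t ht => ?_
  have ht0 : 0 ≤ t := ht.1.le
  have ht1 : t ≤ 1 := ht.2
  rw [← mul_sub, norm_mul]
  have h1 : ‖hp a t‖ ≤ 4 * a := by
    have h2 : 0 ≤ 1 - t ^ 2 := by nlinarith
    have h3 : |(1 - t ^ 2) * (1 - 5 * t ^ 2)| ≤ 4 := by
      rw [abs_mul, abs_of_nonneg h2]
      have h4 : |1 - 5 * t ^ 2| ≤ 4 := by
        rw [abs_le]; constructor <;> nlinarith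
      calc (1 - t ^ 2) * |1 - 5 * t ^ 2| ≤ 1 * 4 :=
            mul_le_mul (by nlinarith) h4 (abs_nonneg _) zero_le_one
        _ = 4 := by norm_num
    rw [hp, Real.norm_eq_abs, abs_mul, abs_of_pos ha]
    have h5 := mul_le_mul_of_nonneg_left h3 ha.le
    linarith
  have h2 := diff_bound hv (t := t) hρ hs0 hs1
  calc ‖hp a t‖ * ‖v (q ρ s t) - v (q ρ 0 t)‖
      ≤ (4 * a) * (ρ * ∫ σ in (0 : ℝ)..1, t ^ 2 * g v ρ σ t) :=
        mul_le_mul h1 h2 (norm_nonneg _) (by positivity)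
    _ = 4 * a * ρ * ∫ σ in (0 : ℝ)..1, t ^ 2 * g v ρ σ t := by ring

lemma J_zero {v : E2 → ℝ} (hv : ContDiff ℝ 1 v) {ρ a : ℝ} (hρ : 0 < ρ) (ha : 0 < a) :
    |J v ρ a 0| ≤ 8 * a * ρ * M v ρ := by
  have h1 : ∀ s ∈ Icc (0 : ℝ) 1, |J v ρ a 0| ≤
      4 * a * ρ * (∫ t in (0 : ℝ)..1, t ^ 2 * g v ρ s t) + 4 * a * ρ * M v ρ := by
    intro s hs
    have h2 := J_bound1 hv hρ ha hs.1 hs.2
    have h3 := J_bound2 hv hρ ha hs.1 hs.2
    rw [intervalIntegral.integral_const_mul] at h2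
    have h4 : |J v ρ a 0| ≤ |J v ρ a s| + |J v ρ a s - J v ρ a 0| := by
      have h5 := abs_sub_abs_le_abs_sub (J v ρ a 0) (J v ρ a s)
      rw [abs_sub_comm] at h5
      linarith
    linarith
  have hc : Continuous fun s : ℝ =>
      4 * a * ρ * (∫ t in (0 : ℝ)..1, t ^ 2 * g v ρ s t) + 4 * a * ρ * M v ρ :=
    (continuous_const.mul (inner_cont' hv ρ)).add continuous_const
  have h2 : ∫ _s in (0 : ℝ)..1, |J v ρ a 0| ≤ ∫ s in (0 : ℝ)..1,
      (4 * a * ρ * (∫ t in (0 : ℝ)..1, t ^ 2 * g v ρ s t) + 4 * a * ρ * M v ρ) :=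
    intervalIntegral.integral_mono_on zero_le_one (by simp) (hc.intervalIntegrable _ _) h1
  have hc1 : Continuous fun s : ℝ => 4 * a * ρ * (∫ t in (0 : ℝ)..1, t ^ 2 * g v ρ s t) :=
    continuous_const.mul (inner_cont' hv ρ)
  have h3 : ∫ s in (0 : ℝ)..1,
      (4 * a * ρ * (∫ t in (0 : ℝ)..1, t ^ 2 * g v ρ s t) + 4 * a * ρ * M v ρ)
      = 4 * a * ρ * M v ρ + 4 * a * ρ * M v ρ := by
    rw [intervalIntegral.integral_add (hc1.intervalIntegrable _ _) (by simp),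
      intervalIntegral.integral_const_mul, M_swap hv, intervalIntegral.integral_const]
    simp
  rw [h3, intervalIntegral.integral_const] at h2
  simp only [sub_zero, one_smul] at h2
  linarith

/-- The size of the gradient in Cartesian coordinates. -/
noncomputable def G (v : E2 → ℝ) (x y : ℝ) : ℝ := ‖fderiv ℝ v (x • e0 + y • e1)‖

lemma G_cont {v : E2 → ℝ} (hv : ContDiff ℝ 1 v) : Continuous fun p : ℝ × ℝ => G v p.1 p.2 ^ 2 := by
  unfold G
  have h1 : Continuous fun p : ℝ × ℝ => p.1 • e0 + p.2 • e1 := by fun_prop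
  exact (((hv.continuous_fderiv (by simp)).comp h1).norm).pow 2

lemma G_cont_y {v : E2 → ℝ} (hv : ContDiff ℝ 1 v) (x : ℝ) :
    Continuous fun y : ℝ => G v x y ^ 2 := by
  unfold G
  have h1 : Continuous fun y : ℝ => x • e0 + y • e1 := by fun_prop
  exact (((hv.continuous_fderiv (by simp)).comp h1).norm).pow 2

/-- The partial integral. -/
noncomputable def Gam (v : E2 → ℝ) (ρ x : ℝ) : ℝ := ∫ y in (0 : ℝ)..ρ, G v x y ^ 2

lemma Gam_cont {v : E2 → ℝ} (hv : ContDiff ℝ 1 v) (ρ : ℝ) : Continuous (Gam v ρ) :=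
  intervalIntegral.continuous_parametric_intervalIntegral_of_continuous'
    (f := fun x y : ℝ => G v x y ^ 2) (G_cont hv) 0 ρ

lemma Dir_eq (v : E2 → ℝ) : Dir v = ∫ p : ℝ × ℝ, G v p.1 p.2 ^ 2 := by
  unfold Dir
  rw [← P_mp.integral_comp P_emb]
  rfl

lemma int_Gam {v : E2 → ℝ} (hv : ContDiff ℝ 1 v) (hc : HasCompactSupport v) {ρ : ℝ}
    (hρ : 0 < ρ) : ∫ x in (0 : ℝ)..ρ, Gam v ρ x ≤ Dir v := by
  have hint : Integrable (fun p : ℝ × ℝ => G v p.1 p.2 ^ 2) := by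
    have h1 : Integrable (fun x : E2 => ‖fderiv ℝ v x‖ ^ 2) := by
      have h2 : Continuous (fun x : E2 => ‖fderiv ℝ v x‖ ^ 2) :=
        ((hv.continuous_fderiv (by simp)).norm).pow 2
      refine h2.integrable_of_hasCompactSupport ?_
      have h3 : HasCompactSupport (fderiv ℝ v) := hc.fderiv ℝ
      exact h3.comp_left (g := fun L : E2 →L[ℝ] ℝ => ‖L‖ ^ 2) (by simp)
    exact (P_mp.integrable_comp_emb P_emb).2 h1
  rw [Dir_eq]
  have h1 : ∫ x in (0 : ℝ)..ρ, Gam v ρ x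
      = ∫ p in (Ioc 0 ρ ×ˢ Ioc 0 ρ : Set (ℝ × ℝ)), G v p.1 p.2 ^ 2 := by
    rw [Measure.volume_eq_prod, setIntegral_prod _ (by
      rw [← Measure.volume_eq_prod]; exact hint.integrableOn), intervalIntegral.integral_of_le hρ.le]
    refine integral_congr_ae (Filter.Eventually.of_forall fun x => ?_)
    simp only [Gam]
    rw [intervalIntegral.integral_of_le hρ.le]
  rw [h1]
  exact setIntegral_le_integral hint (Filter.Eventually.of_forall fun p => sq_nonneg _)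

/-- The second moment. -/
lemma N_bound {v : E2 → ℝ} (hv : ContDiff ℝ 1 v) (hc : HasCompactSupport v) {ρ : ℝ}
    (hρ : 0 < ρ) :
    ∫ t in (0 : ℝ)..1, ∫ s in (0 : ℝ)..1, t ^ 3 * g v ρ s t ^ 2 ≤ Dir v / (2 * ρ ^ 2) := by
  have hf : ∀ t ∈ uIcc (0 : ℝ) 1, HasDerivAt (fun t : ℝ => ρ * t ^ 2) (2 * ρ * t) t := by
    intro t _
    have h2 := (hasDerivAt_pow 2 t).const_mul ρ
    have h3 : ρ * (((2 : ℕ) : ℝ) * t ^ (2 - 1)) = 2 * ρ * t := by norm_num; ring
    rwa [h3] at h2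
  have hsub : ∫ t in (0 : ℝ)..1, (Gam v ρ ∘ fun t : ℝ => ρ * t ^ 2) t * (2 * ρ * t)
      = ∫ x in (0 : ℝ)..ρ, Gam v ρ x := by
    rw [intervalIntegral.integral_comp_mul_deriv hf (by fun_prop) (Gam_cont hv ρ)]
    norm_num
  have hcont1 : Continuous fun t : ℝ => ∫ s in (0 : ℝ)..1, t ^ 3 * g v ρ s t ^ 2 := by
    refine intervalIntegral.continuous_parametric_intervalIntegral_of_continuous'
      (f := fun t s : ℝ => t ^ 3 * g v ρ s t ^ 2) ?_ 0 1
    have h1 : Continuous fun p : ℝ × ℝ => q ρ p.2 p.1 := by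
      unfold q
      fun_prop
    have h2 : Continuous fun p : ℝ × ℝ => g v ρ p.2 p.1 := by
      unfold g
      exact ((hv.continuous_fderiv (by simp)).comp h1).norm
    exact (continuous_fst.pow 3).mul (h2.pow 2)
  have hcont2 : Continuous fun t : ℝ =>
      1 / (2 * ρ ^ 2) * ((Gam v ρ ∘ fun t : ℝ => ρ * t ^ 2) t * (2 * ρ * t)) := by
    have h1 : Continuous (Gam v ρ ∘ fun t : ℝ => ρ * t ^ 2) :=
      (Gam_cont hv ρ).comp (by fun_prop)
    exact continuous_const.mul (h1.mul (by fun_prop))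
  have hmono : ∫ t in (0 : ℝ)..1, ∫ s in (0 : ℝ)..1, t ^ 3 * g v ρ s t ^ 2 ≤
      ∫ t in (0 : ℝ)..1,
        1 / (2 * ρ ^ 2) * ((Gam v ρ ∘ fun t : ℝ => ρ * t ^ 2) t * (2 * ρ * t)) := by
    refine intervalIntegral.integral_mono_on_of_le_Ioo zero_le_one
      (hcont1.intervalIntegrable _ _) (hcont2.intervalIntegrable _ _) ?_
    intro t ht
    set x := ρ * t ^ 2 with hx
    have hx0 : 0 < x := by have := ht.1; positivity
    have hxρ : x ≤ ρ := by
      have : t ^ 2 ≤ 1 := by nlinarith [ht.1, ht.2]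
      nlinarith
    have h1 : ∫ s in (0 : ℝ)..1, t ^ 3 * g v ρ s t ^ 2
        = t ^ 3 * (x⁻¹ * ∫ y in (0 : ℝ)..x, G v x y ^ 2) := by
      rw [intervalIntegral.integral_const_mul]
      congr 1
      have h2 := intervalIntegral.integral_comp_mul_right (a := 0) (b := 1)
        (fun y => G v x y ^ 2) hx0.ne'
      rw [zero_mul, one_mul, smul_eq_mul] at h2
      exact h2
    have h2 : ∫ y in (0 : ℝ)..x, G v x y ^ 2 ≤ Gam v ρ x := by
      refine intervalIntegral.integral_mono_interval le_rfl hx0.le hxρ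
        (Filter.Eventually.of_forall fun y => sq_nonneg _)
        ((G_cont_y hv x).intervalIntegrable _ _)
    rw [h1]
    simp only [Function.comp_apply]
    have ht0 := ht.1
    calc t ^ 3 * (x⁻¹ * ∫ y in (0 : ℝ)..x, G v x y ^ 2)
        ≤ t ^ 3 * (x⁻¹ * Gam v ρ x) := by gcongr
      _ = 1 / (2 * ρ ^ 2) * (Gam v ρ x * (2 * ρ * t)) := by
          rw [hx]
          field_simp
  rw [intervalIntegral.integral_const_mul, hsub] at hmono
  have h1 := int_Gam hv hc hρ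
  calc _ ≤ 1 / (2 * ρ ^ 2) * ∫ x in (0 : ℝ)..ρ, Gam v ρ x := hmono
    _ ≤ 1 / (2 * ρ ^ 2) * Dir v := by gcongr
    _ = Dir v / (2 * ρ ^ 2) := by ring

lemma M_bound_lam {v : E2 → ℝ} (hv : ContDiff ℝ 1 v) (hc : HasCompactSupport v) {ρ l : ℝ}
    (hρ : 0 < ρ) (hl : 0 < l) : M v ρ ≤ l / 4 + Dir v / (4 * ρ ^ 2 * l) := by
  have hgc : Continuous fun p : ℝ × ℝ => g v ρ p.2 p.1 := by
    have h1 : Continuous fun p : ℝ × ℝ => q ρ p.2 p.1 := by
      unfold q
      fun_prop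
    unfold g
    exact ((hv.continuous_fderiv (by simp)).comp h1).norm
  have hcA : Continuous fun t : ℝ => ∫ s in (0 : ℝ)..1, t ^ 3 * g v ρ s t ^ 2 := by
    refine intervalIntegral.continuous_parametric_intervalIntegral_of_continuous'
      (f := fun t s : ℝ => t ^ 3 * g v ρ s t ^ 2) ?_ 0 1
    exact (continuous_fst.pow 3).mul (hgc.pow 2)
  have h1 : M v ρ ≤ ∫ t in (0 : ℝ)..1, (l / 2 * t +
      1 / (2 * l) * ∫ s in (0 : ℝ)..1, t ^ 3 * g v ρ s t ^ 2) := by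
    rw [M]
    refine intervalIntegral.integral_mono_on zero_le_one
      ((inner_cont hv ρ).intervalIntegrable _ _) ?_ ?_
    · have h2 : Continuous fun t : ℝ => l / 2 * t +
          1 / (2 * l) * ∫ s in (0 : ℝ)..1, t ^ 3 * g v ρ s t ^ 2 :=
        (by fun_prop : Continuous fun t : ℝ => l / 2 * t).add (continuous_const.mul hcA)
      exact h2.intervalIntegrable _ _
    · intro t ht
      have hg2 : Continuous fun s : ℝ => t ^ 3 * g v ρ s t ^ 2 :=
        continuous_const.mul ((g_cont_s hv ρ t).pow 2)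
      have h3 : ∫ s in (0 : ℝ)..1, (l / 2 * t + 1 / (2 * l) * (t ^ 3 * g v ρ s t ^ 2))
          = l / 2 * t + 1 / (2 * l) * ∫ s in (0 : ℝ)..1, t ^ 3 * g v ρ s t ^ 2 := by
        have hg3 : Continuous fun s : ℝ => 1 / (2 * l) * (t ^ 3 * g v ρ s t ^ 2) :=
          continuous_const.mul hg2
        rw [intervalIntegral.integral_add intervalIntegrable_const
          (hg3.intervalIntegrable _ _),
          intervalIntegral.integral_const_mul, intervalIntegral.integral_const]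
        simp
      rw [← h3]
      refine intervalIntegral.integral_mono_on zero_le_one
        ((continuous_const.mul (g_cont_s hv ρ t)).intervalIntegrable _ _)
        ((continuous_const.add (continuous_const.mul hg2)).intervalIntegrable _ _) ?_
      intro s _
      have ht0 := ht.1
      have h4 : l / 2 * t + 1 / (2 * l) * (t ^ 3 * g v ρ s t ^ 2) - t ^ 2 * g v ρ s t
          = t / (2 * l) * (l - t * g v ρ s t) ^ 2 := by
        field_simp
        ring
      have h5 : 0 ≤ t / (2 * l) * (l - t * g v ρ s t) ^ 2 := by positivity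
      linarith
  have h2 : ∫ t in (0 : ℝ)..1, (l / 2 * t +
      1 / (2 * l) * ∫ s in (0 : ℝ)..1, t ^ 3 * g v ρ s t ^ 2)
      = l / 4 + 1 / (2 * l) * ∫ t in (0 : ℝ)..1, ∫ s in (0 : ℝ)..1, t ^ 3 * g v ρ s t ^ 2 := by
    have hca : Continuous fun t : ℝ => l / 2 * t := by fun_prop
    have hcb : Continuous fun t : ℝ => 1 / (2 * l) * ∫ s in (0 : ℝ)..1, t ^ 3 * g v ρ s t ^ 2 :=
      continuous_const.mul hcA
    rw [intervalIntegral.integral_add (hca.intervalIntegrable _ _) (hcb.intervalIntegrable _ _),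
      intervalIntegral.integral_const_mul, intervalIntegral.integral_const_mul, integral_id]
    ring
  rw [h2] at h1
  have h3 := N_bound hv hc hρ
  have h4 : 1 / (2 * l) * (∫ t in (0 : ℝ)..1, ∫ s in (0 : ℝ)..1, t ^ 3 * g v ρ s t ^ 2)
      ≤ 1 / (2 * l) * (Dir v / (2 * ρ ^ 2)) := by gcongr
  have h5 : 1 / (2 * l) * (Dir v / (2 * ρ ^ 2)) = Dir v / (4 * ρ ^ 2 * l) := by
    field_simp
    ring
  linarith

lemma Dir_nonneg (v : E2 → ℝ) : 0 ≤ Dir v := integral_nonneg fun _ => sq_nonneg _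

lemma M_bound {v : E2 → ℝ} (hv : ContDiff ℝ 1 v) (hc : HasCompactSupport v) {ρ : ℝ}
    (hρ : 0 < ρ) : M v ρ ≤ √(Dir v) / (2 * ρ) := by
  rcases (Dir_nonneg v).eq_or_lt with h0 | h0
  · rw [← h0, Real.sqrt_zero, zero_div]
    refine le_of_forall_pos_le_add fun ε hε => ?_
    have h1 := M_bound_lam hv hc hρ (l := 4 * ε) (by positivity)
    rw [← h0] at h1
    simp only [zero_div, add_zero] at h1
    linarith
  · have hs : 0 < √(Dir v) := Real.sqrt_pos.2 h0
    have h1 := M_bound_lam hv hc hρ (l := √(Dir v) / ρ) (by positivity)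
    have h2 : Dir v / (4 * ρ ^ 2 * (√(Dir v) / ρ)) = √(Dir v) / (4 * ρ) := by
      have h3 : Dir v = √(Dir v) * √(Dir v) := (Real.mul_self_sqrt h0.le).symm
      rw [div_eq_div_iff (by positivity) (by positivity)]
      nth_rewrite 1 [h3]
      field_simp
    rw [h2] at h1
    refine h1.trans (le_of_eq ?_)
    field_simp
    ring

/-- The one-dimensional integral along the `x`-axis. -/
lemma core {v : E2 → ℝ} (hv : ContDiff ℝ 1 v) (hc : HasCompactSupport v) {ρ a : ℝ}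
    (hρ : 0 < ρ) (ha : 0 < a) :
    |∫ r in (0 : ℝ)..ρ, a * pr (r / ρ) * fderiv ℝ v (r • e0) e0| ≤ 4 * a * √(Dir v) := by
  have hf : ∀ t ∈ uIcc (0 : ℝ) 1, HasDerivAt (fun t : ℝ => ρ * t ^ 2) (2 * ρ * t) t := by
    intro t _
    have h2 := (hasDerivAt_pow 2 t).const_mul ρ
    have h3 : ρ * (((2 : ℕ) : ℝ) * t ^ (2 - 1)) = 2 * ρ * t := by norm_num; ring
    rwa [h3] at h2
  have hFc : Continuous fun r : ℝ =>
      a * (√(r / ρ) * (1 - r / ρ) ^ 2) * fderiv ℝ v (r • e0) e0 := by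
    have h1 : Continuous fun r : ℝ => r • e0 := by fun_prop
    have h2 : Continuous fun r : ℝ => fderiv ℝ v (r • e0) e0 :=
      ((hv.continuous_fderiv (by simp)).comp h1).clm_apply continuous_const
    have h3 : Continuous fun r : ℝ => a * (√(r / ρ) * (1 - r / ρ) ^ 2) := by fun_prop
    exact h3.mul h2
  have h1 : ∫ r in (0 : ℝ)..ρ, a * pr (r / ρ) * fderiv ℝ v (r • e0) e0
      = ∫ r in (0 : ℝ)..ρ, a * (√(r / ρ) * (1 - r / ρ) ^ 2) * fderiv ℝ v (r • e0) e0 := by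
    refine intervalIntegral.integral_congr fun r hr => ?_
    rw [uIcc_of_le hρ.le] at hr
    have h2 : r / ρ ≤ 1 := by rw [div_le_one hρ]; exact hr.2
    simp only [pr, if_pos h2]
  have h2 : ∫ t in (0 : ℝ)..1, ((fun r : ℝ =>
      a * (√(r / ρ) * (1 - r / ρ) ^ 2) * fderiv ℝ v (r • e0) e0) ∘ fun t : ℝ => ρ * t ^ 2) t *
        (2 * ρ * t)
      = ∫ r in (0 : ℝ)..ρ, a * (√(r / ρ) * (1 - r / ρ) ^ 2) * fderiv ℝ v (r • e0) e0 := by
    rw [intervalIntegral.integral_comp_mul_deriv hf (by fun_prop) hFc]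
    norm_num
  have h3 : ∫ t in (0 : ℝ)..1, ((fun r : ℝ =>
      a * (√(r / ρ) * (1 - r / ρ) ^ 2) * fderiv ℝ v (r • e0) e0) ∘ fun t : ℝ => ρ * t ^ 2) t *
        (2 * ρ * t) = ∫ t in (0 : ℝ)..1, hh a t *
      fderiv ℝ v (q ρ 0 t) ((2 * ρ * t) • e0 + ((0 : ℝ) * (2 * ρ * t)) • e1) := by
    refine intervalIntegral.integral_congr fun t ht => ?_
    rw [uIcc_of_le zero_le_one] at ht
    have h4 : √(ρ * t ^ 2 / ρ) = t := by
      rw [mul_div_cancel_left₀ _ hρ.ne', Real.sqrt_sq ht.1]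
    have h5 : ρ * t ^ 2 / ρ = t ^ 2 := mul_div_cancel_left₀ _ hρ.ne'
    have h6 : q ρ 0 t = (ρ * t ^ 2) • e0 := by simp [q]
    simp only [Function.comp_apply]
    rw [h4, h5, h6, zero_mul, zero_smul, add_zero, map_smul, smul_eq_mul, hh]
    ring
  rw [h1, ← h2, h3, J_eq hv, abs_neg]
  have h4 := J_zero hv hρ ha
  have h5 := M_bound hv hc hρ
  calc |J v ρ a 0| ≤ 8 * a * ρ * M v ρ := h4
    _ ≤ 8 * a * ρ * (√(Dir v) / (2 * ρ)) := by gcongr
    _ = 4 * a * √(Dir v) := by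
        field_simp
        ring

end Trace

open Trace in
theorem needle_trace : ∃ K : ℝ, 0 < K ∧ ∀ (c : E2) (ρ a : ℝ) (arms : Finset E2), 0 < ρ → 0 < a →
    arms.card ≤ 2 → (∀ ν ∈ arms, ‖ν‖ = 1) → ∀ u : E2 → ℝ, C1c univ u →
    |(needle c ρ a arms).T u| ≤ K * a * √(Dir u) := by
  refine ⟨8, by norm_num, ?_⟩
  intro c ρ a arms hρ ha hcard hν u hu
  obtain ⟨hu1, hu2, _⟩ := hu
  have harm : ∀ ν ∈ arms, |∫ r in (0 : ℝ)..ρ,
      (fderiv ℝ (needle c ρ a arms).w (c + r • ν) ν) * (fderiv ℝ u (c + r • ν) ν)| ≤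
      4 * a * √(Dir u) := by
    intro ν hmem
    have hν1 := hν ν hmem
    set A : E2 ≃ₗᵢ[ℝ] E2 := (Submodule.span ℝ {e0 - ν})ᗮ.reflection with hA
    have hAe : A e0 = ν := Submodule.reflection_sub (by rw [norm_e0, hν1])
    set v : E2 → ℝ := fun z => u (c + A z) with hv
    have hvc : ContDiff ℝ 1 v := by
      have h1 : ContDiff ℝ 1 (fun z : E2 => c + A z) := by
        exact contDiff_const.add A.contDiff
      exact hu1.comp h1
    have hfd : ∀ z, fderiv ℝ v z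
        = (fderiv ℝ u (c + A z)).comp (A.toContinuousLinearEquiv : E2 →L[ℝ] E2) := by
      intro z
      have h1 : HasFDerivAt u (fderiv ℝ u (c + A z)) (c + A z) :=
        (hu1.differentiable (by simp)).differentiableAt.hasFDerivAt
      have h2 : HasFDerivAt (fun z : E2 => c + A z)
          (A.toContinuousLinearEquiv : E2 →L[ℝ] E2) z :=
        (A.toContinuousLinearEquiv.hasFDerivAt).const_add c
      exact (h1.comp z h2).fderiv
    have hsupp : HasCompactSupport v := by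
      have h1 : v = u ∘ (A.toHomeomorph.trans (Homeomorph.addLeft c)) := by
        funext z
        simp [hv]
      rw [h1]
      exact hu2.comp_homeomorph _
    have hDir : Dir v = Dir u := by
      unfold Dir
      have h1 : ∀ z, ‖fderiv ℝ v z‖ ^ 2 = (fun y => ‖fderiv ℝ u (c + y)‖ ^ 2) (A z) := by
        intro z
        rw [hfd]
        congr 1
        exact ContinuousLinearMap.opNorm_comp_linearIsometryEquiv _ A
      rw [integral_congr_ae (Filter.Eventually.of_forall h1),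
        A.measurePreserving.integral_comp A.toHomeomorph.measurableEmbedding
          (fun y => ‖fderiv ℝ u (c + y)‖ ^ 2)]
      exact integral_add_left_eq_self (fun y => ‖fderiv ℝ u y‖ ^ 2) c
    have h1 := core hvc hsupp hρ ha
    rw [hDir] at h1
    rw [← abs_neg, ← intervalIntegral.integral_neg]
    refine le_trans (le_of_eq ?_) h1
    congr 1
    rw [intervalIntegral.integral_of_le hρ.le, intervalIntegral.integral_of_le hρ.le]
    refine setIntegral_congr_fun measurableSet_Ioc fun r hr => ?_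
    have h2 : fderiv ℝ v (r • e0) e0 = fderiv ℝ u (c + r • ν) ν := by
      rw [hfd, ContinuousLinearMap.comp_apply]
      have h3 : (A.toContinuousLinearEquiv : E2 →L[ℝ] E2) e0 = ν := hAe
      rw [h3, map_smul, hAe]
    beta_reduce
    rw [needle_arm (a := a) c arms hρ hν1 hr.1, h2]
    ring
  unfold Blk.T
  calc |∑ ν ∈ arms, ∫ r in (0 : ℝ)..ρ,
        (fderiv ℝ (needle c ρ a arms).w (c + r • ν) ν) * (fderiv ℝ u (c + r • ν) ν)|
      ≤ ∑ ν ∈ arms, |∫ r in (0 : ℝ)..ρ,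
        (fderiv ℝ (needle c ρ a arms).w (c + r • ν) ν) * (fderiv ℝ u (c + r • ν) ν)| :=
        Finset.abs_sum_le_sum_abs _ _
    _ ≤ ∑ ν ∈ arms, 4 * a * √(Dir u) := Finset.sum_le_sum harm
    _ = arms.card * (4 * a * √(Dir u)) := by rw [Finset.sum_const, nsmul_eq_mul]
    _ ≤ 2 * (4 * a * √(Dir u)) := by
        have h1 : (arms.card : ℝ) ≤ 2 := by exact_mod_cast hcard
        gcongr
    _ = 8 * a * √(Dir u) := by ring

/-- Cauchy-Schwarz for the Dirichlet part. -/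
theorem blk_D_le (b : Blk) (hb : b.Reg) (u : E2 → ℝ) (hu : C1c univ u) :
    |b.D u| ≤ √(Dir b.w) * √(Dir u) := by
  obtain ⟨hu1, hu2, _⟩ := hu
  have hnorm : ∀ (f : E2 → ℝ) (x : E2), ‖gradient f x‖ = ‖fderiv ℝ f x‖ := by
    intro f x
    rw [gradient, LinearIsometryEquiv.norm_map]
  have hwc : HasCompactSupport b.w := by
    refine HasCompactSupport.intro (isCompact_closedBall b.c b.ρ) fun x hx => ?_
    rw [mem_closedBall, not_le] at hx
    exact (hb.supp x hx.le).1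
  have hmem : ∀ f : E2 → ℝ, ContDiff ℝ 1 f → HasCompactSupport f →
      MemLp (fderiv ℝ f) (ENNReal.ofReal 2) volume := by
    intro f hf hfc
    exact (hf.continuous_fderiv (by simp)).memLp_of_hasCompactSupport (hfc.fderiv ℝ)
  have h1 := integral_mul_norm_le_Lp_mul_Lq Real.HolderConjugate.two_two
    (hmem b.w hb.smooth hwc) (hmem u hu1 hu2)
  have h2 : |b.D u| ≤ ∫ x, ‖fderiv ℝ b.w x‖ * ‖fderiv ℝ u x‖ := by
    unfold Blk.D
    rw [← Real.norm_eq_abs]
    refine norm_integral_le_of_norm_le ?_ (Filter.Eventually.of_forall fun x => ?_)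
    · have hc : Continuous fun x => ‖fderiv ℝ b.w x‖ * ‖fderiv ℝ u x‖ :=
        ((hb.smooth.continuous_fderiv (by simp)).norm).mul
          ((hu1.continuous_fderiv (by simp)).norm)
      refine hc.integrable_of_hasCompactSupport ?_
      exact ((hu2.fderiv ℝ).norm).mul_left
    · rw [← hnorm b.w x, ← hnorm u x]
      exact norm_inner_le_norm _ _
  refine h2.trans (h1.trans (le_of_eq ?_))
  rw [Real.sqrt_eq_rpow, Real.sqrt_eq_rpow]
  simp only [Dir, Real.rpow_ofNat]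

end Pool.Agent.Lib.P8e
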