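import Pool.Agent.Lib.P8e.FinB
import Pool.Agent.Lib.P8e.NeedleRep
import Pool.Agent.Lib.P8e.Bump
import Pool.Agent.Lib.P8e.Gain
import Pool.Agent.Lib.P8e.Trace

set_option autoImplicit false

/-!
# The family of blocks: needles and bumps

PROOF SKETCH. `exists_Fam`: `needle_reg`, `needle_rep` (`ρ ≤ 1/200 ≤ 1`, `a = √w`), `bump_reg`, `bump_rep`; `M = (20 + 8 m) √w_i` resp. `100 ε_k`.
`Dir`: `needle_Dir` (`≤ w ρ^2 ≤ w`), `bump_Dir` (`≤ 200 ε^2 ≤ 200 ε`). `T`: `needle_T = card w ρ/30 ≤ w`, the bumps have no arms.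
`geo`: let `S ∈ Adm Ω L`, `L = len (1/8) (7/8)`; `S` is compact (closed and bounded), `Cpt S`, `H1 S ≤ L`. Let `Δ = Dl (1/8) (7/8) S`. Needle `i`: `‖∇w‖^2 = w_i gam(dist/ρ)` (`needle_norm_sq`), zero outside the ball
(`gam t = 0` for `t ≥ 1`), so `∫_S ‖∇w‖^2 ≤ w_i (card ρ/30 + 20 (Δ + d_i)) = T w + 20 w_i Δ + 20 w_i d_i`. Bump `k`: if `S` misses the closed ball the integral is `0`, otherwise it is
`≤ (6 ε/r)^2 H1 S ≤ e_k Δ` (`bump_grad`, `BD.small`, `H1 S ≤ L ≤ 1`, `len_le`). Sum over the finite set: `≤ ∑ T + 20 Δ ∑' w + 20 ∑' w_i d_i + Δ ∑' e ≤ ∑ T + (60 + 20 + 1) Δ`, and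
`Δ = ∑' wt_i d_i` (`N.dfct`).
`gain`: with `c₀` from `needle_gain` put `m = 81/c₀`; for `0 < d ≤ 2` use `d' = min d ρ`: `c₀ m^2 w (d'/ρ) ≥ c₀ m^2 w d/2 = (m/2) 81 w d` (`d'/ρ ≥ d/2`). Bumps: `φ = 0`, `wt = 0`.
`bd`: `blk_D_le`, `needle_Dir`, `needle_trace`, `bump_Dir`: `K_i = √w_i + m K √w_i`, resp. `√200 ε_k`.
-/

open MeasureTheory Set Metric
open scoped ENNReal NNReal InnerProductSpace

namespace Pool.Agent.Lib.P8e

/-- The blocks. -/
noncomputable def blks {Ω : Set E2} {C : Cv} {ι κ : Type} (N : ND Ω C ι) (B : BD N κ) :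
    ι ⊕ κ → Blk
  | .inl i => needle (N.c i) (N.ρ i) (√(N.w i)) (N.arms i)
  | .inr k => bump (B.c k) (B.r k) (B.ε k)

/-- The weights. -/
noncomputable def wts {Ω : Set E2} {C : Cv} {ι κ : Type} (N : ND Ω C ι) (_B : BD N κ) :
    ι ⊕ κ → ℝ
  | .inl i => N.w i
  | .inr _ => 0

section

variable {Ω : Set E2} {C : Cv} {ι κ : Type} (N : ND Ω C ι) (B : BD N κ)


/-- The constants of the masses. -/
noncomputable def MM (m : ℝ) : ι ⊕ κ → ℝ
  | .inl i => (20 + 8 * m) * √(N.w i)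
  | .inr k => 100 * B.ε k

lemma sqrt_w_pos (i : ι) : 0 < √(N.w i) := Real.sqrt_pos.2 (N.w_pos i)

lemma exists_pq {m : ℝ} (hm : 0 < m) (i : ι ⊕ κ) :
    ∃ p q : Measure E2, (blks N B i).Rep m p q (MM N B m i) := by
  rcases i with i | k
  · exact needle_rep (N.c i) (N.ρ_pos i) ((N.ρ_le i).trans (by norm_num)) (sqrt_w_pos N i) hm
      (N.arms i) (N.card i) (N.unit i)
  · exact bump_rep (B.c k) m (B.r_pos k) (B.ε_pos k)

lemma blks_reg (i : ι ⊕ κ) : (blks N B i).Reg := by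
  rcases i with i | k
  · exact needle_reg (N.c i) (N.arms i) (N.ρ_pos i) (N.unit i)
  · exact bump_reg (B.c k) (B.r_pos k)

theorem exists_Fam {m : ℝ} (hm : 0 < m) : ∃ F : Fam Ω m (ι ⊕ κ), F.b = blks N B := by
  choose p q hpq using fun i => exists_pq N B hm i
  refine ⟨{ b := blks N B, M := MM N B m, p := p, q := q, reg := blks_reg N B, rep := hpq,
            M_nonneg := ?_, M_sum := ?_, sub := ?_, disj := ?_, dense := ?_ }, rfl⟩
  · rintro (i | k)
    · have := sqrt_w_pos N i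
      show 0 ≤ (20 + 8 * m) * √(N.w i)
      positivity
    · have := B.ε_pos k
      show 0 ≤ 100 * B.ε k
      positivity
  · apply Summable.sum
    · exact N.w_sqrt.mul_left (20 + 8 * m)
    · exact B.ε_sum.mul_left 100
  · rintro (i | k)
    · exact N.sub i
    · exact B.sub k
  · rintro (i | k) (j | l) hij
    · exact N.disj i j (fun h => hij (by rw [h]))
    · exact B.disjN i l
    · exact (B.disjN j k).symm
    · exact B.disj k l (fun h => hij (by rw [h]))
  · intro U hU hUΩ hne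
    rcases B.dense U hU hUΩ hne with ⟨i, hi⟩ | ⟨k, hk⟩
    · exact ⟨.inl i, hi⟩
    · exact ⟨.inr k, hk⟩

lemma Dir_nonneg (u : E2 → ℝ) : 0 ≤ Dir u := integral_nonneg fun _ => sq_nonneg _

lemma needle_Dir_le (i : ι) : Dir (blks N B (.inl i)).w ≤ N.w i := by
  have h1 := needle_Dir (a := √(N.w i)) (N.c i) (N.arms i) (N.ρ_pos i)
  have h2 : √(N.w i) ^ 2 = N.w i := Real.sq_sqrt (N.w_pos i).le
  rw [h2] at h1
  have h3 := N.ρ_le i
  have h4 := N.ρ_pos i
  have h5 := N.w_pos i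
  have h6 : N.ρ i ^ 2 ≤ 1 := by nlinarith
  have h7 : N.w i * N.ρ i ^ 2 ≤ N.w i := by nlinarith
  exact h1.trans h7

theorem blks_Dir_sum : Summable fun i => Dir (blks N B i).w := by
  apply Summable.sum
  · refine Summable.of_nonneg_of_le (fun i => Dir_nonneg _) (fun i => ?_) N.w_sum
    exact needle_Dir_le N B i
  · refine Summable.of_nonneg_of_le (fun i => Dir_nonneg _) (fun k => ?_) (B.ε_sum.mul_left 200)
    have h1 := bump_Dir (B.c k) (B.r_pos k) (B.ε_pos k).le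
    refine h1.trans ?_
    have h2 := B.ε_le k
    have h3 := B.ε_pos k
    nlinarith

lemma needle_T_eq (i : ι) : (blks N B (.inl i)).T (blks N B (.inl i)).w =
    (N.arms i).card * N.w i * N.ρ i / 30 := by
  have h1 := needle_T (a := √(N.w i)) (N.c i) (N.arms i) (N.ρ_pos i) (N.unit i)
  have h2 : √(N.w i) ^ 2 = N.w i := Real.sq_sqrt (N.w_pos i).le
  rw [h2] at h1
  exact h1

lemma bump_T_eq (k : κ) (u : E2 → ℝ) : (blks N B (.inr k)).T u = 0 := by
  simp [blks, Blk.T, bump]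

theorem blks_T_sum : Summable fun i => (blks N B i).T (blks N B i).w := by
  apply Summable.sum
  · have hT : ∀ i : ι, (blks N B (.inl i)).T (blks N B (.inl i)).w =
      (N.arms i).card * N.w i * N.ρ i / 30 := needle_T_eq N B
    refine Summable.of_nonneg_of_le (fun i => ?_) (fun i => ?_) N.w_sum
    · show 0 ≤ (blks N B (.inl i)).T (blks N B (.inl i)).w
      rw [hT]
      have h1 := N.ρ_pos i
      have h2 := N.w_pos i
      positivity
    · show (blks N B (.inl i)).T (blks N B (.inl i)).w ≤ N.w i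
      rw [hT]
      have h1 := N.ρ_pos i
      have h2 := N.w_pos i
      have h3 := N.ρ_le i
      have h4 : ((N.arms i).card : ℝ) ≤ 2 := by exact_mod_cast N.card i
      have h5 : ((N.arms i).card : ℝ) * N.w i ≤ 2 * N.w i := mul_le_mul_of_nonneg_right h4 h2.le
      have h6 : ((N.arms i).card : ℝ) * N.w i * N.ρ i ≤ 2 * N.w i * 1 :=
        mul_le_mul h5 (by linarith) h1.le (by positivity)
      linarith
  · have : (fun i => (blks N B i).T (blks N B i).w) ∘ Sum.inr = fun _ : κ => (0:ℝ) := by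
      funext k
      exact bump_T_eq N B k _
    rw [this]
    exact summable_zero

theorem blks_seg : ∀ i, ∀ ν ∈ (blks N B i).arms, ∀ r ∈ Icc 0 (blks N B i).ρ,
    (blks N B i).c + r • ν ∈ C.SK := by
  rintro (i | k)
  · exact N.seg i
  · intro ν hν
    simp [blks, bump] at hν

theorem wts_nonneg : ∀ i, 0 ≤ wts N B i := by
  rintro (i | k)
  · exact (N.w_pos i).le
  · exact le_rfl

theorem wts_sum : Summable (wts N B) := by
  apply Summable.sum
  · exact N.w_sum
  · exact summable_zero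

lemma Cpt_of_Adm (hb : Bornology.IsBounded Ω) {L : ℝ} (hL : 0 ≤ L) {S : Set E2} (hS : S ∈ Adm Ω L) :
    Cpt S ∧ H1 S ≤ L := by
  obtain ⟨h1, h2, h3, h4⟩ := hS
  refine ⟨⟨Metric.isCompact_of_isClosed_isBounded h1 (hb.subset h3), h2,
    (h4.trans_lt ENNReal.ofReal_lt_top).ne⟩, ?_⟩
  exact ENNReal.toReal_le_of_le_ofReal hL h4

lemma needle_geo {S : Set E2} (hS : Cpt S) (hH : H1 S ≤ C.len (1 / 8) (7 / 8)) (i : ι) :
    ∫ x in S, ‖fderiv ℝ (blks N B (.inl i)).w x‖ ^ 2 ∂(μH[1] : Measure E2) ≤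
      (blks N B (.inl i)).T (blks N B (.inl i)).w +
        (20 * C.Dl (1 / 8) (7 / 8) S * N.w i + 20 * (N.w i * infDist (N.c i) S)) := by
  have h1 : ∀ x, ‖fderiv ℝ (blks N B (.inl i)).w x‖ ^ 2 = N.w i * gam (dist x (N.c i) / N.ρ i) := by
    intro x
    have h2 := needle_norm_sq (a := √(N.w i)) (N.c i) (N.arms i) (N.ρ_pos i) x
    rw [Real.sq_sqrt (N.w_pos i).le] at h2
    exact h2
  simp only [h1]
  rw [integral_const_mul]
  have hSm : MeasurableSet S := hS.1.isClosed.measurableSet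
  have h3 : ∫ x in S, gam (dist x (N.c i) / N.ρ i) ∂(μH[1] : Measure E2) =
      ∫ x in S ∩ ball (N.c i) (N.ρ i), gam (dist x (N.c i) / N.ρ i) ∂(μH[1] : Measure E2) := by
    apply setIntegral_eq_of_subset_of_forall_sdiff_eq_zero hSm inter_subset_left
    rintro x ⟨hx1, hx2⟩
    have h4 : N.ρ i ≤ dist x (N.c i) := by
      by_contra hcon
      rw [not_le] at hcon
      exact hx2 ⟨hx1, hcon⟩
    have h5 : 1 ≤ dist x (N.c i) / N.ρ i := by
      rw [le_div_iff₀ (N.ρ_pos i), one_mul]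
      exact h4
    unfold gam
    split_ifs with h6
    · have : dist x (N.c i) / N.ρ i = 1 := le_antisymm h6.2 h5
      rw [this]
      ring
    · rfl
  rw [h3, needle_T_eq]
  have h7 := N.int S hS hH i
  have h8 := mul_le_mul_of_nonneg_left h7 (N.w_pos i).le
  linarith

lemma Dl_nonneg {Ω : Set E2} {C : Cv} {ι : Type} (N : ND Ω C ι) (S : Set E2) (hS : Cpt S) : 0 ≤ C.Dl (1 / 8) (7 / 8) S := by
  have h := N.dfct S hS
  exact h.nonneg fun i => mul_nonneg (N.w_pos i).le infDist_nonneg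

lemma bump_geo {S : Set E2} (hS : Cpt S) (hH : H1 S ≤ C.len (1 / 8) (7 / 8)) (k : κ) :
    ∫ x in S, ‖fderiv ℝ (blks N B (.inr k)).w x‖ ^ 2 ∂(μH[1] : Measure E2) ≤
      B.e k * C.Dl (1 / 8) (7 / 8) S := by
  have hreg := bump_reg (ε := B.ε k) (B.c k) (B.r_pos k)
  have hw : (blks N B (.inr k)).w = (bump (B.c k) (B.r k) (B.ε k)).w := rfl
  rw [hw]
  have hD := Dl_nonneg N S hS
  by_cases hne : (S ∩ closedBall (B.c k) (B.r k)).Nonempty
  · have h1 := B.small S hS hH k hne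
    refine le_trans ?_ h1
    have h2 : ‖∫ x in S, ‖fderiv ℝ (bump (B.c k) (B.r k) (B.ε k)).w x‖ ^ 2
        ∂(μH[1] : Measure E2)‖ ≤ (6 * B.ε k / B.r k) ^ 2 * (μH[1] : Measure E2).real S := by
      apply norm_setIntegral_le_of_norm_le_const
      · exact lt_of_le_of_ne le_top hS.2.2
      · intro x _
        rw [norm_pow, norm_norm]
        exact pow_le_pow_left₀ (norm_nonneg _)
          (bump_grad (B.c k) (B.r_pos k) (B.ε_pos k).le x) 2
    have h3 : (μH[1] : Measure E2).real S ≤ 1 := by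
      have h4 : (μH[1] : Measure E2).real S = H1 S := rfl
      rw [h4]
      exact hH.trans C.needle_len_le
    refine (le_abs_self _).trans (h2.trans ?_)
    have h5 : 0 ≤ (6 * B.ε k / B.r k) ^ 2 := sq_nonneg _
    nlinarith
  · have h1 : ∫ x in S, ‖fderiv ℝ (bump (B.c k) (B.r k) (B.ε k)).w x‖ ^ 2
        ∂(μH[1] : Measure E2) = 0 := by
      apply setIntegral_eq_zero_of_forall_eq_zero
      intro x hx
      have h2 : B.r k ≤ dist x (B.c k) := by
        by_contra hcon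
        rw [not_le] at hcon
        exact hne ⟨x, hx, mem_closedBall.2 hcon.le⟩
      rw [(hreg.supp x h2).2]
      simp
    rw [h1]
    exact mul_nonneg (B.e_nonneg k) hD

theorem blks_geo (hb : Bornology.IsBounded Ω) : ∀ s : Finset (ι ⊕ κ),
    ∀ S ∈ Adm Ω (C.len (1 / 8) (7 / 8)),
      ∑ i ∈ s, ∫ x in S, ‖fderiv ℝ (blks N B i).w x‖ ^ 2 ∂(μH[1] : Measure E2) ≤
        ∑ i ∈ s, (blks N B i).T (blks N B i).w +
          81 * ∑' i, wts N B i * infDist (blks N B i).c S := by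
  intro s S hS
  obtain ⟨hC, hH⟩ := Cpt_of_Adm hb ENNReal.toReal_nonneg hS
  have hD := Dl_nonneg N S hC
  have hdf := N.dfct S hC
  set Δ := C.Dl (1 / 8) (7 / 8) S with hΔ
  set G : ι ⊕ κ → ℝ := Sum.elim (fun i => 20 * Δ * N.w i + 20 * (N.w i * infDist (N.c i) S))
    (fun k => B.e k * Δ) with hG
  have hG0 : ∀ i, 0 ≤ G i := by
    rintro (i | k)
    · have h1 := N.w_pos i
      have h2 : 0 ≤ infDist (N.c i) S := infDist_nonneg
      show 0 ≤ 20 * Δ * N.w i + 20 * (N.w i * infDist (N.c i) S)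
      positivity
    · exact mul_nonneg (B.e_nonneg k) hD
  have hle : ∀ i, ∫ x in S, ‖fderiv ℝ (blks N B i).w x‖ ^ 2 ∂(μH[1] : Measure E2) ≤
      (blks N B i).T (blks N B i).w + G i := by
    rintro (i | k)
    · exact needle_geo N B hC hH i
    · rw [bump_T_eq, zero_add]
      exact bump_geo N B hC hH k
  have hs1 : HasSum (G ∘ Sum.inl) (20 * Δ * ∑' i, N.w i + 20 * Δ) :=
    (N.w_sum.hasSum.mul_left (20 * Δ)).add (hdf.mul_left 20)
  have hs2 : HasSum (G ∘ Sum.inr) ((∑' k, B.e k) * Δ) := B.e_sum.hasSum.mul_right Δ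
  have hs := hs1.sum hs2
  have hsum : ∑ i ∈ s, G i ≤ 81 * Δ := by
    refine (sum_le_hasSum s (fun i _ => hG0 i) hs).trans ?_
    have h1 := N.w_tot
    have h2 := B.e_tot
    nlinarith
  have hlast : ∑' i, wts N B i * infDist (blks N B i).c S = Δ := by
    have h1 : HasSum (fun i => wts N B i * infDist (blks N B i).c S) (Δ + 0) := by
      apply HasSum.sum
      · exact hdf
      · have : (fun i => wts N B i * infDist (blks N B i).c S) ∘ Sum.inr = fun _ : κ => (0:ℝ) := by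
          funext k
          simp [wts]
        rw [this]
        exact hasSum_zero
    rw [h1.tsum_eq, add_zero]
  rw [hlast]
  calc _ ≤ ∑ i ∈ s, ((blks N B i).T (blks N B i).w + G i) := Finset.sum_le_sum fun i _ => hle i
    _ ≤ _ := by
      rw [Finset.sum_add_distrib]
      linarith

theorem blks_bd {m : ℝ} (hm : 0 < m) : ∃ K : ι ⊕ κ → ℝ, (∀ i, 0 ≤ K i) ∧ Summable K ∧
    ∀ i, ∀ u : E2 → ℝ, C1c univ u →
      |(blks N B i).D u + m * (blks N B i).T u| ≤ K i * √(Dir u) := by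
  obtain ⟨K₀, hK₀, htr⟩ := needle_trace
  refine ⟨Sum.elim (fun i => (1 + m * K₀) * √(N.w i)) (fun k => √200 * B.ε k), ?_, ?_, ?_⟩
  · rintro (i | k)
    · have := sqrt_w_pos N i
      show 0 ≤ (1 + m * K₀) * √(N.w i)
      positivity
    · have := B.ε_pos k
      show 0 ≤ √200 * B.ε k
      positivity
  · apply Summable.sum
    · exact N.w_sqrt.mul_left (1 + m * K₀)
    · exact B.ε_sum.mul_left (√200)
  · rintro (i | k) u hu
    · have h1 := blk_D_le _ (blks_reg N B (.inl i)) u hu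
      have h2 := htr (N.c i) (N.ρ i) (√(N.w i)) (N.arms i) (N.ρ_pos i) (sqrt_w_pos N i) (N.card i)
        (N.unit i) u hu
      have h3 : √(Dir (blks N B (.inl i)).w) ≤ √(N.w i) :=
        Real.sqrt_le_sqrt (needle_Dir_le N B i)
      have h4 : |(blks N B (.inl i)).T u| ≤ K₀ * √(N.w i) * √(Dir u) := h2
      have h5 : 0 ≤ √(Dir u) := Real.sqrt_nonneg _
      have h6 := mul_le_mul_of_nonneg_right h3 h5
      have h7 := mul_le_mul_of_nonneg_left h4 hm.le
      show _ ≤ (1 + m * K₀) * √(N.w i) * √(Dir u)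
      calc |(blks N B (.inl i)).D u + m * (blks N B (.inl i)).T u| ≤
          |(blks N B (.inl i)).D u| + |m * (blks N B (.inl i)).T u| := abs_add_le _ _
        _ = |(blks N B (.inl i)).D u| + m * |(blks N B (.inl i)).T u| := by
            rw [abs_mul, abs_of_pos hm]
        _ ≤ _ := by linarith
    · have h1 := blk_D_le _ (blks_reg N B (.inr k)) u hu
      rw [bump_T_eq, mul_zero, add_zero]
      have h2 : √(Dir (blks N B (.inr k)).w) ≤ √200 * B.ε k := by
        have h3 := bump_Dir (B.c k) (B.r_pos k) (B.ε_pos k).le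
        have h4 : √(200 * B.ε k ^ 2) = √200 * B.ε k := by
          rw [Real.sqrt_mul (by norm_num), Real.sqrt_sq (B.ε_pos k).le]
        rw [← h4]
        exact Real.sqrt_le_sqrt h3
      exact h1.trans (mul_le_mul_of_nonneg_right h2 (Real.sqrt_nonneg _))

end

lemma zero_fun : ContDiff ℝ 1 (fun _ : E2 => (0:ℝ)) ∧ tsupport (fun _ : E2 => (0:ℝ)) = ∅ ∧
    Dir (fun _ : E2 => (0:ℝ)) = 0 ∧ ∀ b : Blk, b.T (fun _ : E2 => (0:ℝ)) = 0 := by
  refine ⟨contDiff_const, ?_, ?_, ?_⟩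
  · rw [tsupport_eq_empty_iff]
    rfl
  · unfold Dir
    simp
  · intro b
    unfold Blk.T
    simp

/-- The constant `m` does not depend on the family. -/
theorem blks_gain : ∃ m : ℝ, 0 < m ∧ ∀ (Ω : Set E2) (C : Cv) (ι κ : Type) (N : ND Ω C ι)
    (B : BD N κ), ∀ i, ∀ d : ℝ, 0 < d → d ≤ 2 → ∃ φ : E2 → ℝ, ContDiff ℝ 1 φ ∧
      tsupport φ ⊆ ball (blks N B i).c (blks N B i).ρ ∧ tsupport φ ⊆ ball (blks N B i).c d ∧
      (1 / 2) * Dir φ - m * (blks N B i).T φ ≤ -((m / 2) * 81 * wts N B i * d) := by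
  obtain ⟨c₀, hc₀, hg⟩ := needle_gain
  refine ⟨81 / c₀, by positivity, ?_⟩
  intro Ω C ι κ N B i d hd hd2
  rcases i with i | k
  · have hρ := N.ρ_pos i
    have hw := N.w_pos i
    obtain ⟨φ, h1, -, h3, h4⟩ := hg (N.c i) (N.ρ i) (√(N.w i)) (81 / c₀) (N.arms i) hρ
      (sqrt_w_pos N i) (by positivity) (N.ne i) (N.unit i) (min d (N.ρ i)) (lt_min hd hρ)
      (min_le_right _ _)
    refine ⟨φ, h1.of_le (by exact_mod_cast le_top), ?_, ?_, ?_⟩
    · exact h3.trans (ball_subset_ball (min_le_right _ _))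
    · exact h3.trans (ball_subset_ball (min_le_left _ _))
    · refine h4.trans ?_
      rw [neg_le_neg_iff, Real.sq_sqrt hw.le]
      have h5 : d / 2 ≤ min d (N.ρ i) / N.ρ i := by
        rw [le_div_iff₀ hρ]
        have h6 := N.ρ_le i
        apply le_min
        · nlinarith
        · nlinarith
      show 81 / c₀ / 2 * 81 * N.w i * d ≤ c₀ * (81 / c₀) ^ 2 * N.w i * (min d (N.ρ i) / N.ρ i)
      have h7 : c₀ * (81 / c₀) ^ 2 * N.w i = 81 / c₀ * 81 * N.w i := by
        field_simp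
      rw [h7]
      have h8 : 0 ≤ 81 / c₀ * 81 * N.w i := by positivity
      have h9 := mul_le_mul_of_nonneg_left h5 h8
      linarith
  · obtain ⟨z1, z2, z3, z4⟩ := zero_fun
    refine ⟨_, z1, ?_, ?_, ?_⟩
    · rw [z2]
      exact empty_subset _
    · rw [z2]
      exact empty_subset _
    · rw [z3, z4]
      show _ ≤ -(81 / c₀ / 2 * 81 * 0 * d)
      simp

end Pool.Agent.Lib.P8e
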