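import Pool.Agent.Lib.P8e.NeedleInt
import Pool.Agent.Lib.P8e.Blk

set_option autoImplicit false

/-!
# The data of the needles

Index type `ℕ ⊕ Bool`: `inl j`: centre `pt (t j)`, radius `ρ j`, weight `τ j`, two arms (`right_seg`, `left_seg`, different because of the sign of the first
coordinate; `Finset.card_pair`); `inr false`, `inr true`: centres `pt (1/8)`, `pt (7/8)`, radius `ρe`, weight `1`, one arm (`left_end_seg`, `right_end_seg`).

PROOF SKETCH. `w_tot`: `∑ τ ≤ 1/20`. `HasSum.sum` / `Summable.sum` for the sum type. `seg`: the points `pt x` with `x ∈ [1/8, 7/8]` are in `SK` (`t_lo, t_hi, ρ_le`, `8 ρ ≤ 1/25`).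
`disj`: `dist (pt x) (pt y) ≥ |x - y|` (`dist_pt_ge`), `8 ρ j ≤ |t i - t j|` for both orders, `t j - 1/8 ≥ 1/16`, `7/8 - t j ≥ 1/16`.
`int`: `needle_int`, `needle_int_left/right`. `dfct`: definition of `Dl`; all `1/8 < t j < 7/8` (`summable_Dl`).
-/

open MeasureTheory Set Metric
open scoped ENNReal NNReal InnerProductSpace

namespace Pool.Agent.Lib.P8e

/-- The data of the needles. -/
structure ND (Ω : Set E2) (C : Cv) (ι : Type) : Type where
  c : ι → E2
  ρ : ι → ℝ
  w : ι → ℝ
  arms : ι → Finset E2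
  ρ_pos : ∀ i, 0 < ρ i
  ρ_le : ∀ i, ρ i ≤ 1 / 200
  w_pos : ∀ i, 0 < w i
  w_sum : Summable w
  w_tot : ∑' i, w i ≤ 3
  w_sqrt : Summable fun i => √(w i)
  sub : ∀ i, closedBall (c i) (ρ i) ⊆ Ω
  disj : ∀ i j, i ≠ j → Disjoint (closedBall (c i) (ρ i)) (closedBall (c j) (ρ j))
  ne : ∀ i, (arms i).Nonempty
  card : ∀ i, (arms i).card ≤ 2
  unit : ∀ i, ∀ ν ∈ arms i, ‖ν‖ = 1
  seg : ∀ i, ∀ ν ∈ arms i, ∀ r ∈ Icc 0 (ρ i), c i + r • ν ∈ C.SK
  int : ∀ S : Set E2, Cpt S → H1 S ≤ C.len (1 / 8) (7 / 8) → ∀ i,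
    ∫ x in S ∩ ball (c i) (ρ i), gam (dist x (c i) / ρ i) ∂(μH[1] : Measure E2) ≤
      (arms i).card * ρ i / 30 + 20 * (C.Dl (1 / 8) (7 / 8) S + infDist (c i) S)
  dfct : ∀ S : Set E2, Cpt S → HasSum (fun i => w i * infDist (c i) S) (C.Dl (1 / 8) (7 / 8) S)

namespace FinNAux

/-- abscissas -/
noncomputable def ab (C : Cv) : ℕ ⊕ Bool → ℝ
  | .inl j => C.t j
  | .inr false => 1 / 8
  | .inr true => 7 / 8

noncomputable def rad (C : Cv) : ℕ ⊕ Bool → ℝ
  | .inl j => C.ρ j
  | .inr _ => C.ρe

noncomputable def wt (C : Cv) : ℕ ⊕ Bool → ℝ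
  | .inl j => C.τ j
  | .inr _ => 1

lemma rad_pos (C : Cv) (i : ℕ ⊕ Bool) : 0 < rad C i := by
  rcases i with j | b
  · exact C.ρ_pos j
  · exact C.ρe_pos

lemma rad_le (C : Cv) (i : ℕ ⊕ Bool) : rad C i ≤ 1 / 200 := by
  rcases i with j | b
  · exact C.ρ_le j
  · exact C.ρe_le

lemma ab_sep (C : Cv) (i j : ℕ ⊕ Bool) (hij : i ≠ j) : rad C i + rad C j < |ab C i - ab C j| := by
  have hi := rad_le C i
  have hj := rad_le C j
  have pi := rad_pos C i
  have pj := rad_pos C j
  rcases i with i | b <;> rcases j with j | b'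
  · have hne : i ≠ j := fun h => hij (by rw [h])
    have h1 := C.iso i j hne
    have h2 := C.iso j i (Ne.symm hne)
    rw [abs_sub_comm] at h2
    simp only [rad, ab] at *
    linarith
  · have h1 := C.t_lo i
    have h2 := C.t_hi i
    cases b'
    · simp only [ab] at *
      rw [abs_of_pos (by linarith)]
      linarith
    · simp only [ab] at *
      rw [abs_of_neg (by linarith)]
      linarith
  · have h1 := C.t_lo j
    have h2 := C.t_hi j
    cases b
    · simp only [ab] at *
      rw [abs_of_neg (by linarith)]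
      linarith
    · simp only [ab] at *
      rw [abs_of_pos (by linarith)]
      linarith
  · cases b <;> cases b'
    · exact absurd rfl hij
    · simp only [ab] at *
      rw [abs_of_neg (by norm_num)]
      linarith
    · simp only [ab] at *
      rw [abs_of_pos (by norm_num)]
      linarith
    · exact absurd rfl hij

lemma wt_sum (C : Cv) : Summable (wt C) := by
  apply Summable.sum
  · exact C.τ_sum
  · exact (hasSum_fintype _).summable

lemma wt_tot (C : Cv) : ∑' i, wt C i ≤ 3 := by
  have h : HasSum (wt C) (∑' j, C.τ j + ∑ b : Bool, (1 : ℝ)) := by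
    apply HasSum.sum
    · exact C.τ_sum.hasSum
    · exact hasSum_fintype _
  rw [h.tsum_eq]
  have := C.τ_tot
  simp only [Fintype.sum_bool]
  linarith

end FinNAux

open FinNAux

theorem Cv.exists_ND (C : Cv) {Ω : Set E2} (hs : Summable fun j => √(C.τ j))
    (hb : ∀ j, closedBall (C.pt (C.t j)) (C.ρ j) ⊆ Ω)
    (hl : closedBall (C.pt (1 / 8)) C.ρe ⊆ Ω) (hr : closedBall (C.pt (7 / 8)) C.ρe ⊆ Ω) :
    Nonempty (ND Ω C (ℕ ⊕ Bool)) := by
  classical
  choose νR hR1 hR2 hR3 using C.right_seg
  choose νL hL1 hL2 hL3 using C.left_seg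
  obtain ⟨νl, hl1, hl2, hl3⟩ := C.left_end_seg
  obtain ⟨νr, hr1, hr2, hr3⟩ := C.right_end_seg
  have hne : ∀ j, νR j ≠ νL j := by
    intro j h
    have h1 := hR2 j
    have h2 := hL2 j
    rw [h] at h1
    linarith
  refine ⟨{
    c := fun i => C.pt (ab C i)
    ρ := rad C
    w := wt C
    arms := fun i => match i with
      | .inl j => {νR j, νL j}
      | .inr false => {νl}
      | .inr true => {νr}
    ρ_pos := rad_pos C
    ρ_le := rad_le C
    w_pos := ?_
    w_sum := wt_sum C
    w_tot := wt_tot C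
    w_sqrt := ?_
    sub := ?_
    disj := ?_
    ne := ?_
    card := ?_
    unit := ?_
    seg := ?_
    int := ?_
    dfct := ?_ }⟩
  · rintro (j | b)
    · exact C.τ_pos j
    · exact one_pos
  · apply Summable.sum
    · exact hs
    · exact (hasSum_fintype _).summable
  · rintro (j | b)
    · exact hb j
    · cases b
      · exact hl
      · exact hr
  · intro i j hij
    apply closedBall_disjoint_closedBall
    exact (ab_sep C i j hij).trans_le (C.dist_pt_ge _ _)
  · rintro (j | b)
    · simp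
    · cases b <;> simp
  · rintro (j | b)
    · exact Finset.card_le_two
    · cases b <;> simp
  · rintro (j | b) ν hν
    · simp only [Finset.mem_insert, Finset.mem_singleton] at hν
      rcases hν with rfl | rfl
      · exact hR1 j
      · exact hL1 j
    · cases b
      · simp only [Finset.mem_singleton] at hν
        rw [hν]; exact hl1
      · simp only [Finset.mem_singleton] at hν
        rw [hν]; exact hr1
  · rintro (j | b) ν hν r hr
    · have h1 := C.t_lo j
      have h2 := C.t_hi j
      have h3 := C.ρ_le j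
      have h4 := C.ρ_pos j
      have hr' : r ∈ Icc 0 (4 * C.ρ j) := ⟨hr.1, hr.2.trans (by simp only [rad]; linarith)⟩
      simp only [Finset.mem_insert, Finset.mem_singleton] at hν
      rcases hν with rfl | rfl
      · obtain ⟨x, hx, e⟩ := hR3 j r hr'
        exact ⟨x, ⟨by linarith [hx.1], by linarith [hx.2]⟩, e.symm⟩
      · obtain ⟨x, hx, e⟩ := hL3 j r hr'
        exact ⟨x, ⟨by linarith [hx.1], by linarith [hx.2]⟩, e.symm⟩
    · have h3 := C.ρe_le
      have h4 := C.ρe_pos
      have hr' : r ∈ Icc 0 (4 * C.ρe) := ⟨hr.1, hr.2.trans (by simp only [rad]; linarith)⟩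
      cases b
      · simp only [Finset.mem_singleton] at hν
        obtain ⟨x, hx, e⟩ := hl3 r hr'
        rw [hν]
        exact ⟨x, ⟨by linarith [hx.1], by linarith [hx.2]⟩, e.symm⟩
      · simp only [Finset.mem_singleton] at hν
        obtain ⟨x, hx, e⟩ := hr3 r hr'
        rw [hν]
        exact ⟨x, ⟨by linarith [hx.1], by linarith [hx.2]⟩, e.symm⟩
  · rintro S hS hH (j | b)
    · have h1 := C.needle_int j hS hH
      have h2 : ((({νR j, νL j} : Finset E2).card : ℕ) : ℝ) = 2 := by
        rw [Finset.card_pair (hne j)]; norm_num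
      simp only [h2]
      exact h1
    · cases b
      · have h1 := C.needle_int_left hS hH
        simp only [Finset.card_singleton, Nat.cast_one]
        exact h1
      · have h1 := C.needle_int_right hS hH
        simp only [Finset.card_singleton, Nat.cast_one]
        exact h1
  · intro S hS
    have hsum := C.summable_Dl (1 / 8) (7 / 8) hS.1 hS.2.1.nonempty
    have hcond : ∀ j, (1 / 8 < C.t j ∧ C.t j < 7 / 8) := fun j =>
      ⟨by linarith [C.t_lo j], by linarith [C.t_hi j]⟩
    have e : (fun j => if 1 / 8 < C.t j ∧ C.t j < 7 / 8 then C.τ j * C.dj S j else 0) =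
        fun j => C.τ j * C.dj S j := by
      funext j
      rw [if_pos (hcond j)]
    have e2 : C.Dl (1 / 8) (7 / 8) S = ∑' j, C.τ j * C.dj S j +
        ∑ b : Bool, infDist (C.pt (ab C (.inr b))) S := by
      unfold Cv.Dl
      rw [e, Fintype.sum_bool]
      simp only [ab]
      ring
    rw [e2]
    rw [e] at hsum
    apply HasSum.sum
    · exact hsum.hasSum
    · have h := hasSum_fintype (fun b : Bool => infDist (C.pt (ab C (.inr b))) S)
      refine h.congr_fun ?_
      intro b
      simp [wt]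

end Pool.Agent.Lib.P8e
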