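import Pool.Agent.Lib.P8e.Blk

set_option autoImplicit false

/-!
# `C^1` test functions are allowed

PROOF SKETCH. Let `u` be `C^1` with compact support `K ⊆ Ω`, `ε₀ > 0` with `cthickening ε₀ K ⊆ Ω`. For `ε → 0` let `u_ε = η_ε ⋆ u`
(`ContDiffBump.normed` convolution): smooth, support in `cthickening ε K`, `u_ε → u` and `∇u_ε = η_ε ⋆ ∇u → ∇u` uniformly
(uniform continuity; `ContDiffBump.dist_normed_convolution_le`, `HasCompactSupport.hasFDerivAt_convolution_right`). All integrals converge (finite measures `μ`, `f^±`;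
Lebesgue measure restricted to a fixed compact set), so `functional u_ε → functional u`, and `energy ≤ functional u_ε` for every `ε`.
-/

open MeasureTheory Set Metric
open scoped ENNReal NNReal InnerProductSpace

namespace Pool.Agent.Lib.P8e

namespace Moll

open Filter Topology Convolution

/-- Uniform approximation by test functions. -/
lemma exists_test {Ω : Set E2} (hΩ : IsOpen Ω) {u : E2 → ℝ} (hu : C1c Ω u) :
    ∃ K1 : Set E2, IsCompact K1 ∧ tsupport u ⊆ K1 ∧ ∀ η : ℝ, 0 < η → ∃ v : E2 → ℝ, IsTest Ω v ∧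
      tsupport v ⊆ K1 ∧ (∀ x, |v x - u x| ≤ η) ∧
      ∀ x, ‖fderiv ℝ v x - fderiv ℝ u x‖ ≤ η := by
  obtain ⟨hu1, hu2, hu3⟩ := hu
  obtain ⟨δ, hδ, hsub⟩ := hu2.isCompact.exists_cthickening_subset_open hΩ hu3
  refine ⟨cthickening δ (tsupport u), hu2.isCompact.cthickening,
    self_subset_cthickening _, ?_⟩
  intro η hη
  have huc : UniformContinuous u := hu2.uniformContinuous_of_continuous hu1.continuous
  have hfc : Continuous (fderiv ℝ u) := hu1.continuous_fderiv (by simp)
  have hfs : HasCompactSupport (fderiv ℝ u) := hu2.fderiv ℝ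
  have huf : UniformContinuous (fderiv ℝ u) := hfs.uniformContinuous_of_continuous hfc
  obtain ⟨r1, hr1, h1⟩ := Metric.uniformContinuous_iff.1 huc η hη
  obtain ⟨r2, hr2, h2⟩ := Metric.uniformContinuous_iff.1 huf η hη
  set r := min δ (min r1 r2) with hr
  have hr0 : 0 < r := lt_min hδ (lt_min hr1 hr2)
  set φ : ContDiffBump (0 : E2) := ⟨r / 2, r, half_pos hr0, half_lt_self hr0⟩ with hφ
  have hrO : φ.rOut = r := rfl
  set v : E2 → ℝ := φ.normed volume ⋆[ContinuousLinearMap.lsmul ℝ ℝ, volume] u with hv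
  have hsupp : Function.support v ⊆ cthickening δ (tsupport u) := by
    intro x hx
    have h3 := support_convolution_subset (ContinuousLinearMap.lsmul ℝ ℝ) hx
    obtain ⟨a, ha, b, hb, rfl⟩ := Set.mem_add.1 h3
    rw [φ.support_normed_eq, mem_ball, dist_zero_right, hrO] at ha
    refine mem_cthickening_of_dist_le _ b _ _ (subset_tsupport _ hb) ?_
    rw [dist_eq_norm, add_sub_cancel_right]
    exact ha.le.trans (min_le_left _ _)
  have hts : tsupport v ⊆ cthickening δ (tsupport u) :=
    closure_minimal hsupp isClosed_cthickening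
  have hli : LocallyIntegrable u volume := hu1.continuous.locallyIntegrable
  have hlφ : LocallyIntegrable (φ.normed volume) volume :=
    φ.continuous_normed.locallyIntegrable
  have hfd : ∀ x, fderiv ℝ v x
      = (φ.normed volume ⋆[ContinuousLinearMap.lsmul ℝ ℝ, volume] fderiv ℝ u) x := by
    intro x
    rw [(hu2.hasFDerivAt_convolution_right (ContinuousLinearMap.lsmul ℝ ℝ) hlφ hu1 x).fderiv]
    rw [convolution_def, convolution_def]
    congr 1
  refine ⟨v, ⟨?_, ?_, hts.trans hsub⟩, hts, ?_, ?_⟩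
  · exact φ.hasCompactSupport_normed.contDiff_convolution_left _ φ.contDiff_normed hli
  · exact HasCompactSupport.of_support_subset_isCompact hu2.isCompact.cthickening hsupp
  · intro x
    have h3 := φ.dist_normed_convolution_le (μ := volume) (g := u) (x₀ := x) (ε := η)
      hu1.continuous.aestronglyMeasurable (fun y hy => (h1 (lt_of_lt_of_le (mem_ball.1 hy)
        ((min_le_right _ _).trans (min_le_left _ _)))).le)
    rw [Real.dist_eq] at h3
    exact h3
  · intro x
    have h3 := φ.dist_normed_convolution_le (μ := volume) (g := fderiv ℝ u) (x₀ := x) (ε := η)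
      hfc.aestronglyMeasurable (fun y hy => (h2 (lt_of_lt_of_le (mem_ball.1 hy)
        ((min_le_right _ _).trans (min_le_right _ _)))).le)
    rw [dist_eq_norm] at h3
    rw [hfd]
    exact h3

/-- Convergence of the gradient integrals. -/
lemma tendsto_grad {K1 : Set E2} (hK1 : IsCompact K1) {u : E2 → ℝ} (hu1 : ContDiff ℝ 1 u)
    (hu2 : HasCompactSupport u) {v : ℕ → E2 → ℝ} (hv : ∀ n, ContDiff ℝ 1 (v n))
    (hvK : ∀ n, tsupport (v n) ⊆ K1)
    (hlim : ∀ n x, ‖fderiv ℝ (v n) x - fderiv ℝ u x‖ ≤ 1 / ((n : ℝ) + 1))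
    (ν : Measure E2) (hν : ν K1 ≠ ∞) :
    Tendsto (fun n => ∫ x, ‖fderiv ℝ (v n) x‖ ^ 2 ∂ν) atTop
      (𝓝 (∫ x, ‖fderiv ℝ u x‖ ^ 2 ∂ν)) := by
  have hfc : Continuous (fderiv ℝ u) := hu1.continuous_fderiv (by simp)
  have hfs : HasCompactSupport (fderiv ℝ u) := hu2.fderiv ℝ
  obtain ⟨M, hM⟩ := hfs.exists_bound_of_continuous hfc
  have hM0 : 0 ≤ M := (norm_nonneg _).trans (hM 0)
  refine tendsto_integral_of_dominated_convergence (K1.indicator fun _ => (M + 1) ^ 2) ?_ ?_ ?_ ?_
  · intro n
    exact ((((hv n).continuous_fderiv (by simp)).norm).pow 2).aestronglyMeasurable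
  · exact (integrable_indicator_iff hK1.measurableSet).2 (integrableOn_const hν)
  · intro n
    refine Filter.Eventually.of_forall fun x => ?_
    by_cases hx : x ∈ K1
    · rw [indicator_of_mem hx, Real.norm_eq_abs, abs_of_nonneg (by positivity)]
      have h1 : ‖fderiv ℝ (v n) x‖ ≤ M + 1 := by
        have h2 := hlim n x
        have h3 := norm_sub_norm_le (fderiv ℝ (v n) x) (fderiv ℝ u x)
        have h4 : 1 / ((n : ℝ) + 1) ≤ 1 := by
          rw [div_le_one (by positivity)]
          linarith [n.cast_nonneg (α := ℝ)]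
        linarith [hM x]
      gcongr
    · rw [indicator_of_notMem hx]
      have h1 : fderiv ℝ (v n) x = 0 := by
        by_contra h
        exact hx (hvK n (support_fderiv_subset ℝ h))
      rw [h1]
      simp
  · refine Filter.Eventually.of_forall fun x => ?_
    have h1 : Tendsto (fun n => fderiv ℝ (v n) x) atTop (𝓝 (fderiv ℝ u x)) := by
      rw [tendsto_iff_norm_sub_tendsto_zero]
      exact squeeze_zero (fun n => norm_nonneg _) (fun n => hlim n x)
        tendsto_one_div_add_atTop_nhds_zero_nat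
    exact (h1.norm).pow 2

/-- Convergence of the integrals of the function. -/
lemma tendsto_fun {u : E2 → ℝ} (hu1 : ContDiff ℝ 1 u)
    (hu2 : HasCompactSupport u) {v : ℕ → E2 → ℝ} (hv : ∀ n, ContDiff ℝ 1 (v n))
    (hlim : ∀ n x, |v n x - u x| ≤ 1 / ((n : ℝ) + 1))
    (ν : Measure E2) [IsFiniteMeasure ν] :
    Tendsto (fun n => ∫ x, v n x ∂ν) atTop (𝓝 (∫ x, u x ∂ν)) := by
  obtain ⟨M, hM⟩ := hu2.exists_bound_of_continuous hu1.continuous
  refine tendsto_integral_of_dominated_convergence (fun _ => M + 1) ?_ (integrable_const _) ?_ ?_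
  · intro n
    exact (hv n).continuous.aestronglyMeasurable
  · intro n
    refine Filter.Eventually.of_forall fun x => ?_
    have h2 := hlim n x
    have h3 := norm_sub_norm_le (v n x) (u x)
    have h4 : 1 / ((n : ℝ) + 1) ≤ 1 := by
      rw [div_le_one (by positivity)]
      linarith [n.cast_nonneg (α := ℝ)]
    rw [Real.norm_eq_abs (v n x - u x)] at h3
    linarith [hM x]
  · refine Filter.Eventually.of_forall fun x => ?_
    rw [tendsto_iff_norm_sub_tendsto_zero]
    exact squeeze_zero (fun n => norm_nonneg _) (fun n => hlim n x)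
      tendsto_one_div_add_atTop_nhds_zero_nat

end Moll

open Moll in
theorem energy_le_C1 {Ω : Set E2} (hΩ : IsOpen Ω) (f : SignedMeasure E2) (m : ℝ)
    (μ : Measure E2) [IsFiniteMeasure μ] {u : E2 → ℝ} (hu : C1c Ω u) :
    energy Ω f m μ ≤ ((functional Ω f m μ u : ℝ) : EReal) := by
  obtain ⟨K1, hK1, _, hex⟩ := exists_test hΩ hu
  choose v hv using fun n : ℕ => hex (1 / ((n : ℝ) + 1)) (by positivity)
  have hvc : ∀ n, ContDiff ℝ 1 (v n) := fun n => (hv n).1.1.of_le (by
    exact_mod_cast (le_top : (1 : ℕ∞) ≤ ⊤))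
  have hvK : ∀ n, tsupport (v n) ⊆ K1 := fun n => (hv n).2.1
  have h1 := tendsto_grad hK1 hu.1 hu.2.1 hvc hvK (fun n => (hv n).2.2.2)
    (volume.restrict Ω) (by
      have : volume.restrict Ω K1 ≤ volume K1 := Measure.restrict_apply_le Ω K1
      exact (this.trans_lt hK1.measure_lt_top).ne)
  have h2 := tendsto_grad hK1 hu.1 hu.2.1 hvc hvK (fun n => (hv n).2.2.2)
    (μ.restrict Ω) (measure_ne_top _ _)
  have h3 := tendsto_fun hu.1 hu.2.1 hvc (fun n => (hv n).2.2.1)
    f.toJordanDecomposition.posPart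
  have h4 := tendsto_fun hu.1 hu.2.1 hvc (fun n => (hv n).2.2.1)
    f.toJordanDecomposition.negPart
  have h5 : Filter.Tendsto (fun n => functional Ω f m μ (v n)) Filter.atTop
      (nhds (functional Ω f m μ u)) := by
    unfold functional integralS
    exact ((h1.const_mul _).add (h2.const_mul _)).sub (h3.sub h4)
  have h6 : Filter.Tendsto (fun n => ((functional Ω f m μ (v n) : ℝ) : EReal)) Filter.atTop
      (nhds ((functional Ω f m μ u : ℝ) : EReal)) :=
    (continuous_coe_real_ereal.tendsto _).comp h5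
  refine ge_of_tendsto h6 (Filter.Eventually.of_forall fun n => ?_)
  exact iInf_le (fun w : {w : E2 → ℝ // IsTest Ω w} =>
    ((functional Ω f m μ w.1 : ℝ) : EReal)) ⟨v n, (hv n).1⟩

end Pool.Agent.Lib.P8e
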