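import Pool.Agent.Lib.P8e.ELow
import Pool.Agent.Lib.P8e.Comb
import Pool.Agent.Lib.P8e.Moll

set_option autoImplicit false

/-!
# Upper bound of the energy on the relaxed class
-/

open MeasureTheory Set Metric
open scoped ENNReal NNReal InnerProductSpace

namespace Pool.Agent.Lib.P8e

open Filter Topology

/-- The choice of the function for one block. -/
lemma exists_phi {Ω : Set E2} {m R Λ : ℝ} (hm : 0 < m) (hΛ : 0 ≤ Λ) {β : Type} (F : Fam Ω m β)
    (wt : β → ℝ) (hwt : ∀ i, 0 ≤ wt i)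
    (hgain : ∀ i, ∀ d : ℝ, 0 < d → d ≤ R → ∃ φ : E2 → ℝ, ContDiff ℝ 1 φ ∧
      tsupport φ ⊆ ball (F.b i).c (F.b i).ρ ∧ tsupport φ ⊆ ball (F.b i).c d ∧
      (1 / 2) * Dir φ - m * (F.b i).T φ ≤ -((m / 2) * Λ * wt i * d))
    (i : β) (d : ℝ) (hd : d ≤ R) : ∃ φ : E2 → ℝ, ContDiff ℝ 1 φ ∧
      tsupport φ ⊆ ball (F.b i).c (F.b i).ρ ∧ tsupport φ ⊆ ball (F.b i).c d ∧
      (1 / 2) * Dir φ - m * (F.b i).T φ ≤ -((m / 2) * Λ * wt i * d) := by
  by_cases h : 0 < d
  · exact hgain i d h hd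
  · refine ⟨fun _ => 0, contDiff_const, ?_, ?_, ?_⟩
    · have h1 : tsupport (fun _ : E2 => (0:ℝ)) = ∅ := by
        rw [tsupport_eq_empty_iff]
        rfl
      rw [h1]
      exact empty_subset _
    · have h1 : tsupport (fun _ : E2 => (0:ℝ)) = ∅ := by
        rw [tsupport_eq_empty_iff]
        rfl
      rw [h1]
      exact empty_subset _
    · have h1 : Dir (fun _ : E2 => (0:ℝ)) = 0 := by
        unfold Dir
        simp
      have h2 : (F.b i).T (fun _ : E2 => (0:ℝ)) = 0 := by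
        unfold Blk.T
        simp
      rw [h1, h2]
      have h3 : 0 ≤ (m / 2) * Λ * wt i * (-d) := by
        have := hwt i
        have : 0 ≤ -d := by linarith
        positivity
      linarith

theorem Fam.energy_le {Ω : Set E2} (hΩ : IsOpen Ω) (hb : Bornology.IsBounded Ω) {m L R Λ : ℝ}
    (hm : 0 < m) (hR : 0 < R) (hΛ : 0 ≤ Λ) {β : Type} [Countable β] (F : Fam Ω m β)
    (f : SignedMeasure E2)
    (hf : ∀ u : E2 → ℝ, C1c univ u →
      HasSum (fun i => (F.b i).D u + m * (F.b i).T u) (integralS f u))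
    (hDir : Summable fun i => Dir (F.b i).w) (hT : Summable fun i => (F.b i).T (F.b i).w)
    (wt : β → ℝ) (hwt : ∀ i, 0 ≤ wt i) (hws : Summable wt)
    (hdiam : ∀ x ∈ closure Ω, ∀ y ∈ closure Ω, dist x y ≤ R)
    (hgeo : ∀ s : Finset β, ∀ S ∈ Adm Ω L,
      ∑ i ∈ s, ∫ x in S, ‖fderiv ℝ (F.b i).w x‖ ^ 2 ∂(μH[1] : Measure E2) ≤
        ∑ i ∈ s, (F.b i).T (F.b i).w + Λ * ∑' i, wt i * infDist (F.b i).c S)
    (hgain : ∀ i, ∀ d : ℝ, 0 < d → d ≤ R → ∃ φ : E2 → ℝ, ContDiff ℝ 1 φ ∧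
      tsupport φ ⊆ ball (F.b i).c (F.b i).ρ ∧ tsupport φ ⊆ ball (F.b i).c d ∧
      (1 / 2) * Dir φ - m * (F.b i).T φ ≤ -((m / 2) * Λ * wt i * d)) :
    ∀ ν ∈ ML Ω L, energy Ω f m (ν : Measure E2) ≤ ((-F.A : ℝ) : EReal) := by
  classical
  intro ν hν
  obtain ⟨𝒰, hs𝒰, h𝒰⟩ := mem_closure_iff_ultrafilter.1 hν
  -- a set for every measure
  set Sf : FiniteMeasure E2 → Set E2 := fun μ =>
    if h : ∃ S ∈ Adm Ω L, (μ : Measure E2) = (μH[1] : Measure E2).restrict S then h.choose else ∅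
    with hSf
  have hSf1 : ∀ μ ∈ {μ : FiniteMeasure E2 | ∃ S ∈ Adm Ω L,
      (μ : Measure E2) = (μH[1] : Measure E2).restrict S}, Sf μ ∈ Adm Ω L ∧
      (μ : Measure E2) = (μH[1] : Measure E2).restrict (Sf μ) := by
    intro μ hμ
    have h1 : Sf μ = hμ.choose := dif_pos hμ
    rw [h1]
    exact hμ.choose_spec
  set dd : β → FiniteMeasure E2 → ℝ := fun i μ => infDist (F.b i).c (Sf μ) with hdd
  have hcΩ : ∀ i, (F.b i).c ∈ Ω := fun i => F.sub i (mem_closedBall_self (F.reg i).ρ_pos.le)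
  have hdd0 : ∀ i μ, 0 ≤ dd i μ := fun i μ => infDist_nonneg
  have hddR : ∀ i, ∀ S ∈ Adm Ω L, infDist (F.b i).c S ≤ R := by
    intro i S hS
    obtain ⟨x, hx⟩ := hS.2.1.nonempty
    exact (infDist_le_dist_of_mem hx).trans
      (hdiam _ (subset_closure (hcΩ i)) _ (subset_closure (hS.2.2.1 hx)))
  have hlim : ∀ i, ∃ δ ∈ Icc 0 R, Tendsto (dd i) 𝒰 (𝓝 δ) := by
    intro i
    have h1 : (𝒰.map (dd i) : Filter ℝ) ≤ 𝓟 (Icc 0 R) := by
      rw [le_principal_iff]
      show dd i ⁻¹' (Icc 0 R) ∈ 𝒰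
      filter_upwards [hs𝒰] with μ hμ
      exact ⟨hdd0 i μ, hddR i _ (hSf1 μ hμ).1⟩
    obtain ⟨δ, hδ, h2⟩ := isCompact_Icc.ultrafilter_le_nhds (𝒰.map (dd i)) h1
    exact ⟨δ, hδ, h2⟩
  choose δ hδ hlim using hlim
  set W : ℝ := ∑' i, wt i with hW
  set B : Finset β → ℝ → ℝ := fun s η => -((1 / 2) * ∑ i ∈ s, Dir (F.b i).w) -
    (m / 2) * ∑ i ∈ s, (F.b i).T (F.b i).w + (m / 2) * Λ * (η * W + R * (W - ∑ i ∈ s, wt i)) with hB
  have key : ∀ (s : Finset β) (η : ℝ), 0 < η →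
      energy Ω f m (ν : Measure E2) ≤ ((B s η : ℝ) : EReal) := by
    intro s η hη
    have hφ := fun i => exists_phi hm hΛ F wt hwt hgain i (δ i - η) (by linarith [(hδ i).2])
    choose φ hφ1 hφ2 hφ3 hφ4 using hφ
    have hu := F.tst_C1c s φ hφ1 hφ2
    refine (energy_le_C1 hΩ f m (ν : Measure E2) hu).trans ?_
    rw [EReal.coe_le_coe_iff, F.tst_functional hΩ f hf s φ hφ1 hφ2 (ν : Measure E2)]
    set u := F.tst s φ with hudef
    -- the limit
    have hcont : Continuous (fun x => ‖fderiv ℝ u x‖ ^ 2) :=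
      ((hu.1.continuous_fderiv one_ne_zero).norm).pow 2
    have hcomp : HasCompactSupport (fun x => ‖fderiv ℝ u x‖ ^ 2) := by
      have h1 : HasCompactSupport (fderiv ℝ u) := hu.2.1.fderiv ℝ
      exact h1.comp_left (g := fun A : E2 →L[ℝ] ℝ => ‖A‖ ^ 2) (by simp)
    obtain ⟨C, hC⟩ := hcomp.exists_bound_of_continuous hcont
    set g : BoundedContinuousFunction E2 ℝ :=
      BoundedContinuousFunction.ofNormedAddCommGroup (fun x => ‖fderiv ℝ u x‖ ^ 2) hcont C hC
      with hg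
    have hgx : ∀ x, g x = ‖fderiv ℝ u x‖ ^ 2 := fun x => rfl
    have hint : ∀ μ : Measure E2, ∫ x in Ω, ‖fderiv ℝ u x‖ ^ 2 ∂μ = ∫ x, g x ∂μ := by
      intro μ
      apply setIntegral_eq_integral_of_forall_compl_eq_zero
      intro x hx
      have h1 : fderiv ℝ u x = 0 := by
        by_contra hne
        exact hx (hu.2.2 (support_fderiv_subset ℝ hne))
      rw [h1]
      simp
    have htend := (FiniteMeasure.tendsto_iff_forall_integral_tendsto.1
      (show Tendsto (fun μ : FiniteMeasure E2 => μ) 𝒰 (𝓝 ν) from h𝒰)) g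
    have hev : ∀ᶠ μ : FiniteMeasure E2 in (𝒰 : Filter (FiniteMeasure E2)), ∫ x, g x ∂(μ : Measure E2) ≤
        ∑ i ∈ s, (F.b i).T (F.b i).w + Λ * (∑ i ∈ s, wt i * dd i μ + R * (W - ∑ i ∈ s, wt i)) := by
      have h1 : ∀ᶠ μ : FiniteMeasure E2 in (𝒰 : Filter (FiniteMeasure E2)), ∀ i ∈ s, δ i - η < dd i μ := by
        rw [Filter.eventually_all_finset]
        intro i _
        exact (hlim i).eventually (lt_mem_nhds (by linarith))
      filter_upwards [hs𝒰, h1] with μ hμ hμ1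
      obtain ⟨hA, hμS⟩ := hSf1 μ hμ
      have hfin : μH[1] (Sf μ) ≠ ∞ := (hA.2.2.2.trans_lt ENNReal.ofReal_lt_top).ne
      have hmiss : ∀ i ∈ s, Disjoint (tsupport (φ i)) (Sf μ) := by
        intro i hi
        rw [Set.disjoint_left]
        intro x hx hxS
        have h2 := hφ3 i hx
        rw [mem_ball, dist_comm] at h2
        have h3 : dd i μ ≤ dist (F.b i).c x := infDist_le_dist_of_mem hxS
        have h4 := hμ1 i hi
        linarith
      have h5 := F.tst_S hΩ s φ hφ1 hφ2 hA.1 hA.2.2.1 hfin hmiss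
      rw [← hint, hμS, h5]
      refine (hgeo s _ hA).trans ?_
      have h6 : ∑' i, wt i * infDist (F.b i).c (Sf μ) ≤
          ∑ i ∈ s, wt i * dd i μ + R * (W - ∑ i ∈ s, wt i) := by
        have hsum1 : Summable fun i => wt i * infDist (F.b i).c (Sf μ) := by
          refine Summable.of_nonneg_of_le (fun i => mul_nonneg (hwt i) infDist_nonneg)
            (fun i => ?_) (hws.mul_right R)
          exact mul_le_mul_of_nonneg_left (hddR i _ hA) (hwt i)
        have h7 := hsum1.sum_add_tsum_compl (s := s)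
        have h8 := hws.sum_add_tsum_compl (s := s)
        rw [← h7]
        have h9 : W - ∑ i ∈ s, wt i = ∑' i : ((s : Set β)ᶜ : Set β), wt i := by
          rw [hW, ← h8]
          ring
        rw [h9]
        apply add_le_add le_rfl
        rw [← tsum_mul_left]
        apply Summable.tsum_le_tsum
        · intro i
          rw [mul_comm R]
          exact mul_le_mul_of_nonneg_left (hddR i _ hA) (hwt i)
        · exact hsum1.subtype _
        · exact (hws.subtype _).mul_left R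
      have := mul_le_mul_of_nonneg_left h6 hΛ
      linarith
    have hlim2 : Tendsto (fun μ : FiniteMeasure E2 => ∑ i ∈ s, (F.b i).T (F.b i).w +
        Λ * (∑ i ∈ s, wt i * dd i μ + R * (W - ∑ i ∈ s, wt i))) 𝒰
        (𝓝 (∑ i ∈ s, (F.b i).T (F.b i).w +
        Λ * (∑ i ∈ s, wt i * δ i + R * (W - ∑ i ∈ s, wt i)))) := by
      refine tendsto_const_nhds.add (Tendsto.const_mul Λ (Tendsto.add ?_ tendsto_const_nhds))
      exact tendsto_finsetSum s fun i _ => (hlim i).const_mul (wt i)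
    have hle := le_of_tendsto_of_tendsto htend hlim2 hev
    rw [hint]
    have h10 : ∑ i ∈ s, ((1 / 2) * Dir (φ i) - m * (F.b i).T (φ i)) ≤
        ∑ i ∈ s, -((m / 2) * Λ * wt i * (δ i - η)) := Finset.sum_le_sum fun i _ => hφ4 i
    have h11 : ∑ i ∈ s, -((m / 2) * Λ * wt i * (δ i - η)) =
        -((m / 2) * Λ * ∑ i ∈ s, wt i * δ i) + (m / 2) * Λ * (η * ∑ i ∈ s, wt i) := by
      rw [Finset.mul_sum, Finset.mul_sum, Finset.mul_sum, ← Finset.sum_neg_distrib,
        ← Finset.sum_add_distrib]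
      apply Finset.sum_congr rfl
      intro i _
      ring
    have h12 : ∑ i ∈ s, wt i ≤ W := hws.sum_le_tsum s (fun i _ => hwt i)
    have h13 : (m / 2) * Λ * (η * ∑ i ∈ s, wt i) ≤ (m / 2) * Λ * (η * W) := by
      have : 0 ≤ (m / 2) * Λ := by positivity
      exact mul_le_mul_of_nonneg_left (mul_le_mul_of_nonneg_left h12 hη.le) this
    have h14 := mul_le_mul_of_nonneg_left hle (show 0 ≤ m / 2 by positivity)
    simp only [hB]
    nlinarith
  -- the limits
  have key2 : ∀ s : Finset β, energy Ω f m (ν : Measure E2) ≤ ((B s 0 : ℝ) : EReal) := by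
    intro s
    have hc : Tendsto (fun n : ℕ => ((B s (1 / ((n:ℝ) + 1)) : ℝ) : EReal)) atTop
        (𝓝 ((B s 0 : ℝ) : EReal)) := by
      refine (continuous_coe_real_ereal.tendsto _).comp ?_
      have h1 : Continuous (B s) := by
        simp only [hB]
        fun_prop
      exact (h1.tendsto 0).comp tendsto_one_div_add_atTop_nhds_zero_nat
    exact ge_of_tendsto' hc (fun n => key s _ (by positivity))
  have hc : Tendsto (fun s : Finset β => ((B s 0 : ℝ) : EReal)) atTop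
      (𝓝 ((-F.A : ℝ) : EReal)) := by
    refine (continuous_coe_real_ereal.tendsto _).comp ?_
    have h1 : Tendsto (fun s : Finset β => ∑ i ∈ s, Dir (F.b i).w) atTop
      (𝓝 (∑' i, Dir (F.b i).w)) := hDir.hasSum
    have h2 : Tendsto (fun s : Finset β => ∑ i ∈ s, (F.b i).T (F.b i).w) atTop
      (𝓝 (∑' i, (F.b i).T (F.b i).w)) := hT.hasSum
    have h3 : Tendsto (fun s : Finset β => ∑ i ∈ s, wt i) atTop (𝓝 W) := hws.hasSum
    have h4 : -F.A = -((1 / 2) * ∑' i, Dir (F.b i).w) -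
      (m / 2) * ∑' i, (F.b i).T (F.b i).w + (m / 2) * Λ * (0 * W + R * (W - W)) := by
      unfold Fam.A
      ring
    rw [h4]
    exact (((h1.const_mul _).neg).sub (h2.const_mul _)).add
      ((tendsto_const_nhds.add ((tendsto_const_nhds.sub h3).const_mul R)).const_mul _)
  exact ge_of_tendsto' hc key2

end Pool.Agent.Lib.P8e
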