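import Pool.Agent.Lib.P8e.Defs

set_option autoImplicit false

/-!
# Bounded convex open sets are Lipschitz domains

PROOF SKETCH. Translate so that `closedBall 0 (2 δ) ⊆ Ω` is false in general: take `x₀ ∈ Ω`, `closedBall x₀ (2 δ) ⊆ Ω`. Let `p ∈ frontier Ω`, `e = (p - x₀)/|p - x₀|`, `A` the linear isometry of
the plane with `A e = (0, 1)` (coordinates `A x 0` = component orthogonal to `e`, `A x 1` = component along `e`). For `s` with
`|s - A x₀ 0| ≤ 2 δ` the set of heights `{y | A⁻¹ (s, y) ∈ Ω}` is a nonempty bounded open interval with upper end `ψ₀ s`; `ψ₀` is concave on `[a - 2 δ, a + 2 δ]`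
(`a = A x₀ 0`), bounded, hence Lipschitz on `[a - δ, a + δ]` (slopes bounded by `(max - min)/δ`); extend by
constants (`ψ s = ψ₀ (projIcc s)`), or use `LipschitzOnWith.extend_real`. Near `p` (`A p 0 = a`, the height of `p` is `≥` the height of `x₀` plus `2 δ`),
for `|x - p| < δ`: `x ∈ Ω ↔ A x 1 < ψ (A x 0)`: the point `A⁻¹ (A x 0, A x₀ 1)` is in `Ω` (distance `< δ` to `x₀`) and lies below `x`, so by
convexity `x ∈ Ω` iff its height is `< ψ₀`.
-/

open Set Metric
open scoped NNReal

namespace Pool.Agent.Lib.P8e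

lemma lipDom_aux {Ω : Set E2} (hΩ : IsOpen Ω) (hc : Convex ℝ Ω)
    (hb : Bornology.IsBounded Ω) {x₀ p : E2} (hx₀ : x₀ ∈ Ω) (hp : p ∉ Ω) :
    ∃ (A : E2 ≃ₗᵢ[ℝ] E2) (r : ℝ) (c : ℝ≥0) (ψ : ℝ → ℝ), 0 < r ∧
    LipschitzWith c ψ ∧ ∀ x ∈ ball p r, (x ∈ Ω ↔ A x 1 < ψ (A x 0)) := by
  obtain ⟨ε, hε, hball⟩ := Metric.isOpen_iff.1 hΩ x₀ hx₀
  set δ : ℝ := ε / 3 with hδ
  have hδ0 : 0 < δ := by positivity
  have hε3 : ε = 3 * δ := by rw [hδ]; ring
  have hpx : p ≠ x₀ := fun h => hp (h ▸ hx₀)
  have hn : 0 < ‖p - x₀‖ := norm_pos_iff.2 (sub_ne_zero.2 hpx)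
  set e : E2 := ‖p - x₀‖⁻¹ • (p - x₀) with he
  have hen : ‖e‖ = 1 := by
    rw [he, norm_smul, norm_inv, norm_norm, inv_mul_cancel₀ hn.ne']
  -- orthonormal basis with second vector `e`
  obtain ⟨b, hb1⟩ : ∃ b : OrthonormalBasis (Fin 2) ℝ E2, b 1 = e := by
    have hv : Orthonormal ℝ (({1} : Set (Fin 2)).domRestrict (fun _ : Fin 2 => e)) := by
      constructor
      · intro i
        exact hen
      · intro i j hij
        exact absurd (Subsingleton.elim i j) hij
    obtain ⟨b, hb'⟩ := hv.exists_orthonormalBasis_extension_of_card_eq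
      (by simp)
    exact ⟨b, hb' 1 rfl⟩
  set A : E2 ≃ₗᵢ[ℝ] E2 := b.repr with hA
  have hA1 : ∀ x, A x 1 = inner ℝ e x := by
    intro x
    rw [hA, b.repr_apply_apply, hb1]
  have hnorm : ∀ x : E2, ‖x‖ ^ 2 = (A x 0) ^ 2 + (A x 1) ^ 2 := by
    intro x
    rw [← A.norm_map x, EuclideanSpace.norm_sq_eq]
    simp [Fin.sum_univ_two]
  have habs0 : ∀ x : E2, |A x 0| ≤ ‖x‖ := by
    intro x
    refine abs_le_of_sq_le_sq ?_ (norm_nonneg x)
    rw [hnorm x]
    nlinarith [sq_nonneg (A x 1)]
  have habs1 : ∀ x : E2, |A x 1| ≤ ‖x‖ := by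
    intro x
    refine abs_le_of_sq_le_sq ?_ (norm_nonneg x)
    rw [hnorm x]
    nlinarith [sq_nonneg (A x 0)]
  have hpe : p - x₀ = ‖p - x₀‖ • e := by
    rw [he, smul_smul, mul_inv_cancel₀ hn.ne', one_smul]
  have hAp1 : A p 1 - A x₀ 1 = ‖p - x₀‖ := by
    have h1 : A p 1 - A x₀ 1 = A (p - x₀) 1 := by simp
    rw [h1, hA1, hpe, inner_smul_right, real_inner_self_eq_norm_sq, hen]
    simp [norm_smul, hen]
  have hAp0 : A p 0 - A x₀ 0 = 0 := by
    have h1 : A p 0 - A x₀ 0 = A (p - x₀) 0 := by simp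
    have h2 := hnorm (p - x₀)
    have h3 : A (p - x₀) 1 = ‖p - x₀‖ := by rw [← hAp1]; simp
    rw [h3] at h2
    rw [h1]
    have : (A (p - x₀) 0) ^ 2 = 0 := by linarith
    exact pow_eq_zero_iff (two_ne_zero) |>.1 this
  have hpfar : 3 * δ ≤ ‖p - x₀‖ := by
    by_contra h
    push Not at h
    apply hp
    apply hball
    rw [mem_ball, dist_eq_norm, hε3]
    exact h
  obtain ⟨M₀, hM₀⟩ := hb.subset_closedBall 0
  set M : ℝ := ‖p - x₀‖ + δ with hM
  have hM0 : 0 < M := by positivity
  set L : ℝ := M / δ with hL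
  have hL0 : 0 < L := by positivity
  have hbdd : ∀ s, BddAbove (Set.range fun q : Ω => A q 1 - L * |s - A q 0|) := by
    intro s
    refine ⟨M₀, ?_⟩
    rintro _ ⟨q, rfl⟩
    have h1 : ‖(q : E2)‖ ≤ M₀ := by
      have := hM₀ q.2
      simpa using this
    have h2 := (le_abs_self _).trans (habs1 q)
    have h3 : 0 ≤ L * |s - A q 0| := by positivity
    simp only
    linarith
  have : Nonempty Ω := ⟨⟨x₀, hx₀⟩⟩
  set ψ : ℝ → ℝ := fun s => ⨆ q : Ω, (A q 1 - L * |s - A q 0|) with hψ
  have hψle : ∀ s t, ψ s ≤ ψ t + L * |s - t| := by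
    intro s t
    apply ciSup_le
    intro q
    have h1 : A q 1 - L * |t - A q 0| ≤ ψ t := le_ciSup (hbdd t) q
    have h2 : |t - A q 0| ≤ |s - t| + |s - A q 0| := by
      have : t - A q 0 = -(s - t) + (s - A q 0) := by ring
      rw [this]
      exact (abs_add_le _ _).trans (by rw [abs_neg])
    have h3 : L * |t - A q 0| ≤ L * (|s - t| + |s - A q 0|) := by gcongr
    linarith
  refine ⟨A, δ, L.toNNReal, ψ, hδ0, ?_, ?_⟩
  · apply LipschitzWith.of_dist_le_mul
    intro s t
    rw [Real.dist_eq, Real.dist_eq, abs_le]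
    have h1 := hψle s t
    have h2 := hψle t s
    rw [abs_sub_comm t s] at h2
    rw [Real.coe_toNNReal L hL0.le]
    constructor <;> linarith
  · intro x hx
    rw [mem_ball, dist_eq_norm] at hx
    constructor
    · intro hxΩ
      obtain ⟨η, hη, hηb⟩ := Metric.isOpen_iff.1 hΩ x hxΩ
      set q : E2 := x + (η / 2) • e with hq
      have hqΩ : q ∈ Ω := by
        apply hηb
        rw [mem_ball, dist_eq_norm, hq]
        simp only [add_sub_cancel_left, norm_smul, hen, mul_one, Real.norm_eq_abs]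
        rw [abs_of_pos (by positivity)]
        linarith
      have hAe1 : A e 1 = 1 := by
        rw [hA1, real_inner_self_eq_norm_sq, hen]; norm_num
      have hAe0 : A e 0 = 0 := by
        have h2 := hnorm e
        rw [hen, hAe1] at h2
        have : (A e 0) ^ 2 = 0 := by linarith
        exact pow_eq_zero_iff (two_ne_zero) |>.1 this
      have hq1 : A q 1 = A x 1 + η / 2 := by
        rw [hq]; simp [hAe1]
      have hq0 : A q 0 = A x 0 := by
        rw [hq]; simp [hAe0]
      have h1 : A q 1 - L * |A x 0 - A q 0| ≤ ψ (A x 0) := le_ciSup (hbdd (A x 0)) ⟨q, hqΩ⟩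
      rw [hq1, hq0] at h1
      simp only [sub_self, abs_zero, mul_zero, sub_zero] at h1
      linarith
    · intro hlt
      obtain ⟨⟨q, hqΩ⟩, hq⟩ := exists_lt_of_lt_ciSup hlt
      simp only at hq
      set bb : ℝ := A x₀ 1 with hbb
      have hx1 : A p 1 - δ < A x 1 := by
        have h1 : |A (x - p) 1| < δ := (habs1 _).trans_lt hx
        have h2 : A (x - p) 1 = A x 1 - A p 1 := by simp
        rw [h2] at h1
        have := (abs_lt.1 h1).1
        linarith
      have hx1' : A x 1 < A p 1 + δ := by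
        have h1 : |A (x - p) 1| < δ := (habs1 _).trans_lt hx
        have h2 : A (x - p) 1 = A x 1 - A p 1 := by simp
        rw [h2] at h1
        have := (abs_lt.1 h1).2
        linarith
      have hx0 : |A x 0 - A x₀ 0| < δ := by
        have h1 : |A (x - p) 0| < δ := (habs0 _).trans_lt hx
        have h2 : A (x - p) 0 = A x 0 - A x₀ 0 := by
          have : A (x - p) 0 = A x 0 - A p 0 := by simp
          rw [this]; linarith
        rwa [h2] at h1
      have hxb : bb < A x 1 := by linarith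
      have hxM : A x 1 - bb ≤ M := by linarith
      have hLq : 0 ≤ L * |A x 0 - A q 0| := by positivity
      have hqx : A x 1 < A q 1 := by linarith
      set D : ℝ := A q 1 - A x 1 with hD
      have hD0 : 0 < D := by linarith
      set lam : ℝ := (A q 1 - bb) / D with hlam
      have hlam1 : 1 < lam := by
        rw [hlam, lt_div_iff₀ hD0]
        linarith
      have hlam' : lam - 1 = (A x 1 - bb) / D := by
        rw [hlam]; field_simp; rw [hD]; ring
      set z : E2 := q + lam • (x - q) with hz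
      have hz1 : A z 1 = bb := by
        have : A z 1 = A q 1 + lam * (A x 1 - A q 1) := by rw [hz]; simp
        rw [this, hlam]
        have : A x 1 - A q 1 = -D := by rw [hD]; ring
        rw [this]
        field_simp
        ring
      have hz0 : A z 0 - A x 0 = (lam - 1) * (A x 0 - A q 0) := by
        have : A z 0 = A q 0 + lam * (A x 0 - A q 0) := by rw [hz]; simp
        rw [this]; ring
      have hz0' : |A z 0 - A x 0| ≤ δ := by
        rw [hz0, abs_mul, abs_of_pos (by linarith), hlam']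
        have h1 : |A x 0 - A q 0| ≤ D / L := by
          rw [le_div_iff₀ hL0]
          linarith
        calc (A x 1 - bb) / D * |A x 0 - A q 0| ≤ (A x 1 - bb) / D * (D / L) := by
              have : 0 ≤ (A x 1 - bb) / D := div_nonneg (by linarith) hD0.le
              gcongr
          _ = (A x 1 - bb) / L := by field_simp
          _ ≤ M / L := by gcongr
          _ = δ := by rw [hL]; field_simp
      have hzΩ : z ∈ Ω := by
        apply hball
        rw [mem_ball, dist_eq_norm]
        have h2 := hnorm (z - x₀)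
        have h3 : A (z - x₀) 1 = 0 := by
          have : A (z - x₀) 1 = A z 1 - A x₀ 1 := by simp
          rw [this, hz1]; ring
        have h4 : |A (z - x₀) 0| < 2 * δ := by
          have : A (z - x₀) 0 = (A z 0 - A x 0) + (A x 0 - A x₀ 0) := by simp
          rw [this]
          have := abs_add_le (A z 0 - A x 0) (A x 0 - A x₀ 0)
          linarith
        rw [h3] at h2
        have h5 : ‖z - x₀‖ ^ 2 = |A (z - x₀) 0| ^ 2 := by rw [sq_abs]; linarith
        have h6 : ‖z - x₀‖ = |A (z - x₀) 0| := by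
          have := (sq_eq_sq₀ (norm_nonneg _) (abs_nonneg _)).1 h5
          exact this
        rw [h6, hε3]
        linarith
      have hx_eq : x = (1 - lam⁻¹) • q + lam⁻¹ • z := by
        have hl : lam ≠ 0 := by linarith
        rw [hz, smul_add, smul_smul, inv_mul_cancel₀ hl, one_smul, sub_smul, one_smul]
        abel
      rw [hx_eq]
      apply hc hqΩ hzΩ
      · rw [sub_nonneg]
        exact inv_le_one_of_one_le₀ hlam1.le
      · positivity
      · ring

theorem lipschitz_of_convex {Ω : Set E2} (hΩ : IsOpen Ω) (hc : Convex ℝ Ω) (hne : Ω.Nonempty)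
    (hb : Bornology.IsBounded Ω) : IsLipschitzDomain Ω := by
  refine ⟨hΩ, hc.isConnected hne, hb, ?_⟩
  intro p hp
  obtain ⟨x₀, hx₀⟩ := hne
  refine lipDom_aux hΩ hc hb hx₀ ?_
  rw [hΩ.frontier_eq] at hp
  exact hp.2

end Pool.Agent.Lib.P8e
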