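import Pool.Agent.Lib.P8e.RelML

set_option autoImplicit false

/-!
# Definitions for the final statement

The definitions of `energy`, `Adm`, `IsLipschitzDomain`, ... are in `Defs`; here the relaxed class and optimal networks are defined for
an arbitrary family `𝒜` of admissible sets, to be used with `Adm Ω L` (closed in the plane) and `AdmRel Ω L` (closed relatively to `Ω`).
-/

open MeasureTheory Set Metric
open scoped ENNReal NNReal

namespace Pool.Agent.Lib.P8e

/-- The relaxed class of a family `𝒜` of sets: the weak* closure of the measures `H^1 ⌞ S`, `S ∈ 𝒜`. -/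
def Relaxed (𝒜 : Set (Set E2)) : Set (FiniteMeasure E2) :=
  closure {ν | ∃ S ∈ 𝒜, (ν : Measure E2) = (μH[1] : Measure E2).restrict S}

/-- `μ = θ H^1 ⌞ S` is an optimal network, for the family `𝒜` of admissible sets. -/
def IsOptNetwork (𝒜 : Set (Set E2)) (Ω : Set E2) (f : SignedMeasure E2) (m : ℝ)
    (μ : FiniteMeasure E2) (S : Set E2) (θ : E2 → ℝ≥0∞) : Prop :=
  μ ∈ Relaxed 𝒜 ∧
  (∀ ν ∈ Relaxed 𝒜, energy Ω f m (ν : Measure E2) ≤ energy Ω f m (μ : Measure E2)) ∧
  IsCompact S ∧ IsConnected S ∧ S ⊆ closure Ω ∧ μH[1] S < ∞ ∧ Measurable θ ∧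
  (∀ᵐ x ∂((μH[1] : Measure E2).restrict S), 1 ≤ θ x) ∧
  (μ : Measure E2) = ((μH[1] : Measure E2).restrict S).withDensity θ

end Pool.Agent.Lib.P8e
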