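import Pool.Agent.Lib.P8e.FinF
import Pool.Agent.Lib.P8e.FMeas
import Pool.Agent.Lib.P8e.ELow
import Pool.Agent.Lib.P8e.Lim
import Pool.Agent.Lib.P8e.FinE
import Pool.Agent.Lib.P8e.LipDom
import Pool.Agent.Lib.P8e.DomD
import Pool.Agent.Lib.P8e.Stmt

set_option autoImplicit false

/-!
# The counterexample

`exists_dom` gives the strictly convex domain `Ω` and the curve `C` with `H^1 (SK ∩ ∂Ω) > 0`; the charge `f` is the
sum of the charges of the needles (at the vertices and the two end points of the curve) and of very small bumps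
filling the rest of `Ω`. `energy_ge`: the energy of `H^1 ⌞ SK` is at least `-A`; `energy_le`: no measure in `ML` has
energy more than `-A`.
-/

open MeasureTheory Set Metric
open scoped ENNReal NNReal InnerProductSpace

namespace Pool.Agent.Lib.P8e

theorem final : ∃ (Ω : Set E2) (f : SignedMeasure E2) (m L : ℝ) (μ : FiniteMeasure E2)
    (S : Set E2) (θ : E2 → ℝ≥0∞),
    IsLipschitzDomain Ω ∧ IsStrictlyConvexDomain Ω ∧ 0 < m ∧ 0 < L ∧
    LivesOn f Ω ∧ HasFullSupport f Ω ∧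
    (∀ 𝒜 ∈ ({Adm Ω L, AdmRel Ω L} : Set (Set (Set E2))),
      (∃ S₀ ∈ 𝒜, energy Ω f m ((μH[1] : Measure E2).restrict S₀) ≠ ⊥) ∧
      IsOptNetwork 𝒜 Ω f m μ S θ) ∧
    0 < μH[1] (S ∩ frontier Ω) := by
  obtain ⟨Ω, C, hΩ, hconv, hbdd, hstrict, hdiam, hsq, hballs, hl, hr, hcl, hshift, hpos⟩ :=
    exists_dom
  obtain ⟨N⟩ := C.exists_ND hsq hballs hl hr
  obtain ⟨κ, hκ, ⟨B⟩⟩ := N.exists_BD hΩ
  obtain ⟨m, hm, hgain⟩ := blks_gain
  obtain ⟨F, hF⟩ := exists_Fam N B hm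
  obtain ⟨f, hlive, hfull, hf⟩ := F.exists_f hΩ
  have hSK : Cpt C.SK := C.cpt_arc (by norm_num)
  have hLpos : 0 < C.len (1 / 8) (7 / 8) := by
    have h1 := C.dist_le_len (u := 1 / 8) (v := 7 / 8) (by norm_num)
    have h2 := C.dist_pt_ge (1 / 8) (7 / 8)
    have h3 : |(1 / 8 : ℝ) - 7 / 8| = 3 / 4 := by norm_num [abs_of_neg]
    linarith
  have hx : C.pt (1 / 8) ∈ Ω := hl (mem_closedBall_self C.ρe_pos.le)
  have hne : Ω.Nonempty := ⟨_, hx⟩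
  have hDir : Summable fun i => Dir (F.b i).w := by rw [hF]; exact blks_Dir_sum N B
  have hT : Summable fun i => (F.b i).T (F.b i).w := by rw [hF]; exact blks_T_sum N B
  have : IsFiniteMeasure ((μH[1] : Measure E2).restrict C.SK) :=
    ⟨by rw [Measure.restrict_apply_univ]; exact hSK.2.2.lt_top⟩
  set μ : FiniteMeasure E2 := ⟨(μH[1] : Measure E2).restrict C.SK, inferInstance⟩ with hμ
  have hμ' : (μ : Measure E2) = (μH[1] : Measure E2).restrict C.SK := rfl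
  have hge := F.energy_ge hΩ hbdd hm f hf hDir hT hSK.1 hSK.2.2
    (by rw [hF]; exact blks_seg N B)
  have hle := F.energy_le hΩ hbdd (L := C.len (1 / 8) (7 / 8)) (R := 2) (Λ := 81) hm (by norm_num)
    (by norm_num) f hf hDir hT (wts N B) (wts_nonneg N B) (wts_sum N B) hdiam
    (by rw [hF]; exact blks_geo N B hbdd)
    (by rw [hF]; exact hgain Ω C _ _ N B)
  obtain ⟨K, hK0, hKs, hKb⟩ := blks_bd N B hm
  obtain ⟨S₀, hS₀, hbot⟩ := energy_ne_bot hΩ F f hf K hK0 hKs (by rw [hF]; exact hKb)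
    (L := C.len (1 / 8) (7 / 8)) hLpos.le hx
  have hrel : Relaxed (AdmRel Ω (C.len (1 / 8) (7 / 8))) = ML Ω (C.len (1 / 8) (7 / 8)) :=
    ML_rel hΩ hconv hbdd hne _
  have hadm : Relaxed (Adm Ω (C.len (1 / 8) (7 / 8))) = ML Ω (C.len (1 / 8) (7 / 8)) := rfl
  have hS₀' : S₀ ∈ AdmRel Ω (C.len (1 / 8) (7 / 8)) :=
    ⟨⟨S₀, hS₀.1, (inter_eq_self_of_subset_left hS₀.2.2.1).symm⟩, hS₀.2.1, hS₀.2.2.2⟩
  have key : ∀ 𝒜 : Set (Set E2), Relaxed 𝒜 = ML Ω (C.len (1 / 8) (7 / 8)) →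
      IsOptNetwork 𝒜 Ω f m μ C.SK fun _ => 1 := by
    intro 𝒜 h𝒜
    refine ⟨?_, ?_, hSK.1, hSK.2.1, hcl, hSK.2.2.lt_top, measurable_const,
      Filter.Eventually.of_forall fun _ => le_rfl, ?_⟩
    · rw [h𝒜]; exact mem_ML hSK hshift μ hμ'
    · intro ν hν
      rw [h𝒜] at hν
      exact (hle ν hν).trans hge
    · rw [hμ']
      simp
  refine ⟨Ω, f, m, C.len (1 / 8) (7 / 8), μ, C.SK, fun _ => 1,
    lipschitz_of_convex hΩ hconv hne hbdd, hstrict, hm, hLpos, hlive, hfull, ?_, hpos⟩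
  intro 𝒜 h𝒜
  rcases h𝒜 with h𝒜 | h𝒜
  · subst h𝒜
    exact ⟨⟨S₀, hS₀, hbot⟩, key _ hadm⟩
  · rw [mem_singleton_iff] at h𝒜
    subst h𝒜
    exact ⟨⟨S₀, hS₀', hbot⟩, key _ hrel⟩

end Pool.Agent.Lib.P8e
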