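import Pool.Agent.Lib.P8e.MaxFam

set_option autoImplicit false

/-!
# The gaps

PROOF SKETCH. Outer regularity: an open set `U` containing the rationals with `volume U < 1/4` (`Set.exists_isOpen_lt_of_lt`, the rationals are a null set).
`O = U ∩ Ioo (1/4) (3/4)`; `exists_max_family O 1` with `E = ℝ`; `γ` = the resulting set of pairs `(c, r)` as a type, `a = c - r`, `ℓ = 2 r` (`closedBall c r = Icc (c-r) (c+r)`).
`dense`: `Ioo x y ∩ O` is a nonempty (rationals) open subset of `O`. `pos`: `volume (Icc (1/4) (3/4)) = 1/2`, the union of the intervals is inside `U`.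
Weights: `γ` is countable, `enc : γ → ℕ` injective, `w g = (1/1000) (1/16)^(enc g)`: `∑ w ≤ (1/1000) (16/15)`, `√w = √(1/1000) (1/4)^(enc g)` is summable
(`Summable.comp_injective`, `tsum_le_tsum_of_inj` or similar).
-/

open MeasureTheory Set Metric

namespace Pool.Agent.Lib.P8e

/-- The data of the gaps in `(1/4, 3/4)` and their weights. -/
structure Gp (γ : Type) where
  /-- left end points -/
  a : γ → ℝ
  /-- lengths -/
  ℓ : γ → ℝ
  /-- weights -/
  w : γ → ℝ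
  ℓ_pos : ∀ g, 0 < ℓ g
  w_pos : ∀ g, 0 < w g
  w_sqrt : Summable fun g => √(w g)
  w_sum : Summable w
  w_tot : ∑' g, w g ≤ 1 / 100
  lo : ∀ g, 1 / 4 < a g
  hi : ∀ g, a g + ℓ g < 3 / 4
  disj : ∀ g g', g ≠ g' → Disjoint (Icc (a g) (a g + ℓ g)) (Icc (a g') (a g' + ℓ g'))
  dense : ∀ x y, 1 / 4 ≤ x → x < y → y ≤ 3 / 4 →
    ∃ g, (Ioo x y ∩ Ioo (a g) (a g + ℓ g)).Nonempty
  pos : 0 < volume (Icc (1 / 4 : ℝ) (3 / 4) \ ⋃ g, Icc (a g) (a g + ℓ g))

theorem exists_Gp : ∃ γ : Type, Countable γ ∧ Nonempty (Gp γ) := by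
  classical
  -- the open set
  have hQ : volume (range ((↑) : ℚ → ℝ)) < ENNReal.ofReal (1 / 4) := by
    rw [(countable_range _).measure_zero]
    exact ENNReal.ofReal_pos.2 (by norm_num)
  obtain ⟨U, hQU, hUo, hUv⟩ := Set.exists_isOpen_lt_of_lt _ _ hQ
  obtain ⟨M, hMc, hM1, hM2, hM3⟩ := exists_max_family (E := ℝ) (U ∩ Ioo (1 / 4) (3 / 4)) 1 one_pos
  have hcb : ∀ p : ℝ × ℝ, Icc (p.1 - p.2) (p.1 - p.2 + 2 * p.2) = closedBall p.1 p.2 := by
    intro p
    rw [Real.closedBall_eq_Icc]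
    congr 1
    ring
  have hob : ∀ p : ℝ × ℝ, Ioo (p.1 - p.2) (p.1 - p.2 + 2 * p.2) = ball p.1 p.2 := by
    intro p
    rw [Real.ball_eq_Ioo]
    congr 1
    ring
  have : Countable M := hMc.to_subtype
  obtain ⟨enc, henc⟩ := exists_injective_nat M
  have hgeo : Summable (fun n : ℕ => (1 / 1000 : ℝ) * (1 / 16) ^ n) :=
    (summable_geometric_of_lt_one (by norm_num) (by norm_num)).mul_left _
  have hgeo2 : Summable (fun n : ℕ => √(1 / 1000 : ℝ) * (1 / 4) ^ n) :=
    (summable_geometric_of_lt_one (by norm_num) (by norm_num)).mul_left _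
  refine ⟨M, inferInstance, ⟨?_⟩⟩
  refine
    { a := fun g => g.1.1 - g.1.2
      ℓ := fun g => 2 * g.1.2
      w := fun g => (1 / 1000 : ℝ) * (1 / 16) ^ enc g
      ℓ_pos := fun g => by have := (hM1 g.1 g.2).1; linarith
      w_pos := fun g => by positivity
      w_sqrt := ?_
      w_sum := hgeo.comp_injective henc
      w_tot := ?_
      lo := ?_
      hi := ?_
      disj := ?_
      dense := ?_
      pos := ?_ }
  · have : (fun g : M => √((1 / 1000 : ℝ) * (1 / 16) ^ enc g)) =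
        (fun n : ℕ => √(1 / 1000 : ℝ) * (1 / 4) ^ n) ∘ enc := by
      funext g
      simp only [Function.comp]
      rw [Real.sqrt_mul (by norm_num)]
      congr 1
      have : ((1 / 16 : ℝ)) ^ enc g = ((1 / 4 : ℝ) ^ enc g) ^ 2 := by
        rw [← pow_mul, mul_comm, pow_mul]
        norm_num
      rw [this, Real.sqrt_sq (by positivity)]
    rw [this]
    exact hgeo2.comp_injective henc
  · have h1 : ∑' g : M, (1 / 1000 : ℝ) * (1 / 16) ^ enc g ≤
        ∑' n : ℕ, (1 / 1000 : ℝ) * (1 / 16) ^ n :=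
      (hgeo.comp_injective henc).tsum_le_tsum_of_inj enc henc (fun n _ => by positivity)
        (fun g => le_rfl) hgeo
    have h2 : ∑' n : ℕ, (1 / 1000 : ℝ) * (1 / 16) ^ n = (1 / 1000) * (1 - 1 / 16)⁻¹ := by
      rw [tsum_mul_left, tsum_geometric_of_lt_one (by norm_num) (by norm_num)]
    rw [h2] at h1
    refine h1.trans ?_
    norm_num
  · intro g
    obtain ⟨h1, -, h3⟩ := hM1 g.1 g.2
    have hm : g.1.1 - g.1.2 ∈ closedBall g.1.1 g.1.2 := by
      rw [Real.closedBall_eq_Icc]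
      constructor <;> linarith
    exact (h3 hm).2.1
  · intro g
    obtain ⟨h1, -, h3⟩ := hM1 g.1 g.2
    have hm : g.1.1 - g.1.2 + 2 * g.1.2 ∈ closedBall g.1.1 g.1.2 := by
      rw [Real.closedBall_eq_Icc]
      constructor <;> linarith
    exact (h3 hm).2.2
  · intro g g' hgg
    rw [hcb, hcb]
    exact hM2 g.1 g.2 g'.1 g'.2 (fun h => hgg (Subtype.ext h))
  · intro x y hx hxy hy
    obtain ⟨q, hq1, hq2⟩ := exists_rat_btwn hxy
    obtain ⟨p, hp, hne⟩ := hM3 (Ioo x y ∩ (U ∩ Ioo (1 / 4) (3 / 4)))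
      (isOpen_Ioo.inter (hUo.inter isOpen_Ioo)) inter_subset_right
      ⟨(q : ℝ), ⟨hq1, hq2⟩, hQU ⟨q, rfl⟩, by linarith, by linarith⟩
    refine ⟨⟨p, hp⟩, ?_⟩
    obtain ⟨z, hz1, hz2⟩ := hne
    refine ⟨z, hz1.1, ?_⟩
    simp only
    rw [hob]
    exact hz2
  · have hsub : (⋃ g : M, Icc (g.1.1 - g.1.2) (g.1.1 - g.1.2 + 2 * g.1.2)) ⊆ U := by
      refine iUnion_subset fun g => ?_
      rw [hcb]
      exact ((hM1 g.1 g.2).2.2).trans inter_subset_left
    have h1 : volume (Icc (1 / 4 : ℝ) (3 / 4)) = ENNReal.ofReal (1 / 2) := by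
      rw [Real.volume_Icc]
      congr 1
      norm_num
    have h2 : ENNReal.ofReal (1 / 2) ≤
        volume (Icc (1 / 4 : ℝ) (3 / 4) \
          ⋃ g : M, Icc (g.1.1 - g.1.2) (g.1.1 - g.1.2 + 2 * g.1.2)) + ENNReal.ofReal (1 / 4) := by
      rw [← h1]
      calc volume (Icc (1 / 4 : ℝ) (3 / 4)) ≤ volume ((Icc (1 / 4 : ℝ) (3 / 4) \
          ⋃ g : M, Icc (g.1.1 - g.1.2) (g.1.1 - g.1.2 + 2 * g.1.2)) ∪ U) := by
            apply measure_mono
            intro z hz
            by_cases hzU : z ∈ U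
            · exact Or.inr hzU
            · exact Or.inl ⟨hz, fun h => hzU (hsub h)⟩
        _ ≤ _ := measure_union_le _ _
        _ ≤ _ := by gcongr
    rw [pos_iff_ne_zero]
    intro h0
    rw [h0, zero_add] at h2
    have := (ENNReal.ofReal_le_ofReal_iff (by norm_num : (0 : ℝ) ≤ 1 / 4)).1 h2
    norm_num at this

end Pool.Agent.Lib.P8e
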