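import Mathlib

set_option autoImplicit false

/-!
# Profiles for the boundary curve and for the network

`wk k = (3/8) 4^(-k)`, `sk k = 2^(-k-2)`; `al t = ∑ wk k (t - sk k)_+`, `ar t = ∑ wk k (t - 1 + sk k)_+`: `al + ar` is the profile of the network
in a gap; `pp` is the profile of the boundary: `0` for `t ≤ 0`, `t^3/8` on `[0, 1/2]`, `t - 1/2 + (1-t)^3/8` on `[1/2, 1]`, `t - 1/2` for `t ≥ 1`.
`br`, `bl`: the boundary at the right and left ends.

PROOF SKETCH. `∑ wk = 1/2`, `∑ wk sk = 3/28`. `al_ge`: for `t ∈ (2^(-n-1), 2^(-n)]` the term `k = n` has `sk n < t/2` and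
`wk n * (t/2) ≥ (3/16) t^3`. `ar_eq`: `(t - 1 + s)_+ = (1 - t - s)_+ + (t - 1 + s)`. `ah_one`: both sums are affine for `t ≥ 1`.
`A3 s = max_{c ∈ [0,1/2]} ((3/8) c^2 s - c^3/4)` (tangent lines of `s^3/8`; attained at the clamp `c = cl s`), so `A3` is convex. `pp_lt`: for `t ≤ 1/2`
`pp t = t^3/8 < (3/16) t^3 ≤ al t`; for `t ≥ 1/2` use `pp t = t - 1/2 + pp (1 - t)` and the same symmetry of `al + ar`
(`al t + ar t - al (1-t) - ar (1-t) = ∑ wk (2 t - 1) = t - 1/2`).
`pp_strict`: choose `x' < y'` in `(x, y) ∩ (0, 1/2)` or in `(x, y) ∩ (1/2, 1)`; there `pp` is a strictly convex cubic plus an affine function.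
-/

open Set Metric

namespace Pool.Agent.Lib.P8e

noncomputable def wk (k : ℕ) : ℝ := 3 / 8 * (1 / 4) ^ k

noncomputable def sk (k : ℕ) : ℝ := (1 / 2) ^ (k + 2)

noncomputable def al (t : ℝ) : ℝ := ∑' k, wk k * max (t - sk k) 0

noncomputable def ar (t : ℝ) : ℝ := ∑' k, wk k * max (t - 1 + sk k) 0

/-- Clamp to `[0, 1/2]`. -/
noncomputable def cl (s : ℝ) : ℝ := max 0 (min s (1 / 2))

noncomputable def A3 (s : ℝ) : ℝ := 3 / 8 * cl s ^ 2 * s - cl s ^ 3 / 4

noncomputable def pp (t : ℝ) : ℝ :=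
  A3 t + A3 (1 - t) - 1 / 64 - 3 / 32 * (1 / 2 - t) + 13 / 16 * max (t - 1 / 2) 0

noncomputable def br (t : ℝ) : ℝ := max t 0 ^ 3 / 8

noncomputable def bl (t : ℝ) : ℝ := max (1 - t) 0 ^ 3 / 8 + t / 2 - 11 / 28

lemma wk_pos (k : ℕ) : 0 < wk k := by unfold wk; positivity

lemma sk_pos (k : ℕ) : 0 < sk k := by unfold sk; positivity

lemma sk_le (k : ℕ) : sk k ≤ 1 / 4 := by
  unfold sk
  rw [pow_add]
  have : (1 / 2 : ℝ) ^ k ≤ 1 := pow_le_one₀ (by norm_num) (by norm_num)
  linarith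

lemma wk_summable : Summable wk := by
  unfold wk
  exact (summable_geometric_of_lt_one (by norm_num) (by norm_num)).mul_left _

lemma wksk_eq (k : ℕ) : wk k * sk k = 3 / 32 * (1 / 8) ^ k := by
  unfold wk sk
  rw [pow_add]
  have : ((1 : ℝ) / 8) ^ k = (1 / 4) ^ k * (1 / 2) ^ k := by rw [← mul_pow]; norm_num
  rw [this]; ring

lemma wksk_summable : Summable fun k => wk k * sk k := by
  simp_rw [wksk_eq]
  exact (summable_geometric_of_lt_one (by norm_num) (by norm_num)).mul_left _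

lemma wksk_tsum : ∑' k, wk k * sk k = 3 / 28 := by
  simp_rw [wksk_eq]
  rw [tsum_mul_left, tsum_geometric_of_lt_one (by norm_num) (by norm_num)]
  norm_num

lemma al_summable (t : ℝ) : Summable fun k => wk k * max (t - sk k) 0 := by
  apply Summable.of_nonneg_of_le (fun k => mul_nonneg (wk_pos k).le (le_max_right _ _))
    (fun k => ?_) (wk_summable.mul_right (max t 0))
  apply mul_le_mul_of_nonneg_left _ (wk_pos k).le
  exact max_le_max (by linarith [sk_pos k]) le_rfl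

lemma ar_summable (t : ℝ) : Summable fun k => wk k * max (t - 1 + sk k) 0 := by
  apply Summable.of_nonneg_of_le (fun k => mul_nonneg (wk_pos k).le (le_max_right _ _))
    (fun k => ?_) (wk_summable.mul_right (max t 0))
  apply mul_le_mul_of_nonneg_left _ (wk_pos k).le
  exact max_le_max (by linarith [sk_le k]) le_rfl

lemma wk_tsum : ∑' k, wk k = 1 / 2 := by
  unfold wk
  rw [tsum_mul_left, tsum_geometric_of_lt_one (by norm_num) (by norm_num)]
  norm_num

lemma al_nonneg (t : ℝ) : 0 ≤ al t :=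
  tsum_nonneg fun k => mul_nonneg (wk_pos k).le (le_max_right _ _)

lemma ar_nonneg (t : ℝ) : 0 ≤ ar t :=
  tsum_nonneg fun k => mul_nonneg (wk_pos k).le (le_max_right _ _)

lemma al_le (t : ℝ) : al t ≤ max t 0 / 2 := by
  have h : al t ≤ ∑' k, wk k * max t 0 := by
    apply (al_summable t).tsum_le_tsum _ (wk_summable.mul_right _)
    intro k
    apply mul_le_mul_of_nonneg_left _ (wk_pos k).le
    exact max_le_max (by linarith [sk_pos k]) le_rfl
  rw [tsum_mul_right, wk_tsum] at h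
  linarith

lemma ar_le (t : ℝ) : ar t ≤ max t 0 / 2 := by
  have h : ar t ≤ ∑' k, wk k * max t 0 := by
    apply (ar_summable t).tsum_le_tsum _ (wk_summable.mul_right _)
    intro k
    apply mul_le_mul_of_nonneg_left _ (wk_pos k).le
    exact max_le_max (by linarith [sk_le k]) le_rfl
  rw [tsum_mul_right, wk_tsum] at h
  linarith

lemma al_ge {t : ℝ} (h0 : 0 < t) (h1 : t ≤ 1) : 3 / 16 * t ^ 3 ≤ al t := by
  obtain ⟨n, hn1, hn2⟩ := exists_nat_pow_near_of_lt_one h0 h1 (show (0:ℝ) < 1 / 2 by norm_num)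
    (show (1:ℝ) / 2 < 1 by norm_num)
  have h2 : wk n * max (t - sk n) 0 ≤ al t :=
    (al_summable t).le_tsum n (fun k _ => mul_nonneg (wk_pos k).le (le_max_right _ _))
  refine le_trans ?_ h2
  have h3 : sk n = (1 / 2) ^ (n + 1) / 2 := by
    unfold sk; rw [pow_succ]; ring
  have h4 : t / 2 ≤ max (t - sk n) 0 := by
    refine le_trans ?_ (le_max_left _ _)
    rw [h3]; linarith
  have h5 : wk n = 3 / 8 * ((1 / 2) ^ n) ^ 2 := by
    unfold wk
    congr 1
    rw [← pow_mul, mul_comm, pow_mul]; norm_num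
  have h6 : t ^ 2 ≤ ((1 / 2 : ℝ) ^ n) ^ 2 := pow_le_pow_left₀ h0.le hn2 2
  calc 3 / 16 * t ^ 3 = (3 / 8 * t ^ 2) * (t / 2) := by ring
    _ ≤ wk n * (t / 2) := by
        rw [h5]
        apply mul_le_mul_of_nonneg_right _ (by linarith)
        linarith
    _ ≤ _ := mul_le_mul_of_nonneg_left h4 (wk_pos n).le

lemma ar_eq (t : ℝ) : ar t = al (1 - t) + t / 2 - 11 / 28 := by
  have h1 : ∀ k, wk k * max (t - 1 + sk k) 0 =
      wk k * max (1 - t - sk k) 0 + (wk k * (t - 1) + wk k * sk k) := by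
    intro k
    have : max (t - 1 + sk k) 0 = max (1 - t - sk k) 0 + (t - 1 + sk k) := by
      rcases le_total (t - 1 + sk k) 0 with h | h
      · rw [max_eq_right h, max_eq_left (by linarith)]; ring
      · rw [max_eq_left h, max_eq_right (by linarith)]; ring
    rw [this]; ring
  unfold ar
  simp_rw [h1]
  rw [(al_summable (1 - t)).tsum_add ((wk_summable.mul_right _).add wksk_summable),
    (wk_summable.mul_right _).tsum_add wksk_summable, tsum_mul_right, wk_tsum, wksk_tsum]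
  unfold al
  ring

lemma al_zero {t : ℝ} (h : t ≤ 0) : al t = 0 := by
  apply le_antisymm _ (al_nonneg t)
  have := al_le t
  rw [max_eq_right h] at this
  linarith

lemma ah_zero {t : ℝ} (h : t ≤ 0) : al t + ar t = 0 := by
  have h1 := ar_le t
  rw [max_eq_right h] at h1
  have h2 := ar_nonneg t
  rw [al_zero h]; linarith

lemma ah_sym (t : ℝ) : al t + ar t = al (1 - t) + ar (1 - t) + t - 1 / 2 := by
  have h1 := ar_eq t
  have h2 := ar_eq (1 - t)
  rw [sub_sub_cancel] at h2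
  linarith

lemma ah_one {t : ℝ} (h : 1 ≤ t) : al t + ar t = t - 1 / 2 := by
  rw [ah_sym, ah_zero (by linarith)]; ring

lemma cl_zero {s : ℝ} (h : s ≤ 0) : cl s = 0 := by
  unfold cl; rw [max_eq_left]; exact (min_le_left _ _).trans h

lemma cl_mid {s : ℝ} (h0 : 0 ≤ s) (h1 : s ≤ 1 / 2) : cl s = s := by
  unfold cl; rw [min_eq_left h1, max_eq_right h0]

lemma cl_top {s : ℝ} (h : 1 / 2 ≤ s) : cl s = 1 / 2 := by
  unfold cl; rw [min_eq_right h, max_eq_right (by norm_num)]

lemma cl_nonneg (s : ℝ) : 0 ≤ cl s := le_max_left _ _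

lemma cl_le (s : ℝ) : cl s ≤ 1 / 2 := max_le (by norm_num) (min_le_right _ _)

lemma A3_zero {s : ℝ} (h : s ≤ 0) : A3 s = 0 := by
  unfold A3; rw [cl_zero h]; ring

lemma A3_mid {s : ℝ} (h0 : 0 ≤ s) (h1 : s ≤ 1 / 2) : A3 s = s ^ 3 / 8 := by
  unfold A3; rw [cl_mid h0 h1]; ring

lemma A3_top {s : ℝ} (h : 1 / 2 ≤ s) : A3 s = 3 / 32 * s - 1 / 32 := by
  unfold A3; rw [cl_top h]; ring

lemma A3_ge (s : ℝ) {c : ℝ} (h0 : 0 ≤ c) (h1 : c ≤ 1 / 2) : 3 / 8 * c ^ 2 * s - c ^ 3 / 4 ≤ A3 s := by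
  rcases le_total s 0 with h | h
  · rw [A3_zero h]
    have h2 : 0 ≤ c ^ 2 * (-s) := by apply mul_nonneg (by positivity); linarith
    have h3 : 0 ≤ c ^ 3 := by positivity
    linarith
  · rcases le_total s (1 / 2) with h' | h'
    · rw [A3_mid h h']
      have h2 : 0 ≤ (s - c) ^ 2 * (s + 2 * c) := by positivity
      nlinarith
    · rw [A3_top h']
      have h2 : 0 ≤ (1 / 2 - c) ^ 2 * (1 / 2 + 2 * c) := by positivity
      have h3 : 0 ≤ (1 / 2 - c) * (1 / 2 + c) * (s - 1 / 2) := by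
        apply mul_nonneg (mul_nonneg (by linarith) (by linarith)) (by linarith)
      nlinarith

lemma A3_convex : ConvexOn ℝ univ A3 := by
  refine ⟨convex_univ, ?_⟩
  intro x _ y _ a b ha hb hab
  simp only [smul_eq_mul]
  have h1 := A3_ge x (cl_nonneg (a * x + b * y)) (cl_le (a * x + b * y))
  have h2 := A3_ge y (cl_nonneg (a * x + b * y)) (cl_le (a * x + b * y))
  have h3 : A3 (a * x + b * y) = a * (3 / 8 * cl (a * x + b * y) ^ 2 * x - cl (a * x + b * y) ^ 3 / 4) +
      b * (3 / 8 * cl (a * x + b * y) ^ 2 * y - cl (a * x + b * y) ^ 3 / 4) := by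
    unfold A3
    have : b = 1 - a := by linarith
    rw [this]; ring
  rw [h3]
  exact add_le_add (mul_le_mul_of_nonneg_left h1 ha) (mul_le_mul_of_nonneg_left h2 hb)

lemma pp_zero {t : ℝ} (h : t ≤ 0) : pp t = 0 := by
  unfold pp
  rw [A3_zero h, A3_top (by linarith), max_eq_right (by linarith)]; ring

lemma pp_left {t : ℝ} (h : 0 ≤ t) (h' : t ≤ 1 / 2) : pp t = t ^ 3 / 8 := by
  unfold pp
  rw [A3_mid h h', A3_top (by linarith), max_eq_right (by linarith)]; ring

lemma pp_right {t : ℝ} (h : 1 / 2 ≤ t) (h' : t ≤ 1) : pp t = (1 - t) ^ 3 / 8 + t - 1 / 2 := by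
  unfold pp
  rw [A3_top h, A3_mid (by linarith) (by linarith), max_eq_left (by linarith)]; ring

lemma pp_one {t : ℝ} (h : 1 ≤ t) : pp t = t - 1 / 2 := by
  unfold pp
  rw [A3_top (by linarith), A3_zero (by linarith), max_eq_left (by linarith)]; ring

lemma pp_cases (t : ℝ) : (t ≤ 0 ∧ pp t = 0) ∨ ((0 ≤ t ∧ t ≤ 1 / 2) ∧ pp t = t ^ 3 / 8) ∨
    ((1 / 2 ≤ t ∧ t ≤ 1) ∧ pp t = (1 - t) ^ 3 / 8 + t - 1 / 2) ∨ (1 ≤ t ∧ pp t = t - 1 / 2) := by
  rcases le_total t 0 with h | h
  · exact Or.inl ⟨h, pp_zero h⟩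
  · rcases le_total t (1 / 2) with h' | h'
    · exact Or.inr (Or.inl ⟨⟨h, h'⟩, pp_left h h'⟩)
    · rcases le_total t 1 with h'' | h''
      · exact Or.inr (Or.inr (Or.inl ⟨⟨h', h''⟩, pp_right h' h''⟩))
      · exact Or.inr (Or.inr (Or.inr ⟨h'', pp_one h''⟩))

lemma pp_nonneg (t : ℝ) : 0 ≤ pp t := by
  rcases pp_cases t with ⟨h, e⟩ | ⟨h, e⟩ | ⟨h, e⟩ | ⟨h, e⟩
  · rw [e]
  · rw [e]; have := h.1; positivity
  · rw [e]
    have h1 : 0 ≤ (1 - t) ^ 3 := pow_nonneg (by linarith [h.2]) 3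
    linarith [h.1]
  · rw [e]; linarith

lemma pp_le (t : ℝ) : pp t ≤ max t 0 := by
  rcases pp_cases t with ⟨h, e⟩ | ⟨h, e⟩ | ⟨h, e⟩ | ⟨h, e⟩
  · rw [e]; exact le_max_right _ _
  · rw [e]
    refine le_trans ?_ (le_max_left _ _)
    have h1 : t ^ 3 ≤ 1 * t := by
      have : t ^ 2 ≤ 1 := pow_le_one₀ h.1 (by linarith [h.2])
      calc t ^ 3 = t ^ 2 * t := by ring
        _ ≤ 1 * t := mul_le_mul_of_nonneg_right this h.1
    linarith [h.1]
  · rw [e]
    refine le_trans ?_ (le_max_left _ _)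
    have h1 : (1 - t) ^ 3 ≤ 1 := pow_le_one₀ (by linarith [h.2]) (by linarith [h.1])
    linarith
  · rw [e]
    refine le_trans ?_ (le_max_left _ _)
    linarith

lemma max_convex (a : ℝ) : ConvexOn ℝ univ (fun t : ℝ => max (t - a) 0) := by
  have h1 : ConvexOn ℝ univ (fun t : ℝ => t - a) := by
    refine ⟨convex_univ, ?_⟩
    intro x _ y _ p q _ _ hpq
    simp only [smul_eq_mul]
    have : q = 1 - p := by linarith
    rw [this]; apply le_of_eq; ring
  exact h1.sup (convexOn_const 0 convex_univ)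

lemma max_convex' : ConvexOn ℝ univ (fun t : ℝ => max (1 - t) 0) := by
  have h1 : ConvexOn ℝ univ (fun t : ℝ => 1 - t) := by
    refine ⟨convex_univ, ?_⟩
    intro x _ y _ p q _ _ hpq
    simp only [smul_eq_mul]
    have : q = 1 - p := by linarith
    rw [this]; apply le_of_eq; ring
  exact h1.sup (convexOn_const 0 convex_univ)

lemma pp_convex : ConvexOn ℝ univ pp := by
  refine ⟨convex_univ, ?_⟩
  intro x _ y _ a b ha hb hab
  have h1 := A3_convex.2 (mem_univ x) (mem_univ y) ha hb hab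
  have h2 := A3_convex.2 (mem_univ (1 - x)) (mem_univ (1 - y)) ha hb hab
  have h3 := (max_convex (1 / 2)).2 (mem_univ x) (mem_univ y) ha hb hab
  simp only [smul_eq_mul] at h1 h2 h3 ⊢
  have hb' : b = 1 - a := by linarith
  have e1 : a * (1 - x) + b * (1 - y) = 1 - (a * x + b * y) := by rw [hb']; ring
  rw [e1] at h2
  unfold pp
  have e2 : a * (A3 x + A3 (1 - x) - 1 / 64 - 3 / 32 * (1 / 2 - x) + 13 / 16 * max (x - 1 / 2) 0) +
      b * (A3 y + A3 (1 - y) - 1 / 64 - 3 / 32 * (1 / 2 - y) + 13 / 16 * max (y - 1 / 2) 0) =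
      (a * A3 x + b * A3 y) + (a * A3 (1 - x) + b * A3 (1 - y)) - 1 / 64 - 3 / 32 * (1 / 2 - (a * x + b * y)) +
      13 / 16 * (a * max (x - 1 / 2) 0 + b * max (y - 1 / 2) 0) := by
    rw [hb']; ring
  rw [e2]
  linarith

lemma pp_lt {t : ℝ} (h0 : 0 < t) (h1 : t < 1) : pp t < al t + ar t := by
  have key : ∀ {t : ℝ}, 0 < t → t ≤ 1 / 2 → pp t < al t + ar t := by
    intro t h0 h1
    rw [pp_left h0.le h1]
    have h2 := al_ge h0 (by linarith)
    have h3 := ar_nonneg t
    have h4 : 0 < t ^ 3 := by positivity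
    linarith
  rcases le_total t (1 / 2) with h | h
  · exact key h0 h
  · rw [ah_sym, pp_right h h1.le]
    have h2 := key (t := 1 - t) (by linarith) (by linarith)
    rw [pp_left (by linarith) (by linarith)] at h2
    linarith

lemma cube_strict {a b : ℝ} (ha : 0 ≤ a) (hab : a < b) : ((a + b) / 2) ^ 3 < (a ^ 3 + b ^ 3) / 2 := by
  have h1 : 0 < (a + b) * (b - a) ^ 2 := by
    apply mul_pos (by linarith)
    have : 0 < b - a := by linarith
    positivity
  nlinarith

lemma pp_strict {x y : ℝ} (hxy : x < y) (h0 : 0 < y) (h1 : x < 1) :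
    ∃ x' y' : ℝ, x < x' ∧ x' < y' ∧ y' < y ∧ pp ((x' + y') / 2) < (pp x' + pp y') / 2 := by
  rcases lt_or_ge x (1 / 2) with h | h
  · have hlo : max x 0 < min y (1 / 2) := by
      apply lt_min
      · exact max_lt hxy h0
      · exact max_lt h (by norm_num)
    set lo := max x 0
    set hi := min y (1 / 2)
    have hl0 : 0 ≤ lo := le_max_right _ _
    have hlx : x ≤ lo := le_max_left _ _
    have hh1 : hi ≤ 1 / 2 := min_le_right _ _
    have hhy : hi ≤ y := min_le_left _ _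
    refine ⟨lo + (hi - lo) / 3, lo + 2 * (hi - lo) / 3, by linarith, by linarith, by linarith, ?_⟩
    rw [pp_left (by linarith) (by linarith), pp_left (by linarith) (by linarith),
      pp_left (by linarith) (by linarith)]
    have := cube_strict (a := lo + (hi - lo) / 3) (b := lo + 2 * (hi - lo) / 3) (by linarith) (by linarith)
    linarith
  · have hlo : x < min y 1 := lt_min hxy h1
    set hi := min y 1
    have hh1 : hi ≤ 1 := min_le_right _ _
    have hhy : hi ≤ y := min_le_left _ _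
    refine ⟨x + (hi - x) / 3, x + 2 * (hi - x) / 3, by linarith, by linarith, by linarith, ?_⟩
    rw [pp_right (by linarith) (by linarith), pp_right (by linarith) (by linarith),
      pp_right (by linarith) (by linarith)]
    have := cube_strict (a := 1 - (x + 2 * (hi - x) / 3)) (b := 1 - (x + (hi - x) / 3)) (by linarith) (by linarith)
    have e : (1 - (x + 2 * (hi - x) / 3) + (1 - (x + (hi - x) / 3))) / 2 =
      1 - (x + (hi - x) / 3 + (x + 2 * (hi - x) / 3)) / 2 := by ring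
    rw [e] at this
    linarith

lemma br_convex : ConvexOn ℝ univ br := by
  have h := ((max_convex 0).pow (fun t _ => le_max_right _ _) 3)
  refine ⟨convex_univ, ?_⟩
  intro x _ y _ a b ha hb hab
  have h1 := h.2 (mem_univ x) (mem_univ y) ha hb hab
  simp only [smul_eq_mul, Pi.pow_apply, sub_zero] at h1 ⊢
  unfold br
  linarith

lemma bl_convex : ConvexOn ℝ univ bl := by
  have h := (max_convex'.pow (fun t _ => le_max_right _ _) 3)
  refine ⟨convex_univ, ?_⟩
  intro x _ y _ a b ha hb hab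
  have h1 := h.2 (mem_univ x) (mem_univ y) ha hb hab
  simp only [smul_eq_mul, Pi.pow_apply] at h1 ⊢
  unfold bl
  have hb' : b = 1 - a := by linarith
  have e : a * (max (1 - x) 0 ^ 3 / 8 + x / 2 - 11 / 28) + b * (max (1 - y) 0 ^ 3 / 8 + y / 2 - 11 / 28) =
    (a * max (1 - x) 0 ^ 3 + b * max (1 - y) 0 ^ 3) / 8 + (a * x + b * y) / 2 - 11 / 28 := by
    rw [hb']; ring
  rw [e]
  linarith

lemma br_eq {t : ℝ} (h : t ≤ 0) : br t = al t := by
  rw [al_zero h]; unfold br; rw [max_eq_right h]; norm_num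

lemma br_pos {t : ℝ} (h : 0 ≤ t) : br t = t ^ 3 / 8 := by
  unfold br; rw [max_eq_left h]

lemma br_lt {t : ℝ} (h0 : 0 < t) (h1 : t ≤ 1) : br t < al t := by
  rw [br_pos h0.le]
  have h2 := al_ge h0 h1
  have h4 : 0 < t ^ 3 := by positivity
  linarith

lemma bl_br (t : ℝ) : bl t = br (1 - t) + t / 2 - 11 / 28 := rfl

lemma bl_eq {t : ℝ} (h : 1 ≤ t) : bl t = ar t := by
  rw [ar_eq, bl_br, br_eq (by linarith)]

lemma bl_lt {t : ℝ} (h0 : 0 ≤ t) (h1 : t < 1) : bl t < ar t := by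
  rw [ar_eq, bl_br]
  have := br_lt (t := 1 - t) (by linarith) (by linarith)
  linarith

lemma br_strict {x y : ℝ} (hxy : x < y) (h0 : 0 < y) :
    ∃ x' y' : ℝ, x < x' ∧ x' < y' ∧ y' < y ∧ br ((x' + y') / 2) < (br x' + br y') / 2 := by
  have hlo : max x 0 < y := max_lt hxy h0
  set lo := max x 0
  have hl0 : 0 ≤ lo := le_max_right _ _
  have hlx : x ≤ lo := le_max_left _ _
  refine ⟨lo + (y - lo) / 3, lo + 2 * (y - lo) / 3, by linarith, by linarith, by linarith, ?_⟩
  rw [br_pos (by linarith), br_pos (by linarith), br_pos (by linarith)]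
  have := cube_strict (a := lo + (y - lo) / 3) (b := lo + 2 * (y - lo) / 3) (by linarith) (by linarith)
  linarith

lemma bl_strict {x y : ℝ} (hxy : x < y) (h0 : x < 1) :
    ∃ x' y' : ℝ, x < x' ∧ x' < y' ∧ y' < y ∧ bl ((x' + y') / 2) < (bl x' + bl y') / 2 := by
  have hlo : x < min y 1 := lt_min hxy h0
  set hi := min y 1
  have hh1 : hi ≤ 1 := min_le_right _ _
  have hhy : hi ≤ y := min_le_left _ _
  refine ⟨x + (hi - x) / 3, x + 2 * (hi - x) / 3, by linarith, by linarith, by linarith, ?_⟩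
  rw [bl_br, bl_br, bl_br, br_pos (by linarith), br_pos (by linarith), br_pos (by linarith)]
  have := cube_strict (a := 1 - (x + 2 * (hi - x) / 3)) (b := 1 - (x + (hi - x) / 3)) (by linarith) (by linarith)
  have e : (1 - (x + 2 * (hi - x) / 3) + (1 - (x + (hi - x) / 3))) / 2 =
    1 - (x + (hi - x) / 3 + (x + 2 * (hi - x) / 3)) / 2 := by ring
  rw [e] at this
  linarith

end Pool.Agent.Lib.P8e
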