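import Pool.Agent.Lib.P8e.GapsD
import Pool.Agent.Lib.P8e.ProfD

set_option autoImplicit false

/-!
# The boundary function `H` and the network function `h`

PROOF SKETCH. All sums converge: `0 ≤ ℓ pp((x - a)/ℓ) ≤ max (x - a) 0`, same for `al + ar`, weights summable.
`H_concave`: every term of the sum is convex in `x` (`pp_convex` composed with an affine map), compare the sums (`tsum_le_tsum` style), `br_convex`, `bl_convex`.
`H_cont`: a concave function on `ℝ` is continuous (`ConcaveOn.continuousOn` on the open set `univ`), or uniform convergence.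
`H_strict`: choose `x < x' < y' < y` with `H ((x'+y')/2) > (H x' + H y')/2`: if `x < 1/4` by `bl_strict` (for `4 x < min (4 y) 1`), if `y > 3/4` by `br_strict`, otherwise by `dense` and
`pp_strict` (in the variable `(x - a)/ℓ`), all the other terms being convex; then with `z = (x'+y')/2`, concavity gives `H x' ≥` chord at `x'`, `H y' ≥` chord at `y'`,
so `H z >` chord at `z`; `θ = (z - x)/(y - x)`.
`h_le`, `h_lt`, `h_eq`: termwise: for `t ≤ 0` or `t ≥ 1` `pp = al + ar` (`pp_zero, ah_zero, pp_one, ah_one`), for `0 < t < 1` `pp_lt`; `br_eq, br_lt, bl_eq, bl_lt` at the ends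
(`4 x - 3 ≤ 1`, `0 ≤ 4 x`).
-/

open MeasureTheory Set Metric

namespace Pool.Agent.Lib.P8e

namespace Gp

variable {γ : Type} (G : Gp γ)

/-- The boundary function. -/
noncomputable def H (x : ℝ) : ℝ :=
  -(∑' g, G.w g * (G.ℓ g * pp ((x - G.a g) / G.ℓ g))) - 1 / 400 * br (4 * x - 3) -
    1 / 400 * bl (4 * x)

/-- The network function. -/
noncomputable def h (x : ℝ) : ℝ :=
  -(∑' g, G.w g * (G.ℓ g * (al ((x - G.a g) / G.ℓ g) + ar ((x - G.a g) / G.ℓ g)))) -
    1 / 400 * al (4 * x - 3) - 1 / 400 * ar (4 * x)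

/-- One boundary term. -/
noncomputable def Qb (g : γ) (x : ℝ) : ℝ := G.ℓ g * pp ((x - G.a g) / G.ℓ g)

/-- One network term. -/
noncomputable def Nb (g : γ) (x : ℝ) : ℝ :=
  G.ℓ g * (al ((x - G.a g) / G.ℓ g) + ar ((x - G.a g) / G.ℓ g))

/-- Minus the boundary function. -/
noncomputable def Fb (x : ℝ) : ℝ :=
  (∑' g, G.w g * G.Qb g x) + 1 / 400 * br (4 * x - 3) + 1 / 400 * bl (4 * x)

lemma H_eq (x : ℝ) : G.H x = -G.Fb x := by
  unfold H Fb Qb
  ring

/-- Minus the network function. -/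
noncomputable def fb (x : ℝ) : ℝ :=
  (∑' g, G.w g * G.Nb g x) + 1 / 400 * al (4 * x - 3) + 1 / 400 * ar (4 * x)

lemma h_eq' (x : ℝ) : G.h x = -G.fb x := by
  unfold h fb Nb
  ring

lemma max_le_of (g : γ) (x : ℝ) :
    G.ℓ g * max ((x - G.a g) / G.ℓ g) 0 ≤ max (x - 1 / 4) 0 := by
  have hl := G.ℓ_pos g
  have h1 : G.ℓ g * max ((x - G.a g) / G.ℓ g) 0 = max (x - G.a g) 0 := by
    rw [mul_max_of_nonneg _ _ hl.le, mul_zero, mul_div_cancel₀ _ hl.ne']
  rw [h1]
  have := G.lo g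
  exact max_le_max (by linarith) le_rfl

lemma Qb_nonneg (g : γ) (x : ℝ) : 0 ≤ G.Qb g x := mul_nonneg (G.ℓ_pos g).le (pp_nonneg _)

lemma Qb_le (g : γ) (x : ℝ) : G.Qb g x ≤ max (x - 1 / 4) 0 :=
  (mul_le_mul_of_nonneg_left (pp_le _) (G.ℓ_pos g).le).trans (G.max_le_of g x)

lemma Nb_nonneg (g : γ) (x : ℝ) : 0 ≤ G.Nb g x :=
  mul_nonneg (G.ℓ_pos g).le (add_nonneg (al_nonneg _) (ar_nonneg _))

lemma Nb_le (g : γ) (x : ℝ) : G.Nb g x ≤ max (x - 1 / 4) 0 := by
  refine (mul_le_mul_of_nonneg_left ?_ (G.ℓ_pos g).le).trans (G.max_le_of g x)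
  have h1 := al_le ((x - G.a g) / G.ℓ g)
  have h2 := ar_le ((x - G.a g) / G.ℓ g)
  linarith

lemma summable_Qb (x : ℝ) : Summable fun g => G.w g * G.Qb g x := by
  refine Summable.of_nonneg_of_le (fun g => mul_nonneg (G.w_pos g).le (G.Qb_nonneg g x))
    (fun g => ?_) (G.w_sum.mul_right (max (x - 1 / 4) 0))
  exact mul_le_mul_of_nonneg_left (G.Qb_le g x) (G.w_pos g).le

lemma summable_Nb (x : ℝ) : Summable fun g => G.w g * G.Nb g x := by
  refine Summable.of_nonneg_of_le (fun g => mul_nonneg (G.w_pos g).le (G.Nb_nonneg g x))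
    (fun g => ?_) (G.w_sum.mul_right (max (x - 1 / 4) 0))
  exact mul_le_mul_of_nonneg_left (G.Nb_le g x) (G.w_pos g).le

lemma Qb_conv (g : γ) {x y a b : ℝ} (ha : 0 ≤ a) (hb : 0 ≤ b) (hab : a + b = 1) :
    G.Qb g (a * x + b * y) ≤ a * G.Qb g x + b * G.Qb g y := by
  unfold Qb
  have hl := G.ℓ_pos g
  have h1 : (a * x + b * y - G.a g) / G.ℓ g =
      a * ((x - G.a g) / G.ℓ g) + b * ((y - G.a g) / G.ℓ g) := by
    field_simp
    linear_combination G.a g * hab
  have h2 := pp_convex.2 (mem_univ ((x - G.a g) / G.ℓ g)) (mem_univ ((y - G.a g) / G.ℓ g)) ha hb hab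
  simp only [smul_eq_mul] at h2
  rw [h1]
  have h3 := mul_le_mul_of_nonneg_left h2 hl.le
  linarith

lemma S_conv {x y a b : ℝ} (ha : 0 ≤ a) (hb : 0 ≤ b) (hab : a + b = 1) :
    ∑' g, G.w g * G.Qb g (a * x + b * y) ≤
      a * ∑' g, G.w g * G.Qb g x + b * ∑' g, G.w g * G.Qb g y := by
  rw [← tsum_mul_left, ← tsum_mul_left,
    ← ((G.summable_Qb x).mul_left a).tsum_add ((G.summable_Qb y).mul_left b)]
  refine Summable.tsum_le_tsum (fun g => ?_) (G.summable_Qb _)
    (((G.summable_Qb x).mul_left a).add ((G.summable_Qb y).mul_left b))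
  have h1 := mul_le_mul_of_nonneg_left (G.Qb_conv g (x := x) (y := y) ha hb hab) (G.w_pos g).le
  linarith

lemma br_conv {x y a b : ℝ} (ha : 0 ≤ a) (hb : 0 ≤ b) (hab : a + b = 1) :
    br (4 * (a * x + b * y) - 3) ≤ a * br (4 * x - 3) + b * br (4 * y - 3) := by
  have h2 := br_convex.2 (mem_univ (4 * x - 3)) (mem_univ (4 * y - 3)) ha hb hab
  simp only [smul_eq_mul] at h2
  have h1 : 4 * (a * x + b * y) - 3 = a * (4 * x - 3) + b * (4 * y - 3) := by
    linear_combination 3 * hab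
  rw [h1]
  exact h2

lemma bl_conv {x y a b : ℝ} (ha : 0 ≤ a) (hb : 0 ≤ b) (hab : a + b = 1) :
    bl (4 * (a * x + b * y)) ≤ a * bl (4 * x) + b * bl (4 * y) := by
  have h2 := bl_convex.2 (mem_univ (4 * x)) (mem_univ (4 * y)) ha hb hab
  simp only [smul_eq_mul] at h2
  have h1 : 4 * (a * x + b * y) = a * (4 * x) + b * (4 * y) := by ring
  rw [h1]
  exact h2

lemma Fb_convex : ConvexOn ℝ univ G.Fb := by
  refine ⟨convex_univ, ?_⟩
  intro x _ y _ a b ha hb hab
  simp only [smul_eq_mul]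
  unfold Fb
  have h1 := G.S_conv (x := x) (y := y) ha hb hab
  have h2 := br_conv (x := x) (y := y) ha hb hab
  have h3 := bl_conv (x := x) (y := y) ha hb hab
  linarith

theorem H_concave : ConcaveOn ℝ univ G.H := by
  have h1 : G.H = -G.Fb := by
    funext x
    exact G.H_eq x
  rw [h1]
  exact G.Fb_convex.neg

theorem H_cont : Continuous G.H := by
  rw [← continuousOn_univ]
  exact G.H_concave.continuousOn isOpen_univ

lemma exists_mid {x y : ℝ} (hxy : x < y) : ∃ x' y' : ℝ, x < x' ∧ x' < y' ∧ y' < y ∧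
    G.Fb ((x' + y') / 2) < (G.Fb x' + G.Fb y') / 2 := by
  have hhalf : (0:ℝ) ≤ 1 / 2 := by norm_num
  have hsum : (1:ℝ) / 2 + 1 / 2 = 1 := by norm_num
  have hmid : ∀ x' y' : ℝ, (x' + y') / 2 = 1 / 2 * x' + 1 / 2 * y' := fun x' y' => by ring
  by_cases hx : x < 1 / 4
  · obtain ⟨X, Y, h1, h2, h3, h4⟩ := bl_strict (x := 4 * x) (y := 4 * y) (by linarith) (by linarith)
    refine ⟨X / 4, Y / 4, by linarith, by linarith, by linarith, ?_⟩
    have e1 := G.S_conv (x := X / 4) (y := Y / 4) hhalf hhalf hsum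
    have e2 := br_conv (x := X / 4) (y := Y / 4) hhalf hhalf hsum
    rw [hmid]
    unfold Fb
    have e3 : 4 * (1 / 2 * (X / 4) + 1 / 2 * (Y / 4)) = (X + Y) / 2 := by ring
    have e4 : 4 * (X / 4) = X := by ring
    have e5 : 4 * (Y / 4) = Y := by ring
    rw [e4, e5, e3] at e2 ⊢
    linarith
  by_cases hy : 3 / 4 < y
  · obtain ⟨X, Y, h1, h2, h3, h4⟩ := br_strict (x := 4 * x - 3) (y := 4 * y - 3)
      (by linarith) (by linarith)
    refine ⟨(X + 3) / 4, (Y + 3) / 4, by linarith, by linarith, by linarith, ?_⟩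
    have e1 := G.S_conv (x := (X + 3) / 4) (y := (Y + 3) / 4) hhalf hhalf hsum
    have e2 := bl_conv (x := (X + 3) / 4) (y := (Y + 3) / 4) hhalf hhalf hsum
    rw [hmid]
    unfold Fb
    have e3 : 4 * (1 / 2 * ((X + 3) / 4) + 1 / 2 * ((Y + 3) / 4)) - 3 = (X + Y) / 2 := by ring
    have e4 : 4 * ((X + 3) / 4) - 3 = X := by ring
    have e5 : 4 * ((Y + 3) / 4) - 3 = Y := by ring
    rw [e3, e4, e5]
    linarith
  obtain ⟨g, t, ht1, ht2⟩ := G.dense x y (by linarith) hxy (by linarith)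
  have hl := G.ℓ_pos g
  obtain ⟨X, Y, h1, h2, h3, h4⟩ := pp_strict (x := (x - G.a g) / G.ℓ g) (y := (y - G.a g) / G.ℓ g)
    (div_lt_div_of_pos_right (by linarith) hl)
    (div_pos (by linarith [ht1.2, ht2.1]) hl)
    (by rw [div_lt_one hl]; linarith [ht1.1, ht2.2])
  rw [div_lt_iff₀ hl] at h1
  rw [lt_div_iff₀ hl] at h3
  have h5 : X * G.ℓ g < Y * G.ℓ g := mul_lt_mul_of_pos_right h2 hl
  refine ⟨G.a g + X * G.ℓ g, G.a g + Y * G.ℓ g, by linarith, by linarith, by linarith, ?_⟩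
  set x' := G.a g + X * G.ℓ g with hx'
  set y' := G.a g + Y * G.ℓ g with hy'
  have e1 := br_conv (x := x') (y := y') hhalf hhalf hsum
  have e2 := bl_conv (x := x') (y := y') hhalf hhalf hsum
  have e3 : G.Qb g (1 / 2 * x' + 1 / 2 * y') < 1 / 2 * G.Qb g x' + 1 / 2 * G.Qb g y' := by
    unfold Qb
    have f1 : (1 / 2 * x' + 1 / 2 * y' - G.a g) / G.ℓ g = (X + Y) / 2 := by
      rw [hx', hy']
      field_simp
      ring
    have f2 : (x' - G.a g) / G.ℓ g = X := by
      rw [hx']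
      field_simp
      ring
    have f3 : (y' - G.a g) / G.ℓ g = Y := by
      rw [hy']
      field_simp
      ring
    rw [f1, f2, f3]
    have := mul_lt_mul_of_pos_left h4 hl
    linarith
  have e4 : ∑' g, G.w g * G.Qb g (1 / 2 * x' + 1 / 2 * y') <
      1 / 2 * ∑' g, G.w g * G.Qb g x' + 1 / 2 * ∑' g, G.w g * G.Qb g y' := by
    rw [← tsum_mul_left, ← tsum_mul_left,
      ← ((G.summable_Qb x').mul_left (1 / 2)).tsum_add ((G.summable_Qb y').mul_left (1 / 2))]
    refine Summable.tsum_lt_tsum (i := g) (fun g => ?_) ?_ (G.summable_Qb _)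
      (((G.summable_Qb x').mul_left (1 / 2)).add ((G.summable_Qb y').mul_left (1 / 2)))
    · have h1 := mul_le_mul_of_nonneg_left (G.Qb_conv g (x := x') (y := y') hhalf hhalf hsum)
        (G.w_pos g).le
      linarith
    · have := mul_lt_mul_of_pos_left e3 (G.w_pos g)
      linarith
  rw [hmid]
  unfold Fb
  linarith

theorem H_strict {x y : ℝ} (hxy : x < y) : ∃ θ : ℝ, 0 < θ ∧ θ < 1 ∧
    (1 - θ) * G.H x + θ * G.H y < G.H ((1 - θ) * x + θ * y) := by
  obtain ⟨x', y', h1, h2, h3, h4⟩ := G.exists_mid hxy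
  have hd : 0 < y - x := by linarith
  have hchord : ∀ t, x ≤ t → t ≤ y →
      G.Fb t ≤ (1 - (t - x) / (y - x)) * G.Fb x + (t - x) / (y - x) * G.Fb y := by
    intro t ht1 ht2
    have k1 : 0 ≤ (t - x) / (y - x) := div_nonneg (by linarith) hd.le
    have k2 : (t - x) / (y - x) ≤ 1 := by rw [div_le_one hd]; linarith
    have k3 := G.Fb_convex.2 (mem_univ x) (mem_univ y)
      (show 0 ≤ 1 - (t - x) / (y - x) by linarith) k1 (by ring)
    simp only [smul_eq_mul] at k3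
    have k4 : (1 - (t - x) / (y - x)) * x + (t - x) / (y - x) * y = t := by
      field_simp
      ring
    rwa [k4] at k3
  have c1 := hchord x' (by linarith) (by linarith)
  have c2 := hchord y' (by linarith) (by linarith)
  refine ⟨((x' + y') / 2 - x) / (y - x), div_pos (by linarith) hd, ?_, ?_⟩
  · rw [div_lt_one hd]
    linarith
  · have k4 : (1 - ((x' + y') / 2 - x) / (y - x)) * x + ((x' + y') / 2 - x) / (y - x) * y =
        (x' + y') / 2 := by
      field_simp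
      ring
    rw [k4, G.H_eq, G.H_eq, G.H_eq]
    have k5 : ((x' + y') / 2 - x) / (y - x) =
        ((x' - x) / (y - x) + (y' - x) / (y - x)) / 2 := by
      field_simp
      ring
    rw [k5]
    nlinarith

lemma pp_le_ah (t : ℝ) : pp t ≤ al t + ar t := by
  rcases le_or_gt t 0 with h | h
  · rw [pp_zero h, ah_zero h]
  rcases le_or_gt 1 t with h1 | h1
  · rw [pp_one h1, ah_one h1]
  exact (pp_lt h h1).le

lemma br_le_al {t : ℝ} (h : t ≤ 1) : br t ≤ al t := by
  rcases le_or_gt t 0 with h1 | h1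
  · rw [br_eq h1]
  · exact (br_lt h1 h).le

lemma bl_le_ar {t : ℝ} (h : 0 ≤ t) : bl t ≤ ar t := by
  rcases le_or_gt 1 t with h1 | h1
  · rw [bl_eq h1]
  · exact (bl_lt h h1).le

lemma Qb_le_Nb (g : γ) (x : ℝ) : G.Qb g x ≤ G.Nb g x :=
  mul_le_mul_of_nonneg_left (pp_le_ah _) (G.ℓ_pos g).le

lemma S_le (x : ℝ) : ∑' g, G.w g * G.Qb g x ≤ ∑' g, G.w g * G.Nb g x :=
  Summable.tsum_le_tsum (fun g => mul_le_mul_of_nonneg_left (G.Qb_le_Nb g x) (G.w_pos g).le)
    (G.summable_Qb x) (G.summable_Nb x)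

theorem h_le {x : ℝ} (h0 : 0 ≤ x) (h1 : x ≤ 1) : G.h x ≤ G.H x := by
  rw [G.h_eq', G.H_eq]
  unfold Fb fb
  have e1 := G.S_le x
  have e2 := br_le_al (t := 4 * x - 3) (by linarith)
  have e3 := bl_le_ar (t := 4 * x) (by linarith)
  linarith

theorem h_lt {x : ℝ} (h0 : 0 ≤ x) (h1 : x ≤ 1)
    (hx : x < 1 / 4 ∨ 3 / 4 < x ∨ ∃ g, x ∈ Ioo (G.a g) (G.a g + G.ℓ g)) : G.h x < G.H x := by
  rw [G.h_eq', G.H_eq]
  unfold Fb fb
  have e1 := G.S_le x
  have e2 := br_le_al (t := 4 * x - 3) (by linarith)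
  have e3 := bl_le_ar (t := 4 * x) (by linarith)
  rcases hx with hx | hx | ⟨g, hg1, hg2⟩
  · have := bl_lt (t := 4 * x) (by linarith) (by linarith)
    linarith
  · have := br_lt (t := 4 * x - 3) (by linarith) (by linarith)
    linarith
  · have hl := G.ℓ_pos g
    have h2 : pp ((x - G.a g) / G.ℓ g) < al ((x - G.a g) / G.ℓ g) + ar ((x - G.a g) / G.ℓ g) := by
      apply pp_lt
      · exact div_pos (by linarith) hl
      · rw [div_lt_one hl]
        linarith
    have h3 : G.w g * G.Qb g x < G.w g * G.Nb g x :=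
      mul_lt_mul_of_pos_left (mul_lt_mul_of_pos_left h2 hl) (G.w_pos g)
    have h4 : ∑' g, G.w g * G.Qb g x < ∑' g, G.w g * G.Nb g x :=
      Summable.tsum_lt_tsum (i := g)
        (fun g => mul_le_mul_of_nonneg_left (G.Qb_le_Nb g x) (G.w_pos g).le) h3
        (G.summable_Qb x) (G.summable_Nb x)
    linarith

theorem h_eq {x : ℝ} (h0 : 1 / 4 ≤ x) (h1 : x ≤ 3 / 4)
    (hx : ∀ g, x ∉ Ioo (G.a g) (G.a g + G.ℓ g)) : G.h x = G.H x := by
  rw [G.h_eq', G.H_eq]
  unfold Fb fb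
  rw [br_eq (show 4 * x - 3 ≤ 0 by linarith), bl_eq (show 1 ≤ 4 * x by linarith)]
  have h2 : ∀ g, G.Qb g x = G.Nb g x := by
    intro g
    have hl := G.ℓ_pos g
    unfold Qb Nb
    by_cases h3 : x ≤ G.a g
    · have h4 : (x - G.a g) / G.ℓ g ≤ 0 := div_nonpos_of_nonpos_of_nonneg (by linarith) hl.le
      rw [pp_zero h4, ah_zero h4]
    · have h5 : G.a g + G.ℓ g ≤ x := by
        by_contra h6
        exact hx g ⟨by linarith, by linarith⟩
      have h4 : 1 ≤ (x - G.a g) / G.ℓ g := by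
        rw [le_div_iff₀ hl]
        linarith
      rw [pp_one h4, ah_one h4]
  simp only [h2]

theorem h_abs {x : ℝ} (h0 : 0 ≤ x) (h1 : x ≤ 1) : |G.h x| ≤ 1 / 10 := by
  rw [G.h_eq', abs_neg]
  have e1 : 0 ≤ ∑' g, G.w g * G.Nb g x :=
    tsum_nonneg fun g => mul_nonneg (G.w_pos g).le (G.Nb_nonneg g x)
  have e2 : ∑' g, G.w g * G.Nb g x ≤ 1 / 100 := by
    have h2 : ∑' g, G.w g * G.Nb g x ≤ ∑' g, G.w g * 1 := by
      refine Summable.tsum_le_tsum (fun g => ?_) (G.summable_Nb x) (G.w_sum.mul_right 1)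
      apply mul_le_mul_of_nonneg_left _ (G.w_pos g).le
      refine (G.Nb_le g x).trans (max_le (by linarith) zero_le_one)
    simp only [mul_one] at h2
    exact h2.trans G.w_tot
  have e3 := al_nonneg (4 * x - 3)
  have e4 := ar_nonneg (4 * x)
  have e5 := al_le (4 * x - 3)
  have e6 := ar_le (4 * x)
  have e7 : max (4 * x - 3) 0 ≤ 1 := max_le (by linarith) zero_le_one
  have e8 : max (4 * x) 0 ≤ 4 := max_le (by linarith) (by norm_num)
  unfold fb
  rw [abs_le]
  constructor <;> linarith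

end Gp

end Pool.Agent.Lib.P8e
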