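import Pool.Agent.Lib.P8e.Cv

set_option autoImplicit false

/-!
# Radial integrals from bounds of the length in annuli
-/

open MeasureTheory Set Metric
open scoped ENNReal NNReal InnerProductSpace

namespace Pool.Agent.Lib.P8e

/-- The square of the radial slope of a needle (normalised). -/
noncomputable def gam (t : ℝ) : ℝ := if 0 ≤ t ∧ t ≤ 1 then t * (1 - t) ^ 4 else 0

lemma gam_nonneg (t : ℝ) : 0 ≤ gam t := by
  unfold gam
  split_ifs with h
  · have := h.1
    positivity
  · exact le_rfl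

lemma gam_le (t : ℝ) : gam t ≤ 1 / 10 := by
  unfold gam
  split_ifs with h
  · obtain ⟨h0, h1⟩ := h
    obtain ⟨u, hu⟩ : ∃ u, u = 1 - t := ⟨_, rfl⟩
    have hu0 : 0 ≤ u := by linarith
    have ht : t = 1 - u := by linarith
    have hq : 0 ≤ (u - 4 / 5) ^ 2 * (u ^ 3 + 3 / 5 * u ^ 2 + 8 / 25 * u + 16 / 125) := by
      positivity
    have h2 : t * (1 - t) ^ 4 = 256 / 3125 -
        (u - 4 / 5) ^ 2 * (u ^ 3 + 3 / 5 * u ^ 2 + 8 / 25 * u + 16 / 125) := by
      rw [ht]; ring
    rw [h2]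
    linarith
  · norm_num

private lemma gam_clamp (t : ℝ) :
    gam t = (max 0 (min t 1)) * (1 - max 0 (min t 1)) ^ 4 := by
  unfold gam
  split_ifs with h
  · rw [min_eq_left h.2, max_eq_right h.1]
  · rw [not_and_or, not_le, not_le] at h
    rcases h with h | h
    · rw [max_eq_left ((min_le_left t 1).trans h.le)]
      ring
    · rw [min_eq_right h.le, max_eq_right zero_le_one]
      ring

lemma continuous_gam : Continuous gam := by
  have h : gam = fun t => (max 0 (min t 1)) * (1 - max 0 (min t 1)) ^ 4 := funext gam_clamp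
  rw [h]
  fun_prop

/-- The derivative of `gam` on the unit interval. -/
private noncomputable def dg (t : ℝ) : ℝ := (1 - t) ^ 3 * (1 - 5 * t)

private lemma continuous_dg : Continuous dg := by
  unfold dg
  fun_prop

private lemma dg_abs {t : ℝ} (h0 : 0 ≤ t) (h1 : t ≤ 1) : |dg t| ≤ 1 := by
  unfold dg
  have hu0 : 0 ≤ 1 - t := by linarith
  have hu2 : (1 - t) ^ 2 ≤ 1 := by nlinarith
  have hu2' : 0 ≤ (1 - t) ^ 2 := sq_nonneg _
  have hk : |(1 - t) * (1 - 5 * t)| ≤ 1 := by
    rw [abs_le]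
    constructor <;> nlinarith [sq_nonneg (t - 3 / 5)]
  have h3 : (1 - t) ^ 3 * (1 - 5 * t) = (1 - t) ^ 2 * ((1 - t) * (1 - 5 * t)) := by ring
  rw [h3, abs_mul, abs_of_nonneg hu2']
  exact mul_le_one₀ hu2 (abs_nonneg _) hk

private lemma integral_dg (y : ℝ) : ∫ t in (0 : ℝ)..y, dg t = y * (1 - y) ^ 4 := by
  have h : ∀ t ∈ uIcc 0 y, HasDerivAt (fun t : ℝ => t * (1 - t) ^ 4) (dg t) t := by
    intro t _
    have h1 : HasDerivAt (fun t : ℝ => 1 - t) (-1) t := by
      simpa using (hasDerivAt_id t).const_sub 1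
    have h2 := (hasDerivAt_id t).mul (h1.pow 4)
    refine h2.congr_deriv ?_
    simp only [id, dg]
    norm_num
    ring
  rw [intervalIntegral.integral_eq_sub_of_hasDerivAt h
    (continuous_dg.intervalIntegrable _ _)]
  ring

private lemma integral_main (A B : ℝ) :
    ∫ t in (0 : ℝ)..1, (dg t * (A * (1 - t)) + B) = A / 30 + B := by
  have h : ∀ t ∈ uIcc (0 : ℝ) 1, HasDerivAt
      (fun t : ℝ => A * (4 / 5 * (1 - t) ^ 5 - 5 / 6 * (1 - t) ^ 6) + B * t)
      (dg t * (A * (1 - t)) + B) t := by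
    intro t _
    have h1 : HasDerivAt (fun t : ℝ => 1 - t) (-1) t := by
      simpa using (hasDerivAt_id t).const_sub 1
    have h2 := (((h1.pow 5).const_mul (4 / 5)).sub ((h1.pow 6).const_mul (5 / 6))).const_mul A
    have h3 := h2.add ((hasDerivAt_id t).const_mul B)
    refine h3.congr_deriv ?_
    simp only [dg]
    norm_num
    ring
  rw [intervalIntegral.integral_eq_sub_of_hasDerivAt h]
  · norm_num
    ring
  · apply Continuous.intervalIntegrable
    have := continuous_dg
    fun_prop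

theorem radial_upper {S : Set E2} (hS : μH[1] S ≠ ∞) (hm : MeasurableSet S) (c : E2) {ρ : ℝ}
    (hρ : 0 < ρ) {n a b : ℝ} (ha : 0 ≤ a) (hb : 0 ≤ b)
    (hlow : ∀ s ∈ Icc 0 ρ, n * (ρ - s) - a ≤ H1 (S ∩ {x | s < dist x c ∧ dist x c < ρ}))
    (hup : ∀ s ∈ Icc 0 ρ, H1 (S ∩ {x | s < dist x c ∧ dist x c < ρ}) ≤ n * (ρ - s) + b) :
    ∫ x in S ∩ ball c ρ, gam (dist x c / ρ) ∂(μH[1] : Measure E2) ≤ n * ρ / 30 + (a + b) := by
  set μ : Measure E2 := (μH[1] : Measure E2).restrict (S ∩ ball c ρ) with hμ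
  have hmS : MeasurableSet (S ∩ ball c ρ) := hm.inter measurableSet_ball
  have : IsFiniteMeasure μ := by
    refine ⟨?_⟩
    rw [hμ, Measure.restrict_apply_univ]
    exact lt_of_le_of_lt (measure_mono inter_subset_left) (lt_top_iff_ne_top.2 hS)
  set ν : Measure ℝ := (volume : Measure ℝ).restrict (Ioc 0 1) with hν
  have : IsFiniteMeasure ν := by
    rw [hν]; infer_instance
  set F : E2 → ℝ → ℝ := fun x t => if t < dist x c / ρ then dg t else 0 with hF
  have hFm : Measurable (Function.uncurry F) := by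
    have hset : MeasurableSet {p : E2 × ℝ | p.2 < dist p.1 c / ρ} := by
      apply measurableSet_lt measurable_snd
      fun_prop
    exact Measurable.ite hset (continuous_dg.measurable.comp measurable_snd) measurable_const
  have hFi : Integrable (Function.uncurry F) (μ.prod ν) := by
    have hb1 : ∀ᵐ p ∂(μ.prod ν), ‖Function.uncurry F p‖ ≤ 1 := by
      have h1 : ∀ᵐ p ∂(μ.prod ν), p.2 ∈ Ioc (0 : ℝ) 1 := by
        have h2 : ∀ᵐ t ∂ν, t ∈ Ioc (0 : ℝ) 1 := ae_restrict_mem measurableSet_Ioc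
        exact Measure.quasiMeasurePreserving_snd.ae h2
      filter_upwards [h1] with p hp
      simp only [Function.uncurry, hF, Real.norm_eq_abs]
      split_ifs
      · exact dg_abs hp.1.le hp.2
      · simp
    exact Integrable.of_bound hFm.aestronglyMeasurable 1 hb1
  -- Fubini
  have hswap := integral_integral_swap hFi
  have hleft : ∫ x, gam (dist x c / ρ) ∂μ = ∫ x, ∫ t, F x t ∂ν ∂μ := by
    refine integral_congr_ae ?_
    have h1 : ∀ᵐ x ∂μ, x ∈ S ∩ ball c ρ := ae_restrict_mem hmS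
    filter_upwards [h1] with x hx
    have hx1 : dist x c / ρ < 1 := by
      rw [div_lt_one hρ]; exact hx.2
    have hx0 : 0 ≤ dist x c / ρ := by positivity
    have h2 : ∫ t, F x t ∂ν = ∫ t in Ioc 0 1, (Iio (dist x c / ρ)).indicator dg t := by
      rfl
    rw [h2, setIntegral_indicator measurableSet_Iio]
    have h3 : Ioc 0 1 ∩ Iio (dist x c / ρ) = Ioo 0 (dist x c / ρ) := by
      ext t
      simp only [mem_inter_iff, mem_Ioc, mem_Iio, mem_Ioo]
      constructor
      · rintro ⟨⟨h4, _⟩, h5⟩; exact ⟨h4, h5⟩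
      · rintro ⟨h4, h5⟩; exact ⟨⟨h4, by linarith⟩, h5⟩
    rw [h3, ← integral_Ioc_eq_integral_Ioo, ← intervalIntegral.integral_of_le hx0, integral_dg]
    unfold gam
    rw [if_pos ⟨hx0, hx1.le⟩]
  have hright : ∀ t ∈ Ioc (0 : ℝ) 1, ∫ x, F x t ∂μ ≤ dg t * (n * ρ * (1 - t)) + (a + b) := by
    intro t ht
    have h1 : ∫ x, F x t ∂μ = dg t * H1 (S ∩ {x | ρ * t < dist x c ∧ dist x c < ρ}) := by
      have hset : MeasurableSet {x : E2 | t < dist x c / ρ} := by
        apply measurableSet_lt measurable_const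
        fun_prop
      have h2 : ∫ x, F x t ∂μ = ∫ x, ({x : E2 | t < dist x c / ρ}).indicator
          (fun _ => dg t) x ∂μ := by
        rfl
      rw [h2, integral_indicator hset, setIntegral_const, smul_eq_mul, mul_comm]
      congr 1
      rw [Measure.real, hμ, Measure.restrict_apply hset, H1]
      congr 2
      ext x
      simp only [mem_inter_iff, mem_ofPred_eq, mem_ball]
      constructor
      · rintro ⟨h3, h4, h5⟩
        rw [lt_div_iff₀ hρ] at h3
        exact ⟨h4, by linarith, h5⟩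
      · rintro ⟨h3, h4, h5⟩
        refine ⟨?_, h3, h5⟩
        rw [lt_div_iff₀ hρ]
        linarith
    rw [h1]
    have hs : ρ * t ∈ Icc 0 ρ := by
      constructor
      · have := ht.1; positivity
      · nlinarith [ht.2]
    have hl := hlow _ hs
    have hu := hup _ hs
    set N := H1 (S ∩ {x | ρ * t < dist x c ∧ dist x c < ρ}) with hN
    have hd := dg_abs ht.1.le ht.2
    have hN1 : |N - n * ρ * (1 - t)| ≤ a + b := by
      rw [abs_le]
      constructor <;> nlinarith
    have h5 : dg t * (N - n * ρ * (1 - t)) ≤ a + b := by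
      calc dg t * (N - n * ρ * (1 - t)) ≤ |dg t * (N - n * ρ * (1 - t))| := le_abs_self _
        _ = |dg t| * |N - n * ρ * (1 - t)| := abs_mul _ _
        _ ≤ 1 * (a + b) := mul_le_mul hd hN1 (abs_nonneg _) zero_le_one
        _ = a + b := one_mul _
    linarith
  have hint : Integrable (fun t => ∫ x, F x t ∂μ) ν := hFi.integral_prod_right
  have hcont : Continuous fun t : ℝ => dg t * (n * ρ * (1 - t)) + (a + b) := by
    have := continuous_dg
    fun_prop
  have hint2 : Integrable (fun t : ℝ => dg t * (n * ρ * (1 - t)) + (a + b)) ν := by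
    rw [hν]
    exact (hcont.integrableOn_Icc).mono_set Ioc_subset_Icc_self
  calc ∫ x, gam (dist x c / ρ) ∂μ = ∫ x, ∫ t, F x t ∂ν ∂μ := hleft
    _ = ∫ t, ∫ x, F x t ∂μ ∂ν := hswap
    _ ≤ ∫ t, (dg t * (n * ρ * (1 - t)) + (a + b)) ∂ν := by
        refine integral_mono_ae hint hint2 ?_
        have h2 : ∀ᵐ t ∂ν, t ∈ Ioc (0 : ℝ) 1 := ae_restrict_mem measurableSet_Ioc
        filter_upwards [h2] with t ht
        exact hright t ht
    _ = ∫ t in (0 : ℝ)..1, (dg t * (n * ρ * (1 - t)) + (a + b)) := by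
        rw [intervalIntegral.integral_of_le zero_le_one]
    _ = n * ρ / 30 + (a + b) := integral_main _ _

/-- Crude bound. -/
theorem radial_crude {S : Set E2} (hS : μH[1] S ≠ ∞) (c : E2) (ρ : ℝ) :
    ∫ x in S ∩ ball c ρ, gam (dist x c / ρ) ∂(μH[1] : Measure E2) ≤ H1 S := by
  have hfin : μH[1] (S ∩ ball c ρ) < ∞ :=
    lt_of_le_of_lt (measure_mono inter_subset_left) (lt_top_iff_ne_top.2 hS)
  have h1 : ‖∫ x in S ∩ ball c ρ, gam (dist x c / ρ) ∂(μH[1] : Measure E2)‖ ≤
      1 * (μH[1] : Measure E2).real (S ∩ ball c ρ) := by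
    refine norm_setIntegral_le_of_norm_le_const hfin ?_
    intro x _
    rw [Real.norm_eq_abs, abs_of_nonneg (gam_nonneg _)]
    linarith [gam_le (dist x c / ρ)]
  have h2 : (μH[1] : Measure E2).real (S ∩ ball c ρ) ≤ H1 S := by
    rw [Measure.real, H1]
    exact ENNReal.toReal_mono hS (measure_mono inter_subset_left)
  calc ∫ x in S ∩ ball c ρ, gam (dist x c / ρ) ∂(μH[1] : Measure E2)
      ≤ ‖∫ x in S ∩ ball c ρ, gam (dist x c / ρ) ∂(μH[1] : Measure E2)‖ := Real.le_norm_self _
    _ ≤ 1 * (μH[1] : Measure E2).real (S ∩ ball c ρ) := h1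
    _ ≤ H1 S := by rw [one_mul]; exact h2

end Pool.Agent.Lib.P8e
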