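import Pool.Agent.Lib.P8e.Ball
import Pool.Agent.Lib.P8e.Level
import Pool.Agent.Lib.P8e.Radial

set_option autoImplicit false

/-!
# The geometric inequality at the needles

PROOF SKETCH. Write `Δ = Dl (1/8) (7/8) S`, `e = Δ` (`H1 S ≤ len`), `u = 1/8`, `v = 7/8`.
If `Δ ≥ 1/20`: `radial_crude` and `H1 S ≤ len (1/8) (7/8) ≤ 1 ≤ 20 Δ` (`len_le`).
If `Δ < 1/20`: `infDist (pt u) S + ρ_j < 1/20 + 1/200 < 1/16 ≤ t_j - 1/8` (and for `v`), `4 ρ_j ≤ 8 ρ_j ≤ |t_i - t_j|`. With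
`c = pt (t_j)`, `d = dj S j`: `ann_low` gives `2 (ρ - s) - (8 Δ + 4 d) ≤ N(s)`, and `N(s) = H1 (S ∩ {s < |x-c| < ρ}) ≤ H1 (S ∩ ball c ρ) - H1 (S ∩ {0 < |x - c| < s})
≤ 2 ρ + 3 Δ - (2 s - 8 Δ - 4 d) = 2 (ρ - s) + 11 Δ + 4 d` (`ball_upper`; the sets are disjoint, `H1_split`).
`radial_upper` with `n = 2`. Ends: `n = 1`, `ball_upper_left/right`, `ann_low_left/right` (here `t_i - 1/8 ≥ 1/16 ≥ 4 ρe`, `7/8 - t_i ≥ 1/16`).
-/

open MeasureTheory Set Metric
open scoped ENNReal NNReal InnerProductSpace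

namespace Pool.Agent.Lib.P8e

/-- The whole curve is shorter than `1`. -/
lemma Cv.needle_len_le (C : Cv) : C.len (1 / 8) (7 / 8) ≤ 1 := by
  have h := C.len_le (u := 1 / 8) (v := 7 / 8) (by norm_num)
  norm_num at h ⊢
  linarith

private lemma sum_nonneg_aux (C : Cv) (u v : ℝ) (S : Set E2) :
    0 ≤ ∑' j, if u < C.t j ∧ C.t j < v then C.τ j * C.dj S j else 0 := by
  refine tsum_nonneg fun j => ?_
  split_ifs
  · exact mul_nonneg (C.τ_pos j).le infDist_nonneg
  · exact le_rfl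

lemma Cv.needle_left_le (C : Cv) (u v : ℝ) (S : Set E2) :
    infDist (C.pt u) S ≤ C.Dl u v S := by
  have h := sum_nonneg_aux C u v S
  have h2 : 0 ≤ infDist (C.pt v) S := infDist_nonneg
  unfold Cv.Dl
  linarith

lemma Cv.needle_right_le (C : Cv) (u v : ℝ) (S : Set E2) :
    infDist (C.pt v) S ≤ C.Dl u v S := by
  have h := sum_nonneg_aux C u v S
  have h2 : 0 ≤ infDist (C.pt u) S := infDist_nonneg
  unfold Cv.Dl
  linarith

private lemma meas_ann (c : E2) (a b : ℝ) :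
    MeasurableSet {x : E2 | a < dist x c ∧ dist x c < b} := by
  apply MeasurableSet.inter
  · exact measurableSet_lt measurable_const (measurable_id.dist measurable_const)
  · exact measurableSet_lt (measurable_id.dist measurable_const) measurable_const

/-- Upper bound in an annulus from an upper bound in the ball and a lower bound in the inner part. -/
private lemma ann_up {S : Set E2} (hS : Cpt S) (c : E2) {ρ s M L : ℝ} (hs : s ≤ ρ)
    (hM : H1 (S ∩ ball c ρ) ≤ M)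
    (hL : L ≤ H1 (S ∩ {x | 0 < dist x c ∧ dist x c < s})) :
    H1 (S ∩ {x | s < dist x c ∧ dist x c < ρ}) ≤ M - L := by
  have hSm : MeasurableSet S := hS.1.isClosed.measurableSet
  have hfin : μH[1] (S ∩ ball c ρ) ≠ ∞ :=
    ne_top_of_le_ne_top hS.2.2 (measure_mono inter_subset_left)
  have hA : S ∩ {x | s < dist x c ∧ dist x c < ρ} ⊆ S ∩ ball c ρ :=
    fun x hx => ⟨hx.1, mem_ball.2 hx.2.2⟩
  have hB : S ∩ {x | 0 < dist x c ∧ dist x c < s} ⊆ S ∩ ball c ρ :=
    fun x hx => ⟨hx.1, mem_ball.2 (lt_of_lt_of_le hx.2.2 hs)⟩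
  have hd : Disjoint (S ∩ {x | s < dist x c ∧ dist x c < ρ})
      (S ∩ {x | 0 < dist x c ∧ dist x c < s}) := by
    rw [Set.disjoint_left]
    rintro x ⟨-, h1, -⟩ ⟨-, -, h2⟩
    exact absurd h1 (not_lt.2 h2.le)
  have h := H1_split hfin (hSm.inter (meas_ann c s ρ)) (hSm.inter (meas_ann c 0 s)) hA hB hd
  linarith

theorem Cv.needle_int (C : Cv) (j : ℕ) {S : Set E2} (hS : Cpt S)
    (hH : H1 S ≤ C.len (1 / 8) (7 / 8)) :
    ∫ x in S ∩ ball (C.pt (C.t j)) (C.ρ j), gam (dist x (C.pt (C.t j)) / C.ρ j)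
      ∂(μH[1] : Measure E2) ≤ 2 * C.ρ j / 30 + 20 * (C.Dl (1 / 8) (7 / 8) S + C.dj S j) := by
  have hSm : MeasurableSet S := hS.1.isClosed.measurableSet
  have hρ := C.ρ_pos j
  have hρl := C.ρ_le j
  have hlo := C.t_lo j
  have hhi := C.t_hi j
  have hd0 : 0 ≤ C.dj S j := infDist_nonneg
  have hD0 : 0 ≤ C.Dl (1 / 8) (7 / 8) S :=
    infDist_nonneg.trans (C.needle_left_le (1 / 8) (7 / 8) S)
  have hul := C.needle_left_le (1 / 8) (7 / 8) S
  have hvl := C.needle_right_le (1 / 8) (7 / 8) S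
  generalize hΔ : C.Dl (1 / 8) (7 / 8) S = Δ at hD0 hul hvl ⊢
  rcases le_or_gt (1 / 20) Δ with hc | hc
  · have h1 := radial_crude hS.2.2 (C.pt (C.t j)) (C.ρ j)
    have h2 := C.needle_len_le
    linarith
  · have hr4 : 4 * C.ρ j ≤ C.t j - 1 / 8 := by linarith
    have hr4' : 4 * C.ρ j ≤ 7 / 8 - C.t j := by linarith
    have hiso : ∀ i, i ≠ j → 4 * C.ρ j ≤ |C.t i - C.t j| := fun i hi => by
      have := C.iso i j hi
      linarith
    have hu' : infDist (C.pt (1 / 8)) S + C.ρ j < C.t j - 1 / 8 := by linarith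
    have hv' : infDist (C.pt (7 / 8)) S + C.ρ j < 7 / 8 - C.t j := by linarith
    have hHe : H1 S ≤ C.len (1 / 8) (7 / 8) + Δ := by linarith
    have hup := C.ball_upper j hρ hr4 hr4' hiso hS hu'.le hv'.le hHe hΔ.le
    have key := radial_upper hS.2.2 hSm (C.pt (C.t j)) hρ (n := 2) (a := 8 * Δ + 4 * C.dj S j)
      (b := 11 * Δ + 4 * C.dj S j) (by linarith) (by linarith)
      (fun s hs => by
        have h := C.ann_low j hρ hr4 hr4' hiso hS hu' hv' hHe hΔ.le hs.1 hs.2 le_rfl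
        linarith)
      (fun s hs => by
        have h := C.ann_low j hρ hr4 hr4' hiso hS hu' hv' hHe hΔ.le le_rfl hs.1 hs.2
        have h' := ann_up hS (C.pt (C.t j)) hs.2 hup h
        linarith)
    linarith

theorem Cv.needle_int_left (C : Cv) {S : Set E2} (hS : Cpt S)
    (hH : H1 S ≤ C.len (1 / 8) (7 / 8)) :
    ∫ x in S ∩ ball (C.pt (1 / 8)) C.ρe, gam (dist x (C.pt (1 / 8)) / C.ρe)
      ∂(μH[1] : Measure E2) ≤
      1 * C.ρe / 30 + 20 * (C.Dl (1 / 8) (7 / 8) S + infDist (C.pt (1 / 8)) S) := by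
  have hSm : MeasurableSet S := hS.1.isClosed.measurableSet
  have hρ := C.ρe_pos
  have hρl := C.ρe_le
  have hd0 : 0 ≤ infDist (C.pt (1 / 8)) S := infDist_nonneg
  have hD0 : 0 ≤ C.Dl (1 / 8) (7 / 8) S :=
    infDist_nonneg.trans (C.needle_left_le (1 / 8) (7 / 8) S)
  have hul := C.needle_left_le (1 / 8) (7 / 8) S
  have hvl := C.needle_right_le (1 / 8) (7 / 8) S
  generalize hΔ : C.Dl (1 / 8) (7 / 8) S = Δ at hD0 hul hvl ⊢
  rcases le_or_gt (1 / 20) Δ with hc | hc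
  · have h1 := radial_crude hS.2.2 (C.pt (1 / 8)) C.ρe
    have h2 := C.needle_len_le
    linarith
  · have hiso : ∀ i, 1 / 8 < C.t i → 4 * C.ρe ≤ C.t i - 1 / 8 := fun i _ => by
      have := C.t_lo i
      linarith
    have hv' : infDist (C.pt (7 / 8)) S + C.ρe ≤ 7 / 8 - 1 / 8 := by linarith
    have hHe : H1 S ≤ C.len (1 / 8) (7 / 8) + Δ := by linarith
    have hup := C.ball_upper_left hρ hiso hS hv' hHe hΔ.le
    have key := radial_upper hS.2.2 hSm (C.pt (1 / 8)) hρ (n := 1)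
      (a := infDist (C.pt (1 / 8)) S)
      (b := 3 * Δ + infDist (C.pt (1 / 8)) S) (by linarith) (by linarith)
      (fun s hs => by
        have h := C.ann_low_left hS hv' hs.1 hs.2 le_rfl
        linarith)
      (fun s hs => by
        have h := C.ann_low_left hS hv' le_rfl hs.1 hs.2
        have h' := ann_up hS (C.pt (1 / 8)) hs.2 hup h
        linarith)
    linarith

theorem Cv.needle_int_right (C : Cv) {S : Set E2} (hS : Cpt S)
    (hH : H1 S ≤ C.len (1 / 8) (7 / 8)) :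
    ∫ x in S ∩ ball (C.pt (7 / 8)) C.ρe, gam (dist x (C.pt (7 / 8)) / C.ρe)
      ∂(μH[1] : Measure E2) ≤
      1 * C.ρe / 30 + 20 * (C.Dl (1 / 8) (7 / 8) S + infDist (C.pt (7 / 8)) S) := by
  have hSm : MeasurableSet S := hS.1.isClosed.measurableSet
  have hρ := C.ρe_pos
  have hρl := C.ρe_le
  have hd0 : 0 ≤ infDist (C.pt (7 / 8)) S := infDist_nonneg
  have hD0 : 0 ≤ C.Dl (1 / 8) (7 / 8) S :=
    infDist_nonneg.trans (C.needle_left_le (1 / 8) (7 / 8) S)
  have hul := C.needle_left_le (1 / 8) (7 / 8) S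
  have hvl := C.needle_right_le (1 / 8) (7 / 8) S
  generalize hΔ : C.Dl (1 / 8) (7 / 8) S = Δ at hD0 hul hvl ⊢
  rcases le_or_gt (1 / 20) Δ with hc | hc
  · have h1 := radial_crude hS.2.2 (C.pt (7 / 8)) C.ρe
    have h2 := C.needle_len_le
    linarith
  · have hiso : ∀ i, C.t i < 7 / 8 → 4 * C.ρe ≤ 7 / 8 - C.t i := fun i _ => by
      have := C.t_hi i
      linarith
    have hu' : infDist (C.pt (1 / 8)) S + C.ρe ≤ 7 / 8 - 1 / 8 := by linarith
    have hHe : H1 S ≤ C.len (1 / 8) (7 / 8) + Δ := by linarith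
    have hup := C.ball_upper_right hρ hiso hS hu' hHe hΔ.le
    have key := radial_upper hS.2.2 hSm (C.pt (7 / 8)) hρ (n := 1)
      (a := infDist (C.pt (7 / 8)) S)
      (b := 3 * Δ + infDist (C.pt (7 / 8)) S) (by linarith) (by linarith)
      (fun s hs => by
        have h := C.ann_low_right hS hu' hs.1 hs.2 le_rfl
        linarith)
      (fun s hs => by
        have h := C.ann_low_right hS hu' le_rfl hs.1 hs.2
        have h' := ann_up hS (C.pt (7 / 8)) hs.2 hup h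
        linarith)
    linarith

end Pool.Agent.Lib.P8e
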