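import Pool.Agent.Lib.P8e.Cut

set_option autoImplicit false

/-!
# Cutting at a vertex, step 2

PROOF. Take `s, Km, Kp, qm, qp` from `good_circle`, `c = pt w`, `w = t_j`, `Y1 = Km ∪ [qm, c]`, `Y2 = Kp ∪ [qp, c]`.
`H1 Y1 + H1 Y2 ≤ len u v + 13 e`. With `R2 = H1 Y2 - len w v + e + Σ2`, `R1 = H1 Y1 - len u w + e + Σ1` the length
inequality `t_inf` gives `infDist x_i Y1 ≤ 2 d_i + (10/9) R2` for the vertices left of `w`, and symmetrically, so
`Σ1 ≤ 2 e + R2/18`, `Σ2 ≤ 2 e + R1/18` and `R1 + R2 ≤ 13 e + 2 e + 4 e + (R1 + R2)/18`.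
-/

open MeasureTheory Set Metric
open scoped ENNReal NNReal InnerProductSpace

namespace Pool.Agent.Lib.P8e

namespace OneCutAux

/-- The sum over a window. -/
noncomputable def Sg (C : Cv) (u v : ℝ) (Y : Set E2) : ℝ :=
  ∑' k, if u < C.t k ∧ C.t k < v then C.τ k * C.dj Y k else 0

lemma Dl_eq (C : Cv) (u v : ℝ) (Y : Set E2) :
    C.Dl u v Y = infDist (C.pt u) Y + infDist (C.pt v) Y + Sg C u v Y := rfl

lemma dj_nonneg (C : Cv) (Y : Set E2) (k : ℕ) : 0 ≤ C.dj Y k := infDist_nonneg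

lemma term_nonneg (C : Cv) (u v : ℝ) (Y : Set E2) (k : ℕ) :
    0 ≤ (if u < C.t k ∧ C.t k < v then C.τ k * C.dj Y k else 0) := by
  split_ifs
  · exact mul_nonneg (C.τ_pos k).le (dj_nonneg C Y k)
  · exact le_rfl

lemma Sg_nonneg (C : Cv) (u v : ℝ) (Y : Set E2) : 0 ≤ Sg C u v Y :=
  tsum_nonneg (fun k => term_nonneg C u v Y k)

/-- Comparison of window sums. -/
lemma Sg_le (C : Cv) {u v u' v' : ℝ} {Y Y' : Set E2} (hY : Cpt Y) (hY' : Cpt Y') {a b : ℝ}
    (hb : 0 ≤ b)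
    (h : ∀ k, (if u < C.t k ∧ C.t k < v then C.τ k * C.dj Y k else 0) ≤
      a * (if u' < C.t k ∧ C.t k < v' then C.τ k * C.dj Y' k else 0) + C.τ k * b) :
    Sg C u v Y ≤ a * Sg C u' v' Y' + b / 20 := by
  have h1 := C.summable_Dl u v hY.1 hY.2.1.nonempty
  have h2 := C.summable_Dl u' v' hY'.1 hY'.2.1.nonempty
  have h3 : Summable (fun k => a * (if u' < C.t k ∧ C.t k < v' then C.τ k * C.dj Y' k else 0) + C.τ k * b) :=
    (h2.mul_left a).add (C.τ_sum.mul_right b)
  have h4 := h1.tsum_le_tsum h h3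
  rw [(h2.mul_left a).tsum_add (C.τ_sum.mul_right b), tsum_mul_left, tsum_mul_right] at h4
  have h5 : (∑' k, C.τ k) * b ≤ 1 / 20 * b := mul_le_mul_of_nonneg_right C.τ_tot hb
  unfold Sg
  linarith

lemma far_left (C : Cv) {w v x : ℝ} {Y : Set E2} (hY : Cpt Y) (hc : C.pt w ∈ Y)
    (hxw : x ≤ w) (hwv : w ≤ v) :
    (9 / 10) * dist (C.pt x) (C.pt w) ≤
      infDist (C.pt x) Y + (H1 Y - C.len w v + infDist (C.pt v) Y + Sg C w v Y) := by
  have h1 := C.t_inf (hxw.trans hwv) hY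
  rw [C.len_add hxw hwv, Dl_eq] at h1
  have h2 := C.dist_le_len hxw
  have h0 : 0 ≤ dist (C.pt x) (C.pt w) := dist_nonneg
  have h3 : Sg C x v Y ≤ 1 * Sg C w v Y + ((1 + 1 / 100) * dist (C.pt x) (C.pt w)) / 20 := by
    apply Sg_le C hY hY (by positivity)
    intro k
    have hτ := (C.τ_pos k).le
    have hd0 := dj_nonneg C Y k
    rw [one_mul]
    rcases lt_or_ge w (C.t k) with hk | hk
    · by_cases hv' : C.t k < v
      · rw [if_pos ⟨lt_of_le_of_lt hxw hk, hv'⟩, if_pos ⟨hk, hv'⟩]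
        have : 0 ≤ C.τ k * ((1 + 1 / 100) * dist (C.pt x) (C.pt w)) := by positivity
        linarith
      · rw [if_neg (fun h => hv' h.2), if_neg (fun h => hv' h.2)]
        have : 0 ≤ C.τ k * ((1 + 1 / 100) * dist (C.pt x) (C.pt w)) := by positivity
        linarith
    · have e0 : (if w < C.t k ∧ C.t k < v then C.τ k * C.dj Y k else 0) = 0 :=
        if_neg (fun h => absurd h.1 (not_lt.2 hk))
      rw [e0, zero_add]
      split_ifs with h
      · apply mul_le_mul_of_nonneg_left _ hτ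
        have h4 : C.dj Y k ≤ dist (C.pt (C.t k)) (C.pt w) := infDist_le_dist_of_mem hc
        have h5 := C.dist_pt_le (C.t k) w
        have h6 := C.dist_pt_ge x w
        have h7 : |C.t k - w| ≤ |x - w| := by
          rw [abs_of_nonpos (by linarith), abs_of_nonpos (by linarith)]
          linarith [h.1]
        calc C.dj Y k ≤ (1 + 1 / 100) * |C.t k - w| := h4.trans h5
          _ ≤ (1 + 1 / 100) * |x - w| := mul_le_mul_of_nonneg_left h7 (by norm_num)
          _ ≤ _ := mul_le_mul_of_nonneg_left h6 (by norm_num)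
      · positivity
  linarith

lemma far_right (C : Cv) {w u x : ℝ} {Y : Set E2} (hY : Cpt Y) (hc : C.pt w ∈ Y)
    (hwx : w ≤ x) (huw : u ≤ w) :
    (9 / 10) * dist (C.pt x) (C.pt w) ≤
      infDist (C.pt x) Y + (H1 Y - C.len u w + infDist (C.pt u) Y + Sg C u w Y) := by
  have h1 := C.t_inf (huw.trans hwx) hY
  rw [C.len_add huw hwx, Dl_eq] at h1
  have h2 := C.dist_le_len hwx
  rw [dist_comm] at h2
  have h0 : 0 ≤ dist (C.pt x) (C.pt w) := dist_nonneg
  have h3 : Sg C u x Y ≤ 1 * Sg C u w Y + ((1 + 1 / 100) * dist (C.pt x) (C.pt w)) / 20 := by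
    apply Sg_le C hY hY (by positivity)
    intro k
    have hτ := (C.τ_pos k).le
    have hd0 := dj_nonneg C Y k
    rw [one_mul]
    rcases lt_or_ge (C.t k) w with hk | hk
    · by_cases hv' : u < C.t k
      · rw [if_pos ⟨hv', lt_of_lt_of_le hk hwx⟩, if_pos ⟨hv', hk⟩]
        have : 0 ≤ C.τ k * ((1 + 1 / 100) * dist (C.pt x) (C.pt w)) := by positivity
        linarith
      · rw [if_neg (fun h => hv' h.1), if_neg (fun h => hv' h.1)]
        have : 0 ≤ C.τ k * ((1 + 1 / 100) * dist (C.pt x) (C.pt w)) := by positivity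
        linarith
    · have e0 : (if u < C.t k ∧ C.t k < w then C.τ k * C.dj Y k else 0) = 0 :=
        if_neg (fun h => absurd h.2 (not_lt.2 hk))
      rw [e0, zero_add]
      split_ifs with h
      · apply mul_le_mul_of_nonneg_left _ hτ
        have h4 : C.dj Y k ≤ dist (C.pt (C.t k)) (C.pt w) := infDist_le_dist_of_mem hc
        have h5 := C.dist_pt_le (C.t k) w
        have h6 := C.dist_pt_ge x w
        have h7 : |C.t k - w| ≤ |x - w| := by
          rw [abs_of_nonneg (by linarith), abs_of_nonneg (by linarith)]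
          linarith [h.2]
        calc C.dj Y k ≤ (1 + 1 / 100) * |C.t k - w| := h4.trans h5
          _ ≤ (1 + 1 / 100) * |x - w| := mul_le_mul_of_nonneg_left h7 (by norm_num)
          _ ≤ _ := mul_le_mul_of_nonneg_left h6 (by norm_num)
      · positivity
  linarith

/-- One side. `A` is the near piece, `B` the far piece. -/
lemma dj_bound (C : Cv) {w : ℝ} {i : ℕ} {r s R : ℝ} (hs : s < r) (hR : 0 ≤ R)
    (hi : 4 * r ≤ |C.t i - w|) {Y A B Y1 : Set E2} (hY : Cpt Y)
    (hcov : Y \ ball (C.pt w) s ⊆ A ∪ B) (hA : A ⊆ Y1) (hc : C.pt w ∈ Y1)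
    (hfar : ∀ y ∈ B, (9 / 10) * dist (C.pt (C.t i)) (C.pt w) ≤ dist (C.pt (C.t i)) y + R) :
    C.dj Y1 i ≤ 2 * C.dj Y i + (10 / 9) * R := by
  obtain ⟨y, hyY, hy⟩ := exists_near hY (C.pt (C.t i))
  have hd : C.dj Y i = dist (C.pt (C.t i)) y := hy.symm
  have hd0 : 0 ≤ dist (C.pt (C.t i)) y := dist_nonneg
  have h1 : C.dj Y1 i ≤ dist (C.pt (C.t i)) (C.pt w) := infDist_le_dist_of_mem hc
  by_cases hyb : y ∈ ball (C.pt w) s
  · have h2 : dist y (C.pt w) < s := hyb
    have h3 := dist_triangle (C.pt (C.t i)) y (C.pt w)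
    have h4 := C.dist_pt_ge (C.t i) w
    rw [hd]
    linarith
  · rcases hcov ⟨hyY, hyb⟩ with h | h
    · have h2 : C.dj Y1 i ≤ dist (C.pt (C.t i)) y := infDist_le_dist_of_mem (hA h)
      rw [hd]; linarith
    · have h2 := hfar y h
      rw [hd]; linarith

end OneCutAux

open OneCutAux

theorem Cv.one_cut (C : Cv) {u v : ℝ} (j : ℕ) {r : ℝ} (hr : 0 < r)
    (hu : 4 * r ≤ C.t j - u) (hv : 4 * r ≤ v - C.t j)
    (hiso : ∀ i, i ≠ j → 4 * r ≤ |C.t i - C.t j|) {Y : Set E2} (hY : Cpt Y)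
    {e : ℝ} (he : 0 ≤ e) (her : 200 * e ≤ r)
    (hH : H1 Y ≤ C.len u v + e) (hD : C.Dl u v Y ≤ e) (hd : C.dj Y j ≤ e) :
    ∃ Y1 Y2 : Set E2, Cpt Y1 ∧ Cpt Y2 ∧ Y ⊆ Y1 ∪ Y2 ∪ ball (C.pt (C.t j)) r ∧
      H1 Y1 ≤ C.len u (C.t j) + 25 * e ∧ C.Dl u (C.t j) Y1 ≤ 25 * e ∧
      H1 Y2 ≤ C.len (C.t j) v + 25 * e ∧ C.Dl (C.t j) v Y2 ≤ 25 * e := by
  obtain ⟨s, Km, Kp, qm, qp, hs1, hs2, hKm, hKm', hKp, hKp', hdisj, hcov, hqm, hqp, hqms, hqps,
    hinfu, hinfv, hball⟩ := C.good_circle j hr hu hv hiso hY he her hH hD hd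
  set w := C.t j with hw
  set c := C.pt w with hc
  have huw : u ≤ w := by linarith
  have hwv : w ≤ v := by linarith
  have hKmY : Km ⊆ Y := fun x hx => by
    have : x ∈ Y \ ball c s := by rw [hcov]; exact Or.inl hx
    exact this.1
  have hKpY : Kp ⊆ Y := fun x hx => by
    have : x ∈ Y \ ball c s := by rw [hcov]; exact Or.inr hx
    exact this.1
  have hYfin := hY.2.2
  have cKm : Cpt Km := ⟨hKm, hKm', ne_top_of_le_ne_top hYfin (measure_mono hKmY)⟩
  have cKp : Cpt Kp := ⟨hKp, hKp', ne_top_of_le_ne_top hYfin (measure_mono hKpY)⟩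
  -- length
  have hl1 : H1 Km + H1 Kp ≤ H1 (Y \ ball c s) := by
    apply H1_split (ne_top_of_le_ne_top hYfin (measure_mono sdiff_subset)) hKm.measurableSet hKp.measurableSet
    · rw [hcov]; exact subset_union_left
    · rw [hcov]; exact subset_union_right
    · exact hdisj
  have hl2 : H1 (Y \ ball c s) + H1 (Y ∩ ball c s) ≤ H1 Y := by
    apply H1_split hYfin (hY.1.measurableSet.diff measurableSet_ball)
      (hY.1.measurableSet.inter measurableSet_ball) sdiff_subset inter_subset_left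
    exact disjoint_sdiff_left.mono_right inter_subset_right
  obtain ⟨cY1, hY1⟩ := cKm.union_segment hqm c
  obtain ⟨cY2, hY2⟩ := cKp.union_segment hqp c
  set Y1 := Km ∪ segment ℝ qm c with hY1def
  set Y2 := Kp ∪ segment ℝ qp c with hY2def
  have hc1 : c ∈ Y1 := Or.inr (right_mem_segment ℝ qm c)
  have hc2 : c ∈ Y2 := Or.inr (right_mem_segment ℝ qp c)
  rw [hqms] at hY1
  rw [hqps] at hY2
  have hsum : H1 Y1 + H1 Y2 ≤ C.len u v + 13 * e := by linarith
  have hlen : C.len u v = C.len u w + C.len w v := C.len_add huw hwv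
  -- ends
  have hSgY := Sg_nonneg C u v Y
  rw [Dl_eq] at hD
  have hiu : 0 ≤ infDist (C.pt u) Y := infDist_nonneg
  have hiv : 0 ≤ infDist (C.pt v) Y := infDist_nonneg
  have hu1 : infDist (C.pt u) Y1 ≤ e := by
    have : infDist (C.pt u) Y1 ≤ infDist (C.pt u) Km :=
      infDist_le_infDist_of_subset subset_union_left hKm'.nonempty
    linarith
  have hv2 : infDist (C.pt v) Y2 ≤ e := by
    have : infDist (C.pt v) Y2 ≤ infDist (C.pt v) Kp :=
      infDist_le_infDist_of_subset subset_union_left hKp'.nonempty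
    linarith
  have hSY : Sg C u v Y ≤ e := by linarith
  have hw1 : infDist (C.pt w) Y1 = 0 := infDist_zero_of_mem hc1
  have hw2 : infDist (C.pt w) Y2 = 0 := infDist_zero_of_mem hc2
  set R1 := H1 Y1 - C.len u w + e + Sg C u w Y1 with hR1
  set R2 := H1 Y2 - C.len w v + e + Sg C w v Y2 with hR2
  have hR10 : 0 ≤ R1 := by
    have := C.t_inf huw cY1
    rw [Dl_eq, hw1] at this
    linarith
  have hR20 : 0 ≤ R2 := by
    have := C.t_inf hwv cY2
    rw [Dl_eq, hw2] at this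
    linarith
  have hine : ∀ i, C.t i ≠ w → 4 * r ≤ |C.t i - w| := by
    intro i hi
    apply hiso i
    rintro rfl
    exact hi rfl
  -- left vertices
  have hleft : ∀ i, C.t i < w → C.dj Y1 i ≤ 2 * C.dj Y i + (10 / 9) * R2 := by
    intro i hi
    apply dj_bound C (A := Km) (B := Kp) hs2 hR20 (hine i hi.ne) hY (by rw [← hc, hcov]) subset_union_left hc1
    intro y hy
    have h1 := far_left C cY2 hc2 hi.le hwv
    have h2 : infDist (C.pt (C.t i)) Y2 ≤ dist (C.pt (C.t i)) y := infDist_le_dist_of_mem (Or.inl hy)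
    linarith
  have hright : ∀ i, w < C.t i → C.dj Y2 i ≤ 2 * C.dj Y i + (10 / 9) * R1 := by
    intro i hi
    apply dj_bound C (A := Kp) (B := Km) hs2 hR10 (hine i hi.ne') hY
      (by rw [← hc, hcov, union_comm]) subset_union_left hc2
    intro y hy
    have h1 := far_right C cY1 hc1 hi.le huw
    have h2 : infDist (C.pt (C.t i)) Y1 ≤ dist (C.pt (C.t i)) y := infDist_le_dist_of_mem (Or.inl hy)
    linarith
  have hS1 : Sg C u w Y1 ≤ 2 * Sg C u v Y + ((10 / 9) * R2) / 20 := by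
    apply Sg_le C cY1 hY (by positivity)
    intro k
    have hτ := (C.τ_pos k).le
    have hd0 := dj_nonneg C Y k
    by_cases h : u < C.t k ∧ C.t k < w
    · rw [if_pos h, if_pos ⟨h.1, lt_of_lt_of_le h.2 hwv⟩]
      have := mul_le_mul_of_nonneg_left (hleft k h.2) hτ
      linarith
    · rw [if_neg h]
      have h1 := term_nonneg C u v Y k
      positivity
  have hS2 : Sg C w v Y2 ≤ 2 * Sg C u v Y + ((10 / 9) * R1) / 20 := by
    apply Sg_le C cY2 hY (by positivity)
    intro k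
    have hτ := (C.τ_pos k).le
    have hd0 := dj_nonneg C Y k
    by_cases h : w < C.t k ∧ C.t k < v
    · rw [if_pos h, if_pos ⟨lt_of_le_of_lt huw h.1, h.2⟩]
      have := mul_le_mul_of_nonneg_left (hright k h.1) hτ
      linarith
    · rw [if_neg h]
      have h1 := term_nonneg C u v Y k
      positivity
  have hRR : R1 + R2 ≤ 19 * e + (R1 + R2) / 18 := by linarith
  have hS10 := Sg_nonneg C u w Y1
  have hS20 := Sg_nonneg C w v Y2
  refine ⟨Y1, Y2, cY1, cY2, ?_, ?_, ?_, ?_, ?_⟩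
  · intro x hx
    by_cases hxb : x ∈ ball c s
    · right
      exact ball_subset_ball hs2.le hxb
    · have : x ∈ Km ∪ Kp := by rw [← hcov]; exact ⟨hx, hxb⟩
      rcases this with h | h
      · exact Or.inl (Or.inl (Or.inl h))
      · exact Or.inl (Or.inr (Or.inl h))
  · linarith
  · rw [Dl_eq, hw1]; linarith
  · linarith
  · rw [Dl_eq, hw2]; linarith

end Pool.Agent.Lib.P8e
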