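import Pool.Agent.Lib.P8e.Blk
import Pool.Agent.Lib.P8e.Radial

set_option autoImplicit false

/-!
# The needle: profile, gradient, energy

`prof t = ∫_t^1 √s (1 - s)^2 ds` on `[0, 1]`, `0` for `t ≥ 1`; `prof' t = -√t (1 - t)^2`, `gam t = (prof' t)^2`.
-/

open MeasureTheory Set Metric
open scoped ENNReal NNReal InnerProductSpace

namespace Pool.Agent.Lib.P8e

noncomputable def prof (t : ℝ) : ℝ :=
  if t ≤ 1 then 16 / 105 - √t * (2 / 3 * t - 4 / 5 * t ^ 2 + 2 / 7 * t ^ 3) else 0

/-- Minus the derivative of the profile. -/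
noncomputable def pr (t : ℝ) : ℝ := if t ≤ 1 then √t * (1 - t) ^ 2 else 0

/-- The needle. -/
noncomputable def needle (c : E2) (ρ a : ℝ) (arms : Finset E2) : Blk where
  w := fun x => a * ρ * prof (dist x c / ρ)
  c := c
  ρ := ρ
  arms := arms

private lemma pr_nonneg (t : ℝ) : 0 ≤ pr t := by
  unfold pr
  split_ifs <;> positivity

private lemma pr_of_one_le {t : ℝ} (h : 1 ≤ t) : pr t = 0 := by
  unfold pr
  split_ifs with h1
  · have : t = 1 := le_antisymm h1 h
    rw [this]; ring
  · rfl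

private lemma prof_of_one_le {t : ℝ} (h : 1 ≤ t) : prof t = 0 := by
  unfold prof
  split_ifs with h1
  · have : t = 1 := le_antisymm h1 h
    rw [this, Real.sqrt_one]; norm_num
  · rfl

private lemma continuous_pr : Continuous pr := by
  have h : pr = fun t => √(min t 1) * (1 - min t 1) ^ 2 := by
    funext t
    unfold pr
    split_ifs with h
    · rw [min_eq_left h]
    · rw [min_eq_right (not_le.1 h).le]; ring
  rw [h]
  fun_prop

private lemma pr_sq {t : ℝ} (ht : 0 ≤ t) : pr t ^ 2 = gam t := by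
  unfold pr gam
  by_cases h : t ≤ 1
  · rw [if_pos h, if_pos ⟨ht, h⟩, mul_pow, Real.sq_sqrt ht]; ring
  · rw [if_neg h, if_neg (fun h' => h h'.2)]; ring

/-- The smooth branch of the profile. -/
private noncomputable def pF (t : ℝ) : ℝ :=
  16 / 105 - √t * (2 / 3 * t - 4 / 5 * t ^ 2 + 2 / 7 * t ^ 3)

private lemma pF_deriv {t : ℝ} (ht : 0 < t) : HasDerivAt pF (-(√t * (1 - t) ^ 2)) t := by
  have h1 : HasDerivAt (fun t : ℝ => √t) (1 / (2 * √t)) t := Real.hasDerivAt_sqrt ht.ne'
  have h2 : HasDerivAt (fun t : ℝ => 2 / 3 * t - 4 / 5 * t ^ 2 + 2 / 7 * t ^ 3)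
      (2 / 3 * 1 - 4 / 5 * (2 * t) + 2 / 7 * (3 * t ^ 2)) t := by
    have ha := (hasDerivAt_id t).const_mul (2 / 3 : ℝ)
    have hb := (hasDerivAt_pow 2 t).const_mul (4 / 5 : ℝ)
    have hc := (hasDerivAt_pow 3 t).const_mul (2 / 7 : ℝ)
    refine ((ha.sub hb).add hc).congr_deriv ?_
    norm_num
  have h3 := (h1.mul h2).const_sub (16 / 105)
  refine h3.congr_deriv ?_
  have hs : √t ≠ 0 := (Real.sqrt_pos.2 ht).ne'
  have hs2 : √t ^ 2 = t := Real.sq_sqrt ht.le
  obtain ⟨s, hs'⟩ : ∃ s, s = √t := ⟨_, rfl⟩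
  rw [← hs'] at hs hs2 ⊢
  rw [← hs2]
  field_simp
  ring

private lemma prof_deriv {t : ℝ} (ht : 0 < t) : HasDerivAt prof (-pr t) t := by
  rcases lt_trichotomy t 1 with h | h | h
  · have h1 := pF_deriv ht
    have h2 : prof =ᶠ[nhds t] pF := by
      filter_upwards [Iio_mem_nhds h] with s hs
      unfold prof pF
      rw [if_pos (le_of_lt hs)]
    have h3 : pr t = √t * (1 - t) ^ 2 := by unfold pr; rw [if_pos h.le]
    rw [h3]
    exact h1.congr_of_eventuallyEq h2
  · subst h
    have h0 : pr 1 = 0 := pr_of_one_le le_rfl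
    rw [h0, neg_zero]
    have h1 : HasDerivWithinAt prof 0 (Iic 1) 1 := by
      have h2 := (pF_deriv one_pos).hasDerivWithinAt (s := Iic 1)
      have h3 : -(√(1 : ℝ) * (1 - 1) ^ 2) = 0 := by ring
      rw [h3] at h2
      refine h2.congr ?_ ?_
      · intro s hs
        unfold prof pF
        rw [if_pos (mem_Iic.1 hs)]
      · unfold prof pF
        rw [if_pos le_rfl]
    have h4 : HasDerivWithinAt prof 0 (Ici 1) 1 := by
      have h5 := (hasDerivAt_const (1 : ℝ) (0 : ℝ)).hasDerivWithinAt (s := Ici 1)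
      refine h5.congr ?_ ?_
      · intro s hs
        exact prof_of_one_le hs
      · exact prof_of_one_le le_rfl
    have h6 := h1.union h4
    rw [Iic_union_Ici, hasDerivWithinAt_univ] at h6
    exact h6
  · have h0 : pr t = 0 := pr_of_one_le h.le
    rw [h0, neg_zero]
    have h2 : prof =ᶠ[nhds t] fun _ => 0 := by
      filter_upwards [Ioi_mem_nhds h] with s hs
      exact prof_of_one_le (le_of_lt hs)
    exact (hasDerivAt_const t (0 : ℝ)).congr_of_eventuallyEq h2

private lemma prof_zero : prof 0 = 16 / 105 := by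
  unfold prof
  rw [if_pos zero_le_one]
  simp

private lemma prof_sub_le {t : ℝ} (ht : 0 ≤ t) : |prof t - prof 0| ≤ t * √t := by
  rw [prof_zero]
  have hs : 0 ≤ √t := Real.sqrt_nonneg t
  unfold prof
  split_ifs with h
  · have e : 16 / 105 - √t * (2 / 3 * t - 4 / 5 * t ^ 2 + 2 / 7 * t ^ 3) - 16 / 105 =
        -(t * √t * (2 / 3 - 4 / 5 * t + 2 / 7 * t ^ 2)) := by ring
    rw [e, abs_neg, abs_mul, abs_of_nonneg (mul_nonneg ht hs)]
    have h1 : |2 / 3 - 4 / 5 * t + 2 / 7 * t ^ 2| ≤ 1 := by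
      rw [abs_le]
      constructor <;> nlinarith
    calc t * √t * |2 / 3 - 4 / 5 * t + 2 / 7 * t ^ 2| ≤ t * √t * 1 :=
          mul_le_mul_of_nonneg_left h1 (mul_nonneg ht hs)
      _ = t * √t := mul_one _
  · push Not at h
    rw [zero_sub, abs_neg, abs_of_pos (by norm_num)]
    have h1 : 1 ≤ √t := by
      rw [Real.one_le_sqrt]; exact h.le
    nlinarith

section

variable (c : E2) {ρ a : ℝ} (arms : Finset E2) (hρ : 0 < ρ)

private lemma dist_fderiv {x c : E2} (hx : x ≠ c) :
    HasFDerivAt (fun y => dist y c) ((1 / dist x c) • innerSL ℝ (x - c)) x := by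
  have h1 : HasFDerivAt (fun y : E2 => ‖y - c‖ ^ 2)
      (2 • (innerSL ℝ (x - c)).comp (ContinuousLinearMap.id ℝ E2)) x :=
    ((hasFDerivAt_id x).sub_const c).norm_sq
  have hd : 0 < dist x c := dist_pos.2 hx
  have hn : ‖x - c‖ ^ 2 ≠ 0 := by
    rw [← dist_eq_norm]; positivity
  have h2 := h1.sqrt hn
  have e : (fun y : E2 => √(‖y - c‖ ^ 2)) = fun y => dist y c := by
    funext y
    rw [Real.sqrt_sq (norm_nonneg _), dist_eq_norm]
  rw [e] at h2
  refine h2.congr_fderiv ?_
  rw [Real.sqrt_sq (norm_nonneg _), ← dist_eq_norm]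
  ext v
  simp
  field_simp

include hρ

private lemma needle_hasFDerivAt {x : E2} (hx : x ≠ c) :
    HasFDerivAt (needle c ρ a arms).w
      ((-(a * pr (dist x c / ρ)) / dist x c) • innerSL ℝ (x - c)) x := by
  have hd : 0 < dist x c := dist_pos.2 hx
  have h1 : HasFDerivAt (fun y : E2 => dist y c / ρ) ((1 / ρ) • ((1 / dist x c) • innerSL ℝ (x - c))) x := by
    have := (dist_fderiv hx).const_mul (1 / ρ)
    refine this.congr_of_eventuallyEq (Filter.Eventually.of_forall fun y => ?_)
    change dist y c / ρ = 1 / ρ * dist y c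
    ring
  have h2 : HasDerivAt prof (-pr (dist x c / ρ)) (dist x c / ρ) := prof_deriv (div_pos hd hρ)
  have h3 := (h2.comp_hasFDerivAt x h1).const_mul (a * ρ)
  refine h3.congr_fderiv ?_
  ext v
  simp
  field_simp

/-- The gradient off the centre. -/
theorem needle_fderiv {x : E2} (hx : x ≠ c) (v : E2) :
    fderiv ℝ (needle c ρ a arms).w x v = -(a * pr (dist x c / ρ)) * (⟪x - c, v⟫_ℝ / dist x c) := by
  rw [(needle_hasFDerivAt c arms hρ hx).fderiv]
  change (-(a * pr (dist x c / ρ)) / dist x c) * ⟪x - c, v⟫_ℝ = _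
  ring

private lemma needle_hasFDerivAt_center : HasFDerivAt (needle c ρ a arms).w (0 : E2 →L[ℝ] ℝ) c := by
  rw [hasFDerivAt_iff_isLittleO, Asymptotics.isLittleO_iff]
  intro ε hε
  have hc : Filter.Tendsto (fun x : E2 => |a| * √(dist x c / ρ)) (nhds c) (nhds 0) := by
    have h : Continuous fun x : E2 => |a| * √(dist x c / ρ) := by fun_prop
    have h2 := h.tendsto c
    simpa using h2
  filter_upwards [hc.eventually (gt_mem_nhds hε)] with x hx
  have hd : 0 ≤ dist x c := dist_nonneg
  have e : (needle c ρ a arms).w x - (needle c ρ a arms).w c - (0 : E2 →L[ℝ] ℝ) (x - c) =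
      a * ρ * (prof (dist x c / ρ) - prof 0) := by
    simp [needle]
    ring
  rw [e, norm_mul, norm_mul, Real.norm_eq_abs, Real.norm_eq_abs, Real.norm_eq_abs,
    abs_of_pos hρ, ← dist_eq_norm]
  have h1 := prof_sub_le (div_nonneg hd hρ.le)
  calc |a| * ρ * |prof (dist x c / ρ) - prof 0| ≤ |a| * ρ * (dist x c / ρ * √(dist x c / ρ)) := by
        gcongr
    _ = (|a| * √(dist x c / ρ)) * dist x c := by field_simp
    _ ≤ ε * dist x c := by gcongr

theorem needle_fderiv_center : fderiv ℝ (needle c ρ a arms).w c = 0 :=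
  (needle_hasFDerivAt_center c arms hρ).fderiv

theorem needle_norm_sq (x : E2) :
    ‖fderiv ℝ (needle c ρ a arms).w x‖ ^ 2 = a ^ 2 * gam (dist x c / ρ) := by
  by_cases hx : x = c
  · subst hx
    rw [needle_fderiv_center x arms hρ]
    simp [gam]
  · have hd : 0 < dist x c := dist_pos.2 hx
    rw [(needle_hasFDerivAt c arms hρ hx).fderiv, norm_smul, innerSL_apply_norm, ← dist_eq_norm,
      mul_pow, Real.norm_eq_abs, sq_abs, div_pow, div_mul_cancel₀ _ (by positivity), neg_sq, mul_pow,
      pr_sq (div_nonneg hd.le hρ.le)]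

theorem needle_reg (hν : ∀ ν ∈ arms, ‖ν‖ = 1) : (needle c ρ a arms).Reg := by
  have hdiff : Differentiable ℝ (needle c ρ a arms).w := by
    intro x
    by_cases hx : x = c
    · rw [hx]; exact (needle_hasFDerivAt_center c arms hρ).differentiableAt
    · exact (needle_hasFDerivAt c arms hρ hx).differentiableAt
  refine ⟨hρ, ?_, ?_, hν⟩
  · rw [contDiff_one_iff_fderiv]
    refine ⟨hdiff, continuous_iff_continuousAt.2 fun x => ?_⟩
    by_cases hx : x = c
    · rw [hx]
      have h0 := needle_fderiv_center (ρ := ρ) (a := a) c arms hρ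
      unfold ContinuousAt
      rw [h0, tendsto_zero_iff_norm_tendsto_zero]
      have hn : ∀ y : E2, ‖fderiv ℝ (needle c ρ a arms).w y‖ = √(a ^ 2 * gam (dist y c / ρ)) := by
        intro y
        rw [← needle_norm_sq c arms hρ y, Real.sqrt_sq (norm_nonneg _)]
      simp only [hn]
      have hcont : Continuous fun y : E2 => √(a ^ 2 * gam (dist y c / ρ)) := by
        have := continuous_gam
        fun_prop
      have h2 := hcont.tendsto c
      have h3 : √(a ^ 2 * gam (dist c c / ρ)) = 0 := by simp [gam]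
      rw [h3] at h2
      exact h2
    · have h1 : fderiv ℝ (needle c ρ a arms).w =ᶠ[nhds x]
          fun y => (-(a * pr (dist y c / ρ)) / dist y c) • innerSL ℝ (y - c) := by
        filter_upwards [isOpen_ne.mem_nhds hx] with y hy
        exact (needle_hasFDerivAt c arms hρ hy).fderiv
      refine ContinuousAt.congr ?_ h1.symm
      have hd : dist x c ≠ 0 := (dist_pos.2 hx).ne'
      have hp := continuous_pr
      have h2 : ContinuousAt (fun y : E2 => -(a * pr (dist y c / ρ)) / dist y c) x := by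
        refine ContinuousAt.div ?_ ?_ hd
        · have : Continuous fun y : E2 => -(a * pr (dist y c / ρ)) := by fun_prop
          exact this.continuousAt
        · have : Continuous fun y : E2 => dist y c := by fun_prop
          exact this.continuousAt
      have h3 : ContinuousAt (fun y : E2 => innerSL ℝ (y - c)) x := by
        have : Continuous fun y : E2 => innerSL ℝ (y - c) := by fun_prop
        exact this.continuousAt
      exact h2.smul h3
  · intro x hx
    have hx' : ρ ≤ dist x c := hx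
    have h1 : 1 ≤ dist x c / ρ := by rwa [le_div_iff₀ hρ, one_mul]
    constructor
    · change a * ρ * prof (dist x c / ρ) = 0
      rw [prof_of_one_le h1, mul_zero]
    · have hne : x ≠ c := by
        intro h
        rw [h, dist_self] at hx'
        linarith
      rw [(needle_hasFDerivAt c arms hρ hne).fderiv, pr_of_one_le h1]
      simp

theorem needle_arm {ν : E2} (hν : ‖ν‖ = 1) {r : ℝ} (hr : 0 < r) :
    fderiv ℝ (needle c ρ a arms).w (c + r • ν) ν = -(a * pr (r / ρ)) := by
  have hne : c + r • ν ≠ c := by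
    intro h
    have h1 : r • ν = 0 := by simpa using h
    rcases smul_eq_zero.1 h1 with h2 | h2
    · exact hr.ne' h2
    · rw [h2, norm_zero] at hν
      exact zero_ne_one hν
  have hd : dist (c + r • ν) c = r := by
    rw [dist_eq_norm, add_sub_cancel_left, norm_smul, hν, mul_one, Real.norm_of_nonneg hr.le]
  rw [needle_fderiv c arms hρ hne, hd, add_sub_cancel_left, inner_smul_left,
    real_inner_self_eq_norm_sq, hν]
  simp
  field_simp

omit hρ in
private lemma integral_gam : ∫ t in (0 : ℝ)..1, gam t = 1 / 30 := by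
  have h : ∀ t ∈ uIcc (0 : ℝ) 1, HasDerivAt (fun t : ℝ => -(1 / 5) * (1 - t) ^ 5 + 1 / 6 * (1 - t) ^ 6)
      (gam t) t := by
    intro t ht
    rw [uIcc_of_le zero_le_one] at ht
    have h1 : HasDerivAt (fun t : ℝ => 1 - t) (-1) t := by
      simpa using (hasDerivAt_id t).const_sub 1
    have h2 := ((h1.pow 5).const_mul (-(1 / 5))).add ((h1.pow 6).const_mul (1 / 6))
    refine h2.congr_deriv ?_
    unfold gam
    rw [if_pos ⟨ht.1, ht.2⟩]
    norm_num
    ring
  rw [intervalIntegral.integral_eq_sub_of_hasDerivAt h (continuous_gam.intervalIntegrable _ _)]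
  norm_num

theorem needle_T (hν : ∀ ν ∈ arms, ‖ν‖ = 1) :
    (needle c ρ a arms).T (needle c ρ a arms).w = arms.card * a ^ 2 * ρ / 30 := by
  have key : ∀ ν ∈ arms, ∫ r in (0 : ℝ)..ρ, (fderiv ℝ (needle c ρ a arms).w (c + r • ν) ν) *
      (fderiv ℝ (needle c ρ a arms).w (c + r • ν) ν) = a ^ 2 * ρ / 30 := by
    intro ν hν'
    have h1 : ∫ r in (0 : ℝ)..ρ, (fderiv ℝ (needle c ρ a arms).w (c + r • ν) ν) *
      (fderiv ℝ (needle c ρ a arms).w (c + r • ν) ν) = ∫ r in (0 : ℝ)..ρ, a ^ 2 * gam (r / ρ) := by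
      refine intervalIntegral.integral_congr_ae (ae_of_all _ fun r hr => ?_)
      rw [uIoc_of_le hρ.le] at hr
      rw [needle_arm c arms hρ (hν ν hν') hr.1, ← pr_sq (div_nonneg hr.1.le hρ.le)]
      ring
    rw [h1, intervalIntegral.integral_const_mul, intervalIntegral.integral_comp_div _ hρ.ne',
      zero_div, div_self hρ.ne', integral_gam, smul_eq_mul]
    ring
  change ∑ ν ∈ arms, ∫ r in (0 : ℝ)..ρ, (fderiv ℝ (needle c ρ a arms).w (c + r • ν) ν) *
      (fderiv ℝ (needle c ρ a arms).w (c + r • ν) ν) = _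
  rw [Finset.sum_congr rfl key, Finset.sum_const, nsmul_eq_mul]
  ring

theorem needle_Dir : Dir (needle c ρ a arms).w ≤ a ^ 2 * ρ ^ 2 := by
  unfold Dir
  simp only [needle_norm_sq c arms hρ]
  have h1 : ∫ x, a ^ 2 * gam (dist x c / ρ) = ∫ x in closedBall c ρ, a ^ 2 * gam (dist x c / ρ) := by
    symm
    apply setIntegral_eq_integral_of_forall_compl_eq_zero
    intro x hx
    rw [mem_closedBall, not_le] at hx
    have h : ¬ (0 ≤ dist x c / ρ ∧ dist x c / ρ ≤ 1) := by
      intro h
      have := h.2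
      rw [div_le_one hρ] at this
      linarith
    unfold gam
    rw [if_neg h, mul_zero]
  rw [h1]
  have hfin : volume (closedBall c ρ) < ∞ := measure_closedBall_lt_top
  have h2 : ‖∫ x in closedBall c ρ, a ^ 2 * gam (dist x c / ρ)‖ ≤
      (a ^ 2 * (1 / 10)) * volume.real (closedBall c ρ) := by
    refine norm_setIntegral_le_of_norm_le_const hfin ?_
    intro x _
    rw [Real.norm_of_nonneg (mul_nonneg (sq_nonneg _) (gam_nonneg _))]
    exact mul_le_mul_of_nonneg_left (gam_le _) (sq_nonneg _)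
  have h3 : volume.real (closedBall c ρ) = ρ ^ 2 * Real.pi := by
    rw [measureReal_def, EuclideanSpace.volume_closedBall_fin_two]
    rw [ENNReal.toReal_mul, ENNReal.toReal_pow, ENNReal.toReal_ofReal hρ.le]
    congr 1
    exact ENNReal.toReal_ofReal Real.pi_pos.le
  have hpi := Real.pi_le_four
  calc ∫ x in closedBall c ρ, a ^ 2 * gam (dist x c / ρ)
      ≤ ‖∫ x in closedBall c ρ, a ^ 2 * gam (dist x c / ρ)‖ := le_abs_self _
    _ ≤ (a ^ 2 * (1 / 10)) * (ρ ^ 2 * Real.pi) := by rw [← h3]; exact h2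
    _ = a ^ 2 * ρ ^ 2 * (Real.pi / 10) := by ring
    _ ≤ a ^ 2 * ρ ^ 2 * 1 := by
        apply mul_le_mul_of_nonneg_left _ (by positivity)
        linarith
    _ = a ^ 2 * ρ ^ 2 := mul_one _

end

end Pool.Agent.Lib.P8e
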