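import Pool.Agent.Lib.P8e.ClosH

set_option autoImplicit false

/-!
# Relatively closed sets give the same relaxed class

`⊇`: a closed set `S ⊆ Ω` is `S ∩ Ω`. `⊆`: `closure_minimal`; let `S = F ∩ Ω` be in `AdmRel` and `ν = H^1 ⌞ S`. `S` is Borel, `hausdorff_closure_diff` gives
`μH[1].restrict (closure S) = μH[1].restrict S`. Homotheties with centre `x₀ ∈ Ω` and ratio `c < 1` map `closure S` to compact connected subsets of `Ω`, of smaller length;
let `c → 1`.
-/

open MeasureTheory Set Metric
open scoped ENNReal NNReal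

namespace Pool.Agent.Lib.P8e

/-- The admissible sets with closed read as relatively closed in `Ω`. -/
def AdmRel (Ω : Set E2) (L : ℝ) : Set (Set E2) :=
  {S | (∃ F : Set E2, IsClosed F ∧ S = F ∩ Ω) ∧ IsConnected S ∧ μH[1] S ≤ ENNReal.ofReal L}

/-- The contraction with centre `x₀` and ratio `c`. -/
private noncomputable def hom (x₀ : E2) (c : ℝ) (x : E2) : E2 := AffineMap.homothety x₀ c x

private lemma hom_eq (x₀ : E2) (c : ℝ) (x : E2) : hom x₀ c x = c • (x - x₀) + x₀ := rfl

private lemma hom_cont (x₀ : E2) (c : ℝ) : Continuous (hom x₀ c) := by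
  have : hom x₀ c = fun x => c • (x - x₀) + x₀ := rfl
  rw [this]
  fun_prop

private lemma hom_inj (x₀ : E2) {c : ℝ} (hc : c ≠ 0) : Function.Injective (hom x₀ c) := by
  intro x y h
  rw [hom_eq, hom_eq] at h
  have h1 := add_right_cancel h
  have h2 := smul_right_injective E2 hc h1
  exact sub_left_injective h2

private lemma hom_measure (x₀ : E2) {c : ℝ} (hc : 0 < c) (A : Set E2) :
    μH[1] (hom x₀ c '' A) = ENNReal.ofReal c * μH[1] A := by
  have h := hausdorffMeasure_homothety_image (d := 1) zero_le_one x₀ hc.ne' A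
  have h2 : hom x₀ c '' A = AffineMap.homothety x₀ c '' A := rfl
  rw [h2, h, NNReal.rpow_one, ENNReal.smul_def, smul_eq_mul]
  congr 1
  rw [ENNReal.ofReal, Real.toNNReal_of_nonneg hc.le]
  congr 1
  ext
  simp [abs_of_pos hc]

private lemma hom_restrict (x₀ : E2) {c : ℝ} (hc : 0 < c) {K : Set E2} (hK : IsCompact K) :
    ENNReal.ofReal c • Measure.map (hom x₀ c) ((μH[1] : Measure E2).restrict K) =
      (μH[1] : Measure E2).restrict (hom x₀ c '' K) := by
  ext B hB
  have hmK : MeasurableSet (hom x₀ c '' K) := (hK.image (hom_cont x₀ c)).isClosed.measurableSet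
  rw [Measure.smul_apply, Measure.map_apply (hom_cont x₀ c).measurable hB,
    Measure.restrict_apply ((hom_cont x₀ c).measurable hB), Measure.restrict_apply hB, smul_eq_mul,
    ← hom_measure x₀ hc]
  congr 1
  rw [image_preimage_inter]

/-- The compact case. -/
private lemma mem_ML_of_compact {Ω : Set E2} (hΩ : IsOpen Ω) (hc : Convex ℝ Ω)
    (hne : Ω.Nonempty) {L : ℝ} {K : Set E2} (hK : IsCompact K) (hcon : IsConnected K)
    (hKΩ : K ⊆ closure Ω) (hL : μH[1] K ≤ ENNReal.ofReal L) (μ : FiniteMeasure E2)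
    (hμ : (μ : Measure E2) = (μH[1] : Measure E2).restrict K) : μ ∈ ML Ω L := by
  obtain ⟨x₀, hx₀⟩ := hne
  set c : ℕ → ℝ := fun n => 1 - 1 / ((n : ℝ) + 2) with hcdef
  have hc0 : ∀ n, 0 < c n := by
    intro n
    have h1 : (0 : ℝ) ≤ n := Nat.cast_nonneg n
    have h2 : 1 / ((n : ℝ) + 2) ≤ 1 / 2 := by
      apply one_div_le_one_div_of_le <;> linarith
    simp only [hcdef]
    linarith
  have hc1 : ∀ n, c n < 1 := by
    intro n
    have h1 : (0 : ℝ) ≤ n := Nat.cast_nonneg n
    have h2 : 0 < 1 / ((n : ℝ) + 2) := by positivity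
    simp only [hcdef]
    linarith
  have hclim : Filter.Tendsto c Filter.atTop (nhds 1) := by
    have h1 : Filter.Tendsto (fun n : ℕ => 1 / ((n : ℝ) + 2)) Filter.atTop (nhds 0) := by
      have h2 : Filter.Tendsto (fun n : ℕ => (n : ℝ) + 2) Filter.atTop Filter.atTop :=
        Filter.tendsto_atTop_add_const_right _ _ tendsto_natCast_atTop_atTop
      have h3 := h2.inv_tendsto_atTop
      refine h3.congr fun n => ?_
      simp [one_div]
    have h3 := h1.const_sub 1
    rwa [sub_zero] at h3
  refine mem_closure_of_tendsto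
    (f := fun n => (Real.toNNReal (c n)) • μ.map (hom x₀ (c n))) (b := Filter.atTop) ?_ ?_
  · rw [FiniteMeasure.tendsto_iff_forall_integral_tendsto]
    intro g
    have hmap : ∀ n, ∫ x, g x ∂(((Real.toNNReal (c n)) • μ.map (hom x₀ (c n)) :
        FiniteMeasure E2) : Measure E2) = c n * ∫ x, g (hom x₀ (c n) x) ∂(μ : Measure E2) := by
      intro n
      have h1 : (((Real.toNNReal (c n)) • μ.map (hom x₀ (c n)) : FiniteMeasure E2) : Measure E2)
          = (Real.toNNReal (c n)) • ((μ.map (hom x₀ (c n)) : FiniteMeasure E2) : Measure E2) :=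
        rfl
      rw [h1, integral_smul_nnreal_measure, FiniteMeasure.toMeasure_map,
        integral_map (hom_cont x₀ (c n)).measurable.aemeasurable
          g.continuous.aestronglyMeasurable]
      rw [NNReal.smul_def, Real.coe_toNNReal _ (hc0 n).le, smul_eq_mul]
    simp only [hmap]
    have hlim2 : Filter.Tendsto (fun n => ∫ x, g (hom x₀ (c n) x) ∂(μ : Measure E2))
        Filter.atTop (nhds (∫ x, g x ∂(μ : Measure E2))) := by
      refine tendsto_integral_of_dominated_convergence (fun _ => ‖g‖) ?_ (integrable_const _)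
        ?_ ?_
      · intro n
        exact (g.continuous.comp (hom_cont x₀ (c n))).aestronglyMeasurable
      · intro n
        exact Filter.Eventually.of_forall fun x => g.norm_coe_le_norm _
      · refine Filter.Eventually.of_forall fun x => ?_
        have h5 : Filter.Tendsto (fun n : ℕ => hom x₀ (c n) x) Filter.atTop (nhds x) := by
          have h6 : Filter.Tendsto (fun n : ℕ => c n • (x - x₀) + x₀) Filter.atTop
              (nhds ((1 : ℝ) • (x - x₀) + x₀)) :=
            (hclim.smul_const _).add_const _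
          have h7 : (1 : ℝ) • (x - x₀) + x₀ = x := by rw [one_smul, sub_add_cancel]
          rw [h7] at h6
          exact h6
        exact (g.continuous.tendsto x).comp h5
    have := hclim.mul hlim2
    rwa [one_mul] at this
  · refine Filter.Eventually.of_forall fun n => ?_
    refine ⟨hom x₀ (c n) '' K, ⟨?_, ?_, ?_, ?_⟩, ?_⟩
    · exact (hK.image (hom_cont _ _)).isClosed
    · exact hcon.image _ (hom_cont _ _).continuousOn
    · rintro _ ⟨x, hx, rfl⟩
      have h1 := hc.combo_interior_closure_mem_interior (x := x₀) (y := x)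
        (by rw [hΩ.interior_eq]; exact hx₀) (hKΩ hx) (a := 1 - c n) (b := c n)
        (by linarith [hc1 n]) (hc0 n).le (by ring)
      rw [hΩ.interior_eq] at h1
      have h2 : hom x₀ (c n) x = (1 - c n) • x₀ + c n • x := by
        rw [hom_eq]
        module
      rw [h2]
      exact h1
    · rw [hom_measure x₀ (hc0 n)]
      calc ENNReal.ofReal (c n) * μH[1] K ≤ 1 * ENNReal.ofReal L := by
            gcongr
            rw [← ENNReal.ofReal_one]
            exact ENNReal.ofReal_le_ofReal (hc1 n).le
        _ = ENNReal.ofReal L := one_mul _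
    · rw [← hom_restrict x₀ (hc0 n) hK, ← hμ, ← FiniteMeasure.toMeasure_map]
      rfl

theorem ML_rel {Ω : Set E2} (hΩ : IsOpen Ω) (hc : Convex ℝ Ω) (hb : Bornology.IsBounded Ω)
    (hne : Ω.Nonempty) (L : ℝ) :
    closure {ν : FiniteMeasure E2 | ∃ S ∈ AdmRel Ω L,
      (ν : Measure E2) = (μH[1] : Measure E2).restrict S} = ML Ω L := by
  apply subset_antisymm
  · refine closure_minimal ?_ isClosed_closure
    rintro ν ⟨S, ⟨⟨F, hF, hSF⟩, hcon, hL⟩, hν⟩
    have hm : MeasurableSet S := by rw [hSF]; exact hF.measurableSet.inter hΩ.measurableSet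
    have hSΩ : S ⊆ Ω := by rw [hSF]; exact inter_subset_right
    have hfin : μH[1] S ≠ ∞ := ne_top_of_le_ne_top ENNReal.ofReal_ne_top hL
    have h0 := hausdorff_closure_diff hcon hm hfin
    have hae : (closure S : Set E2) =ᵐ[(μH[1] : Measure E2)] S := by
      refine (ae_eq_set).2 ⟨h0, ?_⟩
      rw [sdiff_eq_empty.2 subset_closure]
      exact measure_empty
    have hcl : IsCompact (closure S) :=
      Metric.isCompact_of_isClosed_isBounded isClosed_closure (hb.subset hSΩ).closure
    refine mem_ML_of_compact hΩ hc hne hcl ⟨hcon.1.closure, hcon.2.closure⟩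
      (closure_mono hSΩ) ?_ ν ?_
    · rw [measure_congr hae]; exact hL
    · rw [hν]; exact (Measure.restrict_congr_set hae).symm
  · refine closure_mono ?_
    rintro ν ⟨S, ⟨hS, hcon, hSΩ, hL⟩, hν⟩
    exact ⟨S, ⟨⟨S, hS, (inter_eq_self_of_subset_left hSΩ).symm⟩, hcon, hL⟩, hν⟩

end Pool.Agent.Lib.P8e
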