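import Pool.Agent.Lib.P8e.Prof

set_option autoImplicit false

/-!
# The needle: integration by parts on the arms

The line density `-∂_ν∂_ν w`: `lin ρ a r = (a/ρ) (1 - t) (1 - 5 t) / (2 √t)`, `t = r/ρ ∈ (0, 1)`, `0` otherwise.

PROOF SKETCH. `(d/dr) (a pr(r/ρ)) = lin ρ a r` on `(0, ρ)`, `pr 0 = pr 1 = 0`, `lin` is integrable (`|lin| ≤ (a/ρ) 2/√t`), so
`∫_0^ρ lin r u(c + r ν) dr = -∫_0^ρ a pr(r/ρ) ∂_ν u(c + r ν) dr` (`intervalIntegral.integral_mul_deriv_eq_deriv_mul_of_hasDerivAt` with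
continuity on `[0, ρ]` and derivative on `(0, ρ)`), and `needle_arm`.
-/

open MeasureTheory Set Metric
open scoped ENNReal NNReal InnerProductSpace

namespace Pool.Agent.Lib.P8e

noncomputable def lin (ρ a r : ℝ) : ℝ :=
  if 0 < r ∧ r < ρ then (a / ρ) * (1 - r / ρ) * (1 - 5 * (r / ρ)) / (2 * √(r / ρ)) else 0

lemma measurable_lin (ρ a : ℝ) : Measurable (lin ρ a) := by
  unfold lin
  refine Measurable.ite ?_ ?_ measurable_const
  · exact measurableSet_Ioo
  · fun_prop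

private lemma lin_of_mem {ρ a r : ℝ} (h : r ∈ Ioo 0 ρ) :
    lin ρ a r = (a / ρ) * (1 - r / ρ) * (1 - 5 * (r / ρ)) / (2 * √(r / ρ)) :=
  if_pos h

private lemma lin_of_notMem {ρ a r : ℝ} (h : r ∉ Ioo 0 ρ) : lin ρ a r = 0 :=
  if_neg h

/-- The majorant. -/
private noncomputable def maj (ρ a r : ℝ) : ℝ := (2 * a / ρ) / √(r / ρ)

private lemma lin_abs_le {ρ a r : ℝ} (hρ : 0 < ρ) (ha : 0 < a) (h : r ∈ Ioo 0 ρ) :
    |lin ρ a r| ≤ maj ρ a r := by
  rw [lin_of_mem h, maj]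
  have ht0 : 0 < r / ρ := div_pos h.1 hρ
  have ht1 : r / ρ < 1 := (div_lt_one hρ).2 h.2
  set t := r / ρ with ht
  have hs : 0 < √t := Real.sqrt_pos.2 ht0
  rw [abs_div, abs_mul, abs_mul, abs_of_pos (div_pos ha hρ), abs_of_pos (by linarith : 0 < 1 - t),
    abs_of_pos (by positivity : 0 < 2 * √t)]
  rw [div_le_div_iff₀ (by positivity) hs]
  have h1 : |1 - 5 * t| ≤ 4 := by
    rw [abs_le]
    constructor <;> linarith
  have h2 : (1 - t) * |1 - 5 * t| ≤ 4 := by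
    calc (1 - t) * |1 - 5 * t| ≤ 1 * 4 :=
          mul_le_mul (by linarith) h1 (abs_nonneg _) (by norm_num)
      _ = 4 := by norm_num
  have h3 : a / ρ * (1 - t) * |1 - 5 * t| ≤ a / ρ * 4 := by
    rw [mul_assoc]
    exact mul_le_mul_of_nonneg_left h2 (div_pos ha hρ).le
  calc a / ρ * (1 - t) * |1 - 5 * t| * √t ≤ a / ρ * 4 * √t :=
        mul_le_mul_of_nonneg_right h3 hs.le
    _ = 2 * a / ρ * (2 * √t) := by ring

private lemma hasDerivAt_maj {ρ a r : ℝ} (hρ : 0 < ρ) (h : r ∈ Ioo 0 ρ) :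
    HasDerivAt (fun r => 4 * a * √(r / ρ)) (maj ρ a r) r := by
  have ht0 : 0 < r / ρ := div_pos h.1 hρ
  have h1 : HasDerivAt (fun r : ℝ => r / ρ) (1 / ρ) r := (hasDerivAt_id r).div_const ρ
  have h2 := (h1.sqrt ht0.ne').const_mul (4 * a)
  refine h2.congr_deriv ?_
  unfold maj
  field_simp
  ring

private lemma cont_maj {ρ : ℝ} (a : ℝ) (s : Set ℝ) :
    ContinuousOn (fun r => 4 * a * √(r / ρ)) s := by
  fun_prop

private lemma maj_integrableOn {ρ a : ℝ} (hρ : 0 < ρ) (ha : 0 < a) :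
    IntegrableOn (maj ρ a) (Ioc 0 ρ) := by
  refine intervalIntegral.integrableOn_deriv_of_nonneg (cont_maj a _)
    (fun x hx => hasDerivAt_maj hρ hx) fun x hx => ?_
  unfold maj
  positivity

private lemma integral_maj {ρ a : ℝ} (hρ : 0 < ρ) (ha : 0 < a) :
    ∫ r in (0 : ℝ)..ρ, maj ρ a r = 4 * a := by
  rw [intervalIntegral.integral_eq_sub_of_hasDerivAt_of_le hρ.le (cont_maj a _)
    (fun x hx => hasDerivAt_maj hρ hx)
    ((intervalIntegrable_iff_integrableOn_Ioc_of_le hρ.le).2 (maj_integrableOn hρ ha))]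
  simp [hρ.ne']

theorem lin_int {ρ a : ℝ} (hρ : 0 < ρ) (ha : 0 < a) :
    ∫⁻ r, ENNReal.ofReal |lin ρ a r| ≤ ENNReal.ofReal (4 * a) := by
  have h1 : ∀ r, ENNReal.ofReal |lin ρ a r| ≤
      (Ioc 0 ρ).indicator (fun r => ENNReal.ofReal (maj ρ a r)) r := by
    intro r
    by_cases hr : r ∈ Ioo 0 ρ
    · rw [indicator_of_mem (Ioo_subset_Ioc_self hr)]
      exact ENNReal.ofReal_le_ofReal (lin_abs_le hρ ha hr)
    · rw [lin_of_notMem hr]
      simp
  calc ∫⁻ r, ENNReal.ofReal |lin ρ a r| ≤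
        ∫⁻ r, (Ioc 0 ρ).indicator (fun r => ENNReal.ofReal (maj ρ a r)) r := lintegral_mono h1
    _ = ∫⁻ r in Ioc 0 ρ, ENNReal.ofReal (maj ρ a r) := lintegral_indicator measurableSet_Ioc _
    _ = ENNReal.ofReal (∫ r in Ioc 0 ρ, maj ρ a r) := by
        rw [ofReal_integral_eq_lintegral_ofReal (maj_integrableOn hρ ha)]
        refine Filter.Eventually.of_forall fun x => ?_
        simp only [maj, Pi.zero_apply]
        positivity
    _ = ENNReal.ofReal (4 * a) := by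
        rw [← intervalIntegral.integral_of_le hρ.le, integral_maj hρ ha]

private lemma lin_integrable {ρ a : ℝ} (hρ : 0 < ρ) (ha : 0 < a) : Integrable (lin ρ a) := by
  refine ⟨(measurable_lin ρ a).aestronglyMeasurable, ?_⟩
  rw [hasFiniteIntegral_iff_norm]
  exact (lin_int hρ ha).trans_lt ENNReal.ofReal_lt_top

private lemma hasDerivAt_pr {ρ a r : ℝ} (hρ : 0 < ρ) (h : r ∈ Ioo 0 ρ) :
    HasDerivAt (fun r => a * (√(r / ρ) * (1 - r / ρ) ^ 2)) (lin ρ a r) r := by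
  have ht0 : 0 < r / ρ := div_pos h.1 hρ
  have hs : 0 < √(r / ρ) := Real.sqrt_pos.2 ht0
  have h1 : HasDerivAt (fun r : ℝ => r / ρ) (1 / ρ) r := (hasDerivAt_id r).div_const ρ
  have h2 := h1.sqrt ht0.ne'
  have h3 := ((h1.const_sub 1).pow 2)
  have h4 := (h2.mul h3).const_mul a
  refine h4.congr_deriv ?_
  rw [lin_of_mem h]
  have hsq : √(r / ρ) ^ 2 = r / ρ := Real.sq_sqrt ht0.le
  simp only [Pi.pow_apply]
  generalize √(r / ρ) = s at hs hsq ⊢
  rw [← hsq]
  field_simp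
  ring

theorem lin_formula (c : E2) {ρ a : ℝ} (hρ : 0 < ρ) (ha : 0 < a) (arms : Finset E2)
    (hν : ∀ ν ∈ arms, ‖ν‖ = 1) (u : E2 → ℝ) (hu : C1c univ u) :
    ∑ ν ∈ arms, ∫ r, lin ρ a r * u (c + r • ν) = (needle c ρ a arms).T u := by
  unfold Blk.T
  refine Finset.sum_congr rfl fun ν hνa => ?_
  have hud : Differentiable ℝ u := hu.1.differentiable (by norm_num)
  have huc : Continuous u := hu.1.continuous
  have hfc : Continuous (fderiv ℝ u) := hu.1.continuous_fderiv (by norm_num)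
  have hv : ∀ r : ℝ, HasDerivAt (fun r : ℝ => u (c + r • ν)) (fderiv ℝ u (c + r • ν) ν) r := by
    intro r
    have h1 : HasDerivAt (fun r : ℝ => c + r • ν) ν r := by
      have := ((hasDerivAt_id r).smul_const ν).const_add c
      simpa using this
    exact (hud (c + r • ν)).hasFDerivAt.comp_hasDerivAt r h1
  have hvc : Continuous fun r : ℝ => u (c + r • ν) := by fun_prop
  have hdc : Continuous fun r : ℝ => fderiv ℝ u (c + r • ν) ν := by fun_prop
  -- the product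
  have hprod : ∀ r ∈ Ioo 0 ρ, HasDerivAt
      (fun r => a * (√(r / ρ) * (1 - r / ρ) ^ 2) * u (c + r • ν))
      (lin ρ a r * u (c + r • ν) + a * (√(r / ρ) * (1 - r / ρ) ^ 2) * fderiv ℝ u (c + r • ν) ν)
      r := fun r hr => (hasDerivAt_pr hρ hr).mul (hv r)
  have hI1 : IntegrableOn (fun r => lin ρ a r * u (c + r • ν)) (Ioc 0 ρ) := by
    have h1 : IntegrableOn (fun r => lin ρ a r) (Icc 0 ρ) := (lin_integrable hρ ha).integrableOn
    have h2 := h1.mul_continuousOn hvc.continuousOn isCompact_Icc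
    exact h2.mono_set Ioc_subset_Icc_self
  have hI1' : IntervalIntegrable (fun r => lin ρ a r * u (c + r • ν)) volume 0 ρ :=
    (intervalIntegrable_iff_integrableOn_Ioc_of_le hρ.le).2 hI1
  have hI2 : IntervalIntegrable (fun r =>
      a * (√(r / ρ) * (1 - r / ρ) ^ 2) * fderiv ℝ u (c + r • ν) ν) volume 0 ρ := by
    apply Continuous.intervalIntegrable
    fun_prop
  have hcont : ContinuousOn (fun r => a * (√(r / ρ) * (1 - r / ρ) ^ 2) * u (c + r • ν))
      (Icc 0 ρ) := by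
    fun_prop
  have hFTC := intervalIntegral.integral_eq_sub_of_hasDerivAt_of_le hρ.le hcont hprod
    (hI1'.add hI2)
  rw [intervalIntegral.integral_add hI1' hI2] at hFTC
  have hz : a * (√(ρ / ρ) * (1 - ρ / ρ) ^ 2) * u (c + ρ • ν) -
      a * (√(0 / ρ) * (1 - 0 / ρ) ^ 2) * u (c + (0 : ℝ) • ν) = 0 := by
    rw [div_self hρ.ne']
    simp
  rw [hz] at hFTC
  have hL : ∫ r, lin ρ a r * u (c + r • ν) = ∫ r in (0 : ℝ)..ρ, lin ρ a r * u (c + r • ν) := by
    rw [intervalIntegral.integral_of_le hρ.le]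
    symm
    apply setIntegral_eq_integral_of_forall_compl_eq_zero
    intro r hr
    rw [lin_of_notMem (fun h => hr (Ioo_subset_Ioc_self h)), zero_mul]
  rw [hL]
  have hR : ∫ r in (0 : ℝ)..(needle c ρ a arms).ρ,
      (fderiv ℝ (needle c ρ a arms).w ((needle c ρ a arms).c + r • ν) ν) *
        (fderiv ℝ u ((needle c ρ a arms).c + r • ν) ν) =
      - ∫ r in (0 : ℝ)..ρ, a * (√(r / ρ) * (1 - r / ρ) ^ 2) * fderiv ℝ u (c + r • ν) ν := by
    rw [← intervalIntegral.integral_neg]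
    change ∫ r in (0 : ℝ)..ρ, (fderiv ℝ (needle c ρ a arms).w (c + r • ν) ν) *
        (fderiv ℝ u (c + r • ν) ν) = _
    apply intervalIntegral.integral_congr_ae
    refine Filter.Eventually.of_forall fun r hr => ?_
    rw [uIoc_of_le hρ.le] at hr
    rw [needle_arm c arms hρ (hν ν hνa) hr.1, pr, if_pos ((div_le_one hρ).2 hr.2)]
    ring
  rw [hR]
  linarith

end Pool.Agent.Lib.P8e
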