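import Pool.Agent.Lib.P8e.Arc

set_option autoImplicit false

/-!
# The length inequality for the curve

PROOF SKETCH. If `u = v` the arc is a point and `len = 0`. Let `u < v`, `n ≥ 1`, `η = (v - u)/n`, `u_i = u + i η`, `x_i = pt (u_i)`,
`s_i` the slope of `h` over `[u_i, u_(i+1)]` (`Cv.slope_anti`, `Cv.slope_bounds`; define `s` on all of `ℕ` by the same formula,
it is antitone). `chain_dist` gives
`∑ |x_(i+1) - x_i| ≤ H1 Y + infDist x_0 Y + infDist x_n Y + ∑_{i < n-1} (s_i - s_(i+1)) D(u_(i+1))`, `D x = infDist (pt x) Y`.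
With `g t m = ((u_(m+1) - t)_+ - (u_m - t)_+)/η ∈ [0, 1]`, increasing in `m`, `s_i = σ - ∑_j τ_j g (t_j) i`, and
`g t (i+1) - g t i` vanishes unless `|t - u_(i+1)| < η`, and `∑_{i<n-1} (g t (i+1) - g t i) ≤ 1` and `= 0` if `t ∉ (u, v)`.
With `D(u_i) ≤ D(t) + 1.01 η` for `|t - u_i| ≤ η`: the last sum is `≤ ∑_{t_j ∈ (u,v)} τ_j (D(t_j) + 1.01 η)`
`≤ ∑_{t_j ∈ (u,v)} τ_j D(t_j) + η`.
Finally `len u v = ∑ len u_i u_(i+1) ≤ ∑ (|x_(i+1) - x_i| + η turn (u_i) (u_(i+1))) ≤ ∑ |x_(i+1) - x_i| + η` (`len_add`, `len_le_chord`;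
the open intervals are disjoint so `∑ turn (u_i) (u_(i+1)) ≤ 1/20`). Let `n → ∞`.
-/

open MeasureTheory Set Metric
open scoped ENNReal NNReal InnerProductSpace

namespace Pool.Agent.Lib.P8e

namespace TInfAux

/-- normalised difference of the hinge function -/
private noncomputable def gg (u η t : ℝ) (m : ℕ) : ℝ :=
  (max (u + (m + 1) * η - t) 0 - max (u + m * η - t) 0) / η

private lemma gg_nonneg {u η : ℝ} (hη : 0 < η) (t : ℝ) (m : ℕ) : 0 ≤ gg u η t m := by
  unfold gg
  apply div_nonneg _ hη.le
  rw [sub_nonneg]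
  exact max_le_max (by nlinarith) le_rfl

private lemma gg_le_one {u η : ℝ} (hη : 0 < η) (t : ℝ) (m : ℕ) : gg u η t m ≤ 1 := by
  unfold gg
  rw [div_le_one hη, sub_le_iff_le_add]
  apply max_le
  · have := le_max_left (u + m * η - t) 0
    nlinarith
  · have := le_max_right (u + m * η - t) 0
    linarith

private lemma gg_zero {u η : ℝ} (hη : 0 < η) {t : ℝ} {m : ℕ} (h : u + (m + 1) * η ≤ t) :
    gg u η t m = 0 := by
  unfold gg
  rw [max_eq_right (by linarith), max_eq_right (by nlinarith)]
  simp

private lemma gg_one {u η : ℝ} (hη : 0 < η) {t : ℝ} {m : ℕ} (h : t ≤ u + m * η) :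
    gg u η t m = 1 := by
  unfold gg
  rw [max_eq_left (by nlinarith), max_eq_left (by linarith)]
  field_simp
  ring

private lemma gg_mono {u η : ℝ} (hη : 0 < η) (t : ℝ) (m : ℕ) : gg u η t m ≤ gg u η t (m + 1) := by
  by_cases h : t ≤ u + ((m + 1 : ℕ) : ℝ) * η
  · rw [gg_one hη h]; exact gg_le_one hη t m
  · push Not at h
    push_cast at h
    rw [gg_zero hη h.le]; exact gg_nonneg hη t _

private lemma gg_diff {u η : ℝ} (hη : 0 < η) {t : ℝ} {m : ℕ}
    (h : gg u η t (m + 1) - gg u η t m ≠ 0) : |t - (u + (m + 1) * η)| ≤ η := by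
  by_contra hcon
  apply h
  rcases lt_abs.1 (not_le.1 hcon) with h1 | h1
  · rw [gg_zero hη (by push_cast; linarith), gg_zero hη (by linarith), sub_zero]
  · rw [gg_one hη (by push_cast; linarith), gg_one hη (by linarith), sub_self]

private lemma gg_sum {u η : ℝ} (hη : 0 < η) (t : ℝ) {n : ℕ} (hn : 1 ≤ n) (D : ℝ → ℝ) {L : ℝ}
    (hD0 : ∀ x, 0 ≤ D x) (hL : 0 ≤ L) (hD : ∀ x y, D x ≤ D y + L * |x - y|) :
    ∑ i ∈ Finset.range (n - 1), (gg u η t (i + 1) - gg u η t i) * D (u + (i + 1) * η) ≤
      if u < t ∧ t < u + n * η then D t + L * η else 0 := by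
  have htel : ∑ i ∈ Finset.range (n - 1), (gg u η t (i + 1) - gg u η t i) =
      gg u η t (n - 1) - gg u η t 0 := Finset.sum_range_sub _ _
  have hterm : ∀ i ∈ Finset.range (n - 1),
      (gg u η t (i + 1) - gg u η t i) * D (u + (i + 1) * η) ≤
        (gg u η t (i + 1) - gg u η t i) * (D t + L * η) := by
    intro i _
    have h0 : 0 ≤ gg u η t (i + 1) - gg u η t i := sub_nonneg.2 (gg_mono hη t i)
    by_cases h : gg u η t (i + 1) - gg u η t i = 0
    · rw [h]; simp
    · refine mul_le_mul_of_nonneg_left ?_ h0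
      have h1 := hD (u + (i + 1) * η) t
      have h2 := gg_diff hη h
      rw [abs_sub_comm] at h2
      have h3 : L * |u + (i + 1) * η - t| ≤ L * η := mul_le_mul_of_nonneg_left h2 hL
      linarith
  refine (Finset.sum_le_sum hterm).trans ?_
  rw [← Finset.sum_mul, htel]
  have hnn : ((n - 1 : ℕ) : ℝ) = n - 1 := by
    rw [Nat.cast_sub hn]; simp
  split_ifs with h
  · have h1 := gg_le_one (u := u) hη t (n - 1)
    have h2 := gg_nonneg (u := u) hη t 0
    have h3 : 0 ≤ D t + L * η := by have := hD0 t; positivity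
    nlinarith
  · rw [not_and_or, not_lt, not_lt] at h
    rcases h with h | h
    · rw [gg_one hη (m := n - 1) (by rw [hnn]; have : (1:ℝ) ≤ n := by exact_mod_cast hn
                                     nlinarith),
        gg_one hη (m := 0) (by push_cast; linarith), sub_self, zero_mul]
    · rw [gg_zero hη (m := n - 1) (by rw [hnn]; linarith),
        gg_zero hη (m := 0) (by
          push_cast
          have : (1:ℝ) ≤ n := by exact_mod_cast hn
          nlinarith), sub_self, zero_mul]

private lemma turn_add (C : Cv) {u v w : ℝ} (huv : u ≤ v) (hvw : v ≤ w) :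
    C.turn u v + C.turn v w ≤ C.turn u w := by
  unfold Cv.turn
  rw [← (C.summable_turn u v).tsum_add (C.summable_turn v w)]
  refine ((C.summable_turn u v).add (C.summable_turn v w)).tsum_le_tsum (fun j => ?_)
    (C.summable_turn u w)
  have := C.τ_pos j
  split_ifs with h1 h2 h3 h4 h5 h6 <;> first | linarith | (exfalso; grind)

end TInfAux

open TInfAux

theorem Cv.t_inf (C : Cv) {u v : ℝ} (huv : u ≤ v) {Y : Set E2} (hY : Cpt Y) :
    C.len u v ≤ H1 Y + C.Dl u v Y := by
  rcases huv.eq_or_lt with rfl | huv'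
  · have h1 := C.len_le (le_refl u)
    rw [sub_self, mul_zero] at h1
    have h2 := C.Dl_nonneg u u Y
    have h3 : 0 ≤ H1 Y := ENNReal.toReal_nonneg
    linarith
  -- the inequality for every `n`
  have key : ∀ n : ℕ, 1 ≤ n → C.len u v ≤ H1 Y + C.Dl u v Y + 2 * ((v - u) / n) := by
    intro n hn
    have hn0 : (0:ℝ) < n := by exact_mod_cast hn
    set η : ℝ := (v - u) / n with hηdef
    have hη : 0 < η := div_pos (by linarith) hn0
    have hnη : (n:ℝ) * η = v - u := by rw [hηdef]; field_simp
    set U : ℕ → ℝ := fun i => u + i * η with hU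
    have hU1 : ∀ i, U (i + 1) - U i = η := fun i => by simp only [hU]; push_cast; ring
    have hUlt : ∀ i, U i < U (i + 1) := fun i => by have := hU1 i; linarith
    have hU0 : U 0 = u := by simp [hU]
    have hUn : U n = v := by simp only [hU]; linarith
    set s : ℕ → ℝ := fun i => (C.h (U (i + 1)) - C.h (U i)) / (U (i + 1) - U i) with hs
    have hanti : Antitone s := antitone_nat_of_succ_le fun i => C.slope_anti (hUlt i) (hUlt (i + 1))
    have hsb : ∀ i, |s i| ≤ 1 / 10 := by
      intro i
      have := C.slope_bounds (hUlt i)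
      rw [abs_le]
      exact ⟨this.1, this.2.trans (by norm_num)⟩
    set x : ℕ → E2 := fun i => C.pt (U i) with hx
    have hxd : ∀ i, x (i + 1) - x i = !₂[η, C.h (U (i + 1)) - C.h (U i)] := by
      intro i
      ext k
      fin_cases k
      · simp [hx, hU1]
      · simp [hx]
    have hxi : ∀ i < n, x (i + 1) - x i = dist (x (i + 1)) (x i) • dirv (s i) := by
      intro i _
      rw [dist_eq_norm, hxd]
      refine eq_smul_dirv _ _ hη.le _ ?_
      simp only [hs]
      rw [hU1]
      field_simp
    have hchain := chain_dist hY n hn x s hsb hanti hxi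
    have hx0 : x 0 = C.pt u := by simp only [hx]; rw [hU0]
    have hxn : x n = C.pt v := by simp only [hx]; rw [hUn]
    rw [hx0, hxn] at hchain
    -- the slopes
    have hsum : ∀ i, Summable fun j => C.τ j * gg u η (C.t j) i := by
      intro i
      refine Summable.of_nonneg_of_le (fun j => mul_nonneg (C.τ_pos j).le (gg_nonneg hη _ _))
        (fun j => ?_) C.τ_sum
      exact mul_le_of_le_one_right (C.τ_pos j).le (gg_le_one hη _ _)
    have hsi : ∀ i, s i = C.σ - ∑' j, C.τ j * gg u η (C.t j) i := by
      intro i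
      simp only [hs]
      rw [hU1, div_eq_iff hη.ne', sub_mul, ← tsum_mul_right]
      unfold Cv.h
      have e1 : ∑' j, C.τ j * gg u η (C.t j) i * η =
          ∑' j, C.τ j * max (U (i + 1) - C.t j) 0 - ∑' j, C.τ j * max (U i - C.t j) 0 := by
        rw [← (C.summable_h _).tsum_sub (C.summable_h _)]
        refine tsum_congr fun j => ?_
        unfold gg
        simp only [hU]
        push_cast
        field_simp
      rw [e1]
      have := hU1 i
      linear_combination C.σ * this
    have hDsum : ∑ i ∈ Finset.range (n - 1), (s i - s (i + 1)) * infDist (x (i + 1)) Y ≤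
        ∑' j, (if u < C.t j ∧ C.t j < v then C.τ j * C.dj Y j else 0) + η := by
      have e1 : ∀ i, (s i - s (i + 1)) * infDist (x (i + 1)) Y =
          ∑' j, C.τ j * ((gg u η (C.t j) (i + 1) - gg u η (C.t j) i) *
            infDist (C.pt (u + (i + 1) * η)) Y) := by
        intro i
        rw [hsi, hsi]
        have e2 : C.σ - ∑' j, C.τ j * gg u η (C.t j) i -
            (C.σ - ∑' j, C.τ j * gg u η (C.t j) (i + 1)) =
            ∑' j, (C.τ j * gg u η (C.t j) (i + 1) - C.τ j * gg u η (C.t j) i) := by
          rw [(hsum (i + 1)).tsum_sub (hsum i)]; ring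
        rw [e2, ← tsum_mul_right]
        refine tsum_congr fun j => ?_
        have e3 : x (i + 1) = C.pt (u + (i + 1) * η) := by simp only [hx, hU]; push_cast; rfl
        rw [e3]
        ring
      have hs2 : ∀ i, Summable fun j => C.τ j * ((gg u η (C.t j) (i + 1) - gg u η (C.t j) i) *
            infDist (C.pt (u + (i + 1) * η)) Y) := by
        intro i
        have := ((hsum (i + 1)).sub (hsum i)).mul_right (infDist (C.pt (u + (i + 1) * η)) Y)
        refine this.congr fun j => ?_
        ring
      rw [Finset.sum_congr rfl fun i _ => e1 i, ← Summable.tsum_finsetSum fun i _ => hs2 i]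
      have h3 := C.summable_Dl u v hY.1 hY.2.1.nonempty
      have h4 := C.summable_turn u v
      have h5 : ∑' j, (if u < C.t j ∧ C.t j < v then C.τ j * C.dj Y j else 0) +
          ((1 + 1 / 100) * η) * C.turn u v =
          ∑' j, ((if u < C.t j ∧ C.t j < v then C.τ j * C.dj Y j else 0) +
            ((1 + 1 / 100) * η) * (if u < C.t j ∧ C.t j < v then C.τ j else 0)) := by
        rw [h3.tsum_add (h4.mul_left _), tsum_mul_left]
        rfl
      have h6 : ∑' j, ∑ i ∈ Finset.range (n - 1), C.τ j *
          ((gg u η (C.t j) (i + 1) - gg u η (C.t j) i) *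
            infDist (C.pt (u + (i + 1) * η)) Y) ≤
          ∑' j, ((if u < C.t j ∧ C.t j < v then C.τ j * C.dj Y j else 0) +
            ((1 + 1 / 100) * η) * (if u < C.t j ∧ C.t j < v then C.τ j else 0)) := by
        refine Summable.tsum_le_tsum (fun j => ?_) ?_ (h3.add (h4.mul_left _))
        · rw [← Finset.mul_sum]
          have h7 := gg_sum (u := u) hη (C.t j) hn (fun z => infDist (C.pt z) Y)
            (L := 1 + 1 / 100) (fun z => infDist_nonneg) (by norm_num)
            (fun z w => C.infDist_pt_le z w Y)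
          rw [show u + n * η = v by linarith] at h7
          have h8 := mul_le_mul_of_nonneg_left h7 (C.τ_pos j).le
          refine h8.trans (le_of_eq ?_)
          unfold Cv.dj
          split_ifs
          · ring
          · ring
        · exact summable_sum fun i _ => hs2 i
      have h9 := C.turn_le u v
      have h10 : (1 + 1 / 100) * η * C.turn u v ≤ η := by nlinarith [C.turn_nonneg u v]
      linarith
    -- the length
    have hlen : ∀ m : ℕ, C.len u (U m) ≤ ∑ i ∈ Finset.range m, dist (x (i + 1)) (x i) +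
        η * C.turn u (U m) := by
      intro m
      have hUm : ∀ m : ℕ, u ≤ U m := by
        intro m
        have h0 : (0:ℝ) ≤ (m:ℝ) * η := by positivity
        simp only [hU]
        linarith
      induction m with
      | zero =>
        rw [hU0]
        have h1 := C.len_le (le_refl u)
        rw [sub_self, mul_zero] at h1
        have := mul_nonneg hη.le (C.turn_nonneg u u)
        simp only [Finset.range_zero, Finset.sum_empty]
        linarith
      | succ m ih =>
        rw [C.len_add (hUm m) (hUlt m).le, Finset.sum_range_succ]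
        have h1 := C.len_le_chord (hUlt m).le
        rw [hU1, dist_comm] at h1
        have h2 := turn_add C (hUm m) (hUlt m).le
        have h3 := mul_le_mul_of_nonneg_left h2 hη.le
        rw [mul_add] at h3
        have e : dist (x (m + 1)) (x m) = dist (C.pt (U (m + 1))) (C.pt (U m)) := rfl
        rw [e]
        linarith
    have h1 := hlen n
    rw [hUn] at h1
    have h2 : η * C.turn u v ≤ η := by nlinarith [C.turn_nonneg u v, C.turn_le u v]
    have h3 : C.Dl u v Y = infDist (C.pt u) Y + infDist (C.pt v) Y +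
      ∑' j, (if u < C.t j ∧ C.t j < v then C.τ j * C.dj Y j else 0) := rfl
    rw [h3]
    linarith
  have hlim : Filter.Tendsto (fun n : ℕ => H1 Y + C.Dl u v Y + 2 * ((v - u) / (n : ℝ)))
      Filter.atTop (nhds (H1 Y + C.Dl u v Y + 2 * 0)) := by
    refine Filter.Tendsto.const_add _ (Filter.Tendsto.const_mul 2 ?_)
    exact tendsto_const_div_atTop_nhds_zero_nat (v - u)
  rw [mul_zero, add_zero] at hlim
  refine ge_of_tendsto hlim ?_
  filter_upwards [Filter.eventually_ge_atTop 1] with n hn
  exact key n hn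

end Pool.Agent.Lib.P8e
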