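import Pool.Agent.Lib.P8e.Cv

set_option autoImplicit false

/-!
# The calibration inequality for connected sets

`tlem`: if `S` is compact and connected, `y_i ∈ S`, `∑ ψ_i = 0` and all subset sums of the `ψ_i` have norm `≤ 1`,
then `∑ ψ_i · y_i ≤ H^1(S)`.

PROOF SKETCH. We may assume `μH[1] S < ∞`. By `Measure.hausdorffMeasure_apply` (and `diam^1 = diam`) it suffices to show for
every `δ > 0` and every countable cover `S ⊆ ⋃ t_n` with `diam (t_n) ≤ δ` (`ediam`; may assume `∑ diam (t_n) < ∞`):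
`∑ ψ_i · y_i ≤ ∑ diam (t_n) + C δ` with `C` depending only on `ι` (then let `δ → 0`).
(1) Replace `t_n` by the open set `U_n = thickening ε_n t_n` with `0 < ε_n`, `2 ∑ ε_n ≤ δ`, `ε_n ≤ δ`
(`diam U_n ≤ diam t_n + 2 ε_n <= 3 δ`); a finite subfamily covers `S`; discard the `U_n` which do not meet `S`.
(2) The finite family is connected: for every partition of the index set in two nonempty parts `A, B` there are
`k ∈ A, l ∈ B` with `U_k ∩ U_l ≠ ∅` (otherwise `S` is disconnected by two open sets). Hence the family can be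
enumerated `V_0, ..., V_N` such that each `V_j` (`j >= 1`) meets some `V_(par j)` with `par j < j` (grow greedily).
(3) Combinatorial lemma, by induction on `N` (removing `V_N`): let `D_j >= diam V_j`, `D_j <= δ'`. Call state:
`loc : ι → {0..N}`, `z : {0..N} → E` with `z_j ∈ V_j` (all terminals located at `j` have position `z_j`). Then
`∑_i ψ_i · z_(loc i) ≤ ∑_j D_j + (#(image of loc) - 1) δ'`. Step: the group at `N` (sum `Ψ = ∑_{loc i = N} ψ_i`,
`‖Ψ‖ ≤ 1`) moves to a point `p ∈ V_N ∩ V_k`, `k = par N`: cost `‖Ψ‖ |z_N - p| ≤ D_N`; if there is already a group at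
`k`, then move further from `p` to `z_k`: cost `≤ δ'` and the number of groups drops; otherwise put `z_k := p`.
`N = 0`: the sum is `(∑ ψ_i) · z_0 = 0`. Initially the terminals of one set have different positions `y_i`; moving them to a
common position costs `≤ (card ι) δ'` (`‖ψ_i‖ ≤ 1`). Together `∑ ψ_i · y_i ≤ ∑ D_j + 2 (card ι) δ'`.
`half_perimeter`: `ψ_a = (u_ab + u_ac)/2` etc. with `u_pq = (p - q)/|p - q|` (`0` if `p = q`).
-/

open MeasureTheory Set Metric
open scoped ENNReal NNReal InnerProductSpace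

namespace Pool.Agent.Lib.P8e

section comb

variable {ι : Type} [Fintype ι]

/-- the state inequality for the index set `A` -/
private def PA (V : ℕ → Set E2) (D : ℕ → ℝ) (δ : ℝ) (ψ : ι → E2) (A : Finset ℕ) : Prop :=
  ∀ (loc : ι → ℕ) (z : ℕ → E2), (∀ i, loc i ∈ A) → (∀ j ∈ A, z j ∈ V j) →
    ∑ i, ⟪ψ i, z (loc i)⟫_ℝ ≤ ∑ j ∈ A, D j + ((Finset.univ.image loc).card : ℝ) * δ

private lemma PA_base (V : ℕ → Set E2) (D : ℕ → ℝ) {δ : ℝ} (hδ : 0 ≤ δ) (hD : ∀ j, 0 ≤ D j)
    (ψ : ι → E2) (h0 : ∑ i, ψ i = 0) (n : ℕ) : PA V D δ ψ {n} := by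
  intro loc z hl _
  have h1 : ∑ i, ⟪ψ i, z (loc i)⟫_ℝ = 0 := by
    have : ∀ i, z (loc i) = z n := fun i => by rw [Finset.mem_singleton.1 (hl i)]
    simp_rw [this]
    rw [← sum_inner, h0, inner_zero_left]
  rw [h1]
  have := Finset.sum_nonneg fun j (_ : j ∈ ({n} : Finset ℕ)) => hD j
  positivity

private lemma PA_step (V : ℕ → Set E2) (D : ℕ → ℝ) {δ : ℝ} (hδ : 0 ≤ δ) (hD : ∀ j, 0 ≤ D j)
    (hdiam : ∀ j, ∀ x ∈ V j, ∀ y ∈ V j, ‖x - y‖ ≤ D j) (hDδ : ∀ j, D j ≤ δ)
    (ψ : ι → E2) (h1 : ∀ g : Finset ι, ‖∑ i ∈ g, ψ i‖ ≤ 1) {A : Finset ℕ} {k l : ℕ}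
    (hk : k ∈ A) (hl : l ∉ A) (hkl : (V k ∩ V l).Nonempty) (hA : PA V D δ ψ A) :
    PA V D δ ψ (insert l A) := by
  classical
  intro loc z hloc hz
  obtain ⟨p, hpk, hpl⟩ := hkl
  have hkl' : k ≠ l := fun e => hl (e ▸ hk)
  rw [Finset.sum_insert hl]
  set G : Finset ι := Finset.univ.filter fun i => loc i = l with hG
  by_cases hGe : G = ∅
  · have h2 : ∀ i, loc i ∈ A := by
      intro i
      rcases Finset.mem_insert.1 (hloc i) with h | h
      · exfalso
        have : i ∈ G := by simp [hG, h]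
        rw [hGe] at this
        simp at this
      · exact h
    have h3 := hA loc z h2 fun j hj => hz j (Finset.mem_insert_of_mem hj)
    linarith [hD l]
  · obtain ⟨i0, hi0⟩ := Finset.nonempty_iff_ne_empty.2 hGe
    have hi0' : loc i0 = l := by simpa [hG] using hi0
    set loc' : ι → ℕ := fun i => if loc i = l then k else loc i with hloc'
    have hl' : ∀ i, loc' i ∈ A := by
      intro i
      simp only [hloc']
      split_ifs with h
      · exact hk
      · rcases Finset.mem_insert.1 (hloc i) with h' | h'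
        · exact absurd h' h
        · exact h'
    set Ψ : E2 := ∑ i ∈ G, ψ i with hΨ
    have hΨ1 : ‖Ψ‖ ≤ 1 := h1 G
    -- splitting of the sums
    have split1 : ∀ w : ι → E2, ∑ i, ⟪ψ i, w i⟫_ℝ = ∑ i ∈ G, ⟪ψ i, w i⟫_ℝ +
        ∑ i ∈ Gᶜ, ⟪ψ i, w i⟫_ℝ := fun w => (Finset.sum_add_sum_compl G _).symm
    have hGsum : ∀ q : E2, ∑ i ∈ G, ⟪ψ i, q⟫_ℝ = ⟪Ψ, q⟫_ℝ := fun q => by rw [hΨ, sum_inner]
    have hinner : ∀ q q' : E2, ‖q - q'‖ ≤ D l → ⟪Ψ, q⟫_ℝ ≤ ⟪Ψ, q'⟫_ℝ + D l := by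
      intro q q' h
      have e : ⟪Ψ, q⟫_ℝ = ⟪Ψ, q'⟫_ℝ + ⟪Ψ, q - q'⟫_ℝ := by rw [← inner_add_right]; congr 1; abel
      have := real_inner_le_norm Ψ (q - q')
      have h2 : ‖Ψ‖ * ‖q - q'‖ ≤ 1 * D l := mul_le_mul hΨ1 h (norm_nonneg _) zero_le_one
      linarith
    have hinner' : ∀ q q' : E2, ‖q - q'‖ ≤ δ → ⟪Ψ, q⟫_ℝ ≤ ⟪Ψ, q'⟫_ℝ + δ := by
      intro q q' h
      have e : ⟪Ψ, q⟫_ℝ = ⟪Ψ, q'⟫_ℝ + ⟪Ψ, q - q'⟫_ℝ := by rw [← inner_add_right]; congr 1; abel
      have := real_inner_le_norm Ψ (q - q')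
      have h2 : ‖Ψ‖ * ‖q - q'‖ ≤ 1 * δ := mul_le_mul hΨ1 h (norm_nonneg _) zero_le_one
      linarith
    have hmemG : ∀ i, i ∈ G ↔ loc i = l := fun i => by simp [hG]
    have hzl : z l ∈ V l := hz l (Finset.mem_insert_self _ _)
    have hcost : ⟪Ψ, z l⟫_ℝ ≤ ⟪Ψ, p⟫_ℝ + D l := hinner _ _ (hdiam l _ hzl _ hpl)
    have e1 : ∑ i, ⟪ψ i, z (loc i)⟫_ℝ = ⟪Ψ, z l⟫_ℝ + ∑ i ∈ Gᶜ, ⟪ψ i, z (loc i)⟫_ℝ := by
      rw [split1, ← hGsum]
      congr 1
      exact Finset.sum_congr rfl fun i hi => by rw [(hmemG i).1 hi]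
    by_cases hocc : ∃ i, loc i = k
    · -- occupied
      have h3 := hA loc' z hl' fun j hj => hz j (Finset.mem_insert_of_mem hj)
      have e2 : ∑ i, ⟪ψ i, z (loc' i)⟫_ℝ = ⟪Ψ, z k⟫_ℝ + ∑ i ∈ Gᶜ, ⟪ψ i, z (loc i)⟫_ℝ := by
        rw [split1, ← hGsum]
        congr 1
        · exact Finset.sum_congr rfl fun i hi => by simp [hloc', (hmemG i).1 hi]
        · refine Finset.sum_congr rfl fun i hi => ?_
          have : loc i ≠ l := fun h => (Finset.mem_compl.1 hi) ((hmemG i).2 h)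
          simp [hloc', this]
      have h4 : ⟪Ψ, p⟫_ℝ ≤ ⟪Ψ, z k⟫_ℝ + δ :=
        hinner' _ _ ((hdiam k _ hpk _ (hz k (Finset.mem_insert_of_mem hk))).trans (hDδ k))
      have h5 : (Finset.univ.image loc').card + 1 ≤ (Finset.univ.image loc).card := by
        have hsub : Finset.univ.image loc' ⊆ (Finset.univ.image loc).erase l := by
          intro j hj
          obtain ⟨i, -, rfl⟩ := Finset.mem_image.1 hj
          simp only [hloc']
          split_ifs with h
          · obtain ⟨i', hi'⟩ := hocc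
            exact Finset.mem_erase.2 ⟨hkl', Finset.mem_image.2 ⟨i', Finset.mem_univ _, hi'⟩⟩
          · exact Finset.mem_erase.2 ⟨h, Finset.mem_image_of_mem _ (Finset.mem_univ _)⟩
        have hc := Finset.card_le_card hsub
        have hm : l ∈ Finset.univ.image loc := Finset.mem_image.2 ⟨i0, Finset.mem_univ _, hi0'⟩
        have := Finset.card_erase_add_one hm
        omega
      have h6 : (((Finset.univ.image loc').card : ℝ) + 1) * δ ≤
          ((Finset.univ.image loc).card : ℝ) * δ := by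
        refine mul_le_mul_of_nonneg_right ?_ hδ
        exact_mod_cast h5
      rw [e1]
      rw [e2] at h3
      linarith
    · -- free
      push Not at hocc
      have h3 := hA loc' (Function.update z k p) hl' fun j hj => by
        by_cases hjk : j = k
        · subst hjk; rw [Function.update_self]; exact hpk
        · rw [Function.update_of_ne hjk]; exact hz j (Finset.mem_insert_of_mem hj)
      have e2 : ∑ i, ⟪ψ i, (Function.update z k p) (loc' i)⟫_ℝ =
          ⟪Ψ, p⟫_ℝ + ∑ i ∈ Gᶜ, ⟪ψ i, z (loc i)⟫_ℝ := by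
        rw [split1, ← hGsum]
        congr 1
        · exact Finset.sum_congr rfl fun i hi => by simp [hloc', (hmemG i).1 hi]
        · refine Finset.sum_congr rfl fun i hi => ?_
          have : loc i ≠ l := fun h => (Finset.mem_compl.1 hi) ((hmemG i).2 h)
          simp [hloc', this, Function.update_of_ne (hocc i)]
      have h5 : (Finset.univ.image loc').card ≤ (Finset.univ.image loc).card := by
        have hsub : Finset.univ.image loc' ⊆ insert k ((Finset.univ.image loc).erase l) := by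
          intro j hj
          obtain ⟨i, -, rfl⟩ := Finset.mem_image.1 hj
          simp only [hloc']
          split_ifs with h
          · exact Finset.mem_insert_self _ _
          · exact Finset.mem_insert_of_mem
              (Finset.mem_erase.2 ⟨h, Finset.mem_image_of_mem _ (Finset.mem_univ _)⟩)
        have hc := Finset.card_le_card hsub
        have hm : l ∈ Finset.univ.image loc := Finset.mem_image.2 ⟨i0, Finset.mem_univ _, hi0'⟩
        have := Finset.card_erase_add_one hm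
        have h7 := Finset.card_insert_le k ((Finset.univ.image loc).erase l)
        omega
      have h6 : ((Finset.univ.image loc').card : ℝ) * δ ≤
          ((Finset.univ.image loc).card : ℝ) * δ := by
        refine mul_le_mul_of_nonneg_right ?_ hδ
        exact_mod_cast h5
      rw [e1]
      rw [e2] at h3
      linarith

/-- the combinatorial lemma for a finite connected family of sets -/
private lemma comb (V : ℕ → Set E2) (D : ℕ → ℝ) {δ : ℝ} (hδ : 0 ≤ δ) (hD : ∀ j, 0 ≤ D j)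
    (hdiam : ∀ j, ∀ x ∈ V j, ∀ y ∈ V j, ‖x - y‖ ≤ D j) (hDδ : ∀ j, D j ≤ δ)
    (ψ : ι → E2) (h0 : ∑ i, ψ i = 0) (h1 : ∀ g : Finset ι, ‖∑ i ∈ g, ψ i‖ ≤ 1)
    {T : Finset ℕ} (hT : T.Nonempty)
    (hconn : ∀ A ⊆ T, A.Nonempty → A ≠ T → ∃ k ∈ A, ∃ l ∈ T, l ∉ A ∧ (V k ∩ V l).Nonempty) :
    PA V D δ ψ T := by
  classical
  obtain ⟨n, hn⟩ := hT
  let Q : Finset (Finset ℕ) := T.powerset.filter fun A => A.Nonempty ∧ PA V D δ ψ A
  have hQ : Q.Nonempty := ⟨{n}, by
    simp only [Q, Finset.mem_filter, Finset.mem_powerset, Finset.singleton_subset_iff]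
    exact ⟨hn, ⟨n, Finset.mem_singleton_self n⟩, PA_base V D hδ hD ψ h0 n⟩⟩
  obtain ⟨A, hA, hmax⟩ := Finset.exists_max_image Q Finset.card hQ
  simp only [Q, Finset.mem_filter, Finset.mem_powerset] at hA
  by_cases hAT : A = T
  · exact hAT ▸ hA.2.2
  · obtain ⟨k, hk, l, hlT, hlA, hkl⟩ := hconn A hA.1 hA.2.1 hAT
    have h2 : insert l A ∈ Q := by
      simp only [Q, Finset.mem_filter, Finset.mem_powerset]
      refine ⟨Finset.insert_subset hlT hA.1, Finset.insert_nonempty _ _, ?_⟩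
      exact PA_step V D hδ hD hdiam hDδ ψ h1 hk hlA hkl hA.2.2
    have h3 := hmax _ h2
    rw [Finset.card_insert_of_notMem hlA] at h3
    omega

end comb

/-- the inequality for one cover -/
private lemma cover_bound {S : Set E2} (hS : IsCompact S) (hc : IsConnected S) {ι : Type}
    [Fintype ι] (y : ι → E2) (hy : ∀ i, y i ∈ S) (ψ : ι → E2) (h0 : ∑ i, ψ i = 0)
    (h1 : ∀ g : Finset ι, ‖∑ i ∈ g, ψ i‖ ≤ 1) {δ : ℝ} (hδ : 0 < δ) (t : ℕ → Set E2)
    (ht : S ⊆ ⋃ n, t n) (htd : ∀ n, ediam (t n) ≤ ENNReal.ofReal δ) :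
    ENNReal.ofReal (∑ i, ⟪ψ i, y i⟫_ℝ - (1 + 4 * Fintype.card ι) * δ) ≤
      ∑' n, ⨆ (_ : (t n).Nonempty), ediam (t n) ^ (1 : ℝ) := by
  classical
  set ε : ℕ → ℝ := fun n => δ / 2 / 2 / 2 ^ n with hε
  have hεpos : ∀ n, 0 < ε n := fun n => by positivity
  have hεle : ∀ n, 2 * ε n ≤ δ := by
    intro n
    have h2 : (1:ℝ) ≤ 2 ^ n := one_le_pow₀ (by norm_num)
    have : δ / 2 / 2 / 2 ^ n ≤ δ / 2 / 2 := div_le_self (by positivity) h2
    simp only [hε]
    linarith
  have hεsum : ∀ A : Finset ℕ, ∑ j ∈ A, 2 * ε j ≤ δ := by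
    intro A
    have hs : HasSum (fun n => 2 * ε n) δ := by
      have h := (hasSum_geometric_two' (δ / 2)).mul_left 2
      have e : 2 * (δ / 2) = δ := by ring
      rw [e] at h
      exact h
    exact sum_le_hasSum A (fun j _ => by have := hεpos j; positivity) hs
  set U : ℕ → Set E2 := fun n => thickening (ε n) (t n) with hU
  have hfin : ∀ n, ediam (t n) ≠ ∞ := fun n => ((htd n).trans_lt ENNReal.ofReal_lt_top).ne
  set d : ℕ → ℝ := fun n => (ediam (t n)).toReal with hd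
  have hd0 : ∀ n, 0 ≤ d n := fun n => ENNReal.toReal_nonneg
  have hdδ : ∀ n, d n ≤ δ := fun n => ENNReal.toReal_le_of_le_ofReal hδ.le (htd n)
  have hSU : S ⊆ ⋃ n, U n := ht.trans (iUnion_mono fun n => self_subset_thickening (hεpos n) _)
  obtain ⟨F, hF⟩ := hS.elim_finite_subcover U (fun n => isOpen_thickening) hSU
  set T : Finset ℕ := F.filter fun n => (U n ∩ S).Nonempty with hT
  have hTcov : ∀ x ∈ S, ∃ n ∈ T, x ∈ U n := by
    intro x hx
    obtain ⟨n, hn⟩ := mem_iUnion.1 (hF hx)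
    obtain ⟨hnF, hxn⟩ := mem_iUnion.1 hn
    exact ⟨n, Finset.mem_filter.2 ⟨hnF, x, hxn, hx⟩, hxn⟩
  have hTne : T.Nonempty := by
    obtain ⟨x, hx⟩ := hc.nonempty
    obtain ⟨n, hn, -⟩ := hTcov x hx
    exact ⟨n, hn⟩
  have hdist : ∀ j, ∀ x ∈ U j, ∀ y ∈ U j, ‖x - y‖ ≤ d j + 2 * ε j := by
    intro j x hx y hy
    obtain ⟨x', hx', hxx⟩ := mem_thickening_iff.1 hx
    obtain ⟨y', hy', hyy⟩ := mem_thickening_iff.1 hy
    have h2 : dist x' y' ≤ d j := by
      have := edist_le_ediam_of_mem hx' hy'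
      rw [dist_edist]
      exact ENNReal.toReal_mono (hfin j) this
    have h3 := dist_triangle4 x x' y' y
    rw [dist_comm y y'] at hyy
    rw [← dist_eq_norm]
    linarith
  -- connectedness
  have hconn : ∀ A ⊆ T, A.Nonempty → A ≠ T →
      ∃ k ∈ A, ∃ l ∈ T, l ∉ A ∧ (U k ∩ U l).Nonempty := by
    intro A hAT hAne hAneT
    have hne : (T \ A).Nonempty := by
      rw [Finset.sdiff_nonempty]
      exact fun h => hAneT (Finset.Subset.antisymm hAT h)
    obtain ⟨k0, hk0⟩ := hAne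
    obtain ⟨l0, hl0⟩ := hne
    have hu : IsOpen (⋃ n ∈ A, U n) := isOpen_biUnion fun n _ => isOpen_thickening
    have hv : IsOpen (⋃ n ∈ T \ A, U n) := isOpen_biUnion fun n _ => isOpen_thickening
    have hcov : S ⊆ (⋃ n ∈ A, U n) ∪ (⋃ n ∈ T \ A, U n) := by
      intro x hx
      obtain ⟨n, hn, hxn⟩ := hTcov x hx
      by_cases hnA : n ∈ A
      · exact Or.inl (mem_biUnion hnA hxn)
      · exact Or.inr (mem_biUnion (Finset.mem_sdiff.2 ⟨hn, hnA⟩) hxn)
    obtain ⟨x1, hx1, hx1'⟩ := (Finset.mem_filter.1 (hAT hk0)).2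
    obtain ⟨x2, hx2, hx2'⟩ := (Finset.mem_filter.1 (Finset.mem_sdiff.1 hl0).1).2
    obtain ⟨x, -, hxu, hxv⟩ := hc.isPreconnected _ _ hu hv hcov
      ⟨x1, hx1', mem_biUnion hk0 hx1⟩ ⟨x2, hx2', mem_biUnion hl0 hx2⟩
    obtain ⟨k, hk, hxk⟩ := mem_iUnion₂.1 hxu
    obtain ⟨l, hl, hxl⟩ := mem_iUnion₂.1 hxv
    exact ⟨k, hk, l, (Finset.mem_sdiff.1 hl).1, (Finset.mem_sdiff.1 hl).2, x, hxk, hxl⟩
  have hPA := comb U (fun j => d j + 2 * ε j) (δ := 2 * δ) (by positivity)
    (fun j => by have := hd0 j; have := hεpos j; positivity) hdist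
    (fun j => by have := hdδ j; have := hεle j; linarith) ψ h0 h1 hTne hconn
  -- the terminals
  choose loc hloc hyl using fun i => hTcov (y i) (hy i)
  have hz : ∀ j, ∃ z, j ∈ T → z ∈ U j := by
    intro j
    by_cases hj : j ∈ T
    · obtain ⟨x, hx, -⟩ := (Finset.mem_filter.1 hj).2
      exact ⟨x, fun _ => hx⟩
    · exact ⟨0, fun h => absurd h hj⟩
  choose z hz using hz
  have h3 := hPA loc z hloc fun j hj => hz j hj
  have h4 : ∑ i, ⟪ψ i, y i⟫_ℝ ≤ ∑ i, ⟪ψ i, z (loc i)⟫_ℝ + Fintype.card ι * (2 * δ) := by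
    have h5 : ∀ i, ⟪ψ i, y i⟫_ℝ ≤ ⟪ψ i, z (loc i)⟫_ℝ + 2 * δ := by
      intro i
      have e : ⟪ψ i, y i⟫_ℝ = ⟪ψ i, z (loc i)⟫_ℝ + ⟪ψ i, y i - z (loc i)⟫_ℝ := by
        rw [← inner_add_right]; congr 1; abel
      have h6 := real_inner_le_norm (ψ i) (y i - z (loc i))
      have h7 : ‖ψ i‖ ≤ 1 := by simpa using h1 {i}
      have h8 : ‖y i - z (loc i)‖ ≤ 2 * δ := by
        have := hdist (loc i) _ (hyl i) _ (hz _ (hloc i))
        have := hdδ (loc i)
        have := hεle (loc i)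
        linarith
      have h9 : ‖ψ i‖ * ‖y i - z (loc i)‖ ≤ 1 * (2 * δ) :=
        mul_le_mul h7 h8 (norm_nonneg _) zero_le_one
      linarith
    calc ∑ i, ⟪ψ i, y i⟫_ℝ ≤ ∑ i, (⟪ψ i, z (loc i)⟫_ℝ + 2 * δ) :=
          Finset.sum_le_sum fun i _ => h5 i
      _ = _ := by rw [Finset.sum_add_distrib, Finset.sum_const, Finset.card_univ, nsmul_eq_mul]
  have h5 : ((Finset.univ.image loc).card : ℝ) * (2 * δ) ≤ Fintype.card ι * (2 * δ) := by
    refine mul_le_mul_of_nonneg_right ?_ (by positivity)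
    have := Finset.card_image_le (s := (Finset.univ : Finset ι)) (f := loc)
    rw [Finset.card_univ] at this
    exact_mod_cast this
  have h6 : ∑ j ∈ T, (d j + 2 * ε j) ≤ ∑ j ∈ T, d j + δ := by
    rw [Finset.sum_add_distrib]
    have := hεsum T
    linarith
  have h7 : ∑ i, ⟪ψ i, y i⟫_ℝ - (1 + 4 * Fintype.card ι) * δ ≤ ∑ j ∈ T, d j := by
    linarith
  refine (ENNReal.ofReal_le_ofReal h7).trans ?_
  rw [ENNReal.ofReal_sum_of_nonneg fun j _ => hd0 j]
  refine le_trans (Finset.sum_le_sum fun j hj => ?_) (ENNReal.sum_le_tsum T)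
  have hne : (t j).Nonempty := by
    obtain ⟨x, hx, -⟩ := (Finset.mem_filter.1 hj).2
    obtain ⟨x', hx', -⟩ := mem_thickening_iff.1 hx
    exact ⟨x', hx'⟩
  rw [hd, ENNReal.ofReal_toReal (hfin j), ENNReal.rpow_one]
  exact le_iSup (fun _ : (t j).Nonempty => ediam (t j)) hne

theorem tlem {S : Set E2} (hS : IsCompact S) (hc : IsConnected S) {ι : Type} [Fintype ι]
    (y : ι → E2) (hy : ∀ i, y i ∈ S) (ψ : ι → E2) (h0 : ∑ i, ψ i = 0)
    (h1 : ∀ g : Finset ι, ‖∑ i ∈ g, ψ i‖ ≤ 1) :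
    ENNReal.ofReal (∑ i, ⟪ψ i, y i⟫_ℝ) ≤ μH[1] S := by
  set X := ∑ i, ⟪ψ i, y i⟫_ℝ with hX
  set C : ℝ := 1 + 4 * Fintype.card ι with hC
  have hCpos : 0 < C := by positivity
  have key : ∀ δ : ℝ, 0 < δ → ENNReal.ofReal (X - C * δ) ≤ μH[1] S := by
    intro δ hδ
    rw [Measure.hausdorffMeasure_apply]
    refine le_trans ?_ (le_iSup₂ (ENNReal.ofReal δ) (ENNReal.ofReal_pos.2 hδ))
    refine le_iInf fun t => le_iInf fun ht => le_iInf fun htd => ?_
    exact cover_bound hS hc y hy ψ h0 h1 hδ t ht htd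
  have hlim : Filter.Tendsto (fun n : ℕ => ENNReal.ofReal (X - C * (1 / ((n : ℝ) + 1))))
      Filter.atTop (nhds (ENNReal.ofReal X)) := by
    refine ENNReal.tendsto_ofReal ?_
    have h2 := (tendsto_one_div_add_atTop_nhds_zero_nat (𝕜 := ℝ)).const_mul C
    have h3 := h2.const_sub X
    simpa using h3
  exact le_of_tendsto' hlim fun n => key _ (by positivity)

/-- the unit vector from `q` to `p` (`0` if `p = q`) -/
private noncomputable def uv (p q : E2) : E2 := ‖p - q‖⁻¹ • (p - q)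

private lemma uv_norm (p q : E2) : ‖uv p q‖ ≤ 1 := by
  unfold uv
  rw [norm_smul, norm_inv, norm_norm]
  by_cases h : ‖p - q‖ = 0
  · rw [h]; simp
  · rw [inv_mul_cancel₀ h]

private lemma uv_neg (p q : E2) : uv q p = - uv p q := by
  unfold uv
  rw [norm_sub_rev q p, ← smul_neg, neg_sub]

private lemma uv_inner (p q : E2) : ⟪uv p q, p - q⟫_ℝ = ‖p - q‖ := by
  unfold uv
  rw [real_inner_smul_left, real_inner_self_eq_norm_sq]
  by_cases h : ‖p - q‖ = 0
  · rw [h]; simp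
  · field_simp

theorem half_perimeter {S : Set E2} (hS : IsCompact S) (hc : IsConnected S) {a b c : E2}
    (ha : a ∈ S) (hb : b ∈ S) (hc' : c ∈ S) :
    ENNReal.ofReal ((dist a b + dist b c + dist c a) / 2) ≤ μH[1] S := by
  classical
  set ψ : Fin 3 → E2 := ![(1 / 2 : ℝ) • (uv a b + uv a c), (1 / 2 : ℝ) • (uv b a + uv b c),
    (1 / 2 : ℝ) • (uv c a + uv c b)] with hψ
  have h0 : ∑ i, ψ i = 0 := by
    rw [Fin.sum_univ_three]
    simp only [hψ, Matrix.cons_val_zero, Matrix.cons_val_one, Matrix.cons_val]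
    rw [uv_neg a b, uv_neg a c, uv_neg b c, ← smul_add, ← smul_add]
    rw [show uv a b + uv a c + (-uv a b + uv b c) + (-uv a c + -uv b c) = 0 by abel, smul_zero]
  have hn : ∀ i, ‖ψ i‖ ≤ 1 := by
    have key : ∀ p q r s : E2, ‖(1 / 2 : ℝ) • (uv p q + uv r s)‖ ≤ 1 := by
      intro p q r s
      rw [norm_smul]
      have h1 := norm_add_le (uv p q) (uv r s)
      have h2 := uv_norm p q
      have h3 := uv_norm r s
      rw [Real.norm_of_nonneg (by norm_num)]
      linarith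
    intro i
    fin_cases i
    · exact key _ _ _ _
    · exact key _ _ _ _
    · exact key _ _ _ _
  have hcomp : ∀ g : Finset (Fin 3), ∑ i ∈ g, ψ i = - ∑ i ∈ gᶜ, ψ i := by
    intro g
    have := Finset.sum_add_sum_compl g ψ
    rw [h0] at this
    exact eq_neg_of_add_eq_zero_left this
  have h1 : ∀ g : Finset (Fin 3), ‖∑ i ∈ g, ψ i‖ ≤ 1 := by
    have small : ∀ g : Finset (Fin 3), g.card ≤ 1 → ‖∑ i ∈ g, ψ i‖ ≤ 1 := by
      intro g hg
      rcases Finset.card_le_one_iff_subset_singleton.1 hg with ⟨x, hx⟩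
      rcases Finset.subset_singleton_iff.1 hx with h | h
      · rw [h]; simp
      · rw [h, Finset.sum_singleton]; exact hn x
    intro g
    by_cases hg : g.card ≤ 1
    · exact small g hg
    · rw [hcomp g, norm_neg]
      apply small
      have := Finset.card_add_card_compl g
      rw [Fintype.card_fin] at this
      omega
  have h2 := tlem hS hc ![a, b, c] (by intro i; fin_cases i <;> assumption) ψ h0 h1
  refine le_trans (ENNReal.ofReal_le_ofReal (le_of_eq ?_)) h2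
  rw [Fin.sum_univ_three]
  simp only [hψ, Matrix.cons_val_zero, Matrix.cons_val_one, Matrix.cons_val]
  have e : ∀ p q : E2, dist p q = ⟪uv p q, p⟫_ℝ - ⟪uv p q, q⟫_ℝ := by
    intro p q
    rw [dist_eq_norm, ← uv_inner, inner_sub_right]
  rw [e a b, e b c, e c a, uv_neg a b, uv_neg b c, uv_neg c a]
  simp only [real_inner_smul_left, inner_add_left, inner_neg_left]
  ring

/-- In real form. -/
theorem Cpt.half_perimeter_le {S : Set E2} (hS : Cpt S) {a b c : E2} (ha : a ∈ S) (hb : b ∈ S)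
    (hc : c ∈ S) : dist a b + dist b c + dist c a ≤ 2 * H1 S := by
  have h := half_perimeter hS.1 hS.2.1 ha hb hc
  have h2 := (ENNReal.ofReal_le_iff_le_toReal hS.2.2).1 h
  unfold H1
  linarith

theorem Cpt.dist_le {S : Set E2} (hS : Cpt S) {a b : E2} (ha : a ∈ S) (hb : b ∈ S) :
    dist a b ≤ H1 S := by
  have h := hS.half_perimeter_le ha hb hb
  rw [dist_self, dist_comm b a] at h
  linarith

end Pool.Agent.Lib.P8e
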